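import Pool.Agent.H338.PS.Gdef

/-!
# The amalgam, the group `GG` of its piecewise automorphisms, labels
-/

set_option autoImplicit false

namespace Pool.Agent.H338.PS

open Topology

/-- The alternating group of degree five. -/
abbrev S5 : Type := alternatingGroup (Fin 5)

/-- The group `P = A₅⁴`. -/
abbrev P4 : Type := Fin 4 → S5

/-- The group `Q = A₅ × A₅`. -/
abbrev Q4 : Type := S5 × S5

/-- The diagonal embedding of `A₅` in `P`. -/
def dS : S5 →* P4 where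
  toFun s := fun _ => s
  map_one' := rfl
  map_mul' _ _ := rfl

/-- The embedding of `A₅` in `Q` as the first factor. -/
def qS : S5 →* Q4 where
  toFun s := (s, 1)
  map_one' := rfl
  map_mul' s t := by simp

/-- Conjugation of `A₅` by the transposition `(0 1)`. -/
def tau : S5 ≃* S5 := MulAut.conjNormal (Equiv.swap (0 : Fin 5) 1)

theorem tau_tau (s : S5) : tau (tau s) = s := by
  apply Subtype.ext
  simp only [tau, MulAut.conjNormal_apply]
  rw [Equiv.swap_inv, ← mul_assoc, ← mul_assoc, Equiv.swap_mul_self, one_mul, mul_assoc,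
    Equiv.swap_mul_self, mul_one]

/-- The automorphism of `Q` given by `b : Bool`: the identity, or the one that fixes the first
factor and is the conjugation by `(0 1)` on the second factor. -/
def eps (b : Bool) (q : Q4) : Q4 := (q.1, if b then tau q.2 else q.2)

theorem eps_mul (b : Bool) (p q : Q4) : eps b (p * q) = eps b p * eps b q := by
  cases b
  · rfl
  · simp [eps]

theorem eps_comp (b c : Bool) (q : Q4) : eps c (eps b q) = eps (xor b c) q := by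
  cases b <;> cases c <;> simp [eps, tau_tau]

theorem eps_eps (b : Bool) (q : Q4) : eps b (eps b q) = q := by
  cases b <;> simp [eps, tau_tau]

/-- An amalgamated product of `P` and `Q` over `A₅` together with its two half-trees: `TP` is the
set of elements that are in `A₅` or have a reduced form that starts with a letter from `Q`, and
`TQ` is the set of elements that are in `A₅` or have a reduced form that starts with a letter
from `P`. -/
structure Amal where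
  Γ : Type
  [grp : Group Γ]
  [cnt : Countable Γ]
  iP : P4 →* Γ
  iQ : Q4 →* Γ
  injP : Function.Injective iP
  injQ : Function.Injective iQ
  agree : ∀ s : S5, iP (dS s) = iQ (qS s)
  gen : Subgroup.closure (Set.range iP ∪ Set.range iQ) = ⊤
  TP : Set Γ
  TQ : Set Γ
  cover : ∀ γ, γ ∈ TP ∨ γ ∈ TQ
  inter : ∀ γ, γ ∈ TP → γ ∈ TQ → ∃ s : S5, γ = iP (dS s)
  memTP : ∀ s : S5, iP (dS s) ∈ TP
  memTQ : ∀ s : S5, iP (dS s) ∈ TQ
  smulTP : ∀ s : S5, ∀ γ ∈ TP, iP (dS s) * γ ∈ TP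
  smulTQ : ∀ s : S5, ∀ γ ∈ TQ, iP (dS s) * γ ∈ TQ
  leftP : ∀ z : P4, (∀ s, z ≠ dS s) → ∀ γ ∈ TP, iP z * γ ∈ TQ ∧ iP z * γ ∉ TP
  leftQ : ∀ q : Q4, (∀ s, q ≠ qS s) → ∀ γ ∈ TQ, iQ q * γ ∈ TP ∧ iQ q * γ ∉ TQ
  TPQ : ∀ γ ∈ TP, ∀ q : Q4, γ * iQ q ∈ TP
  TPP : ∀ γ ∈ TP, γ ∉ TQ → ∀ z : P4, γ * iP z ∈ TP ∧ γ * iP z ∉ TQ
  TQP : ∀ γ ∈ TQ, ∀ z : P4, γ * iP z ∈ TQ
  TQQ : ∀ γ ∈ TQ, γ ∉ TP → ∀ q : Q4, γ * iQ q ∈ TQ ∧ γ * iQ q ∉ TP
  decP : ∀ γ, ∃ z : P4, ∃ δ ∈ TP, γ = iP z * δ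
  decQ : ∀ γ, ∃ q : Q4, ∃ δ ∈ TQ, γ = iQ q * δ

attribute [instance] Amal.grp Amal.cnt

/-- The group of piecewise automorphisms of the amalgam. -/
def GG (A : Amal) : Subgroup (Equiv.Perm A.Γ) where
  carrier := {g | (∀ γ : A.Γ, ∃ σ : Equiv.Perm (Fin 4), ∀ z : P4,
      g (γ * A.iP z) = g γ * A.iP (z ∘ σ)) ∧
    (∀ γ : A.Γ, ∃ b : Bool, ∀ q : Q4, g (γ * A.iQ q) = g γ * A.iQ (eps b q))}
  mul_mem' := by
    rintro g h ⟨hg1, hg2⟩ ⟨hh1, hh2⟩
    refine ⟨fun γ => ?_, fun γ => ?_⟩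
    · obtain ⟨σ, hσ⟩ := hh1 γ
      obtain ⟨τ, hτ⟩ := hg1 (h γ)
      refine ⟨σ * τ, fun z => ?_⟩
      rw [Equiv.Perm.mul_apply, hσ, hτ, Equiv.Perm.mul_apply]
      rfl
    · obtain ⟨b, hb⟩ := hh2 γ
      obtain ⟨c, hc⟩ := hg2 (h γ)
      refine ⟨xor b c, fun q => ?_⟩
      rw [Equiv.Perm.mul_apply, hb, hc, Equiv.Perm.mul_apply]
      rw [eps_comp]
  one_mem' := ⟨fun γ => ⟨1, fun z => rfl⟩, fun γ => ⟨false, fun q => rfl⟩⟩
  inv_mem' := by
    rintro g ⟨hg1, hg2⟩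
    refine ⟨fun γ => ?_, fun γ => ?_⟩
    · obtain ⟨σ, hσ⟩ := hg1 (g⁻¹ γ)
      refine ⟨σ⁻¹, fun z => ?_⟩
      rw [Equiv.Perm.inv_eq_iff_eq, hσ]
      have h1 : g (g⁻¹ γ) = γ := g.apply_symm_apply γ
      rw [h1]
      congr 2
      funext i
      simp
    · obtain ⟨b, hb⟩ := hg2 (g⁻¹ γ)
      refine ⟨b, fun q => ?_⟩
      rw [Equiv.Perm.inv_eq_iff_eq, hb]
      have h1 : g (g⁻¹ γ) = γ := g.apply_symm_apply γ
      rw [h1, eps_eps]

/-- The permutation topology: the coarsest topology for which all maps `g ↦ g γ` and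
`g ↦ g⁻¹ γ` to the discrete set `Γ` are continuous. -/
instance topGG (A : Amal) : TopologicalSpace (GG A) :=
  TopologicalSpace.induced (fun (g : GG A) (γ : A.Γ) => ((g : Equiv.Perm A.Γ) γ,
    ((g⁻¹ : GG A) : Equiv.Perm A.Γ) γ))
    (@Pi.topologicalSpace A.Γ (fun _ => A.Γ × A.Γ) (fun _ => ⊥))

/-- Left multiplication by `γ`. -/
def Lm (A : Amal) (γ : A.Γ) : GG A :=
  ⟨Equiv.mulLeft γ, ⟨fun δ => ⟨1, fun z => (mul_assoc γ δ (A.iP z)).symm⟩,
    fun δ => ⟨false, fun q => (mul_assoc γ δ (A.iQ q)).symm⟩⟩⟩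

/-- The stabiliser of `1`. -/
def G1 (A : Amal) : Subgroup (GG A) where
  carrier := {g | (g : Equiv.Perm A.Γ) 1 = 1}
  mul_mem' := by
    rintro g h hg hh
    change (g : Equiv.Perm A.Γ) ((h : Equiv.Perm A.Γ) 1) = 1
    rw [show (h : Equiv.Perm A.Γ) 1 = 1 from hh]
    exact hg
  one_mem' := rfl
  inv_mem' := by
    rintro g hg
    change (g : Equiv.Perm A.Γ)⁻¹ 1 = 1
    rw [Equiv.Perm.inv_eq_iff_eq]
    exact (show (g : Equiv.Perm A.Γ) 1 = 1 from hg).symm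

/-- The pointwise stabiliser of a set. -/
def fixS (A : Amal) (T : Set A.Γ) : Subgroup (GG A) where
  carrier := {g | ∀ γ ∈ T, (g : Equiv.Perm A.Γ) γ = γ}
  mul_mem' := by
    rintro g h hg hh γ hγ
    change (g : Equiv.Perm A.Γ) ((h : Equiv.Perm A.Γ) γ) = γ
    rw [hh γ hγ, hg γ hγ]
  one_mem' := fun _ _ => rfl
  inv_mem' := by
    rintro g hg γ hγ
    change (g : Equiv.Perm A.Γ)⁻¹ γ = γ
    rw [Equiv.Perm.inv_eq_iff_eq]
    exact (hg γ hγ).symm

/-- The involution `(0 1)(2 3)` of `A₅`. -/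
def om : S5 := ⟨Equiv.swap 0 1 * Equiv.swap 2 3, by
  rw [Equiv.Perm.mem_alternatingGroup]; decide⟩

/-- The involution `(0 2)(1 3)` of `A₅`. -/
def on : S5 := ⟨Equiv.swap 0 2 * Equiv.swap 1 3, by
  rw [Equiv.Perm.mem_alternatingGroup]; decide⟩

/-- `om` to the power `c`. -/
def pw (c : ZMod 2) : S5 := if c = 0 then 1 else om

/-- `on` to the power `c`. -/
def pn (c : ZMod 2) : S5 := if c = 0 then 1 else on

/-- The elements of the subgroup `P₀ = ⟨om⟩⁴`. -/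
def eP (e : Fin 4 → ZMod 2) : P4 := fun i => pw (e i)

/-- The elements of the subgroup `Q₀ = ⟨om⟩ × ⟨om, on⟩`. -/
def eQ (c x y : ZMod 2) : Q4 := (pw c, pw x * pn y)

/-- The sum of the entries. -/
def sm (e : Fin 4 → ZMod 2) : ZMod 2 := e 0 + e 1 + e 2 + e 3

/-- The edges of the line are the integers; `Xs` crosses the odd vertex of an edge. -/
def Xs (n : ℤ) : ℤ := if Even n then n + 1 else n - 1

/-- `Ys` crosses the even vertex of an edge. -/
def Ys (n : ℤ) : ℤ := if Even n then n - 1 else n + 1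

/-- The even vertex of an edge. -/
def Ws (n : ℤ) : ℤ := if Even n then n else n + 1

/-- Labelled paths: `Tr A L B n γ m` means that a sequence of letters with product `γ` leads from
the state `n` to the state `m` while all states are in `B`. -/
inductive Tr (A : Amal) (L : ℤ) (B : ℤ → Prop) (n : ℤ) : A.Γ → ℤ → Prop
  | refl (hn : B n) : Tr A L B n 1 n
  | stepP (m m' : ℤ) (γ : A.Γ) (e : Fin 4 → ZMod 2) (h : Tr A L B n γ m)
      (hm : m' = if sm e = 0 then m else Xs m) (hB : B m') : Tr A L B n (γ * A.iP (eP e)) m'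
  | stepF (m m' : ℤ) (γ : A.Γ) (c x y : ZMod 2) (h : Tr A L B n γ m) (hL : L ∣ Ws m)
      (hm : m' = if y = 0 then m else Ys m) (hB : B m') : Tr A L B n (γ * A.iQ (eQ c x y)) m'
  | stepT (m m' : ℤ) (γ : A.Γ) (c x : ZMod 2) (h : Tr A L B n γ m) (hL : ¬ L ∣ Ws m)
      (hm : m' = if x = 0 then m else Ys m) (hB : B m') : Tr A L B n (γ * A.iQ (eQ c x 0)) m'

/-- all states -/
def allZ : ℤ → Prop := fun _ => True

/-- a window -/
def win (k : ℕ) : ℤ → Prop := fun m => |m| ≤ k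

/-- The orbit of the state `0` under the reflections of the line in `L/2` and `-L/2`. -/
def Orb (L n : ℤ) : Prop := ∃ j : ℤ, n = 2 * j * L ∨ n = (2 * j + 1) * L - 1

/-- The symmetries of the line generated by the reflections in `L/2` and `-L/2`. -/
def Sy (L : ℤ) (f : ℤ → ℤ) : Prop :=
  ∃ j : ℤ, (∀ n, f n = n + 2 * j * L) ∨ (∀ n, f n = (2 * j + 1) * L - 1 - n)

/-- All symmetries of the labelled line. -/
def Sg (L : ℤ) (f : ℤ → ℤ) : Prop :=
  ∃ j : ℤ, (∀ n, f n = n + j * L) ∨ (∀ n, f n = j * L - 1 - n)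

/-- The open subgroup `H_L`. -/
def HH (A : Amal) (L : ℤ) : Subgroup (GG A) :=
  Subgroup.closure {g | ∃ n, Orb L n ∧ Tr A L allZ 0 ((g : Equiv.Perm A.Γ) 1) n}

/-- The group of the window of size `k`. -/
def RW (A : Amal) (L : ℤ) (k : ℕ) : Subgroup (GG A) :=
  Subgroup.closure {g | Tr A L (win k) 0 ((g : Equiv.Perm A.Γ) 1) 0}

/-- The elements labelled by `0` in the window of size `k`. -/
def LW (A : Amal) (L : ℤ) (k : ℕ) : Set A.Γ := {γ | Tr A L (win k) 0 γ 0}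

/-- The letters `z₁`, `z₀`, `a`, `b` as elements of `Γ`. -/
def z1 (A : Amal) : A.Γ := A.iP (eP ![1, 0, 0, 0])
def z0 (A : Amal) : A.Γ := A.iP (eP ![1, 1, 0, 0])
def la (A : Amal) : A.Γ := A.iQ (eQ 0 1 0)
def lb (A : Amal) : A.Γ := A.iQ (eQ 0 0 1)

/-- The translation `β = z₁ (a z₁)^(2l-1) b` where `L = 4 l`. -/
def be (A : Amal) (l : ℕ) : A.Γ := z1 A * (la A * z1 A) ^ (2 * l - 1) * lb A

end Pool.Agent.H338.PS
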