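import Pool.Agent.H338.PS.Stm

/-!
# BB: the vertex stabiliser is a compact open subgroup (helper187)
-/

set_option autoImplicit false

namespace Pool.Agent.H338.PS

namespace TBB

open Topology

variable {A : Amal}

theorem cont_coord (A : Amal) (γ : A.Γ) :
    @Continuous (GG A) (A.Γ × A.Γ) (topGG A) ⊥ (fun g => (ac g γ, ac g⁻¹ γ)) := by
  let _ : TopologicalSpace (A.Γ × A.Γ) := ⊥
  have h : Continuous (fun (g : GG A) (γ : A.Γ) => ((g : Equiv.Perm A.Γ) γ,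
    ((g⁻¹ : GG A) : Equiv.Perm A.Γ) γ)) := continuous_induced_dom
  exact (continuous_apply γ).comp h

theorem cont_mulLeft (g : GG A) : Continuous (fun h : GG A => g * h) := by
  let _ : TopologicalSpace (A.Γ × A.Γ) := ⊥
  have : DiscreteTopology (A.Γ × A.Γ) := ⟨rfl⟩
  refine continuous_induced_rng.2 (continuous_pi fun γ => ?_)
  have h1 : Continuous (fun h : GG A => ((ac h γ, ac h⁻¹ γ), (ac h (ac g⁻¹ γ), ac h⁻¹ (ac g⁻¹ γ)))) :=
    (cont_coord A γ).prodMk (cont_coord A (ac g⁻¹ γ))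
  have h2 : Continuous (fun p : (A.Γ × A.Γ) × (A.Γ × A.Γ) => (ac g p.1.1, p.2.2)) :=
    continuous_of_discreteTopology
  have h3 := h2.comp h1
  have h4 : (fun h : GG A => (((g * h : GG A) : Equiv.Perm A.Γ) γ,
      (((g * h)⁻¹ : GG A) : Equiv.Perm A.Γ) γ)) = (fun p : (A.Γ × A.Γ) × (A.Γ × A.Γ) =>
        (ac g p.1.1, p.2.2)) ∘ (fun h : GG A => ((ac h γ, ac h⁻¹ γ),
          (ac h (ac g⁻¹ γ), ac h⁻¹ (ac g⁻¹ γ)))) := by
    funext h
    have h5 : (((g * h)⁻¹ : GG A) : Equiv.Perm A.Γ) γ = ac h⁻¹ (ac g⁻¹ γ) := by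
      rw [mul_inv_rev]
      rfl
    rw [h5]
    rfl
  exact (congrArg Continuous h4).mpr h3

/-- the vertex stabiliser -/
def U (A : Amal) : Subgroup (GG A) where
  carrier := {g | ∃ q, ac g 1 = A.iQ q}
  mul_mem' := by
    rintro g h ⟨q, hq⟩ ⟨p, hp⟩
    obtain ⟨b, hb⟩ := ruleQ g 1
    refine ⟨q * eps b p, ?_⟩
    have h1 := hb p
    rw [one_mul] at h1
    rw [ac_mul, hp, h1, hq, map_mul]
  one_mem' := ⟨1, by rw [map_one, ac_one]⟩
  inv_mem' := by
    rintro g ⟨q, hq⟩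
    obtain ⟨b, hb⟩ := ruleQ g 1
    refine ⟨eps b q⁻¹, ?_⟩
    have h1 := hb (eps b q⁻¹)
    rw [one_mul, eps_eps, hq, map_inv, mul_inv_cancel] at h1
    have h2 := congrArg (ac g⁻¹) h1
    rw [ac_inv] at h2
    exact h2.symm

theorem mem_U {g : GG A} : g ∈ U A ↔ ∃ q, ac g 1 = A.iQ q := Iff.rfl

theorem G1_le : G1 A ≤ U A := by
  intro g hg
  refine ⟨1, ?_⟩
  rw [map_one]
  exact hg

end TBB

open TBB in
theorem t_BB (h1 : St_fix) (h2 : St_cpt) : St_BB := by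
  intro A
  have hG1 : IsOpen (G1 A : Set (GG A)) := by
    have h3 := (h1 A).1 {1}
    have h4 : (fixS A (({1} : Finset A.Γ) : Set A.Γ) : Set (GG A)) = (G1 A : Set (GG A)) := by
      ext g
      rw [SetLike.mem_coe, SetLike.mem_coe, mem_fixS, mem_G1]
      simp
    rwa [h4] at h3
  refine ⟨U A, fun g => mem_U, ?_, ?_⟩
  · rw [isOpen_iff_forall_mem_open]
    intro g hg
    refine ⟨(fun h : GG A => g⁻¹ * h) ⁻¹' (G1 A : Set (GG A)), ?_,
      hG1.preimage (cont_mulLeft g⁻¹), ?_⟩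
    · intro h hh
      have h3 : g⁻¹ * h ∈ U A := G1_le hh
      have h4 := (U A).mul_mem hg h3
      rwa [mul_inv_cancel_left] at h4
    · rw [Set.mem_preimage, inv_mul_cancel]
      exact (G1 A).one_mem
  · have h3 : (U A : Set (GG A)) =
        ⋃ q : Q4, (fun h : GG A => Lm A (A.iQ q) * h) '' (G1 A : Set (GG A)) := by
      ext g
      rw [SetLike.mem_coe, Set.mem_iUnion]
      constructor
      · rintro ⟨q, hq⟩
        obtain ⟨u, hu, hgu⟩ := exists_dec g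
        refine ⟨q, u, hu, ?_⟩
        rw [hq] at hgu
        exact hgu.symm
      · rintro ⟨q, u, hu, rfl⟩
        refine ⟨q, ?_⟩
        change ac (Lm A (A.iQ q) * u) 1 = A.iQ q
        rw [ac_mul, mem_G1.1 hu, ac_Lm, mul_one]
    rw [h3]
    exact isCompact_iUnion fun q => (h2 A).image (cont_mulLeft _)

end Pool.Agent.H338.PS
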