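import Pool.Agent.H338.PS.Stm

set_option autoImplicit false

namespace Pool.Agent.H338.PS

open Topology

namespace TF

variable {A : Amal}

theorem lb_eq : lb A = A.iQ (eQ 0 0 1) := rfl

theorem z0_eq : z0 A = A.iP (eP ![1, 1, 0, 0]) := rfl

theorem la_eq : la A = A.iQ (eQ 0 1 0) := rfl

theorem sm_z0 : sm ![1, 1, 0, 0] = 0 := by decide

/-- the path of `γ b z₀ b γ⁻¹` -/
theorem path {L : ℤ} (h3 : St_symm) {γ : A.Γ} {n : ℤ} (h : Tr A L allZ 0 γ n) (hL : L ∣ Ws n) :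
    Tr A L allZ 0 (γ * lb A * z0 A * lb A * γ⁻¹) 0 := by
  have a1 : Tr A L allZ 0 (γ * lb A) (Ys n) :=
    Tr.stepF n (Ys n) γ 0 0 1 h hL (by simp) trivial
  have a2 : Tr A L allZ 0 (γ * lb A * z0 A) (Ys n) :=
    Tr.stepP (Ys n) (Ys n) _ ![1, 1, 0, 0] a1 (by rw [if_pos sm_z0]) trivial
  have a3 : Tr A L allZ 0 (γ * lb A * z0 A * lb A) n :=
    Tr.stepF (Ys n) n _ 0 0 1 a2 (by rw [Ws_Ys]; exact hL) (by simp [Ys_Ys]) trivial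
  exact a3.trans (h3 A L allZ 0 n γ h)

theorem eps_one (b : Bool) : eps b 1 = 1 := by
  have := eps_qS b 1
  rwa [map_one] at this

end TF

theorem t_F (h1 : St_N1) (h2 : St_rigQ) (h3 : St_symm) (h4 : St_mem) : St_F := by
  intro A l hl γ n hγ hn hTQ
  have hEven : Even (4 * (l : ℤ)) := ⟨2 * l, by ring⟩
  have hpath := TF.path h3 hγ hn
  have hmem : Lm A (γ * lb A * z0 A * lb A * γ⁻¹) ∈ HH A (4 * (l : ℤ)) := by
    rw [(h4 A (4 * (l : ℤ)) hEven).1]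
    refine ⟨0, ⟨0, Or.inl (by ring)⟩, ?_⟩
    rw [ac_Lm, mul_one]
    exact hpath
  obtain ⟨g', hg'⟩ := h2 A true
  have hb : lb A * γ⁻¹ ∈ A.TP := (A.leftQ (eQ 0 0 1) lb_not γ⁻¹ hTQ).1
  have hz : z0 A * (lb A * γ⁻¹) ∈ A.TQ := (A.leftP (eP ![1, 1, 0, 0]) z0_not _ hb).1
  have hg1 : ac g' γ⁻¹ = γ⁻¹ := by
    have := hg' γ⁻¹ hTQ 1
    rwa [TF.eps_one, map_one, one_mul] at this
  have hg2 : ac g' (lb A * (z0 A * (lb A * γ⁻¹))) =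
      la A * lb A * (z0 A * (lb A * γ⁻¹)) := by
    have h5 := hg' _ hz (eQ 0 0 1)
    have h6 : A.iQ (eps true (eQ 0 0 1)) = la A * lb A := by
      rw [TF.la_eq, TF.lb_eq, ← map_mul, eQ_mul, eps_eQ]
      simp
    rw [h6] at h5
    exact h5
  have hgG : Lm A γ * g' * (Lm A γ)⁻¹ ∈ G1 A := by
    rw [mem_G1, ac_mul, ac_mul, ← Lm_inv, ac_Lm, ac_Lm, mul_one, hg1, mul_inv_cancel]
  have key := h1 A (HH A (4 * (l : ℤ))) (Lm A γ * g' * (Lm A γ)⁻¹)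
    (γ * lb A * z0 A * lb A * γ⁻¹) hgG hmem
  have e : ac (Lm A γ * g' * (Lm A γ)⁻¹) (γ * lb A * z0 A * lb A * γ⁻¹) *
      (γ * lb A * z0 A * lb A * γ⁻¹)⁻¹ = γ * la A * γ⁻¹ := by
    rw [ac_mul, ac_mul, ← Lm_inv, ac_Lm, ac_Lm]
    have e1 : γ⁻¹ * (γ * lb A * z0 A * lb A * γ⁻¹) = lb A * (z0 A * (lb A * γ⁻¹)) := by group
    rw [e1, hg2]
    group
  rw [e] at key
  exact key

end Pool.Agent.H338.PS

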