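import Pool.Agent.H338.PS.Stm

/-! # G4: elements with label `0` are in the normal closure -/

set_option autoImplicit false

namespace Pool.Agent.H338.PS

open Topology

namespace TG4

variable {A : Amal}

theorem G1_le_ncl (H : Subgroup (GG A)) {u : GG A} (hu : u ∈ G1 A) : u ∈ ncl (G1 A) H := by
  apply Subgroup.subset_closure
  exact ⟨1, H.one_mem, u, hu, by simp⟩

theorem zmod2 (c : ZMod 2) : c = 0 ∨ c = 1 := by
  revert c; decide

theorem sm_const (c : ZMod 2) : sm (fun _ => c) = 0 := by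
  unfold sm
  revert c; decide

theorem sm_add_one (e : Fin 4 → ZMod 2) (h : sm e ≠ 0) : sm (e + ![1, 0, 0, 0]) = 0 := by
  have h1 : sm (e + ![1, 0, 0, 0]) = sm e + 1 := by
    simp only [sm, Pi.add_apply, Matrix.cons_val]
    ring
  rw [h1]
  rcases zmod2 (sm e) with h2 | h2
  · exact absurd h2 h
  · rw [h2]; decide

theorem iQ_c (A : Amal) (c : ZMod 2) : A.iQ (eQ c 0 0) = A.iP (eP (fun _ => c)) :=
  (A.agree (pw c)).symm

theorem comm_eP (e f : Fin 4 → ZMod 2) : eP e * eP f = eP f * eP e := by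
  rw [← eP_add, ← eP_add, add_comm]

end TG4

open TG4

theorem t_G4 (h1 : St_V) (h2 : St_F) (h3 : St_kap) : St_G4 := by
  intro A l hl
  obtain ⟨κ, k0, kX, kY, kT, kP, kQ⟩ := h3 A l hl
  set R := ncl (G1 A) (HH A (4 * (l : ℤ))) with hR
  -- products
  have hmul : ∀ x y : A.Γ, Lm A x ∈ R → Lm A y ∈ R → Lm A (x * y) ∈ R := by
    intro x y hx hy
    rw [Lm_mul]
    exact R.mul_mem hx hy
  have hV : ∀ (n : ℤ) (e : Fin 4 → ZMod 2), sm e = 0 →
      Lm A (κ n * A.iP (eP e) * (κ n)⁻¹) ∈ R := by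
    intro n e he
    rcases kP n with h | h
    · exact h1 A l hl (κ n) n (kT n) h e he
    · have h4 := h1 A l hl (κ (Xs n)) (Xs n) (kT _) h e he
      have h5 : κ (Xs n) * A.iP (eP e) * (κ (Xs n))⁻¹ = κ n * A.iP (eP e) * (κ n)⁻¹ := by
        rw [kX]
        have h6 : z1 A * A.iP (eP e) = A.iP (eP e) * z1 A := by
          unfold z1
          rw [← map_mul, comm_eP, map_mul]
        calc κ n * z1 A * A.iP (eP e) * (κ n * z1 A)⁻¹
            = κ n * (z1 A * A.iP (eP e)) * (κ n * z1 A)⁻¹ := by group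
          _ = κ n * (A.iP (eP e) * z1 A) * (κ n * z1 A)⁻¹ := by rw [h6]
          _ = κ n * A.iP (eP e) * (κ n)⁻¹ := by group
      rwa [h5] at h4
  have hF : ∀ n : ℤ, 4 * (l : ℤ) ∣ Ws n → Lm A (κ n * la A * (κ n)⁻¹) ∈ R := by
    intro n hn
    rcases kQ n with h | h
    · exact h2 A l hl (κ n) n (kT n) hn h
    · have hn' : 4 * (l : ℤ) ∣ Ws (Ys n) := by rw [Ws_Ys]; exact hn
      have h4 := h2 A l hl (κ (Ys n)) (Ys n) (kT _) hn' h
      have h5 : κ (Ys n) * la A * (κ (Ys n))⁻¹ = κ n * la A * (κ n)⁻¹ := by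
        rw [kY, if_pos hn]
        have h6 : lb A * la A = la A * lb A := by
          unfold la lb
          rw [← map_mul, ← map_mul, eQ_mul, eQ_mul]
          simp
        calc κ n * lb A * la A * (κ n * lb A)⁻¹
            = κ n * (lb A * la A) * (κ n * lb A)⁻¹ := by group
          _ = κ n * (la A * lb A) * (κ n * lb A)⁻¹ := by rw [h6]
          _ = κ n * la A * (κ n)⁻¹ := by group
      rwa [h5] at h4
  have hC : ∀ (n : ℤ) (c : ZMod 2), Lm A (κ n * A.iQ (eQ c 0 0) * (κ n)⁻¹) ∈ R := by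
    intro n c
    rw [iQ_c]
    exact hV n _ (sm_const c)
  have hFx : ∀ (n : ℤ) (c x : ZMod 2), 4 * (l : ℤ) ∣ Ws n →
      Lm A (κ n * A.iQ (eQ c x 0) * (κ n)⁻¹) ∈ R := by
    intro n c x hn
    rcases zmod2 x with rfl | rfl
    · exact hC n c
    · have h4 := hmul _ _ (hC n c) (hF n hn)
      have h5 : κ n * A.iQ (eQ c 0 0) * (κ n)⁻¹ * (κ n * la A * (κ n)⁻¹) =
          κ n * A.iQ (eQ c 1 0) * (κ n)⁻¹ := by
        have h6 : A.iQ (eQ c 0 0) * la A = A.iQ (eQ c 1 0) := by
          unfold la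
          rw [← map_mul, eQ_mul]
          simp
        rw [← h6]
        group
      rwa [h5] at h4
  have claim : ∀ (γ : A.Γ) (n : ℤ), Tr A (4 * (l : ℤ)) allZ 0 γ n →
      Lm A (γ * (κ n)⁻¹) ∈ R := by
    intro γ n h
    induction h with
    | refl _ =>
      rw [k0, inv_one, mul_one, Lm_one]
      exact R.one_mem
    | stepP m m' γ e _ hm _ ih =>
      have h4 : Lm A (κ m * A.iP (eP e) * (κ m')⁻¹) ∈ R := by
        by_cases hs : sm e = 0
        · rw [if_pos hs] at hm
          rw [hm]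
          exact hV m e hs
        · rw [if_neg hs] at hm
          rw [hm, kX]
          have h5 := hV m _ (sm_add_one e hs)
          have h6 : κ m * A.iP (eP e) * (κ m * z1 A)⁻¹ =
              κ m * A.iP (eP (e + ![1, 0, 0, 0])) * (κ m)⁻¹ := by
            have h7 : (z1 A)⁻¹ = A.iP (eP ![1, 0, 0, 0]) := by
              unfold z1
              rw [← map_inv, eP_inv]
            rw [mul_inv_rev, h7, eP_add, map_mul]
            group
          rwa [h6]
      have h5 := hmul _ _ ih h4
      have h6 : γ * (κ m)⁻¹ * (κ m * A.iP (eP e) * (κ m')⁻¹) = γ * A.iP (eP e) * (κ m')⁻¹ := by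
        group
      rwa [h6] at h5
    | stepF m m' γ c x y _ hL hm _ ih =>
      have h4 : Lm A (κ m * A.iQ (eQ c x y) * (κ m')⁻¹) ∈ R := by
        rcases zmod2 y with rfl | rfl
        · rw [if_pos rfl] at hm
          rw [hm]
          exact hFx m c x hL
        · rw [if_neg (by decide)] at hm
          rw [hm, kY, if_pos hL]
          have h6 : κ m * A.iQ (eQ c x 1) * (κ m * lb A)⁻¹ =
              κ m * A.iQ (eQ c x 0) * (κ m)⁻¹ := by
            have h7 : A.iQ (eQ c x 0) * lb A = A.iQ (eQ c x 1) := by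
              unfold lb
              rw [← map_mul, eQ_mul]
              simp
            rw [← h7]
            group
          rw [h6]
          exact hFx m c x hL
      have h5 := hmul _ _ ih h4
      have h6 : γ * (κ m)⁻¹ * (κ m * A.iQ (eQ c x y) * (κ m')⁻¹) =
          γ * A.iQ (eQ c x y) * (κ m')⁻¹ := by
        group
      rwa [h6] at h5
    | stepT m m' γ c x _ hL hm _ ih =>
      have h4 : Lm A (κ m * A.iQ (eQ c x 0) * (κ m')⁻¹) ∈ R := by
        rcases zmod2 x with rfl | rfl
        · rw [if_pos rfl] at hm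
          rw [hm]
          exact hC m c
        · rw [if_neg (by decide)] at hm
          rw [hm, kY, if_neg hL]
          have h6 : κ m * A.iQ (eQ c 1 0) * (κ m * la A)⁻¹ =
              κ m * A.iQ (eQ c 0 0) * (κ m)⁻¹ := by
            have h7 : A.iQ (eQ c 0 0) * la A = A.iQ (eQ c 1 0) := by
              unfold la
              rw [← map_mul, eQ_mul]
              simp
            rw [← h7]
            group
          rw [h6]
          exact hC m c
      have h5 := hmul _ _ ih h4
      have h6 : γ * (κ m)⁻¹ * (κ m * A.iQ (eQ c x 0) * (κ m')⁻¹) =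
          γ * A.iQ (eQ c x 0) * (κ m')⁻¹ := by
        group
      rwa [h6] at h5
  intro g hg
  obtain ⟨u, hu, hgu⟩ := exists_dec g
  have h4 := claim _ _ hg
  rw [k0, inv_one, mul_one] at h4
  rw [hgu]
  exact R.mul_mem h4 (G1_le_ncl _ hu)

end Pool.Agent.H338.PS
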