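import Pool.Agent.H338.PS.Stm

set_option autoImplicit false

namespace Pool.Agent.H338.PS

theorem t_N1 : St_N1 := by
  intro A H g γ hg hγ
  obtain ⟨u, hu, h⟩ := swap_Lm g γ
  have h1 : Lm A (ac g γ * γ⁻¹) = (1 * g * 1⁻¹) * (Lm A γ * u⁻¹ * (Lm A γ)⁻¹) := by
    have h2 : Lm A (ac g γ) = g * Lm A γ * u⁻¹ := by rw [h]; group
    rw [Lm_mul, Lm_inv, h2]
    group
  rw [h1]
  refine Subgroup.mul_mem _ (Subgroup.subset_closure ⟨1, H.one_mem, g, hg, rfl⟩)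
    (Subgroup.subset_closure ⟨Lm A γ, hγ, u⁻¹, (G1 A).inv_mem hu, rfl⟩)

end Pool.Agent.H338.PS
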