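import Pool.Agent.H338.PS.Stm

/-!
# Existence of the amalgamated product with its half-trees
-/

set_option autoImplicit false

namespace Pool.Agent.H338.PS

namespace Tamal

open Monoid Monoid.PushoutI Monoid.PushoutI.NormalWord

/-- The two groups. -/
def Fam : Bool → Type
  | true => P4
  | false => Q4

instance famGroup : ∀ b, Group (Fam b)
  | true => inferInstanceAs (Group P4)
  | false => inferInstanceAs (Group Q4)

noncomputable instance famDec (b : Bool) : DecidableEq (Fam b) := Classical.decEq _

/-- The two embeddings. -/
def phi : ∀ b, S5 →* Fam b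
  | true => dS
  | false => qS

theorem phi_inj : ∀ b, Function.Injective (phi b)
  | true => fun s t h => congrFun (show (dS s : P4) = dS t from h) 0
  | false => fun s t h => congrArg Prod.fst (show (qS s : Q4) = qS t from h)

/-- The transversal. -/
noncomputable def tr : Transversal phi := Classical.choice (transversal_nonempty phi phi_inj)

/-- The amalgam. -/
abbrev Gm : Type := Monoid.PushoutI phi

/-- The normal form. -/
noncomputable def nf (γ : Gm) : NormalWord tr := γ • (NormalWord.empty : NormalWord tr)

/-- The type of the first letter. -/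
noncomputable def ty (γ : Gm) : Option Bool := (nf γ).fstIdx

theorem ty_cons {b : Bool} {g : Fam b} (hg : g ∉ (phi b).range) {γ : Gm} (h : ty γ ≠ some b) :
    ty (PushoutI.of b g * γ) = some b := by
  unfold ty nf
  rw [mul_smul, ← cons_eq_smul g (γ • (NormalWord.empty : NormalWord tr)) h hg]
  rfl

theorem ty_base_mul (s : S5) (γ : Gm) : ty (base phi s * γ) = ty γ := by
  unfold ty nf
  rw [mul_smul, base_smul_def]

theorem ty_one : ty 1 = none := by
  unfold ty nf
  rw [one_smul]
  rfl

theorem ty_base (s : S5) : ty (base phi s) = none := by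
  have := ty_base_mul s 1
  rwa [mul_one, ty_one] at this

theorem ty_prod (w : NormalWord tr) : ty w.prod = w.fstIdx := by
  unfold ty nf
  rw [prod_smul_empty]

theorem ind {motive : Gm → Prop} (hbase : ∀ s, motive (base phi s))
    (hstep : ∀ (b : Bool) (g : Fam b) (δ : Gm), g ∉ (phi b).range → ty δ ≠ some b → motive δ →
      motive (PushoutI.of b g * δ)) : ∀ γ, motive γ := by
  have key : ∀ w : NormalWord tr, ∀ s : S5, motive (base phi s * w.prod) := by
    intro w
    induction w using consRecOn with
    | empty =>
      intro s
      rw [prod_empty, mul_one]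
      exact hbase s
    | cons i g w hmw _ hgr _ ih =>
      intro s
      rw [prod_cons, ← mul_assoc, ← of_apply_eq_base phi i s, ← map_mul]
      apply hstep
      · intro h
        apply hgr
        exact (Subgroup.mul_mem_cancel_left _ (MonoidHom.mem_range.2 ⟨s, rfl⟩)).1 h
      · rw [ty_prod]
        exact hmw
      · have := ih 1
        rwa [map_one, one_mul] at this
    | base h w _ ih =>
      intro s
      rw [prod_smul, ← mul_assoc, ← map_mul]
      exact ih _
  intro γ
  have h1 := key (nf γ) 1
  rw [map_one, one_mul] at h1
  have h2 : (nf γ).prod = γ := by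
    unfold nf
    rw [prod_smul, prod_empty, mul_one]
  rwa [h2] at h1

theorem ty_of {b : Bool} (g : Fam b) : ty (PushoutI.of b g) = none ∨ ty (PushoutI.of b g) = some b := by
  by_cases h : g ∈ (phi b).range
  · obtain ⟨s, rfl⟩ := h
    left
    rw [of_apply_eq_base, ty_base]
  · right
    have := ty_cons h (γ := 1) (by rw [ty_one]; simp)
    rwa [mul_one] at this

theorem of_none {γ : Gm} (h : ty γ = none) : ∃ s, γ = base phi s := by
  revert h
  refine ind (motive := fun γ => ty γ = none → ∃ s, γ = base phi s) ?_ ?_ γ
  · intro s _
    exact ⟨s, rfl⟩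
  · intro b g δ hg hδ _ h
    rw [ty_cons hg hδ] at h
    exact absurd h (by simp)

theorem right (γ : Gm) : ∀ (b c : Bool), c ≠ b → ∀ g : Fam c,
    (ty (γ * PushoutI.of c g) = some b ↔ ty γ = some b) := by
  refine ind (motive := fun γ => ∀ (b c : Bool), c ≠ b → ∀ g : Fam c,
    (ty (γ * PushoutI.of c g) = some b ↔ ty γ = some b)) ?_ ?_ γ
  · intro s b c hcb g
    rw [ty_base, ← of_apply_eq_base phi c s, ← map_mul]
    constructor
    · intro h
      rcases ty_of (phi c s * g) with h1 | h1
      · rw [h1] at h
        exact absurd h (by simp)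
      · rw [h1] at h
        exact absurd (Option.some.inj h) hcb
    · intro h
      exact absurd h (by simp)
  · intro b' g0 δ hg0 hδ ih b c hcb g
    rw [ty_cons hg0 hδ, mul_assoc]
    by_cases hb : b' = b
    · subst hb
      have h1 : ty (δ * PushoutI.of c g) ≠ some b' := fun h => hδ ((ih b' c hcb g).1 h)
      rw [ty_cons hg0 h1]
    · have hc : b' = c := by
        cases b' <;> cases b <;> cases c <;> simp_all
      subst hc
      constructor
      · intro h
        exfalso
        rcases h1 : ty δ with _ | b''
        · obtain ⟨s, rfl⟩ := of_none h1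
          rw [← of_apply_eq_base phi b' s, ← map_mul, ← map_mul] at h
          rcases ty_of (g0 * (phi b' s * g)) with h2 | h2
          · rw [h2] at h
            exact absurd h (by simp)
          · rw [h2] at h
            exact hb (Option.some.inj h)
        · have h2 : b'' = b := by
            rw [h1] at hδ
            cases b'' <;> cases b <;> cases b' <;> simp_all
          subst h2
          have h3 := (ih b'' b' hcb g).2 h1
          have h4 : ty (δ * PushoutI.of b' g) ≠ some b' := by
            rw [h3]
            intro h5
            exact hcb (Option.some.inj h5).symm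
          rw [ty_cons hg0 h4] at h
          exact hcb (Option.some.inj h)
      · intro h
        exact absurd (Option.some.inj h) hb

/-- The embedding of `P`. -/
noncomputable def jP : P4 →* Gm := PushoutI.of (φ := phi) true

/-- The embedding of `Q`. -/
noncomputable def jQ : Q4 →* Gm := PushoutI.of (φ := phi) false

theorem jP_dS (s : S5) : jP (dS s) = base phi s := of_apply_eq_base phi true s

theorem jQ_qS (s : S5) : jQ (qS s) = base phi s := of_apply_eq_base phi false s

theorem not_range_P {z : P4} (h : ∀ s, z ≠ dS s) : (z : Fam true) ∉ (phi true).range := by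
  rintro ⟨s, hs⟩
  exact h s hs.symm

theorem not_range_Q {q : Q4} (h : ∀ s, q ≠ qS s) : (q : Fam false) ∉ (phi false).range := by
  rintro ⟨s, hs⟩
  exact h s hs.symm

theorem opt {x : Option Bool} (h : x ≠ some true) (h' : x ≠ some false) : x = none := by
  rcases x with _ | b
  · rfl
  · cases b
    · exact absurd rfl h'
    · exact absurd rfl h

/-- The letters. -/
noncomputable def lt : P4 ⊕ Q4 → Gm := Sum.elim jP jQ

theorem surj (γ : Gm) : ∃ l : List (P4 ⊕ Q4), (l.map lt).prod = γ := by
  refine ind (motive := fun γ => ∃ l : List (P4 ⊕ Q4), (l.map lt).prod = γ) ?_ ?_ γ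
  · intro s
    refine ⟨[Sum.inl (dS s)], ?_⟩
    rw [List.map_singleton, List.prod_singleton]
    exact jP_dS s
  · rintro (_ | _) g δ _ _ ⟨l, hl⟩
    · refine ⟨Sum.inr g :: l, ?_⟩
      rw [List.map_cons, List.prod_cons, hl]
      rfl
    · refine ⟨Sum.inl g :: l, ?_⟩
      rw [List.map_cons, List.prod_cons, hl]
      rfl

theorem cntGm : Countable Gm := by
  have h1 : Countable S5 := Finite.to_countable
  have h2 : Countable P4 := Finite.to_countable
  have h3 : Countable (Multiplicative (ZMod 2 × ZMod 2)) := Finite.to_countable
  exact Function.Surjective.countable surj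

theorem clos : Subgroup.closure (Set.range jP ∪ Set.range jQ) = ⊤ := by
  rw [eq_top_iff]
  intro γ _
  refine ind (motive := fun γ => γ ∈ Subgroup.closure (Set.range jP ∪ Set.range jQ)) ?_ ?_ γ
  · intro s
    apply Subgroup.subset_closure
    left
    exact ⟨dS s, jP_dS s⟩
  · rintro (_ | _) g δ _ _ h
    · refine Subgroup.mul_mem _ (Subgroup.subset_closure ?_) h
      right
      exact ⟨g, rfl⟩
    · refine Subgroup.mul_mem _ (Subgroup.subset_closure ?_) h
      left
      exact ⟨g, rfl⟩

/-- The amalgam with its half-trees. -/
noncomputable def amal : Amal where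
  Γ := Gm
  cnt := cntGm
  iP := jP
  iQ := jQ
  injP := of_injective phi_inj true
  injQ := of_injective phi_inj false
  agree := fun s => by rw [jP_dS, jQ_qS]
  gen := clos
  TP := {γ | ty γ ≠ some true}
  TQ := {γ | ty γ ≠ some false}
  cover := fun γ => by
    by_cases h : ty γ = some true
    · right
      show ty γ ≠ some false
      rw [h]
      simp
    · exact Or.inl h
  inter := fun γ h h' => by
    obtain ⟨s, hs⟩ := of_none (opt h h')
    exact ⟨s, by rw [jP_dS, hs]⟩
  memTP := fun s => by
    show ty _ ≠ _
    rw [jP_dS, ty_base]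
    simp
  memTQ := fun s => by
    show ty _ ≠ _
    rw [jP_dS, ty_base]
    simp
  smulTP := fun s γ h => by
    show ty _ ≠ _
    rw [jP_dS, ty_base_mul]
    exact h
  smulTQ := fun s γ h => by
    show ty _ ≠ _
    rw [jP_dS, ty_base_mul]
    exact h
  leftP := fun z hz γ h => by
    have h1 : ty (jP z * γ) = some true := ty_cons (not_range_P hz) h
    refine ⟨?_, ?_⟩
    · show ty _ ≠ _
      rw [h1]
      simp
    · intro h2
      exact h2 h1
  leftQ := fun q hq γ h => by
    have h1 : ty (jQ q * γ) = some false := ty_cons (not_range_Q hq) h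
    refine ⟨?_, ?_⟩
    · show ty _ ≠ _
      rw [h1]
      simp
    · intro h2
      exact h2 h1
  TPQ := fun γ h q h1 => h ((right γ true false (by simp) q).1 h1)
  TPP := fun γ h h' z => by
    have h0 : ty γ = some false := by
      by_contra hc
      exact h' hc
    have h1 : ty (γ * jP z) = some false := (right γ false true (by simp) z).2 h0
    refine ⟨?_, ?_⟩
    · show ty _ ≠ _
      rw [h1]
      simp
    · intro h2
      exact h2 h1
  TQP := fun γ h z h1 => h ((right γ false true (by simp) z).1 h1)
  TQQ := fun γ h h' q => by
    have h0 : ty γ = some true := by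
      by_contra hc
      exact h' hc
    have h1 : ty (γ * jQ q) = some true := (right γ true false (by simp) q).2 h0
    refine ⟨?_, ?_⟩
    · show ty _ ≠ _
      rw [h1]
      simp
    · intro h2
      exact h2 h1
  decP := fun γ => by
    refine ind (motive := fun γ => ∃ z : P4, ∃ δ ∈ {γ | ty γ ≠ some true}, γ = jP z * δ) ?_ ?_ γ
    · intro s
      refine ⟨1, base phi s, ?_, by rw [map_one, one_mul]⟩
      show ty _ ≠ _
      rw [ty_base]
      simp
    · rintro (_ | _) g δ hg hδ _
      · refine ⟨1, PushoutI.of false g * δ, ?_, by rw [map_one, one_mul]⟩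
        show ty _ ≠ _
        rw [ty_cons hg hδ]
        simp
      · exact ⟨g, δ, hδ, rfl⟩
  decQ := fun γ => by
    refine ind (motive := fun γ => ∃ q : Q4, ∃ δ ∈ {γ | ty γ ≠ some false}, γ = jQ q * δ) ?_ ?_ γ
    · intro s
      refine ⟨1, base phi s, ?_, by rw [map_one, one_mul]⟩
      show ty _ ≠ _
      rw [ty_base]
      simp
    · rintro (_ | _) g δ hg hδ _
      · exact ⟨g, δ, hδ, rfl⟩
      · refine ⟨1, PushoutI.of true g * δ, ?_, by rw [map_one, one_mul]⟩
        show ty _ ≠ _
        rw [ty_cons hg hδ]
        simp

end Tamal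

theorem t_amal : St_amal := ⟨Tamal.amal⟩

end Pool.Agent.H338.PS
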