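import Pool.Agent.H338.PS.Stm

/-!
# BD. Every labelled path is contained in a window
-/

set_option autoImplicit false

namespace Pool.Agent.H338.PS

namespace Tbdd

theorem win_mono {k l : ℕ} (h : k ≤ l) : ∀ m : ℤ, win k m → win l m := by
  intro m hm
  have h1 : |m| ≤ (k : ℤ) := hm
  have h2 : (k : ℤ) ≤ (l : ℤ) := by exact_mod_cast h
  exact le_trans h1 h2

theorem win_natAbs (m : ℤ) {l : ℕ} (h : m.natAbs ≤ l) : win l m := by
  have h2 : ((m.natAbs : ℕ) : ℤ) ≤ (l : ℤ) := by exact_mod_cast h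
  have h3 : ((m.natAbs : ℕ) : ℤ) = |m| := Int.natCast_natAbs m
  change |m| ≤ (l : ℤ)
  rw [← h3]
  exact h2

theorem bdd {A : Amal} {L : ℤ} {n m : ℤ} {γ : A.Γ} (h : Tr A L allZ n γ m) :
    ∃ k : ℕ, Tr A L (win k) n γ m := by
  induction h with
  | refl hn => exact ⟨n.natAbs, Tr.refl (win_natAbs n le_rfl)⟩
  | stepP m m' γ e _ hm hB ih =>
    obtain ⟨k, hk⟩ := ih
    exact ⟨max k m'.natAbs, Tr.stepP m m' γ e (hk.mono (win_mono (le_max_left _ _))) hm
      (win_natAbs m' (le_max_right _ _))⟩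
  | stepF m m' γ c x y _ hL hm hB ih =>
    obtain ⟨k, hk⟩ := ih
    exact ⟨max k m'.natAbs, Tr.stepF m m' γ c x y (hk.mono (win_mono (le_max_left _ _))) hL hm
      (win_natAbs m' (le_max_right _ _))⟩
  | stepT m m' γ c x _ hL hm hB ih =>
    obtain ⟨k, hk⟩ := ih
    exact ⟨max k m'.natAbs, Tr.stepT m m' γ c x (hk.mono (win_mono (le_max_left _ _))) hL hm
      (win_natAbs m' (le_max_right _ _))⟩

end Tbdd

theorem t_bdd : St_bdd := fun _ _ _ _ _ h => Tbdd.bdd h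

end Pool.Agent.H338.PS
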