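import Pool.Agent.H338.PS.Stm

/-!
# B1: the translations are labelled paths (helper921 for helper338)
-/

set_option autoImplicit false

namespace Pool.Agent.H338.PS

open Topology

namespace Tbe1

variable {A : Amal}

theorem step_z1 (A : Amal) (L n : ℤ) : Tr A L allZ n (z1 A) (Xs n) := by
  have hs : ¬ sm ![1, 0, 0, 0] = 0 := by decide
  have h := Tr.stepP (A := A) (L := L) (B := allZ) (n := n) n (Xs n) 1 ![1, 0, 0, 0]
    (Tr.refl trivial) (by rw [if_neg hs]) trivial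
  rw [one_mul] at h
  exact h

theorem step_la (A : Amal) (L n : ℤ) (hn : ¬ L ∣ Ws n) : Tr A L allZ n (la A) (Ys n) := by
  have hs : ¬ (1 : ZMod 2) = 0 := by decide
  have h := Tr.stepT (A := A) (L := L) (B := allZ) (n := n) n (Ys n) 1 0 1
    (Tr.refl trivial) hn (by rw [if_neg hs]) trivial
  rw [one_mul] at h
  exact h

theorem step_lb (A : Amal) (L n : ℤ) (hn : L ∣ Ws n) : Tr A L allZ n (lb A) (Ys n) := by
  have hs : ¬ (1 : ZMod 2) = 0 := by decide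
  have h := Tr.stepF (A := A) (L := L) (B := allZ) (n := n) n (Ys n) 1 0 0 1
    (Tr.refl trivial) hn (by rw [if_neg hs]) trivial
  rw [one_mul] at h
  exact h

theorem not_dvd {l r : ℤ} (h1 : 0 < r) (h2 : r < 4 * l) : ¬ 4 * l ∣ r := by
  rintro ⟨k, hk⟩
  have hl : 0 < 4 * l := h1.trans h2
  rcases le_or_gt k 0 with h | h
  · nlinarith
  · nlinarith

theorem walk_pos (A : Amal) (l : ℕ) (r : ℕ) (hr : r + 1 ≤ 2 * l) :
    Tr A (4 * (l : ℤ)) allZ 0 (z1 A * (la A * z1 A) ^ r) (2 * (r : ℤ) + 1) := by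
  induction r with
  | zero =>
    have h := step_z1 A (4 * (l : ℤ)) 0
    have e : Xs 0 = 2 * ((0 : ℕ) : ℤ) + 1 := by
      unfold Xs
      rw [if_pos (by decide)]
      simp
    rw [e] at h
    rw [pow_zero, mul_one]
    exact h
  | succ r ih =>
    have h0 := ih (by omega)
    have hodd : ¬ Even (2 * (r : ℤ) + 1) := Int.not_even_iff_odd.2 ⟨r, rfl⟩
    have hev : Even (2 * (r : ℤ) + 1 + 1) := ⟨(r : ℤ) + 1, by ring⟩
    have hW : Ws (2 * (r : ℤ) + 1) = 2 * (r : ℤ) + 2 := by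
      unfold Ws
      rw [if_neg hodd]
      ring
    have hY : Ys (2 * (r : ℤ) + 1) = 2 * (r : ℤ) + 1 + 1 := by
      unfold Ys
      rw [if_neg hodd]
    have hX : Xs (2 * (r : ℤ) + 1 + 1) = 2 * ((r + 1 : ℕ) : ℤ) + 1 := by
      unfold Xs
      rw [if_pos hev]
      push_cast
      ring
    have hr' : ((r : ℤ) + 1 + 1) ≤ 2 * (l : ℤ) := by exact_mod_cast hr
    have h1 := step_la A (4 * (l : ℤ)) (2 * (r : ℤ) + 1) (by
      rw [hW]
      apply not_dvd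
      · have : (0 : ℤ) ≤ r := Int.natCast_nonneg r
        omega
      · omega)
    rw [hY] at h1
    have h2 := step_z1 A (4 * (l : ℤ)) (2 * (r : ℤ) + 1 + 1)
    rw [hX] at h2
    rw [pow_succ, ← mul_assoc]
    exact h0.trans (h1.trans h2)

theorem walk_neg (A : Amal) (l : ℕ) (r : ℕ) (hr : r + 1 ≤ 2 * l) :
    Tr A (4 * (l : ℤ)) allZ (-1) (z1 A * (la A * z1 A) ^ r) (-2 * (r : ℤ) - 2) := by
  induction r with
  | zero =>
    have h := step_z1 A (4 * (l : ℤ)) (-1)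
    have e : Xs (-1) = -2 * ((0 : ℕ) : ℤ) - 2 := by
      unfold Xs
      rw [if_neg (by decide)]
      simp
    rw [e] at h
    rw [pow_zero, mul_one]
    exact h
  | succ r ih =>
    have h0 := ih (by omega)
    have hev : Even (-2 * (r : ℤ) - 2) := ⟨-(r : ℤ) - 1, by ring⟩
    have hodd : ¬ Even (-2 * (r : ℤ) - 2 - 1) := Int.not_even_iff_odd.2 ⟨-(r : ℤ) - 2, by ring⟩
    have hW : Ws (-2 * (r : ℤ) - 2) = -(2 * (r : ℤ) + 2) := by
      unfold Ws
      rw [if_pos hev]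
      ring
    have hY : Ys (-2 * (r : ℤ) - 2) = -2 * (r : ℤ) - 2 - 1 := by
      unfold Ys
      rw [if_pos hev]
    have hX : Xs (-2 * (r : ℤ) - 2 - 1) = -2 * ((r + 1 : ℕ) : ℤ) - 2 := by
      unfold Xs
      rw [if_neg hodd]
      push_cast
      ring
    have hr' : ((r : ℤ) + 1 + 1) ≤ 2 * (l : ℤ) := by exact_mod_cast hr
    have h1 := step_la A (4 * (l : ℤ)) (-2 * (r : ℤ) - 2) (by
      rw [hW, Int.dvd_neg]
      apply not_dvd
      · have : (0 : ℤ) ≤ r := Int.natCast_nonneg r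
        omega
      · omega)
    rw [hY] at h1
    have h2 := step_z1 A (4 * (l : ℤ)) (-2 * (r : ℤ) - 2 - 1)
    rw [hX] at h2
    rw [pow_succ, ← mul_assoc]
    exact h0.trans (h1.trans h2)

theorem be_pos (A : Amal) (l : ℕ) (hl : 1 ≤ l) :
    Tr A (4 * (l : ℤ)) allZ 0 (be A l) (4 * (l : ℤ)) := by
  have h0 := walk_pos A l (2 * l - 1) (by omega)
  have hc : 2 * ((2 * l - 1 : ℕ) : ℤ) + 1 = 4 * (l : ℤ) - 1 := by omega
  rw [hc] at h0
  have hodd : ¬ Even (4 * (l : ℤ) - 1) := Int.not_even_iff_odd.2 ⟨2 * (l : ℤ) - 1, by ring⟩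
  have h1 := step_lb A (4 * (l : ℤ)) (4 * (l : ℤ) - 1) (by
    unfold Ws
    rw [if_neg hodd]
    exact ⟨1, by ring⟩)
  have hY : Ys (4 * (l : ℤ) - 1) = 4 * (l : ℤ) := by
    unfold Ys
    rw [if_neg hodd]
    ring
  rw [hY] at h1
  exact h0.trans h1

theorem be_neg (A : Amal) (l : ℕ) (hl : 1 ≤ l) :
    Tr A (4 * (l : ℤ)) allZ (-1) (be A l) (-1 - 4 * (l : ℤ)) := by
  have h0 := walk_neg A l (2 * l - 1) (by omega)
  have hc : -2 * ((2 * l - 1 : ℕ) : ℤ) - 2 = -(4 * (l : ℤ)) := by omega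
  rw [hc] at h0
  have hev : Even (-(4 * (l : ℤ))) := ⟨-(2 * (l : ℤ)), by ring⟩
  have h1 := step_lb A (4 * (l : ℤ)) (-(4 * (l : ℤ))) (by
    unfold Ws
    rw [if_pos hev]
    exact ⟨-1, by ring⟩)
  have hY : Ys (-(4 * (l : ℤ))) = -1 - 4 * (l : ℤ) := by
    unfold Ys
    rw [if_pos hev]
    ring
  rw [hY] at h1
  exact h0.trans h1

end Tbe1

theorem t_be1 (h1 : St_trSg) : St_be1 := by
  intro A l hl j
  have hL : Even (4 * (l : ℤ)) := ⟨2 * (l : ℤ), by ring⟩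
  induction j with
  | zero =>
    constructor
    · rw [pow_zero]
      have e : ((0 : ℕ) : ℤ) * (4 * (l : ℤ)) = 0 := by simp
      rw [e]
      exact Tr.refl trivial
    · rw [pow_zero]
      have e : -1 - ((0 : ℕ) : ℤ) * (4 * (l : ℤ)) = -1 := by simp
      rw [e]
      exact Tr.refl trivial
  | succ j ih =>
    obtain ⟨ih1, ih2⟩ := ih
    constructor
    · have h2 := h1 A (4 * (l : ℤ)) allZ 0 (4 * (l : ℤ)) (be A l)
        (fun n => n + (j : ℤ) * (4 * (l : ℤ))) hL ⟨(j : ℤ), Or.inl (fun _ => rfl)⟩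
        (Tbe1.be_pos A l hl)
      have h3 : Tr A (4 * (l : ℤ)) allZ (0 + (j : ℤ) * (4 * (l : ℤ))) (be A l)
          (4 * (l : ℤ) + (j : ℤ) * (4 * (l : ℤ))) := Tr.mono (fun _ _ => trivial) h2
      have e1 : 0 + (j : ℤ) * (4 * (l : ℤ)) = (j : ℤ) * (4 * (l : ℤ)) := zero_add _
      have e2 : 4 * (l : ℤ) + (j : ℤ) * (4 * (l : ℤ)) = ((j + 1 : ℕ) : ℤ) * (4 * (l : ℤ)) := by
        push_cast
        ring
      rw [e1, e2] at h3
      rw [pow_succ]
      exact ih1.trans h3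
    · have h2 := h1 A (4 * (l : ℤ)) allZ (-1) (-1 - 4 * (l : ℤ)) (be A l)
        (fun n => n + (-(j : ℤ)) * (4 * (l : ℤ))) hL ⟨-(j : ℤ), Or.inl (fun _ => rfl)⟩
        (Tbe1.be_neg A l hl)
      have h3 : Tr A (4 * (l : ℤ)) allZ (-1 + (-(j : ℤ)) * (4 * (l : ℤ))) (be A l)
          (-1 - 4 * (l : ℤ) + (-(j : ℤ)) * (4 * (l : ℤ))) := Tr.mono (fun _ _ => trivial) h2
      have e1 : -1 + (-(j : ℤ)) * (4 * (l : ℤ)) = -1 - (j : ℤ) * (4 * (l : ℤ)) := by ring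
      have e2 : -1 - 4 * (l : ℤ) + (-(j : ℤ)) * (4 * (l : ℤ)) =
          -1 - ((j + 1 : ℕ) : ℤ) * (4 * (l : ℤ)) := by
        push_cast
        ring
      rw [e1, e2] at h3
      rw [pow_succ]
      exact ih2.trans h3

end Pool.Agent.H338.PS
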