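import Pool.Agent.H338.PS.Stm

/-!
# Task be2 (helper199 for helper338): ping-pong for `β`
-/

set_option autoImplicit false

namespace Pool.Agent.H338.PS.Tbe2

open Pool.Agent.H338.PS

variable {A : Amal}

theorem z1_mul {γ : A.Γ} (h : γ ∈ A.TP) : z1 A * γ ∈ A.TQ ∧ z1 A * γ ∉ A.TP :=
  A.leftP _ z1_not γ h

theorem la_mul {γ : A.Γ} (h : γ ∈ A.TQ) : la A * γ ∈ A.TP ∧ la A * γ ∉ A.TQ :=
  A.leftQ _ la_not γ h

theorem lb_mul {γ : A.Γ} (h : γ ∈ A.TQ) : lb A * γ ∈ A.TP ∧ lb A * γ ∉ A.TQ :=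
  A.leftQ _ lb_not γ h

theorem z1_inv : (z1 A)⁻¹ = z1 A := by
  unfold z1
  rw [← map_inv, eP_inv]

theorem la_inv : (la A)⁻¹ = la A := by
  unfold la
  rw [← map_inv, eQ_inv]

theorem lb_inv : (lb A)⁻¹ = lb A := by
  unfold lb
  rw [← map_inv, eQ_inv]

theorem pow_mem (r : ℕ) : ∀ γ : A.Γ, γ ∈ A.TP ∧ γ ∉ A.TQ →
    (la A * z1 A) ^ r * γ ∈ A.TP ∧ (la A * z1 A) ^ r * γ ∉ A.TQ := by
  induction r with
  | zero =>
    intro γ h
    rw [pow_zero, one_mul]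
    exact h
  | succ r ih =>
    intro γ h
    have h1 : (la A * z1 A) ^ (r + 1) * γ = (la A * z1 A) ^ r * (la A * (z1 A * γ)) := by
      rw [pow_succ, mul_assoc, mul_assoc]
    rw [h1]
    exact ih _ (la_mul (z1_mul h.1).1)

theorem pow_mem' (r : ℕ) : ∀ γ : A.Γ, γ ∈ A.TQ ∧ γ ∉ A.TP →
    (z1 A * la A) ^ r * γ ∈ A.TQ ∧ (z1 A * la A) ^ r * γ ∉ A.TP := by
  induction r with
  | zero =>
    intro γ h
    rw [pow_zero, one_mul]
    exact h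
  | succ r ih =>
    intro γ h
    have h1 : (z1 A * la A) ^ (r + 1) * γ = (z1 A * la A) ^ r * (z1 A * (la A * γ)) := by
      rw [pow_succ, mul_assoc, mul_assoc]
    rw [h1]
    exact ih _ (z1_mul (la_mul h.1).1)

theorem be_inv (l : ℕ) : (be A l)⁻¹ = lb A * ((z1 A * la A) ^ (2 * l - 1) * z1 A) := by
  unfold be
  rw [mul_inv_rev, mul_inv_rev, ← inv_pow, mul_inv_rev, lb_inv, z1_inv, la_inv]

end Pool.Agent.H338.PS.Tbe2

namespace Pool.Agent.H338.PS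

theorem t_be2 : St_be2 := by
  intro A l _
  constructor
  · intro γ hγ
    have h1 : (be A l)⁻¹ * γ = lb A * ((z1 A * la A) ^ (2 * l - 1) * (z1 A * γ)) := by
      rw [Tbe2.be_inv, mul_assoc, mul_assoc]
    rw [h1]
    exact Tbe2.lb_mul (Tbe2.pow_mem' _ _ (Tbe2.z1_mul hγ)).1
  · intro γ hγ
    have h1 : be A l * γ = z1 A * ((la A * z1 A) ^ (2 * l - 1) * (lb A * γ)) := by
      unfold be
      rw [mul_assoc, mul_assoc]
    rw [h1]
    exact Tbe2.z1_mul (Tbe2.pow_mem _ _ (Tbe2.lb_mul hγ)).1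

end Pool.Agent.H338.PS
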