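import Pool.Agent.H338.PS.Stm

set_option autoImplicit false

namespace Pool.Agent.H338.PS

theorem Tcent.center {s : S5} (h : ∀ x : S5, x * s = s * x) : s = 1 := by
  have h1 : s ∈ Subgroup.center (alternatingGroup (Fin 5)) := Subgroup.mem_center_iff.2 h
  rw [alternatingGroup.center_eq_bot (by simp), Subgroup.mem_bot] at h1
  exact h1

theorem t_cent : St_cent := by
  intro s σ H
  apply Tcent.center
  intro x
  by_cases hx : x = 1
  · rw [hx, one_mul, mul_one]
  obtain ⟨t, ht⟩ := H (Pi.mulSingle 0 x)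
  have ht' : ∀ k : Fin 4, s * (Pi.mulSingle 0 x : P4) (σ k) = (Pi.mulSingle 0 x : P4) k * t :=
    fun k => congrFun ht k
  obtain ⟨j, hj⟩ : ∃ j, σ j = 0 := ⟨σ.symm 0, σ.apply_symm_apply 0⟩
  have hne : ∀ k, k ≠ j → (Pi.mulSingle 0 x : P4) (σ k) = 1 := by
    intro k hk
    apply Pi.mulSingle_eq_of_ne
    intro h0
    exact hk (σ.injective (h0.trans hj.symm))
  have hall : ∀ j : Fin 4, ∃ k : Fin 4, k ≠ 0 ∧ k ≠ j := by decide
  have hex := hall j
  obtain ⟨k, hk0, hkj⟩ := hex
  have hst : s = t := by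
    have h1 := ht' k
    rw [hne k hkj, Pi.mulSingle_eq_of_ne hk0, mul_one, one_mul] at h1
    exact h1
  by_cases hj0 : j = 0
  · have h1 := ht' 0
    rw [hj0] at hj
    rw [hj, Pi.mulSingle_eq_same, ← hst] at h1
    exact h1.symm
  · exfalso
    have h1 := ht' 0
    rw [hne 0 (fun h => hj0 h.symm), Pi.mulSingle_eq_same, mul_one, ← hst] at h1
    apply hx
    exact (mul_eq_right.1 h1.symm)

end Pool.Agent.H338.PS
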