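import Pool.Agent.H338.PS.Stm

set_option autoImplicit false

namespace Pool.Agent.H338.PS

open Topology

namespace Tcg

/-! ### Symmetries of the line -/

theorem Sy_id (L : ℤ) : Sy L (fun n => n) := ⟨0, Or.inl fun n => by ring⟩

theorem Sy_Sg {L : ℤ} {f : ℤ → ℤ} (h : Sy L f) : Sg L f := by
  obtain ⟨j, h | h⟩ := h
  · exact ⟨2 * j, Or.inl h⟩
  · exact ⟨2 * j + 1, Or.inr h⟩

theorem Sy_comp {L : ℤ} {f g : ℤ → ℤ} (hf : Sy L f) (hg : Sy L g) : Sy L (fun n => f (g n)) := by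
  obtain ⟨j, hf | hf⟩ := hf <;> obtain ⟨k, hg | hg⟩ := hg
  · exact ⟨j + k, Or.inl fun n => by simp only [hf, hg]; ring⟩
  · exact ⟨j + k, Or.inr fun n => by simp only [hf, hg]; ring⟩
  · exact ⟨j - k, Or.inr fun n => by simp only [hf, hg]; ring⟩
  · exact ⟨j - k, Or.inl fun n => by simp only [hf, hg]; ring⟩

theorem Sy_inv {L : ℤ} {f : ℤ → ℤ} (hf : Sy L f) :
    ∃ g, Sy L g ∧ (∀ n, g (f n) = n) ∧ ∀ n, f (g n) = n := by
  obtain ⟨j, hf | hf⟩ := hf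
  · refine ⟨fun n => n + 2 * (-j) * L, ⟨-j, Or.inl fun n => rfl⟩, fun n => ?_, fun n => ?_⟩
    · simp only [hf]; ring
    · simp only [hf]; ring
  · refine ⟨fun n => (2 * j + 1) * L - 1 - n, ⟨j, Or.inr fun n => rfl⟩, fun n => ?_, fun n => ?_⟩
    · simp only [hf]; ring
    · simp only [hf]; ring

theorem Orb_zero (L : ℤ) : Orb L 0 := ⟨0, Or.inl (by ring)⟩

theorem Orb_f {L : ℤ} {f : ℤ → ℤ} (hf : Sy L f) : Orb L (f 0) := by
  obtain ⟨j, hf | hf⟩ := hf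
  · exact ⟨j, Or.inl (by rw [hf]; ring)⟩
  · exact ⟨j, Or.inr (by rw [hf]; ring)⟩

/-- every state is the image of one in the fundamental domain -/
theorem cover (l : ℤ) (hl : 1 ≤ l) (n : ℤ) : ∃ (f : ℤ → ℤ) (m : ℤ), Sy (4 * l) f ∧ -(2 * l) ≤ m ∧
    m ≤ 2 * l - 1 ∧ n = f m := by
  have h1 := Int.emod_nonneg n (show 8 * l ≠ 0 by omega)
  have h2 := Int.emod_lt_of_pos n (show 0 < 8 * l by omega)
  have h3 := Int.emod_add_mul_ediv n (8 * l)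
  set r := n % (8 * l) with hr
  set q := n / (8 * l) with hq
  by_cases ha : r < 2 * l
  · refine ⟨fun n => n + 2 * q * (4 * l), r, ⟨q, Or.inl fun n => rfl⟩, by omega, by omega, ?_⟩
    show n = r + 2 * q * (4 * l)
    rw [← h3]; ring
  · by_cases hb : r < 6 * l
    · refine ⟨fun n => (2 * q + 1) * (4 * l) - 1 - n, 4 * l - 1 - r,
        ⟨q, Or.inr fun n => rfl⟩, by omega, by omega, ?_⟩
      show n = (2 * q + 1) * (4 * l) - 1 - (4 * l - 1 - r)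
      rw [← h3]; ring
    · refine ⟨fun n => n + 2 * (q + 1) * (4 * l), r - 8 * l, ⟨q + 1, Or.inl fun n => rfl⟩,
        by omega, by omega, ?_⟩
      show n = r - 8 * l + 2 * (q + 1) * (4 * l)
      rw [← h3]; ring

theorem small_even (l i m : ℤ) (hl : 1 ≤ l) (h1 : -(2 * l) ≤ m) (h2 : m ≤ 2 * l - 1)
    (h : m = 2 * i * (4 * l)) : m = 0 := by
  rcases lt_trichotomy i 0 with hi | hi | hi
  · exfalso
    have : i ≤ -1 := by omega
    nlinarith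
  · rw [h, hi]; ring
  · exfalso
    have : 1 ≤ i := by omega
    nlinarith

theorem small_odd (l i m : ℤ) (hl : 1 ≤ l) (h1 : -(2 * l) ≤ m) (h2 : m ≤ 2 * l - 1)
    (h : m = (2 * i + 1) * (4 * l) - 1) : False := by
  rcases lt_or_ge i 0 with hi | hi
  · have : i ≤ -1 := by omega
    nlinarith
  · nlinarith

theorem Orb_small (l : ℤ) (hl : 1 ≤ l) {f : ℤ → ℤ} (hf : Sy (4 * l) f) {m : ℤ}
    (h1 : -(2 * l) ≤ m) (h2 : m ≤ 2 * l - 1) (h : Orb (4 * l) (f m)) : m = 0 := by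
  obtain ⟨j, hj⟩ := h
  obtain ⟨k, hf | hf⟩ := hf
  · rw [hf] at hj
    rcases hj with hj | hj
    · exact small_even l (j - k) m hl h1 h2 (by linear_combination hj)
    · exact (small_odd l (j - k) m hl h1 h2 (by linear_combination hj)).elim
  · rw [hf] at hj
    rcases hj with hj | hj
    · exact (small_odd l (k - j) m hl h1 h2 (by linear_combination -hj)).elim
    · exact small_even l (k - j) m hl h1 h2 (by linear_combination -hj)

/-! ### Paths -/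

variable {A : Amal}

theorem tr_X (L : ℤ) {n m : ℤ} {γ : A.Γ} (h : Tr A L allZ n γ m) :
    Tr A L allZ n (γ * A.iP (eP ![1, 0, 0, 0])) (Xs m) := by
  refine Tr.stepP m (Xs m) γ _ h ?_ trivial
  have : sm ![1, 0, 0, 0] ≠ 0 := by decide
  rw [if_neg this]

theorem tr_Y (L : ℤ) {n m : ℤ} {γ : A.Γ} (h : Tr A L allZ n γ m) :
    ∃ δ, Tr A L allZ n δ (Ys m) := by
  by_cases hL : L ∣ Ws m
  · exact ⟨_, Tr.stepF m (Ys m) γ 0 0 1 h hL (by rw [if_neg (by decide)]) trivial⟩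
  · exact ⟨_, Tr.stepT m (Ys m) γ 0 1 h hL (by rw [if_neg (by decide)]) trivial⟩

theorem tr_all (L : ℤ) (m : ℤ) : ∃ γ : A.Γ, Tr A L allZ 0 γ m := by
  have hup : ∀ m : ℤ, (∃ γ : A.Γ, Tr A L allZ 0 γ m) → ∃ γ : A.Γ, Tr A L allZ 0 γ (m + 1) := by
    rintro m ⟨γ, h⟩
    by_cases he : Even m
    · have := tr_X L h
      rw [Xs, if_pos he] at this
      exact ⟨_, this⟩
    · obtain ⟨δ, hδ⟩ := tr_Y L h
      rw [Ys, if_neg he] at hδ
      exact ⟨_, hδ⟩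
  have hdn : ∀ m : ℤ, (∃ γ : A.Γ, Tr A L allZ 0 γ m) → ∃ γ : A.Γ, Tr A L allZ 0 γ (m - 1) := by
    rintro m ⟨γ, h⟩
    by_cases he : Even m
    · obtain ⟨δ, hδ⟩ := tr_Y L h
      rw [Ys, if_pos he] at hδ
      exact ⟨_, hδ⟩
    · have := tr_X L h
      rw [Xs, if_neg he] at this
      exact ⟨_, this⟩
  induction m using Int.induction_on with
  | zero => exact ⟨1, Tr.refl trivial⟩
  | succ i ih => exact hup _ ih
  | pred i ih => exact hdn _ ih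

theorem tr_f (h4 : St_trSg) {L : ℤ} (hL : Even L) {f : ℤ → ℤ} (hf : Sy L f) {n m : ℤ} {γ : A.Γ}
    (h : Tr A L allZ n γ m) : Tr A L allZ (f n) γ (f m) :=
  (h4 A L allZ n m γ f hL (Sy_Sg hf) h).mono fun _ _ => trivial

/-- the letters -/
def letters (A : Amal) : Set A.Γ :=
  Set.range (fun e : Fin 4 → ZMod 2 => A.iP (eP e)) ∪
    Set.range (fun t : ZMod 2 × ZMod 2 × ZMod 2 => A.iQ (eQ t.1 t.2.1 t.2.2))

theorem letters_finite : (letters A).Finite := (Set.finite_range _).union (Set.finite_range _)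

/-- the finite set `F` -/
def FF (A : Amal) (κ : ℤ → A.Γ) (l : ℤ) : Set A.Γ :=
  (fun t : ℤ × ℤ × A.Γ => κ t.1 * t.2.2 * (κ t.2.1)⁻¹) ''
    (Set.Icc (-(2 * l)) (2 * l - 1) ×ˢ (Set.Icc (-(2 * l)) (2 * l - 1) ×ˢ letters A))

theorem FF_finite (κ : ℤ → A.Γ) (l : ℤ) : (FF A κ l).Finite :=
  Set.Finite.image _ ((Set.finite_Icc _ _).prod ((Set.finite_Icc _ _).prod letters_finite))

/-- the compact generating set -/
def CC (A : Amal) (κ : ℤ → A.Γ) (l : ℤ) : Set (GG A) :=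
  (G1 A : Set (GG A)) ∪ (Lm A) '' {γ | γ ∈ FF A κ l ∧ Lm A γ ∈ HH A (4 * l)}

theorem CC_compact (h2 : St_cpt) (κ : ℤ → A.Γ) (l : ℤ) : IsCompact (CC A κ l) :=
  (h2 A).union ((((FF_finite κ l).subset fun _ h => h.1).image _).isCompact)

theorem Lm_mem_HH (h5 : St_mem) {L : ℤ} (hL : Even L) {γ : A.Γ} {n : ℤ} (hn : Orb L n)
    (h : Tr A L allZ 0 γ n) : Lm A γ ∈ HH A L := by
  rw [(h5 A L hL).1]
  refine ⟨n, hn, ?_⟩
  rw [ac_Lm, mul_one]
  exact h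

/-- one letter -/
theorem step (h3 : St_symm) (h4 : St_trSg) (h5 : St_mem) (l : ℤ) (hl : 1 ≤ l) (κ : ℤ → A.Γ)
    (hκ : ∀ m, Tr A (4 * l) allZ 0 (κ m) m) {γ x : A.Γ} (hx : x ∈ letters A) {f : ℤ → ℤ} {m n' : ℤ}
    (hf : Sy (4 * l) f) (hm1 : -(2 * l) ≤ m) (hm2 : m ≤ 2 * l - 1)
    (hγ : Lm A (γ * (κ m)⁻¹) ∈ Subgroup.closure (CC A κ l))
    (hp : Tr A (4 * l) allZ (f m) x n') :
    ∃ (f' : ℤ → ℤ) (m' : ℤ), Sy (4 * l) f' ∧ -(2 * l) ≤ m' ∧ m' ≤ 2 * l - 1 ∧ n' = f' m' ∧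
      Lm A (γ * x * (κ m')⁻¹) ∈ Subgroup.closure (CC A κ l) := by
  have hL : Even (4 * l) := ⟨2 * l, by ring⟩
  obtain ⟨g, hg, hgf, hfg⟩ := Sy_inv hf
  obtain ⟨f'', m'', hf'', h1, h2, h6⟩ := cover l hl (g n')
  have hp' : Tr A (4 * l) allZ m x (f'' m'') := by
    have := tr_f h4 hL hg hp
    rw [hgf, h6] at this
    exact this
  have hback : Tr A (4 * l) allZ (f'' m'') (κ m'')⁻¹ (f'' 0) :=
    tr_f h4 hL hf'' (h3 A _ _ _ _ _ (hκ m''))
  have hy : Tr A (4 * l) allZ 0 (κ m * x * (κ m'')⁻¹) (f'' 0) :=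
    ((hκ m).trans hp').trans hback
  have hyH : Lm A (κ m * x * (κ m'')⁻¹) ∈ HH A (4 * l) := Lm_mem_HH h5 hL (Orb_f hf'') hy
  have hyC : Lm A (κ m * x * (κ m'')⁻¹) ∈ Subgroup.closure (CC A κ l) := by
    apply Subgroup.subset_closure
    right
    refine ⟨_, ⟨⟨(m, m'', x), ⟨⟨hm1, hm2⟩, ⟨h1, h2⟩, hx⟩, rfl⟩, hyH⟩, rfl⟩
  refine ⟨fun n => f (f'' n), m'', Sy_comp hf hf'', h1, h2, ?_, ?_⟩
  · show n' = f (f'' m'')
    rw [← h6, hfg]
  · have e : γ * x * (κ m'')⁻¹ = (γ * (κ m)⁻¹) * (κ m * x * (κ m'')⁻¹) := by group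
    rw [e, Lm_mul]
    exact Subgroup.mul_mem _ hγ hyC

theorem claim (h3 : St_symm) (h4 : St_trSg) (h5 : St_mem) (l : ℤ) (hl : 1 ≤ l) (κ : ℤ → A.Γ)
    (hκ : ∀ m, Tr A (4 * l) allZ 0 (κ m) m) (hκ0 : κ 0 = 1) {γ : A.Γ} {n : ℤ}
    (h : Tr A (4 * l) allZ 0 γ n) :
    ∃ (f : ℤ → ℤ) (m : ℤ), Sy (4 * l) f ∧ -(2 * l) ≤ m ∧ m ≤ 2 * l - 1 ∧ n = f m ∧
      Lm A (γ * (κ m)⁻¹) ∈ Subgroup.closure (CC A κ l) := by
  induction h with
  | refl hn =>
    refine ⟨fun n => n, 0, Sy_id _, by omega, by omega, rfl, ?_⟩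
    rw [hκ0, inv_one, mul_one, Lm_one]
    exact Subgroup.one_mem _
  | stepP m m' γ e h hm hB ih =>
    obtain ⟨f, p, hf, h1, h2, h6, h7⟩ := ih
    have hp : Tr A (4 * l) allZ (f p) (A.iP (eP e)) m' := by
      have := Tr.stepP (A := A) (L := 4 * l) (B := allZ) (n := f p) m m' 1 e
        (by rw [h6]; exact Tr.refl trivial) hm hB
      rwa [one_mul] at this
    exact step h3 h4 h5 l hl κ hκ (Or.inl ⟨e, rfl⟩) hf h1 h2 h7 hp
  | stepF m m' γ c x y h hL hm hB ih =>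
    obtain ⟨f, p, hf, h1, h2, h6, h7⟩ := ih
    have hp : Tr A (4 * l) allZ (f p) (A.iQ (eQ c x y)) m' := by
      have := Tr.stepF (A := A) (L := 4 * l) (B := allZ) (n := f p) m m' 1 c x y
        (by rw [h6]; exact Tr.refl trivial) hL hm hB
      rwa [one_mul] at this
    exact step h3 h4 h5 l hl κ hκ (Or.inr ⟨(c, x, y), rfl⟩) hf h1 h2 h7 hp
  | stepT m m' γ c x h hL hm hB ih =>
    obtain ⟨f, p, hf, h1, h2, h6, h7⟩ := ih
    have hp : Tr A (4 * l) allZ (f p) (A.iQ (eQ c x 0)) m' := by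
      have := Tr.stepT (A := A) (L := 4 * l) (B := allZ) (n := f p) m m' 1 c x
        (by rw [h6]; exact Tr.refl trivial) hL hm hB
      rwa [one_mul] at this
    exact step h3 h4 h5 l hl κ hκ (Or.inr ⟨(c, x, 0), rfl⟩) hf h1 h2 h7 hp

/-- evaluation at `1` is locally constant -/
theorem isOpen_ev (S : Set A.Γ) : IsOpen {g : GG A | ac g 1 ∈ S} := by
  let _ : TopologicalSpace (A.Γ × A.Γ) := ⊥
  have : DiscreteTopology (A.Γ × A.Γ) := ⟨rfl⟩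
  have h1 : Continuous (fun (g : GG A) (γ : A.Γ) => ((g : Equiv.Perm A.Γ) γ,
    ((g⁻¹ : GG A) : Equiv.Perm A.Γ) γ)) := continuous_induced_dom
  have h2 : Continuous (fun (g : GG A) => ((g : Equiv.Perm A.Γ) 1,
    ((g⁻¹ : GG A) : Equiv.Perm A.Γ) 1)) := (continuous_apply (1 : A.Γ)).comp h1
  exact (isOpen_discrete {p : A.Γ × A.Γ | p.1 ∈ S}).preimage h2

end Tcg

theorem t_cg (h1 : St_fix) (h2 : St_cpt) (h3 : St_symm) (h4 : St_trSg) (h5 : St_mem) : St_cg := by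
  have _ := h1
  intro A l hl
  have hl' : (1 : ℤ) ≤ (l : ℤ) := by exact_mod_cast hl
  have hL : Even (4 * (l : ℤ)) := ⟨2 * l, by ring⟩
  have hmem := (h5 A (4 * (l : ℤ)) hL).1
  constructor
  · have e : (HH A (4 * (l : ℤ)) : Set (GG A)) =
        {g : GG A | ac g 1 ∈ {γ : A.Γ | ∃ n, Orb (4 * (l : ℤ)) n ∧ Tr A (4 * (l : ℤ)) allZ 0 γ n}} := by
      ext g
      exact hmem g
    rw [e]
    exact Tcg.isOpen_ev _
  · choose κ0 hκ0 using fun m : ℤ => Tcg.tr_all (A := A) (4 * (l : ℤ)) m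
    set κ : ℤ → A.Γ := fun m => if m = 0 then 1 else κ0 m with hκdef
    have hκz : κ 0 = 1 := if_pos rfl
    have hκ : ∀ m, Tr A (4 * (l : ℤ)) allZ 0 (κ m) m := by
      intro m
      by_cases hm : m = 0
      · rw [hm, hκz]
        exact Tr.refl trivial
      · have : κ m = κ0 m := if_neg hm
        rw [this]
        exact hκ0 m
    refine ⟨Tcg.CC A κ l, Tcg.CC_compact h2 κ l, ?_⟩
    apply le_antisymm
    · rw [Subgroup.closure_le]
      rintro g (hg | ⟨γ, hγ, rfl⟩)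
      · rw [SetLike.mem_coe, hmem]
        refine ⟨0, Tcg.Orb_zero _, ?_⟩
        rw [mem_G1.1 hg]
        exact Tr.refl trivial
      · exact hγ.2
    · intro g hg
      obtain ⟨n, hn, hTr⟩ := (hmem g).1 hg
      obtain ⟨f, m, hf, hm1, hm2, hnf, hcl⟩ := Tcg.claim h3 h4 h5 l hl' κ hκ hκz hTr
      rw [hnf] at hn
      have hm0 := Tcg.Orb_small l hl' hf hm1 hm2 hn
      rw [hm0, hκz, inv_one, mul_one] at hcl
      obtain ⟨u, hu, hgu⟩ := exists_dec g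
      rw [hgu]
      exact Subgroup.mul_mem _ hcl (Subgroup.subset_closure (Or.inl hu))

end Pool.Agent.H338.PS
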