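import Pool.Agent.H338.PS.Cstm

/-!
# The criterion
-/

set_option autoImplicit false

namespace Pool.Agent.H338.PS

open Topology Pointwise

namespace Tchain

/-- a subset of one fibre has a compact image -/
theorem img {K : Type} [Group K] [TopologicalSpace K] (N : Subgroup K) (S : Set K)
    (hS : S ⊆ (N : Set K)) : IsCompact ((QuotientGroup.mk : K → K ⧸ N) '' S) := by
  have h1 : (QuotientGroup.mk : K → K ⧸ N) '' S ⊆ {QuotientGroup.mk 1} := by
    rintro _ ⟨x, hx, rfl⟩
    rw [Set.mem_singleton_iff, QuotientGroup.eq, mul_one]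
    exact N.inv_mem (hS hx)
  exact ((Set.finite_singleton _).subset h1).isCompact

end Tchain

theorem t_chain (h1 : St_ncl) (h2 : St_resOmega) (h3 : St_noq) : St_chain := by
  intro G _ _ U H D hwf
  obtain ⟨K, ⟨n, rfl⟩, hmin⟩ := hwf (Set.range H) (by rintro _ ⟨n, rfl⟩; exact D.oc n) ⟨H 0, 0, rfl⟩
  have := D.td.isTopologicalGroup
  obtain ⟨-, hle, -, hop⟩ := h1 G U (H n) (D.le n)
  obtain ⟨-, hcl⟩ := hop D.Uo
  have hR := h2 G U H D n
  refine hmin (H (n + 1)) ⟨n + 1, rfl⟩ ⟨(D.desc n).trans hle, D.nc n, ?_, ?_⟩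
  · refine Tchain.img _ _ ?_
    have hcl' : IsClosed (ResOmega (H n) : Set (H n)) := by
      rw [hR]
      exact hcl.preimage continuous_subtype_val
    refine closure_minimal ?_ hcl'
    rintro _ ⟨x, hx, y, hy, rfl⟩
    refine (ResOmega (H n)).mul_mem ?_ hy
    rw [hR]
    exact D.desc n hx
  · intro N hN hc hS _
    exact absurd hS (h3 G U H D n N hN hc)

end Pool.Agent.H338.PS
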