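import Pool.Agent.H338.PS.Stm

set_option autoImplicit false

namespace Pool.Agent.H338.PS

namespace Tcon

variable {A : Amal}

theorem z0_inv : (z0 A)⁻¹ = z0 A := by
  unfold z0
  rw [← map_inv, eP_inv]

theorem conj_mem (O H : Subgroup (GG A)) (hn : ∀ h ∈ H, ∀ x ∈ O, h * x * h⁻¹ ∈ O) (h : GG A)
    (hh : h ∈ H) (u : GG A) (hu : h * u * h⁻¹ ∈ O) : u ∈ O := by
  have h1 := hn h⁻¹ (H.inv_mem hh) _ hu
  have e : h⁻¹ * (h * u * h⁻¹) * h⁻¹⁻¹ = u := by group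
  rwa [e] at h1

theorem fix_conj (T : Set A.Γ) (F : Finset A.Γ) (δ : A.Γ) (h : ∀ f ∈ F, δ⁻¹ * f ∈ T)
    (u : GG A) (hu : u ∈ fixS A T) : Lm A δ * u * (Lm A δ)⁻¹ ∈ fixS A (F : Set A.Γ) := by
  rw [mem_fixS] at hu ⊢
  intro f hf
  rw [← Lm_inv, ac_mul, ac_mul, ac_Lm, ac_Lm, hu _ (h f hf), mul_inv_cancel_left]

end Tcon

open Tcon

theorem t_con (h1 : St_fix) (h2 : St_mem) (h3 : St_dec) (h4 : St_be1) (h5 : St_lim) : St_con := by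
  intro A l hl O hO hn
  obtain ⟨F, hF⟩ := (h1 A).2.1 (O : Set (GG A)) hO O.one_mem
  choose i hi using h5 A l hl
  have hev : Even (4 * (l : ℤ)) := ⟨2 * l, by ring⟩
  obtain ⟨j', hj'⟩ : ∃ j' : ℕ, ∀ f ∈ F, i f ≤ 2 * j' := by
    refine ⟨F.sup i, fun f hf => ?_⟩
    have := Finset.le_sup (f := i) hf
    omega
  have horb : Orb (4 * (l : ℤ)) (((2 * j' : ℕ) : ℤ) * (4 * (l : ℤ))) :=
    ⟨j', Or.inl (by push_cast; ring)⟩
  have htr := (h4 A l hl (2 * j')).1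
  have m1 : Lm A (be A l ^ (2 * j')) ∈ HH A (4 * (l : ℤ)) := by
    rw [(h2 A _ hev).1]
    refine ⟨_, horb, ?_⟩
    rw [ac_Lm, mul_one]
    exact htr
  have m2 : Lm A (be A l ^ (2 * j') * z0 A) ∈ HH A (4 * (l : ℤ)) := by
    rw [(h2 A _ hev).1]
    refine ⟨_, horb, ?_⟩
    rw [ac_Lm, mul_one]
    refine Tr.stepP _ _ _ _ htr ?_ trivial
    rw [if_pos (by decide)]
  intro g hg
  obtain ⟨u, hu, v, hv, rfl⟩ := h3 A g hg
  refine O.mul_mem ?_ ?_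
  · refine conj_mem O _ hn _ m1 u (hF ?_)
    exact fix_conj _ F _ (fun f hf => (hi f (2 * j') (hj' f hf)).1) u hu
  · refine conj_mem O _ hn _ m2 v (hF ?_)
    refine fix_conj _ F _ (fun f hf => ?_) v hv
    rw [mul_inv_rev, z0_inv, mul_assoc]
    exact (A.leftP _ z0_not _ (hi f (2 * j') (hj' f hf)).1).1

end Pool.Agent.H338.PS
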