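import Pool.Agent.H338.PS.Stm

/-!
# The core of the vertex stabiliser is trivial
-/

set_option autoImplicit false

namespace Pool.Agent.H338.PS

namespace Tcore

variable {A : Amal}

theorem one_TP : (1 : A.Γ) ∈ A.TP := by
  have h := A.memTP 1
  rwa [map_one, map_one] at h

theorem one_TQ : (1 : A.Γ) ∈ A.TQ := by
  have h := A.memTQ 1
  rwa [map_one, map_one] at h

theorem step1 (x : GG A) (hx : ∀ g : GG A, ∃ q, ac (g * x * g⁻¹) 1 = A.iQ q) (γ : A.Γ) :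
    ∃ q, ac x γ = γ * A.iQ q := by
  obtain ⟨q, hq⟩ := hx (Lm A γ)⁻¹
  refine ⟨q, ?_⟩
  rw [ac_mul, ac_mul, inv_inv, ac_Lm, mul_one, ← Lm_inv, ac_Lm] at hq
  rw [← hq, mul_inv_cancel_left]

theorem step2 (x : GG A) (hx : ∀ g : GG A, ∃ q, ac (g * x * g⁻¹) 1 = A.iQ q) (γ : A.Γ)
    (q : Q4) (hq : ac x γ = γ * A.iQ q) (σ : Equiv.Perm (Fin 4))
    (hσ : ∀ z : P4, ac x (γ * A.iP z) = ac x γ * A.iP (z ∘ σ)) (z : P4) :
    ∃ q', A.iQ q * A.iP (z ∘ σ) = A.iP z * A.iQ q' := by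
  obtain ⟨q', hq'⟩ := step1 x hx (γ * A.iP z)
  refine ⟨q', ?_⟩
  rw [hσ z, hq, mul_assoc, mul_assoc] at hq'
  exact mul_left_cancel hq'

theorem step3 (q : Q4) (σ : Equiv.Perm (Fin 4))
    (h : ∀ z : P4, ∃ q', A.iQ q * A.iP (z ∘ σ) = A.iP z * A.iQ q') : ∃ s, q = qS s := by
  by_contra hn
  have hn' : ∀ s, q ≠ qS s := fun s hs => hn ⟨s, hs⟩
  obtain ⟨q', hq'⟩ := h (eP ![1, 0, 0, 0])
  have h1 := A.leftQ q hn' 1 one_TQ
  rw [mul_one] at h1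
  have h2 := A.TPP _ h1.1 h1.2 (eP ![1, 0, 0, 0] ∘ σ)
  have h3 := A.leftP (eP ![1, 0, 0, 0]) z1_not 1 one_TP
  rw [mul_one] at h3
  have h4 := A.TQQ _ h3.1 h3.2 q'
  rw [hq'] at h2
  exact h4.2 h2.1

theorem step4 (s : S5) (σ : Equiv.Perm (Fin 4))
    (h : ∀ z : P4, ∃ q', A.iQ (qS s) * A.iP (z ∘ σ) = A.iP z * A.iQ q') (z : P4) :
    ∃ t, dS s * (z ∘ σ : P4) = z * dS t := by
  obtain ⟨q', hq'⟩ := h z
  rw [← A.agree, ← map_mul] at hq'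
  have h1 : A.iQ q' = A.iP (z⁻¹ * (dS s * (z ∘ σ : P4))) := by
    rw [map_mul, hq', map_inv, inv_mul_cancel_left]
  have h2 : A.iQ q' ∈ A.TP := by
    have := A.TPQ 1 one_TP q'
    rwa [one_mul] at this
  have h3 : A.iQ q' ∈ A.TQ := by
    have := A.TQP 1 one_TQ (z⁻¹ * (dS s * (z ∘ σ : P4)))
    rwa [one_mul, ← h1] at this
  obtain ⟨t, ht⟩ := A.inter _ h2 h3
  refine ⟨t, ?_⟩
  rw [h1] at ht
  have h4 := A.injP ht
  rw [← h4, mul_inv_cancel_left]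

end Tcore

theorem t_core (h1 : St_cent) : St_core := by
  intro A x hx
  apply ac_ext
  intro γ
  rw [ac_one]
  obtain ⟨q, hq⟩ := Tcore.step1 x hx γ
  obtain ⟨σ, hσ⟩ := ruleP x γ
  have h2 := Tcore.step2 x hx γ q hq σ hσ
  obtain ⟨s, rfl⟩ := Tcore.step3 q σ h2
  have h3 := Tcore.step4 s σ h2
  have h4 : s = 1 := h1 s σ h3
  rw [hq, h4, map_one, map_one, mul_one]

end Pool.Agent.H338.PS
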