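import Pool.Agent.H338.PS.Stm

/-!
# The stabiliser of `1` is compact (helper860)
-/

set_option autoImplicit false

namespace Pool.Agent.H338.PS

open Topology

namespace Tcpt

variable {A : Amal}

theorem stepP (x : A.Γ) (z : P4) (h : ∃ S : Set A.Γ, S.Finite ∧ ∀ g ∈ G1 A, ac g x ∈ S) :
    ∃ S : Set A.Γ, S.Finite ∧ ∀ g ∈ G1 A, ac g (x * A.iP z) ∈ S := by
  obtain ⟨S, hS, h⟩ := h
  refine ⟨Set.image2 (fun a y => a * A.iP y) S Set.univ, hS.image2 _ Set.finite_univ,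
    fun g hg => ?_⟩
  obtain ⟨σ, hσ⟩ := ruleP g x
  rw [hσ z]
  exact ⟨_, h g hg, _, Set.mem_univ _, rfl⟩

theorem stepQ (x : A.Γ) (q : Q4) (h : ∃ S : Set A.Γ, S.Finite ∧ ∀ g ∈ G1 A, ac g x ∈ S) :
    ∃ S : Set A.Γ, S.Finite ∧ ∀ g ∈ G1 A, ac g (x * A.iQ q) ∈ S := by
  obtain ⟨S, hS, h⟩ := h
  refine ⟨Set.image2 (fun a y => a * A.iQ y) S Set.univ, hS.image2 _ Set.finite_univ,
    fun g hg => ?_⟩
  obtain ⟨b, hb⟩ := ruleQ g x
  rw [hb q]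
  exact ⟨_, h g hg, _, Set.mem_univ _, rfl⟩

theorem orbit_finite (γ : A.Γ) : ∃ S : Set A.Γ, S.Finite ∧ ∀ g ∈ G1 A, ac g γ ∈ S := by
  have hγ : γ ∈ Subgroup.closure (Set.range A.iP ∪ Set.range A.iQ) := by
    rw [A.gen]
    exact Subgroup.mem_top _
  induction hγ using Subgroup.closure_induction_right with
  | one => exact ⟨{1}, Set.finite_singleton _, fun g hg => mem_G1.1 hg⟩
  | mul_right x hx y hy ih =>
    rcases hy with ⟨z, rfl⟩ | ⟨q, rfl⟩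
    · exact stepP x z ih
    · exact stepQ x q ih
  | mul_inv_cancel x hx y hy ih =>
    rcases hy with ⟨z, rfl⟩ | ⟨q, rfl⟩
    · rw [← map_inv]
      exact stepP x _ ih
    · rw [← map_inv]
      exact stepQ x _ ih

/-- the map into the product -/
def Phi (A : Amal) (g : GG A) (γ : A.Γ) : A.Γ × A.Γ := (ac g γ, ac g⁻¹ γ)

/-- the conditions on the image of the stabiliser -/
def Cond (A : Amal) : Set (A.Γ → A.Γ × A.Γ) :=
  {F | (∀ γ, (F (F γ).2).1 = γ) ∧ (∀ γ, (F (F γ).1).2 = γ) ∧ (F 1).1 = 1 ∧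
    (∀ γ, ∃ σ : Equiv.Perm (Fin 4), ∀ z : P4, (F (γ * A.iP z)).1 = (F γ).1 * A.iP (z ∘ σ)) ∧
    (∀ γ, ∃ b : Bool, ∀ q : Q4, (F (γ * A.iQ q)).1 = (F γ).1 * A.iQ (eps b q))}

theorem image_eq (A : Amal) : Phi A '' (G1 A : Set (GG A)) = Cond A := by
  apply Set.Subset.antisymm
  · rintro _ ⟨g, hg, rfl⟩
    refine ⟨fun γ => ac_inv' g γ, fun γ => ac_inv g γ, mem_G1.1 hg, fun γ => ?_, fun γ => ?_⟩
    · exact ruleP g γ
    · exact ruleQ g γ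
  · rintro F ⟨h1, h2, h3, h4, h5⟩
    let p : Equiv.Perm A.Γ := ⟨fun γ => (F γ).1, fun γ => (F γ).2, h2, h1⟩
    have hp : p ∈ GG A := ⟨fun γ => h4 γ, fun γ => h5 γ⟩
    refine ⟨⟨p, hp⟩, h3, ?_⟩
    funext γ
    rfl

theorem isClosed_cond (A : Amal) :
    @IsClosed _ (@Pi.topologicalSpace A.Γ (fun _ => A.Γ × A.Γ) (fun _ => ⊥)) (Cond A) := by
  let τ : TopologicalSpace (A.Γ × A.Γ) := ⊥
  have : DiscreteTopology (A.Γ × A.Γ) := ⟨rfl⟩
  have hcl : ∀ (γ : A.Γ) (S : Set (A.Γ × A.Γ)), IsClosed {F : A.Γ → A.Γ × A.Γ | F γ ∈ S} := by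
    intro γ S
    exact (isClosed_discrete S).preimage (continuous_apply γ)
  have himp : ∀ (γ δ : A.Γ) (S T : Set (A.Γ × A.Γ)),
      IsClosed {F : A.Γ → A.Γ × A.Γ | F γ ∈ S → F δ ∈ T} := by
    intro γ δ S T
    have h : {F : A.Γ → A.Γ × A.Γ | F γ ∈ S → F δ ∈ T} =
        {F : A.Γ → A.Γ × A.Γ | F γ ∈ Sᶜ} ∪ {F : A.Γ → A.Γ × A.Γ | F δ ∈ T} := by
      ext F
      show (F γ ∈ S → F δ ∈ T) ↔ (F γ ∉ S ∨ F δ ∈ T)
      tauto
    rw [h]
    exact (hcl γ _).union (hcl δ _)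
  have e1 : ∀ γ : A.Γ, IsClosed {F : A.Γ → A.Γ × A.Γ | (F (F γ).2).1 = γ} := by
    intro γ
    have h : {F : A.Γ → A.Γ × A.Γ | (F (F γ).2).1 = γ} =
        ⋂ δ : A.Γ, {F : A.Γ → A.Γ × A.Γ | F γ ∈ {p : A.Γ × A.Γ | p.2 = δ} →
          F δ ∈ {p : A.Γ × A.Γ | p.1 = γ}} := by
      ext F
      rw [Set.mem_iInter]
      constructor
      · rintro h δ hδ
        have hδ' : (F γ).2 = δ := hδ
        show (F δ).1 = γ
        rw [← hδ']
        exact h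
      · intro h
        exact h (F γ).2 rfl
    rw [h]
    exact isClosed_iInter fun δ => himp _ _ _ _
  have e2 : ∀ γ : A.Γ, IsClosed {F : A.Γ → A.Γ × A.Γ | (F (F γ).1).2 = γ} := by
    intro γ
    have h : {F : A.Γ → A.Γ × A.Γ | (F (F γ).1).2 = γ} =
        ⋂ δ : A.Γ, {F : A.Γ → A.Γ × A.Γ | F γ ∈ {p : A.Γ × A.Γ | p.1 = δ} →
          F δ ∈ {p : A.Γ × A.Γ | p.2 = γ}} := by
      ext F
      rw [Set.mem_iInter]
      constructor
      · rintro h δ hδ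
        have hδ' : (F γ).1 = δ := hδ
        show (F δ).2 = γ
        rw [← hδ']
        exact h
      · intro h
        exact h (F γ).1 rfl
    rw [h]
    exact isClosed_iInter fun δ => himp _ _ _ _
  have e3 : IsClosed {F : A.Γ → A.Γ × A.Γ | (F 1).1 = 1} := hcl 1 {p | p.1 = 1}
  have e4 : ∀ γ δ y : A.Γ, IsClosed {F : A.Γ → A.Γ × A.Γ | (F δ).1 = (F γ).1 * y} := by
    intro γ δ y
    have h : {F : A.Γ → A.Γ × A.Γ | (F δ).1 = (F γ).1 * y} =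
        ⋂ ε : A.Γ, {F : A.Γ → A.Γ × A.Γ | F γ ∈ {p : A.Γ × A.Γ | p.1 = ε} →
          F δ ∈ {p : A.Γ × A.Γ | p.1 = ε * y}} := by
      ext F
      rw [Set.mem_iInter]
      constructor
      · rintro h ε hε
        have hε' : (F γ).1 = ε := hε
        show (F δ).1 = ε * y
        rw [← hε']
        exact h
      · intro h
        exact h (F γ).1 rfl
    rw [h]
    exact isClosed_iInter fun ε => himp _ _ _ _
  have hC : Cond A = (⋂ γ : A.Γ, {F : A.Γ → A.Γ × A.Γ | (F (F γ).2).1 = γ}) ∩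
      ((⋂ γ : A.Γ, {F : A.Γ → A.Γ × A.Γ | (F (F γ).1).2 = γ}) ∩
        ({F : A.Γ → A.Γ × A.Γ | (F 1).1 = 1} ∩
          ((⋂ γ : A.Γ, ⋃ σ : Equiv.Perm (Fin 4), ⋂ z : P4,
            {F : A.Γ → A.Γ × A.Γ | (F (γ * A.iP z)).1 = (F γ).1 * A.iP (z ∘ σ)}) ∩
          ⋂ γ : A.Γ, ⋃ b : Bool, ⋂ q : Q4,
            {F : A.Γ → A.Γ × A.Γ | (F (γ * A.iQ q)).1 = (F γ).1 * A.iQ (eps b q)}))) := by
    ext F
    simp only [Cond, Set.mem_inter_iff, Set.mem_iInter, Set.mem_iUnion, Set.mem_ofPred_eq]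
  rw [hC]
  refine (isClosed_iInter e1).inter ((isClosed_iInter e2).inter (e3.inter
    ((isClosed_iInter fun γ => ?_).inter (isClosed_iInter fun γ => ?_))))
  · exact isClosed_iUnion_of_finite fun σ => isClosed_iInter fun z => e4 _ _ _
  · exact isClosed_iUnion_of_finite fun b => isClosed_iInter fun q => e4 _ _ _

end Tcpt

open Tcpt in
theorem t_cpt : St_cpt := by
  intro A
  have hclosed := isClosed_cond A
  let τ : TopologicalSpace (A.Γ × A.Γ) := ⊥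
  have : DiscreteTopology (A.Γ × A.Γ) := ⟨rfl⟩
  have hind : Topology.IsInducing (Phi A) := ⟨rfl⟩
  rw [hind.isCompact_iff, image_eq A]
  choose S hS hSg using fun γ : A.Γ => orbit_finite (A := A) γ
  have hcomp : IsCompact (Set.pi Set.univ fun γ : A.Γ => (S γ ×ˢ S γ : Set (A.Γ × A.Γ))) :=
    isCompact_univ_pi fun γ => ((hS γ).prod (hS γ)).isCompact
  refine hcomp.of_isClosed_subset hclosed ?_
  rw [← image_eq A]
  rintro _ ⟨g, hg, rfl⟩ γ _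
  exact ⟨hSg γ g hg, hSg γ g⁻¹ ((G1 A).inv_mem hg)⟩

end Pool.Agent.H338.PS
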