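import Pool.Agent.H338.PS.Stm

/-!
# The stabiliser of `1` is the product of two half-tree fixators
-/

set_option autoImplicit false

namespace Pool.Agent.H338.PS

namespace Tdec

variable {A : Amal}

theorem fixS0 {g : GG A} (hg : g ∈ G1 A) (s : S5) : ac g (A.iP (dS s)) = A.iP (dS s) := by
  obtain ⟨σ, hσ⟩ := ruleP g 1
  have h := hσ (dS s)
  rw [one_mul, mem_G1.1 hg, one_mul] at h
  exact h

theorem fixS1 {g : GG A} (hg : g ∈ G1 A) {γ : A.Γ} (h1 : γ ∈ A.TP) (h2 : γ ∈ A.TQ) :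
    ac g γ = γ := by
  obtain ⟨s, rfl⟩ := A.inter γ h1 h2
  exact fixS0 hg s

theorem one_TP : (1 : A.Γ) ∈ A.TP := by
  have h := A.memTP 1
  rwa [show dS (1 : S5) = 1 from rfl, map_one] at h

theorem one_TQ : (1 : A.Γ) ∈ A.TQ := by
  have h := A.memTQ 1
  rwa [show dS (1 : S5) = 1 from rfl, map_one] at h

/-- the induction statement -/
def I (γ : A.Γ) : Prop := ∀ g ∈ G1 A, (γ ∈ A.TP → ac g γ ∈ A.TP) ∧ (γ ∈ A.TQ → ac g γ ∈ A.TQ)

theorem strictP {γ : A.Γ} (h : I γ) {g : GG A} (hg : g ∈ G1 A) (h1 : γ ∈ A.TP) (h2 : γ ∉ A.TQ) :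
    ac g γ ∈ A.TP ∧ ac g γ ∉ A.TQ := by
  have h3 := (h g hg).1 h1
  refine ⟨h3, fun h4 => h2 ?_⟩
  have h5 := fixS1 ((G1 A).inv_mem hg) h3 h4
  rw [ac_inv] at h5
  rw [h5]
  exact h4

theorem strictQ {γ : A.Γ} (h : I γ) {g : GG A} (hg : g ∈ G1 A) (h1 : γ ∈ A.TQ) (h2 : γ ∉ A.TP) :
    ac g γ ∈ A.TQ ∧ ac g γ ∉ A.TP := by
  have h3 := (h g hg).2 h1
  refine ⟨h3, fun h4 => h2 ?_⟩
  have h5 := fixS1 ((G1 A).inv_mem hg) h4 h3
  rw [ac_inv] at h5
  rw [h5]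
  exact h4

theorem stepP {γ : A.Γ} (h : I γ) (y : P4) : I (γ * A.iP y) := by
  intro g hg
  obtain ⟨σ, hσ⟩ := ruleP g γ
  constructor
  · intro hP
    by_cases h1 : γ ∈ A.TP
    · by_cases h2 : γ ∈ A.TQ
      · obtain ⟨s, rfl⟩ := A.inter γ h1 h2
        by_cases hv : ∀ t, dS s * y ≠ dS t
        · have h3 := (A.leftP (dS s * y) hv 1 one_TP).2
          rw [mul_one, map_mul] at h3
          exact absurd hP h3
        · push Not at hv
          obtain ⟨t, ht⟩ := hv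
          rw [← map_mul, ht, fixS0 hg]
          exact A.memTP t
      · have h3 := strictP h hg h1 h2
        rw [hσ y]
        exact (A.TPP _ h3.1 h3.2 _).1
    · have h2 : γ ∈ A.TQ := (A.cover γ).resolve_left h1
      rw [fixS1 hg hP (A.TQP γ h2 y)]
      exact hP
  · intro hQ
    by_cases h2 : γ ∈ A.TQ
    · rw [hσ y]
      exact A.TQP _ ((h g hg).2 h2) _
    · have h1 : γ ∈ A.TP := (A.cover γ).resolve_right h2
      exact absurd hQ (A.TPP γ h1 h2 y).2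

theorem stepQ {γ : A.Γ} (h : I γ) (q : Q4) : I (γ * A.iQ q) := by
  intro g hg
  obtain ⟨b, hb⟩ := ruleQ g γ
  constructor
  · intro hP
    by_cases h1 : γ ∈ A.TP
    · rw [hb q]
      exact A.TPQ _ ((h g hg).1 h1) _
    · have h2 : γ ∈ A.TQ := (A.cover γ).resolve_left h1
      exact absurd hP (A.TQQ γ h2 h1 q).2
  · intro hQ
    by_cases h2 : γ ∈ A.TQ
    · by_cases h1 : γ ∈ A.TP
      · obtain ⟨s, rfl⟩ := A.inter γ h1 h2
        by_cases hv : ∀ t, qS s * q ≠ qS t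
        · have h3 := (A.leftQ (qS s * q) hv 1 one_TQ).2
          rw [mul_one, map_mul, ← A.agree] at h3
          exact absurd hQ h3
        · push Not at hv
          obtain ⟨t, ht⟩ := hv
          rw [A.agree, ← map_mul, ht, ← A.agree, fixS0 hg]
          exact A.memTQ t
      · have h3 := strictQ h hg h2 h1
        rw [hb q]
        exact (A.TQQ _ h3.1 h3.2 _).1
    · have h1 : γ ∈ A.TP := (A.cover γ).resolve_right h2
      rw [fixS1 hg (A.TPQ γ h1 q) hQ]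
      exact hQ

theorem all (γ : A.Γ) : I γ := by
  have hγ : γ ∈ Subgroup.closure (Set.range A.iP ∪ Set.range A.iQ) := by
    rw [A.gen]
    exact Subgroup.mem_top γ
  induction hγ using Subgroup.closure_induction_right with
  | one =>
    intro g hg
    rw [mem_G1.1 hg]
    exact ⟨fun h => h, fun h => h⟩
  | mul_right x hx y hy ih =>
    rcases hy with ⟨z, rfl⟩ | ⟨z, rfl⟩
    · exact stepP ih z
    · exact stepQ ih z
  | mul_inv_cancel x hx y hy ih =>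
    rcases hy with ⟨z, rfl⟩ | ⟨z, rfl⟩
    · rw [← map_inv]
      exact stepP ih _
    · rw [← map_inv]
      exact stepQ ih _

theorem mP {g : GG A} (hg : g ∈ G1 A) {γ : A.Γ} (h : γ ∈ A.TP) : ac g γ ∈ A.TP :=
  (all γ g hg).1 h

theorem mQ {g : GG A} (hg : g ∈ G1 A) {γ : A.Γ} (h : γ ∈ A.TQ) : ac g γ ∈ A.TQ :=
  (all γ g hg).2 h

open Classical in
/-- `g` on a set, the identity outside -/
noncomputable def pf (T : Set A.Γ) (g : GG A) (γ : A.Γ) : A.Γ := if γ ∈ T then ac g γ else γ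

theorem pf_mem {T : Set A.Γ} (g : GG A) {γ : A.Γ} (h : γ ∈ T) : pf T g γ = ac g γ := if_pos h

theorem pf_not {T : Set A.Γ} (g : GG A) {γ : A.Γ} (h : γ ∉ T) : pf T g γ = γ := if_neg h

theorem pf_inv {T : Set A.Γ} {g h : GG A} (hgh : ∀ γ, ac h (ac g γ) = γ)
    (hT : ∀ γ ∈ T, ac g γ ∈ T) (γ : A.Γ) : pf T h (pf T g γ) = γ := by
  by_cases h1 : γ ∈ T
  · rw [pf_mem g h1, pf_mem h (hT γ h1), hgh]
  · rw [pf_not g h1, pf_not h h1]

/-- the permutation -/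
noncomputable def pe (T : Set A.Γ) (g : GG A) (hT : ∀ γ ∈ T, ac g γ ∈ T)
    (hT' : ∀ γ ∈ T, ac g⁻¹ γ ∈ T) : Equiv.Perm A.Γ where
  toFun := pf T g
  invFun := pf T g⁻¹
  left_inv := pf_inv (ac_inv g) hT
  right_inv := pf_inv (ac_inv' g) hT'

theorem uP {g : GG A} (hg : g ∈ G1 A) {γ : A.Γ} (h : γ ∈ A.TP) : pf A.TQ g γ = γ := by
  by_cases h2 : γ ∈ A.TQ
  · rw [pf_mem g h2, fixS1 hg h h2]
  · exact pf_not g h2

theorem vQ {g : GG A} (hg : g ∈ G1 A) {γ : A.Γ} (h : γ ∈ A.TQ) : pf A.TP g γ = γ := by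
  by_cases h2 : γ ∈ A.TP
  · rw [pf_mem g h2, fixS1 hg h2 h]
  · exact pf_not g h2

theorem exu {g : GG A} (hg : g ∈ G1 A) : ∃ u : GG A, ∀ γ, ac u γ = pf A.TQ g γ := by
  refine ⟨⟨pe A.TQ g (fun γ h => mQ hg h) (fun γ h => mQ ((G1 A).inv_mem hg) h), ?_, ?_⟩,
    fun γ => rfl⟩
  · intro γ
    show ∃ σ : Equiv.Perm (Fin 4), ∀ z : P4,
      pf A.TQ g (γ * A.iP z) = pf A.TQ g γ * A.iP (z ∘ σ)
    by_cases h : γ ∈ A.TQ
    · obtain ⟨σ, hσ⟩ := ruleP g γ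
      refine ⟨σ, fun z => ?_⟩
      rw [pf_mem g h, pf_mem g (A.TQP γ h z), hσ z]
    · have h1 : γ ∈ A.TP := (A.cover γ).resolve_right h
      refine ⟨1, fun z => ?_⟩
      rw [pf_not g h, pf_not g (A.TPP γ h1 h z).2]
      rfl
  · intro γ
    show ∃ b : Bool, ∀ q : Q4, pf A.TQ g (γ * A.iQ q) = pf A.TQ g γ * A.iQ (eps b q)
    by_cases h : γ ∈ A.TP
    · refine ⟨false, fun q => ?_⟩
      rw [uP hg h, uP hg (A.TPQ γ h q)]
      rfl
    · have h1 : γ ∈ A.TQ := (A.cover γ).resolve_left h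
      obtain ⟨b, hb⟩ := ruleQ g γ
      refine ⟨b, fun q => ?_⟩
      rw [pf_mem g h1, pf_mem g (A.TQQ γ h1 h q).1, hb q]

theorem exv {g : GG A} (hg : g ∈ G1 A) : ∃ v : GG A, ∀ γ, ac v γ = pf A.TP g γ := by
  refine ⟨⟨pe A.TP g (fun γ h => mP hg h) (fun γ h => mP ((G1 A).inv_mem hg) h), ?_, ?_⟩,
    fun γ => rfl⟩
  · intro γ
    show ∃ σ : Equiv.Perm (Fin 4), ∀ z : P4,
      pf A.TP g (γ * A.iP z) = pf A.TP g γ * A.iP (z ∘ σ)
    by_cases h : γ ∈ A.TQ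
    · refine ⟨1, fun z => ?_⟩
      rw [vQ hg h, vQ hg (A.TQP γ h z)]
      rfl
    · have h1 : γ ∈ A.TP := (A.cover γ).resolve_right h
      obtain ⟨σ, hσ⟩ := ruleP g γ
      refine ⟨σ, fun z => ?_⟩
      rw [pf_mem g h1, pf_mem g (A.TPP γ h1 h z).1, hσ z]
  · intro γ
    show ∃ b : Bool, ∀ q : Q4, pf A.TP g (γ * A.iQ q) = pf A.TP g γ * A.iQ (eps b q)
    by_cases h : γ ∈ A.TP
    · obtain ⟨b, hb⟩ := ruleQ g γ
      refine ⟨b, fun q => ?_⟩
      rw [pf_mem g h, pf_mem g (A.TPQ γ h q), hb q]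
    · have h1 : γ ∈ A.TQ := (A.cover γ).resolve_left h
      refine ⟨false, fun q => ?_⟩
      rw [pf_not g h, pf_not g (A.TQQ γ h1 h q).2]
      rfl

end Tdec

open Tdec in
theorem t_dec : St_dec := by
  intro A g hg
  obtain ⟨u, hu⟩ := exu hg
  obtain ⟨v, hv⟩ := exv hg
  refine ⟨u, mem_fixS.2 fun γ h => ?_, v, mem_fixS.2 fun γ h => ?_, ac_ext fun γ => ?_⟩
  · rw [hu, uP hg h]
  · rw [hv, vQ hg h]
  · rw [ac_mul, hu, hv]
    by_cases h : γ ∈ A.TP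
    · rw [pf_mem g h]
      exact (uP hg (mP hg h)).symm
    · have h1 : γ ∈ A.TQ := (A.cover γ).resolve_left h
      rw [pf_not g h, pf_mem g h1]

end Pool.Agent.H338.PS
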