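import Pool.Agent.H338.PS.Stm

/-!
# Pointwise stabilisers are open, closed, and a basis at the identity
-/

set_option autoImplicit false

namespace Pool.Agent.H338.PS

open Topology

namespace Tfix

variable {A : Amal}

/-- the product topology -/
abbrev tpi (A : Amal) : TopologicalSpace (A.Γ → A.Γ × A.Γ) :=
  @Pi.topologicalSpace A.Γ (fun _ => A.Γ × A.Γ) (fun _ => ⊥)

theorem isOpen_pre (γ : A.Γ) (S : Set (A.Γ × A.Γ)) :
    IsOpen {g : GG A | (ac g γ, ac g⁻¹ γ) ∈ S} := by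
  refine (@isOpen_induced_iff _ _ (tpi A) _ _).mpr ⟨{f | f γ ∈ S}, ?_, rfl⟩
  have h : @Continuous _ _ (tpi A) ⊥ (fun f : A.Γ → A.Γ × A.Γ => f γ) :=
    @continuous_apply A.Γ (fun _ => A.Γ × A.Γ) (fun _ => ⊥) γ
  exact @IsOpen.preimage _ _ (tpi A) ⊥ _ h S trivial

theorem isOpen_eq (γ δ : A.Γ) : IsOpen {g : GG A | ac g γ = δ} :=
  isOpen_pre γ {p | p.1 = δ}

theorem isClosed_eq' (γ δ : A.Γ) : IsClosed {g : GG A | ac g γ = δ} := by
  rw [← isOpen_compl_iff]
  exact isOpen_pre γ {p | ¬ p.1 = δ}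

end Tfix

open Tfix in
theorem t_fix : St_fix := by
  intro A
  refine ⟨?_, ?_, ?_⟩
  · intro F
    have h1 : (fixS A (F : Set A.Γ) : Set (GG A)) = ⋂ γ ∈ F, {g : GG A | ac g γ = γ} := by
      ext g
      simp only [Set.mem_iInter]
      exact Iff.rfl
    rw [h1]
    exact isOpen_biInter_finset fun γ _ => isOpen_eq γ γ
  · intro O hO h1
    obtain ⟨s, hs, rfl⟩ := (@isOpen_induced_iff _ _ (tpi A) _ _).mp hO
    obtain ⟨I, u, hu, hI⟩ := (@isOpen_pi_iff A.Γ (fun _ => A.Γ × A.Γ) (fun _ => ⊥) s).mp hs _ h1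
    refine ⟨I, fun g hg => hI fun i hi => ?_⟩
    have h2 : ac g i = i := hg i hi
    have h3 : ac g⁻¹ i = i := by
      have := ac_inv g i
      rwa [h2] at this
    have h4 := (hu i hi).2
    change (ac g i, ac g⁻¹ i) ∈ u i
    rw [h2, h3]
    exact h4
  · intro T
    have h1 : (fixS A T : Set (GG A)) = ⋂ γ ∈ T, {g : GG A | ac g γ = γ} := by
      ext g
      simp only [Set.mem_iInter]
      exact Iff.rfl
    rw [h1]
    exact isClosed_biInter fun γ _ => isClosed_eq' γ γ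

end Pool.Agent.H338.PS
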