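import Pool.Agent.H338.PS.Stm

/-!
# The folding map: from the line of period `2 L` to the line of period `L`
-/

set_option autoImplicit false

namespace Pool.Agent.H338.PS

namespace Tfold

theorem Xs_add {c : ℤ} (hc : Even c) (n : ℤ) : Xs (n + c) = Xs n + c := by
  unfold Xs
  rcases Int.even_or_odd n with h | h
  · have h1 : Even (n + c) := h.add hc
    rw [if_pos h, if_pos h1]; ring
  · have h0 : ¬ Even n := Int.not_even_iff_odd.2 h
    have h1 : ¬ Even (n + c) := Int.not_even_iff_odd.2 (h.add_even hc)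
    rw [if_neg h0, if_neg h1]; ring

theorem Ys_add {c : ℤ} (hc : Even c) (n : ℤ) : Ys (n + c) = Ys n + c := by
  unfold Ys
  rcases Int.even_or_odd n with h | h
  · have h1 : Even (n + c) := h.add hc
    rw [if_pos h, if_pos h1]; ring
  · have h0 : ¬ Even n := Int.not_even_iff_odd.2 h
    have h1 : ¬ Even (n + c) := Int.not_even_iff_odd.2 (h.add_even hc)
    rw [if_neg h0, if_neg h1]; ring

theorem Ws_add {c : ℤ} (hc : Even c) (n : ℤ) : Ws (n + c) = Ws n + c := by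
  unfold Ws
  rcases Int.even_or_odd n with h | h
  · have h1 : Even (n + c) := h.add hc
    rw [if_pos h, if_pos h1]
  · have h0 : ¬ Even n := Int.not_even_iff_odd.2 h
    have h1 : ¬ Even (n + c) := Int.not_even_iff_odd.2 (h.add_even hc)
    rw [if_neg h0, if_neg h1]; ring

theorem even_refl {c n : ℤ} (hc : Even c) (h : Even n) : ¬ Even (c - 1 - n) := by
  obtain ⟨a, rfl⟩ := hc
  obtain ⟨b, rfl⟩ := h
  rintro ⟨d, hd⟩
  omega

theorem odd_refl {c n : ℤ} (hc : Even c) (h : Odd n) : Even (c - 1 - n) := by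
  obtain ⟨a, rfl⟩ := hc
  obtain ⟨b, rfl⟩ := h
  exact ⟨a - b - 1, by ring⟩

theorem Xs_sub {c : ℤ} (hc : Even c) (n : ℤ) : Xs (c - 1 - n) = c - 1 - Xs n := by
  unfold Xs
  rcases Int.even_or_odd n with h | h
  · rw [if_pos h, if_neg (even_refl hc h)]; ring
  · rw [if_neg (Int.not_even_iff_odd.2 h), if_pos (odd_refl hc h)]; ring

theorem Ys_sub {c : ℤ} (hc : Even c) (n : ℤ) : Ys (c - 1 - n) = c - 1 - Ys n := by
  unfold Ys
  rcases Int.even_or_odd n with h | h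
  · rw [if_pos h, if_neg (even_refl hc h)]; ring
  · rw [if_neg (Int.not_even_iff_odd.2 h), if_pos (odd_refl hc h)]; ring

theorem Ws_sub {c : ℤ} (hc : Even c) (n : ℤ) : Ws (c - 1 - n) = c - Ws n := by
  unfold Ws
  rcases Int.even_or_odd n with h | h
  · rw [if_pos h, if_neg (even_refl hc h)]; ring
  · rw [if_neg (Int.not_even_iff_odd.2 h), if_pos (odd_refl hc h)]; ring

variable {L : ℤ} {f : ℤ → ℤ}

theorem even_a (hL : Even L) (j : ℤ) : Even (2 * j * (2 * L)) := by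
  obtain ⟨a, rfl⟩ := hL
  exact ⟨j * (2 * (a + a)), by ring⟩

theorem even_b (hL : Even L) (j : ℤ) : Even ((2 * j + 1) * (2 * L)) := by
  obtain ⟨a, rfl⟩ := hL
  exact ⟨(2 * j + 1) * (a + a), by ring⟩

theorem fX (hL : Even L) (hf : Sy (2 * L) f) (n : ℤ) : Xs (f n) = f (Xs n) := by
  obtain ⟨j, h | h⟩ := hf
  · rw [h, h, Xs_add (even_a hL j)]
  · rw [h, h, Xs_sub (even_b hL j)]

theorem fY (hL : Even L) (hf : Sy (2 * L) f) (n : ℤ) : Ys (f n) = f (Ys n) := by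
  obtain ⟨j, h | h⟩ := hf
  · rw [h, h, Ys_add (even_a hL j)]
  · rw [h, h, Ys_sub (even_b hL j)]

theorem fW (hL : Even L) (hf : Sy (2 * L) f) (n : ℤ) :
    2 * L ∣ Ws (f n) ↔ 2 * L ∣ Ws n := by
  obtain ⟨j, h | h⟩ := hf
  · rw [h, Ws_add (even_a hL j)]
    exact dvd_add_left (Dvd.intro_left _ rfl)
  · rw [h, Ws_sub (even_b hL j)]
    exact dvd_sub_right (Dvd.intro_left _ rfl)

theorem Sy_r1 (hf : Sy (2 * L) f) : Sy (2 * L) (fun n => f (2 * L - 1 - n)) := by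
  obtain ⟨j, h | h⟩ := hf
  · exact ⟨j, Or.inr fun n => by simp only [h]; ring⟩
  · exact ⟨j, Or.inl fun n => by simp only [h]; ring⟩

theorem Sy_r2 (hf : Sy (2 * L) f) : Sy (2 * L) (fun n => f (-(2 * L) - 1 - n)) := by
  obtain ⟨j, h | h⟩ := hf
  · exact ⟨j - 1, Or.inr fun n => by simp only [h]; ring⟩
  · exact ⟨j + 1, Or.inl fun n => by simp only [h]; ring⟩

/-- The crossing map at an odd vertex preserves the window `[-L, L - 1]`. -/
theorem Xs_win (hL : Even L) {m : ℤ} (h1 : -L ≤ m) (h2 : m ≤ L - 1) :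
    -L ≤ Xs m ∧ Xs m ≤ L - 1 := by
  obtain ⟨a, rfl⟩ := hL
  unfold Xs
  rcases Int.even_or_odd m with h | h
  · rw [if_pos h]
    obtain ⟨b, rfl⟩ := h
    constructor <;> omega
  · rw [if_neg (Int.not_even_iff_odd.2 h)]
    obtain ⟨b, rfl⟩ := h
    constructor <;> omega

theorem Ws_win (hL : Even L) {m : ℤ} (h1 : -L ≤ m) (h2 : m ≤ L - 1) :
    -L ≤ Ws m ∧ Ws m ≤ L := by
  obtain ⟨a, rfl⟩ := hL
  unfold Ws
  rcases Int.even_or_odd m with h | h
  · rw [if_pos h]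
    constructor <;> omega
  · rw [if_neg (Int.not_even_iff_odd.2 h)]
    constructor <;> omega

/-- The crossing map at an even vertex inside the window preserves the window. -/
theorem Ys_win (hL : Even L) {m : ℤ} (h1 : -L ≤ m) (h2 : m ≤ L - 1) (h3 : Ws m ≠ L)
    (h4 : Ws m ≠ -L) : -L ≤ Ys m ∧ Ys m ≤ L - 1 := by
  obtain ⟨a, rfl⟩ := hL
  unfold Ys
  unfold Ws at h3 h4
  rcases Int.even_or_odd m with h | h
  · rw [if_pos h]
    rw [if_pos h] at h3 h4
    obtain ⟨b, rfl⟩ := h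
    constructor <;> omega
  · rw [if_neg (Int.not_even_iff_odd.2 h)]
    rw [if_neg (Int.not_even_iff_odd.2 h)] at h3 h4
    obtain ⟨b, rfl⟩ := h
    constructor <;> omega

/-- At the right end of the window. -/
theorem Ws_right (hL : Even L) {m : ℤ} (h2 : m ≤ L - 1) (h3 : Ws m = L) :
    Ys m = 2 * L - 1 - m := by
  obtain ⟨a, rfl⟩ := hL
  unfold Ys
  unfold Ws at h3
  rcases Int.even_or_odd m with h | h
  · rw [if_pos h] at h3
    omega
  · rw [if_neg (Int.not_even_iff_odd.2 h)] at h3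
    rw [if_neg (Int.not_even_iff_odd.2 h)]
    omega

/-- At the left end of the window. -/
theorem Ws_left (hL : Even L) {m : ℤ} (h1 : -L ≤ m) (h3 : Ws m = -L) :
    Ys m = -(2 * L) - 1 - m := by
  obtain ⟨a, rfl⟩ := hL
  unfold Ys
  unfold Ws at h3
  rcases Int.even_or_odd m with h | h
  · rw [if_pos h] at h3
    rw [if_pos h]
    omega
  · rw [if_neg (Int.not_even_iff_odd.2 h)] at h3
    omega

theorem dvd_small {w : ℤ} (hpos : 0 < L) (h1 : -L ≤ w) (h2 : w ≤ L) (hd : L ∣ w) :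
    w = 0 ∨ w = L ∨ w = -L := by
  obtain ⟨t, rfl⟩ := hd
  have ht1 : t ≤ 1 := by
    by_contra hc
    have : 2 ≤ t := by omega
    nlinarith
  have ht2 : -1 ≤ t := by
    by_contra hc
    have : t ≤ -2 := by omega
    nlinarith
  have ht : t = 0 ∨ t = 1 ∨ t = -1 := by omega
  rcases ht with rfl | rfl | rfl
  · left; ring
  · right; left; ring
  · right; right; ring

theorem dvd_small2 {w : ℤ} (hpos : 0 < L) (h1 : -L ≤ w) (h2 : w ≤ L) (hd : 2 * L ∣ w) :
    w = 0 := by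
  have h3 : L ∣ w := (Dvd.intro_left 2 rfl).trans hd
  rcases dvd_small hpos h1 h2 h3 with h | h | h
  · exact h
  · subst h
    obtain ⟨t, ht⟩ := hd
    exfalso
    have h5 : w * (2 * t - 1) = 0 := by linear_combination -ht
    rcases mul_eq_zero.1 h5 with h6 | h6 <;> omega
  · obtain ⟨t, ht⟩ := hd
    exfalso
    have h5 : L * (2 * t + 1) = 0 := by linear_combination h - ht
    rcases mul_eq_zero.1 h5 with h6 | h6 <;> omega

/-- The folding of a path. -/
theorem claim (A : Amal) (hL : Even L) (hpos : 0 < L) (γ : A.Γ) (m : ℤ)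
    (h : Tr A (2 * L) allZ 0 γ m) :
    ∃ f : ℤ → ℤ, Sy (2 * L) f ∧ ∃ m₁ : ℤ, -L ≤ m₁ ∧ m₁ ≤ L - 1 ∧ m = f m₁ ∧
      Tr A L allZ 0 γ m₁ := by
  induction h with
  | refl hn =>
    refine ⟨id, ⟨0, Or.inl fun n => by simp⟩, 0, by omega, by omega, rfl, Tr.refl trivial⟩
  | stepP m m' γ e h hm hB ih =>
    obtain ⟨f, hf, m₁, h1, h2, h3, h4⟩ := ih
    by_cases he : sm e = 0
    · refine ⟨f, hf, m₁, h1, h2, ?_, Tr.stepP m₁ m₁ γ e h4 (by rw [if_pos he]) trivial⟩
      rw [hm, if_pos he, h3]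
    · obtain ⟨h5, h6⟩ := Xs_win hL h1 h2
      refine ⟨f, hf, Xs m₁, h5, h6, ?_, Tr.stepP m₁ (Xs m₁) γ e h4 (by rw [if_neg he]) trivial⟩
      rw [hm, if_neg he, h3, fX hL hf]
  | stepF m m' γ c x y h hdv hm hB ih =>
    obtain ⟨f, hf, m₁, h1, h2, h3, h4⟩ := ih
    obtain ⟨h7, h8⟩ := Ws_win hL h1 h2
    have hd1 : 2 * L ∣ Ws m₁ := by rw [← fW hL hf, ← h3]; exact hdv
    have hd2 : Ws m₁ = 0 := dvd_small2 hpos h7 h8 hd1
    have hd3 : L ∣ Ws m₁ := (Dvd.intro_left 2 rfl).trans hd1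
    by_cases he : y = 0
    · refine ⟨f, hf, m₁, h1, h2, ?_, Tr.stepF m₁ m₁ γ c x y h4 hd3 (by rw [if_pos he]) trivial⟩
      rw [hm, if_pos he, h3]
    · obtain ⟨h5, h6⟩ := Ys_win hL h1 h2 (by omega) (by omega)
      refine ⟨f, hf, Ys m₁, h5, h6, ?_,
        Tr.stepF m₁ (Ys m₁) γ c x y h4 hd3 (by rw [if_neg he]) trivial⟩
      rw [hm, if_neg he, h3, fY hL hf]
  | stepT m m' γ c x h hdv hm hB ih =>
    obtain ⟨f, hf, m₁, h1, h2, h3, h4⟩ := ih
    obtain ⟨h7, h8⟩ := Ws_win hL h1 h2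
    have hd1 : ¬ 2 * L ∣ Ws m₁ := by rw [← fW hL hf, ← h3]; exact hdv
    by_cases hd : L ∣ Ws m₁
    · have hst : Tr A L allZ 0 (γ * A.iQ (eQ c x 0)) m₁ :=
        Tr.stepF m₁ m₁ γ c x 0 h4 hd (by rw [if_pos rfl]) trivial
      by_cases he : x = 0
      · refine ⟨f, hf, m₁, h1, h2, ?_, hst⟩
        rw [hm, if_pos he, h3]
      · rcases dvd_small hpos h7 h8 hd with h9 | h9 | h9
        · exfalso
          apply hd1
          rw [h9]
          exact dvd_zero _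
        · refine ⟨_, Sy_r1 hf, m₁, h1, h2, ?_, hst⟩
          rw [hm, if_neg he, h3, fY hL hf, Ws_right hL h2 h9]
        · refine ⟨_, Sy_r2 hf, m₁, h1, h2, ?_, hst⟩
          rw [hm, if_neg he, h3, fY hL hf, Ws_left hL h1 h9]
    · by_cases he : x = 0
      · refine ⟨f, hf, m₁, h1, h2, ?_, Tr.stepT m₁ m₁ γ c x h4 hd (by rw [if_pos he]) trivial⟩
        rw [hm, if_pos he, h3]
      · have h9 : Ws m₁ ≠ L := fun h0 => hd (by rw [h0])
        have h10 : Ws m₁ ≠ -L := fun h0 => hd (by rw [h0]; exact (dvd_neg).2 dvd_rfl)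
        obtain ⟨h5, h6⟩ := Ys_win hL h1 h2 h9 h10
        refine ⟨f, hf, Ys m₁, h5, h6, ?_,
          Tr.stepT m₁ (Ys m₁) γ c x h4 hd (by rw [if_neg he]) trivial⟩
        rw [hm, if_neg he, h3, fY hL hf]

theorem zero_a {m t : ℤ} (hpos : 0 < L) (h1 : -L ≤ m) (h2 : m ≤ L - 1)
    (h : m = 2 * t * (2 * L)) : m = 0 := by
  have ht1 : t ≤ 0 := by
    by_contra hc
    have : 1 ≤ t := by omega
    nlinarith
  have ht2 : 0 ≤ t := by
    by_contra hc
    have : t ≤ -1 := by omega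
    nlinarith
  have ht : t = 0 := le_antisymm ht1 ht2
  rw [h, ht]; ring

theorem zero_b {m t : ℤ} (hpos : 0 < L) (h1 : -L ≤ m) (h2 : m ≤ L - 1)
    (h : m = (2 * t + 1) * (2 * L) - 1) : False := by
  rcases le_or_gt 0 t with ht | ht
  · nlinarith
  · have : t ≤ -1 := by omega
    nlinarith

end Tfold

theorem t_fold : St_fold := by
  intro A l hl n γ hn h
  have hL : Even (4 * (l : ℤ)) := ⟨2 * l, by ring⟩
  have hpos : 0 < 4 * (l : ℤ) := by omega
  obtain ⟨f, hf, m₁, h1, h2, h3, h4⟩ := Tfold.claim A hL hpos γ n h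
  have h0 : m₁ = 0 := by
    obtain ⟨j, hj⟩ := hn
    obtain ⟨i, hi⟩ := hf
    rcases hj with hj | hj <;> rcases hi with hi | hi <;> rw [h3, hi] at hj
    · exact Tfold.zero_a (t := j - i) hpos h1 h2 (by linear_combination hj)
    · exact (Tfold.zero_b (t := i - j) hpos h1 h2 (by linear_combination -hj)).elim
    · exact (Tfold.zero_b (t := j - i) hpos h1 h2 (by linear_combination hj)).elim
    · exact Tfold.zero_a (t := i - j) hpos h1 h2 (by linear_combination -hj)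
  rw [h0] at h4
  exact h4

end Pool.Agent.H338.PS
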