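import Pool.Agent.H338.PS.Stm

/-!
# Normal subgroups that contain the stabiliser of `1`
-/

set_option autoImplicit false

namespace Pool.Agent.H338.PS

namespace Tgen

variable {A : Amal}

theorem one_TP : (1 : A.Γ) ∈ A.TP := by
  have h := A.memTP 1
  rwa [map_one, map_one] at h

theorem one_TQ : (1 : A.Γ) ∈ A.TQ := by
  have h := A.memTQ 1
  rwa [map_one, map_one] at h

variable (A) in
/-- left multiplication as a homomorphism -/
def LH : A.Γ →* GG A where
  toFun := Lm A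
  map_one' := Lm_one
  map_mul' := Lm_mul

theorem LH_apply (γ : A.Γ) : LH A γ = Lm A γ := rfl

theorem N1 (M : Subgroup (GG A)) (hM : M.Normal) (hG : G1 A ≤ M) (g : GG A) (hg : g ∈ G1 A)
    (γ : A.Γ) : Lm A (ac g γ * γ⁻¹) ∈ M := by
  obtain ⟨u, hu, h⟩ := swap_Lm g γ
  have e : Lm A (ac g γ * γ⁻¹) = g * (Lm A γ * u⁻¹ * (Lm A γ)⁻¹) := by
    rw [Lm_mul, Lm_inv, ← mul_assoc, ← mul_assoc, h]
    group
  rw [e]
  exact M.mul_mem (hG hg) (hM.conj_mem _ (M.inv_mem (hG hu)) _)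

/-- a three-cycle -/
def c3 : S5 := ⟨Equiv.swap 0 1 * Equiv.swap 1 2, by
  rw [Equiv.Perm.mem_alternatingGroup]; decide⟩

theorem c3_ne : om⁻¹ * c3 * om * c3⁻¹ ≠ 1 := by
  intro h
  have h1 := congrArg Subtype.val h
  revert h1
  change ((Equiv.swap 0 1 * Equiv.swap 2 3 : Equiv.Perm (Fin 5))⁻¹ *
    (Equiv.swap 0 1 * Equiv.swap 1 2) * (Equiv.swap 0 1 * Equiv.swap 2 3) *
    (Equiv.swap 0 1 * Equiv.swap 1 2)⁻¹ = 1) → False
  decide

theorem simp5 (T : Subgroup S5) (hT : T.Normal) (x : S5) (hx : x ∈ T) (h1 : x ≠ 1) : T = ⊤ := by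
  rcases hT.eq_bot_or_eq_top with h | h
  · rw [h, Subgroup.mem_bot] at hx
    exact absurd hx h1
  · exact h

theorem single_comp (i j : Fin 4) (x : S5) :
    ((Pi.mulSingle i x : P4) ∘ (Equiv.swap i j) : P4) = Pi.mulSingle j x := by
  funext k
  rw [Function.comp_apply]
  by_cases hk : k = j
  · subst hk
    simp
  · rw [Pi.mulSingle_eq_of_ne hk]
    by_cases hk' : k = i
    · subst hk'
      rw [Equiv.swap_apply_left, Pi.mulSingle_eq_of_ne (Ne.symm hk)]
    · rw [Equiv.swap_apply_of_ne_of_ne hk' hk, Pi.mulSingle_eq_of_ne hk']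

theorem comm_single (i j : Fin 4) (hij : j ≠ i) (x y : S5) :
    (Pi.mulSingle j x * (Pi.mulSingle i x)⁻¹ : P4) * Pi.mulSingle i y *
      (Pi.mulSingle j x * (Pi.mulSingle i x)⁻¹ : P4)⁻¹ * (Pi.mulSingle i y)⁻¹ =
      Pi.mulSingle i (x⁻¹ * y * x * y⁻¹) := by
  funext k
  by_cases hk : k = i
  · subst hk
    simp [Pi.mulSingle_eq_of_ne (Ne.symm hij)]
  · by_cases hk' : k = j
    · subst hk'
      simp [Pi.mulSingle_eq_of_ne hk]
    · simp [Pi.mulSingle_eq_of_ne hk, Pi.mulSingle_eq_of_ne hk']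

theorem VP_top (V : Subgroup P4) (hV : V.Normal)
    (h : ∀ (σ : Equiv.Perm (Fin 4)) (z : P4), (z ∘ σ : P4) * z⁻¹ ∈ V) : V = ⊤ := by
  have key : ∀ i : Fin 4, V.comap (MonoidHom.mulSingle (fun _ : Fin 4 => S5) i) = ⊤ := by
    intro i
    obtain ⟨j, hj⟩ : ∃ j : Fin 4, j ≠ i := exists_ne i
    refine simp5 _ (hV.comap _) (om⁻¹ * c3 * om * c3⁻¹) ?_ c3_ne
    rw [Subgroup.mem_comap]
    change Pi.mulSingle i (om⁻¹ * c3 * om * c3⁻¹) ∈ V
    rw [← comm_single i j hj]
    have h1 := h (Equiv.swap i j) (Pi.mulSingle i om)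
    rw [single_comp] at h1
    have h2 := V.mul_mem h1 (hV.conj_mem _ (V.inv_mem h1) (Pi.mulSingle i c3))
    rw [← mul_assoc, ← mul_assoc] at h2
    exact h2
  have key' : ∀ (i : Fin 4) (x : S5), (Pi.mulSingle i x : P4) ∈ V := by
    intro i x
    have : x ∈ V.comap (MonoidHom.mulSingle (fun _ : Fin 4 => S5) i) := by
      rw [key i]; trivial
    exact this
  rw [eq_top_iff]
  intro z _
  have hz : z = Pi.mulSingle 0 (z 0) * Pi.mulSingle 1 (z 1) * Pi.mulSingle 2 (z 2) *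
      Pi.mulSingle 3 (z 3) := by
    funext k
    fin_cases k <;> simp
  rw [hz]
  exact V.mul_mem (V.mul_mem (V.mul_mem (key' _ _) (key' _ _)) (key' _ _)) (key' _ _)

theorem VQ_top (V : Subgroup Q4) (hV : V.Normal) (h : ∀ s, qS s ∈ V)
    (h' : ∀ q : Q4, eps true q * q⁻¹ ∈ V) : V = ⊤ := by
  have key : V.comap (MonoidHom.inr S5 S5) = ⊤ := by
    refine simp5 _ (hV.comap _) om ?_ om_ne
    have h1 := h' (1, on)
    have e : eps true (1, on) * (1, on)⁻¹ = ((1, om) : Q4) := by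
      simp [eps, tau_on]
    rw [e] at h1
    exact h1
  rw [eq_top_iff]
  rintro ⟨s, r⟩ _
  have h1 : r ∈ V.comap (MonoidHom.inr S5 S5) := by rw [key]; trivial
  have h2 : ((1, r) : Q4) ∈ V := h1
  have h3 := V.mul_mem (h s) h2
  have e : qS s * (1, r) = (s, r) := by simp [qS]
  rwa [e] at h3

end Tgen

theorem t_gen (h1 : St_rig) (h2 : St_rigQ) : St_gen := by
  intro A M hM hG
  have hP : (M.comap (Tgen.LH A)).comap A.iP = ⊤ := by
    refine Tgen.VP_top _ ((hM.comap _).comap _) fun σ z => ?_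
    obtain ⟨g, hg⟩ := h1 A σ
    have hg1 : g ∈ G1 A := by
      have := hg 1 Tgen.one_TP 1
      rw [map_one, one_mul] at this
      rw [mem_G1, this]
      have e : ((1 : P4) ∘ σ : P4) = 1 := rfl
      rw [e, map_one, one_mul]
    have h3 := Tgen.N1 M hM hG g hg1 (A.iP z)
    have h4 := hg 1 Tgen.one_TP z
    rw [mul_one, mul_one] at h4
    rw [h4, ← map_inv, ← map_mul] at h3
    exact h3
  have hQ : (M.comap (Tgen.LH A)).comap A.iQ = ⊤ := by
    refine Tgen.VQ_top _ ((hM.comap _).comap _) (fun s => ?_) fun q => ?_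
    · rw [Subgroup.mem_comap, ← A.agree, ← Subgroup.mem_comap, hP]
      trivial
    · obtain ⟨g, hg⟩ := h2 A true
      have hg1 : g ∈ G1 A := by
        have := hg 1 Tgen.one_TQ 1
        rw [map_one, one_mul] at this
        rw [mem_G1, this]
        have e : eps true (1 : Q4) = 1 := by simp [eps]
        rw [e, map_one, one_mul]
      have h3 := Tgen.N1 M hM hG g hg1 (A.iQ q)
      have h4 := hg 1 Tgen.one_TQ q
      rw [mul_one, mul_one] at h4
      rw [h4, ← map_inv, ← map_mul] at h3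
      exact h3
  have hL : M.comap (Tgen.LH A) = ⊤ := by
    rw [eq_top_iff, ← A.gen, Subgroup.closure_le]
    rintro γ (⟨z, rfl⟩ | ⟨q, rfl⟩)
    · have : z ∈ (M.comap (Tgen.LH A)).comap A.iP := by rw [hP]; trivial
      exact this
    · have : q ∈ (M.comap (Tgen.LH A)).comap A.iQ := by rw [hQ]; trivial
      exact this
  rw [eq_top_iff]
  intro g _
  obtain ⟨u, hu, h⟩ := exists_dec g
  rw [h]
  refine M.mul_mem ?_ (hG hu)
  have : ac g 1 ∈ M.comap (Tgen.LH A) := by rw [hL]; trivial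
  exact this

end Pool.Agent.H338.PS
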