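import Pool.Agent.H338.PS.Stm

/-!
# The straight paths
-/

set_option autoImplicit false

namespace Pool.Agent.H338.PS

namespace Tkap

/-- products over the integers -/
theorem exists_prod {Γ : Type} [Group Γ] (e : ℤ → Γ) :
    ∃ κ : ℤ → Γ, κ 0 = 1 ∧ ∀ n, κ (n + 1) = κ n * e n := by
  let kp : ℕ → Γ := fun n => Nat.rec 1 (fun n x => x * e (n : ℤ)) n
  let km : ℕ → Γ := fun n => Nat.rec (e (-1))⁻¹ (fun n x => x * (e (-((n : ℤ) + 2)))⁻¹) n
  have kp0 : kp 0 = 1 := rfl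
  have kps : ∀ n : ℕ, kp (n + 1) = kp n * e (n : ℤ) := fun n => rfl
  have km0 : km 0 = (e (-1))⁻¹ := rfl
  have kms : ∀ n : ℕ, km (n + 1) = km n * (e (-((n : ℤ) + 2)))⁻¹ := fun n => rfl
  refine ⟨fun m => if 0 ≤ m then kp m.toNat else km (-m - 1).toNat, ?_, ?_⟩
  · simp only [le_refl, if_true, Int.toNat_zero]
    exact kp0
  · intro n
    simp only
    by_cases h : 0 ≤ n
    · rw [if_pos h, if_pos (by omega)]
      obtain ⟨k, rfl⟩ := Int.eq_ofNat_of_zero_le h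
      have h1 : ((k : ℤ) + 1).toNat = k + 1 := by omega
      rw [h1, kps, Int.toNat_natCast]
    · by_cases h1 : n = -1
      · subst h1
        norm_num
        rw [kp0, km0, inv_mul_cancel]
      · rw [if_neg h, if_neg (by omega)]
        obtain ⟨k, hk⟩ : ∃ k : ℕ, n = -((k : ℤ) + 2) := ⟨(-n - 2).toNat, by omega⟩
        have h2 : (-n - 1).toNat = k + 1 := by omega
        have h3 : (-(n + 1) - 1).toNat = k := by omega
        rw [h2, h3, kms, ← hk, inv_mul_cancel_right]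

variable {A : Amal}

theorem z1_sq : z1 A * z1 A = 1 := by
  unfold z1
  rw [← map_mul]
  have h : eP ![1, 0, 0, 0] * eP ![1, 0, 0, 0] = 1 := by
    rw [← inv_eq_iff_mul_eq_one, eP_inv]
  rw [h, map_one]

theorem la_sq : la A * la A = 1 := by
  unfold la
  rw [← map_mul]
  have h : eQ 0 1 0 * eQ 0 1 0 = 1 := by
    rw [← inv_eq_iff_mul_eq_one, eQ_inv]
  rw [h, map_one]

theorem lb_sq : lb A * lb A = 1 := by
  unfold lb
  rw [← map_mul]
  have h : eQ 0 0 1 * eQ 0 0 1 = 1 := by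
    rw [← inv_eq_iff_mul_eq_one, eQ_inv]
  rw [h, map_one]

open Classical in
/-- the letter of the edge between `n` and `n + 1` -/
noncomputable def ed (A : Amal) (L n : ℤ) : A.Γ :=
  if Even n then z1 A else if L ∣ n + 1 then lb A else la A

theorem ed_sq (L n : ℤ) : ed A L n * ed A L n = 1 := by
  unfold ed
  split_ifs
  · exact z1_sq
  · exact lb_sq
  · exact la_sq

theorem one_TP : (1 : A.Γ) ∈ A.TP := by
  have h := A.memTP 1
  rwa [map_one, map_one] at h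

theorem one_TQ : (1 : A.Γ) ∈ A.TQ := by
  have h := A.memTQ 1
  rwa [map_one, map_one] at h

theorem z1_TQ {γ : A.Γ} (h : γ ∈ A.TP) : z1 A * γ ∈ A.TQ := (A.leftP _ z1_not γ h).1

theorem la_TP {γ : A.Γ} (h : γ ∈ A.TQ) : la A * γ ∈ A.TP := (A.leftQ _ la_not γ h).1

theorem lb_TP {γ : A.Γ} (h : γ ∈ A.TQ) : lb A * γ ∈ A.TP := (A.leftQ _ lb_not γ h).1

theorem even_sub {n : ℤ} (h : ¬ Even n) : Even (n - 1) := by
  rw [Int.not_even_iff_odd] at h
  obtain ⟨k, rfl⟩ := h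
  exact ⟨k, by ring⟩

theorem not_even_sub {n : ℤ} (h : Even n) : ¬ Even (n - 1) := by
  rw [Int.not_even_iff_odd]
  obtain ⟨k, rfl⟩ := h
  exact ⟨k - 1, by ring⟩

theorem even_add {n : ℤ} (h : ¬ Even n) : Even (n + 1) := by
  rw [Int.not_even_iff_odd] at h
  obtain ⟨k, rfl⟩ := h
  exact ⟨k + 1, by ring⟩

theorem not_even_add {n : ℤ} (h : Even n) : ¬ Even (n + 1) := by
  rw [Int.not_even_iff_odd]
  exact h.add_one

section
variable {L : ℤ} {κ : ℤ → A.Γ} (h0 : κ 0 = 1) (hs : ∀ n, κ (n + 1) = κ n * ed A L n)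
include hs

theorem back (n : ℤ) : κ (n - 1) = κ n * ed A L (n - 1) := by
  have h := hs (n - 1)
  rw [sub_add_cancel] at h
  rw [h, mul_assoc, ed_sq, mul_one]

theorem rX (n : ℤ) : κ (Xs n) = κ n * z1 A := by
  unfold Xs
  by_cases h : Even n
  · rw [if_pos h, hs]
    unfold ed
    rw [if_pos h]
  · rw [if_neg h, back hs]
    unfold ed
    rw [if_pos (even_sub h)]

theorem rY (n : ℤ) : κ (Ys n) = κ n * (if L ∣ Ws n then lb A else la A) := by
  unfold Ys Ws
  by_cases h : Even n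
  · rw [if_pos h, if_pos h, back hs]
    unfold ed
    rw [if_neg (not_even_sub h), sub_add_cancel]
  · rw [if_neg h, if_neg h, hs]
    unfold ed
    rw [if_neg h]

theorem tX {n : ℤ} (h : Tr A L allZ 0 (κ n) n) : Tr A L allZ 0 (κ (Xs n)) (Xs n) := by
  rw [rX hs]
  refine Tr.stepP n _ _ ![1, 0, 0, 0] h ?_ trivial
  rw [if_neg]
  show ¬ ((1 : ZMod 2) + 0 + 0 + 0 = 0)
  decide

theorem tY {n : ℤ} (h : Tr A L allZ 0 (κ n) n) : Tr A L allZ 0 (κ (Ys n)) (Ys n) := by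
  rw [rY hs]
  by_cases hL : L ∣ Ws n
  · rw [if_pos hL]
    refine Tr.stepF n _ _ 0 0 1 h hL ?_ trivial
    rw [if_neg]
    decide
  · rw [if_neg hL]
    refine Tr.stepT n _ _ 0 1 h hL ?_ trivial
    rw [if_neg]
    decide

include h0 in
theorem tr (n : ℤ) : Tr A L allZ 0 (κ n) n := by
  induction n using Int.induction_on with
  | zero => rw [h0]; exact Tr.refl trivial
  | succ n ih =>
    by_cases h : Even (n : ℤ)
    · have h1 := tX hs ih
      unfold Xs at h1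
      rwa [if_pos h] at h1
    · have h1 := tY hs ih
      unfold Ys at h1
      rwa [if_neg h] at h1
  | pred n ih =>
    by_cases h : Even (-(n : ℤ))
    · have h1 := tY hs ih
      unfold Ys at h1
      rwa [if_pos h] at h1
    · have h1 := tX hs ih
      unfold Xs at h1
      rwa [if_neg h] at h1

theorem inv_fwd (n : ℤ) : (κ (n + 1))⁻¹ = ed A L n * (κ n)⁻¹ := by
  rw [hs, mul_inv_rev, inv_eq_of_mul_eq_one_right (ed_sq L n)]

theorem inv_bwd (n : ℤ) : (κ (n - 1))⁻¹ = ed A L (n - 1) * (κ n)⁻¹ := by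
  rw [back hs, mul_inv_rev, inv_eq_of_mul_eq_one_right (ed_sq L (n - 1))]

omit hs in
theorem ed_TQ {n : ℤ} (h : Even n) {γ : A.Γ} (hγ : γ ∈ A.TP) : ed A L n * γ ∈ A.TQ := by
  unfold ed
  rw [if_pos h]
  exact z1_TQ hγ

omit hs in
theorem ed_TP {n : ℤ} (h : ¬ Even n) {γ : A.Γ} (hγ : γ ∈ A.TQ) : ed A L n * γ ∈ A.TP := by
  unfold ed
  rw [if_neg h]
  split_ifs
  · exact lb_TP hγ
  · exact la_TP hγ

include h0 in
theorem posi (n : ℕ) : (Even (n : ℤ) → (κ n)⁻¹ ∈ A.TP) ∧ (¬ Even (n : ℤ) → (κ n)⁻¹ ∈ A.TQ) := by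
  induction n with
  | zero =>
    constructor
    · intro _
      rw [Nat.cast_zero, h0, inv_one]
      exact one_TP
    · intro h
      exact absurd (by simp) h
  | succ n ih =>
    rw [Nat.cast_succ]
    constructor
    · intro h
      have h1 : ¬ Even (n : ℤ) := fun h2 => not_even_add h2 h
      rw [inv_fwd hs]
      exact ed_TP h1 (ih.2 h1)
    · intro h
      have h1 : Even (n : ℤ) := by
        by_contra h2
        exact h (even_add h2)
      rw [inv_fwd hs]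
      exact ed_TQ h1 (ih.1 h1)

include h0 in
theorem nega (n : ℕ) : (Even (-(n : ℤ)) → (κ (-(n : ℤ)))⁻¹ ∈ A.TQ) ∧
    (¬ Even (-(n : ℤ)) → (κ (-(n : ℤ)))⁻¹ ∈ A.TP) := by
  induction n with
  | zero =>
    constructor
    · intro _
      rw [Nat.cast_zero, neg_zero, h0, inv_one]
      exact one_TQ
    · intro h
      exact absurd (by simp) h
  | succ n ih =>
    have e : -((n + 1 : ℕ) : ℤ) = -(n : ℤ) - 1 := by push_cast; ring
    rw [e]
    constructor
    · intro h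
      have h1 : ¬ Even (-(n : ℤ)) := fun h2 => not_even_sub h2 h
      rw [inv_bwd hs]
      exact ed_TQ h (ih.2 h1)
    · intro h
      have h1 : Even (-(n : ℤ)) := by
        by_contra h2
        exact h (even_sub h2)
      rw [inv_bwd hs]
      exact ed_TP h (ih.1 h1)

include h0 in
theorem memTP {n : ℤ} (h : (0 ≤ n ∧ Even n) ∨ (n ≤ 0 ∧ ¬ Even n)) : (κ n)⁻¹ ∈ A.TP := by
  rcases h with ⟨h1, h2⟩ | ⟨h1, h2⟩
  · obtain ⟨k, rfl⟩ := Int.eq_ofNat_of_zero_le h1
    exact (posi h0 hs k).1 h2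
  · obtain ⟨k, hk⟩ : ∃ k : ℕ, n = -(k : ℤ) := ⟨(-n).toNat, by omega⟩
    subst hk
    exact (nega h0 hs k).2 h2

include h0 in
theorem memTQ {n : ℤ} (h : (0 ≤ n ∧ ¬ Even n) ∨ (n ≤ 0 ∧ Even n)) : (κ n)⁻¹ ∈ A.TQ := by
  rcases h with ⟨h1, h2⟩ | ⟨h1, h2⟩
  · obtain ⟨k, rfl⟩ := Int.eq_ofNat_of_zero_le h1
    exact (posi h0 hs k).2 h2
  · obtain ⟨k, hk⟩ : ∃ k : ℕ, n = -(k : ℤ) := ⟨(-n).toNat, by omega⟩
    subst hk
    exact (nega h0 hs k).1 h2

end

end Tkap

theorem t_kap : St_kap := by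
  intro A l _
  obtain ⟨κ, h0, hs⟩ := Tkap.exists_prod (Tkap.ed A (4 * (l : ℤ)))
  refine ⟨κ, h0, Tkap.rX hs, ?_, Tkap.tr h0 hs, ?_, ?_⟩
  · intro n
    rw [Tkap.rY hs]
  · intro n
    unfold Xs
    by_cases hn : 0 ≤ n
    · by_cases h : Even n
      · exact Or.inl (Tkap.memTP h0 hs (Or.inl ⟨hn, h⟩))
      · rw [if_neg h]
        have h1 : n ≠ 0 := by
          rintro rfl
          exact h (by simp)
        exact Or.inr (Tkap.memTP h0 hs (Or.inl ⟨by omega, Tkap.even_sub h⟩))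
    · by_cases h : Even n
      · rw [if_pos h]
        exact Or.inr (Tkap.memTP h0 hs (Or.inr ⟨by omega, Tkap.not_even_add h⟩))
      · exact Or.inl (Tkap.memTP h0 hs (Or.inr ⟨by omega, h⟩))
  · intro n
    unfold Ys
    by_cases hn : 0 < n
    · by_cases h : Even n
      · rw [if_pos h]
        exact Or.inr (Tkap.memTQ h0 hs (Or.inl ⟨by omega, Tkap.not_even_sub h⟩))
      · exact Or.inl (Tkap.memTQ h0 hs (Or.inl ⟨hn.le, h⟩))
    · by_cases h : Even n
      · exact Or.inl (Tkap.memTQ h0 hs (Or.inr ⟨by omega, h⟩))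
      · rw [if_neg h]
        have h1 : n ≠ 0 := by
          rintro rfl
          exact h (by simp)
        exact Or.inr (Tkap.memTQ h0 hs (Or.inr ⟨by omega, Tkap.even_add h⟩))

end Pool.Agent.H338.PS
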