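import Pool.Agent.H338.PS.Cstm

/-!
# CR-KILL: homomorphisms to groups that have a rank kill `U`
-/

set_option autoImplicit false

namespace Pool.Agent.H338.PS

open Topology Pointwise

namespace Tkill

/-- A continuous homomorphism maps `ncl U (H n)` to the discrete residual. -/
theorem mem_res {G : Type} [Group G] [TopologicalSpace G] {U : Subgroup G}
    {H : ℕ → Subgroup G} (hd : CritData U H) {Q : Type} [Group Q] [TopologicalSpace Q]
    (n : ℕ) (f : H n →* Q) (hf : Continuous f) (x : H n) (hx : (x : G) ∈ ncl U (H n)) :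
    f x ∈ Res Q := by
  rw [Res, Subgroup.mem_sInf]
  rintro N ⟨hN, hNo⟩
  have hO1 : ((N.comap f).map (H n).subtype) ≤ H n := by
    rintro _ ⟨y, _, rfl⟩
    exact y.2
  have hO2 : IsOpen (((N.comap f).map (H n).subtype : Subgroup G) : Set G) := by
    rw [Subgroup.coe_map]
    exact (hd.oc n).1.isOpenMap_subtype_val _ (hNo.preimage hf)
  have hO3 : ∀ h ∈ H n, ∀ x ∈ ((N.comap f).map (H n).subtype),
      h * x * h⁻¹ ∈ ((N.comap f).map (H n).subtype) := by
    rintro h hh _ ⟨y, hy, rfl⟩
    refine ⟨⟨h, hh⟩ * y * ⟨h, hh⟩⁻¹, ?_, rfl⟩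
    change f (⟨h, hh⟩ * y * ⟨h, hh⟩⁻¹) ∈ N
    rw [map_mul, map_mul, map_inv]
    exact hN.conj_mem _ hy _
  have hU := hd.con n _ hO1 hO2 hO3
  have h3 : ncl U (H n) ≤ ((N.comap f).map (H n).subtype) := by
    rw [ncl, Subgroup.closure_le]
    rintro _ ⟨h, hh, u, hu, rfl⟩
    exact hO3 h hh u (hU hu)
  obtain ⟨y, hy, hyx⟩ := h3 hx
  have h4 : y = x := Subtype.ext hyx
  rw [← h4]
  exact hy

/-- The step of the induction. -/
theorem step (h1 : St_ncl) {G : Type} [Group G] [TopologicalSpace G] {U : Subgroup G}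
    {H : ℕ → Subgroup G} (hd : CritData U H) {Q : Type} [Group Q] [TopologicalSpace Q]
    (n : ℕ) (f : H n →* Q) (hf : Continuous f)
    (ih : ∀ g : H (n + 1) →* Res Q, Continuous g → ∀ x : H (n + 1), (x : G) ∈ U → g x = 1)
    (x : H n) (hx : (x : G) ∈ U) : f x = 1 := by
  have := hd.td.isTopologicalGroup
  have h2 : H (n + 1) ≤ H n := (hd.desc n).trans (h1 G U (H n) (hd.le n)).2.1
  have hmem : ∀ y : H (n + 1), f (Subgroup.inclusion h2 y) ∈ Res Q := fun y =>
    mem_res hd n f hf _ (hd.desc n y.2)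
  have hc : Continuous ((f.comp (Subgroup.inclusion h2)).codRestrict (Res Q) hmem) := by
    refine Continuous.subtype_mk ?_ hmem
    exact hf.comp (continuous_inclusion h2)
  have h3 := ih _ hc ⟨x, hd.le (n + 1) hx⟩ hx
  exact congrArg Subtype.val h3

/-- The range of `f` is contained in a compactly generated open subgroup. -/
theorem exO {G : Type} [Group G] [TopologicalSpace G] {U : Subgroup G}
    {H : ℕ → Subgroup G} (hd : CritData U H) {Q : Type} [Group Q] [TopologicalSpace Q]
    (hQ : TDLCSC Q) (n : ℕ) (f : H n →* Q) (hf : Continuous f) :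
    ∃ O ∈ Oc Q, ∀ y : H n, f y ∈ O := by
  have := hd.td.isTopologicalGroup
  have := hQ.isTopologicalGroup
  have := hQ.locallyCompact
  obtain ⟨C, hC, hCH⟩ := (hd.oc n).2
  obtain ⟨W, hW, hW1⟩ := exists_compact_mem_nhds (1 : Q)
  have hcl : IsClosed (H n : Set G) := Subgroup.isClosed_of_isOpen _ (hd.oc n).1
  have hC' : IsCompact ((fun y : H n => (y : G)) ⁻¹' C) :=
    hcl.isClosedEmbedding_subtypeVal.isCompact_preimage hC
  refine ⟨Subgroup.closure (f '' ((fun y : H n => (y : G)) ⁻¹' C) ∪ W), ⟨?_, _,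
    (hC'.image hf).union hW, rfl⟩, ?_⟩
  · apply Subgroup.isOpen_of_mem_nhds (g := 1)
    exact Filter.mem_of_superset hW1 (Set.subset_union_right.trans Subgroup.subset_closure)
  · intro y
    have h1 : H n ≤ ((Subgroup.closure (f '' ((fun y : H n => (y : G)) ⁻¹' C) ∪ W)).comap
        f).map (H n).subtype := by
      have h2 : C ⊆ (((Subgroup.closure (f '' ((fun y : H n => (y : G)) ⁻¹' C) ∪ W)).comap
        f).map (H n).subtype : Subgroup G) := by
        intro c hc
        have hcH : c ∈ H n := by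
          rw [← hCH]
          exact Subgroup.subset_closure hc
        exact ⟨⟨c, hcH⟩, Subgroup.subset_closure (Or.inl ⟨⟨c, hcH⟩, hc, rfl⟩), rfl⟩
      have h3 := (Subgroup.closure_le _).2 h2
      rw [hCH] at h3
      exact h3
    obtain ⟨z, hz, hzy⟩ := h1 y.2
    have h4 : z = y := Subtype.ext hzy
    rw [← h4]
    exact hz

end Tkill

theorem t_kill (h1 : St_ncl) : St_kill := by
  intro G _ _ U H hd Q _ _ α hr
  induction hr with
  | one Q hs =>
    intro _ n f _ x _
    exact Subsingleton.elim _ _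
  | cg Q hnt hc α hα ih =>
    intro hQ n f hf x hx
    exact Tkill.step h1 hd n f hf (ih hQ.res (n + 1)) x hx
  | ncg Q hnt hc F hF ih =>
    intro hQ n f hf x hx
    obtain ⟨O, hO, hfO⟩ := Tkill.exO hd hQ n f hf
    have := hQ.isTopologicalGroup
    have hOt : TDLCSC O := hQ.subgroup O (Subgroup.isClosed_of_isOpen O hO.1)
    have hc' : Continuous (f.codRestrict O hfO) := Continuous.subtype_mk hf hfO
    have h3 := Tkill.step h1 hd n (f.codRestrict O hfO) hc' (ih ⟨O, hO⟩ hOt.res (n + 1)) x hx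
    exact congrArg Subtype.val h3

end Pool.Agent.H338.PS
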