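import Pool.Agent.H338.PS.Stm

/-!
# Labels of the elements of `P`
-/

set_option autoImplicit false

namespace Pool.Agent.H338.PS

namespace Tlab

variable {A : Amal}

/-- the subgroup `S₀` -/
def S0 (A : Amal) (x : A.Γ) : Prop := ∃ c : ZMod 2, x = A.iP (eP fun _ => c)

/-- admissible letters: `true` for `P`, `false` for `Q` -/
def Lt (A : Amal) (L : ℤ) (b : Bool) (n : ℤ) (x : A.Γ) (n' : ℤ) : Prop :=
  match b with
  | true => ∃ e : Fin 4 → ZMod 2, x = A.iP (eP e) ∧ n' = if sm e = 0 then n else Xs n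
  | false => ∃ c u y : ZMod 2, x = A.iQ (eQ c u y) ∧
      ((L ∣ Ws n ∧ n' = if y = 0 then n else Ys n) ∨
        (¬ L ∣ Ws n ∧ y = 0 ∧ n' = if u = 0 then n else Ys n))

theorem z2 (c : ZMod 2) : c = 0 ∨ c = 1 := by revert c; decide

theorem eP_const (c : ZMod 2) : eP (fun _ => c) = dS (pw c) := rfl

theorem iP_const (c : ZMod 2) : A.iP (eP fun _ => c) = A.iQ (eQ c 0 0) := by
  rw [eP_const, A.agree]
  rfl

theorem sm_const (c : ZMod 2) : sm (fun _ => c) = 0 := by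
  rcases z2 c with rfl | rfl <;> decide

theorem sm_add (e f : Fin 4 → ZMod 2) : sm (e + f) = sm e + sm f := by
  simp only [sm, Pi.add_apply]; ring

theorem const_of_dS {e : Fin 4 → ZMod 2} {s : S5} (h : eP e = dS s) : e = fun _ => e 0 := by
  funext i
  have h1 := congrFun h i
  have h0 := congrFun h 0
  have h2 : pw (e i) = pw (e 0) := by
    change pw (e i) = s at h1
    change pw (e 0) = s at h0
    rw [h1, h0]
  exact pw_inj h2

theorem zero_of_qS {c u y : ZMod 2} {s : S5} (h : eQ c u y = qS s) : u = 0 ∧ y = 0 :=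
  eQ_qS h

theorem S0_one : S0 A 1 := ⟨0, by
  rw [show (fun _ => 0 : Fin 4 → ZMod 2) = 0 from rfl, eP_zero, map_one]⟩

theorem S0_mul {x y : A.Γ} (hx : S0 A x) (hy : S0 A y) : S0 A (x * y) := by
  obtain ⟨c, rfl⟩ := hx
  obtain ⟨d, rfl⟩ := hy
  refine ⟨c + d, ?_⟩
  rw [← map_mul, ← eP_add]
  rfl

theorem S0_inv {x : A.Γ} (hx : S0 A x) : x⁻¹ = x := by
  obtain ⟨c, rfl⟩ := hx
  rw [← map_inv, eP_inv]

theorem S0_cancel {x s : A.Γ} (hs : S0 A s) (h : S0 A (x * s)) : S0 A x := by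
  have h1 := S0_mul h hs
  rw [mul_assoc] at h1
  have h2 : s * s = 1 := by
    have := S0_inv hs
    rw [inv_eq_iff_mul_eq_one] at this
    exact this
  rw [h2, mul_one] at h1
  exact h1

/-- F2 -/
theorem Lt_S0 {L : ℤ} (b : Bool) (n : ℤ) {s : A.Γ} (hs : S0 A s) : Lt A L b n s n := by
  obtain ⟨c, rfl⟩ := hs
  cases b with
  | true => exact ⟨_, rfl, by rw [sm_const]; simp⟩
  | false =>
    refine ⟨c, 0, 0, iP_const c, ?_⟩
    by_cases h : L ∣ Ws n
    · exact Or.inl ⟨h, by simp⟩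
    · exact Or.inr ⟨h, rfl, by simp⟩

theorem ite_comp (f : ℤ → ℤ) (hf : ∀ n, f (f n) = n) (u v : ZMod 2) (n : ℤ) :
    (if v = 0 then (if u = 0 then n else f n) else f (if u = 0 then n else f n)) =
      if u + v = 0 then n else f n := by
  have h11 : (1 : ZMod 2) + 1 = 0 := by decide
  have h10 : (1 : ZMod 2) ≠ 0 := by decide
  rcases z2 u with rfl | rfl <;> rcases z2 v with rfl | rfl <;> simp [h11, hf]

theorem ite_Ws (u : ZMod 2) (n : ℤ) : Ws (if u = 0 then n else Ys n) = Ws n := by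
  split_ifs
  · rfl
  · exact Ws_Ys n

/-- F1 -/
theorem Lt_comp {L : ℤ} {b : Bool} {n n' n'' : ℤ} {x x' : A.Γ} (h : Lt A L b n x n')
    (h' : Lt A L b n' x' n'') : Lt A L b n (x * x') n'' := by
  cases b with
  | true =>
    obtain ⟨e, rfl, rfl⟩ := h
    obtain ⟨f, rfl, rfl⟩ := h'
    refine ⟨e + f, by rw [eP_add, map_mul], ?_⟩
    rw [sm_add]
    exact ite_comp Xs Xs_Xs _ _ n
  | false =>
    obtain ⟨c, u, y, rfl, h1⟩ := h
    obtain ⟨c', u', y', rfl, h2⟩ := h'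
    refine ⟨c + c', u + u', y + y', by rw [← eQ_mul, map_mul], ?_⟩
    rcases h1 with ⟨hL, rfl⟩ | ⟨hL, rfl, rfl⟩
    · left
      refine ⟨hL, ?_⟩
      rw [ite_Ws] at h2
      rcases h2 with ⟨_, rfl⟩ | ⟨h3, _⟩
      · exact ite_comp Ys Ys_Ys _ _ n
      · exact absurd hL h3
    · right
      rw [ite_Ws] at h2
      rcases h2 with ⟨h3, _⟩ | ⟨_, rfl, rfl⟩
      · exact absurd h3 hL
      · refine ⟨hL, by simp, ?_⟩
        exact ite_comp Ys Ys_Ys _ _ n

/-- F3 -/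
theorem Lt_eq {L : ℤ} {b : Bool} {n n' : ℤ} {x : A.Γ} (h : Lt A L b n x n') (hs : S0 A x) :
    n' = n := by
  obtain ⟨d, hd⟩ := hs
  cases b with
  | true =>
    obtain ⟨e, rfl, rfl⟩ := h
    have h1 := A.injP hd
    rw [eP_const] at h1
    have h2 := const_of_dS h1
    rw [h2, sm_const]
    simp
  | false =>
    obtain ⟨c, u, y, rfl, h1⟩ := h
    rw [iP_const] at hd
    have h2 := A.injQ hd
    obtain ⟨rfl, rfl⟩ := zero_of_qS (s := pw d) h2
    rcases h1 with ⟨_, rfl⟩ | ⟨_, _, rfl⟩ <;> simp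

/-- F5 for `P` -/
theorem Lt_P {L n n' : ℤ} {x : A.Γ} (h : Lt A L true n x n') (hs : ¬ S0 A x) :
    ∀ γ ∈ A.TP, x * γ ∈ A.TQ ∧ x * γ ∉ A.TP := by
  obtain ⟨e, rfl, rfl⟩ := h
  apply A.leftP
  intro s hs'
  exact hs ⟨e 0, by rw [← const_of_dS hs']⟩

/-- F5 for `Q` -/
theorem Lt_Q {L n n' : ℤ} {x : A.Γ} (h : Lt A L false n x n') (hs : ¬ S0 A x) :
    ∀ γ ∈ A.TQ, x * γ ∈ A.TP ∧ x * γ ∉ A.TQ := by
  obtain ⟨c, u, y, rfl, _⟩ := h
  apply A.leftQ
  intro s hs'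
  obtain ⟨rfl, rfl⟩ := zero_of_qS hs'
  exact hs ⟨c, (iP_const c).symm⟩

/-- reduced paths -/
inductive RP (A : Amal) (L : ℤ) : Bool → ℤ → A.Γ → ℤ → Prop
  | base (b : Bool) (n m : ℤ) (x : A.Γ) (hx : Lt A L b n x m) (hs : ¬ S0 A x) : RP A L b n x m
  | step (b : Bool) (n n' m : ℤ) (x γ : A.Γ) (hx : Lt A L b n x n') (hs : ¬ S0 A x)
      (h : RP A L (!b) n' γ m) : RP A L b n (x * γ) m

theorem RP_append {L : ℤ} {b : Bool} {n m : ℤ} {γ : A.Γ} (h : RP A L b n γ m) :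
    ∀ (b' : Bool) (x : A.Γ) (m' : ℤ), Lt A L b' m x m' →
      RP A L b n (γ * x) m' ∨ (S0 A (γ * x) ∧ m' = n) := by
  induction h with
  | base b n m x₁ hx₁ hs₁ =>
    intro b' x m' hx
    by_cases hb : b' = b
    · subst hb
      have h1 := Lt_comp hx₁ hx
      by_cases h2 : S0 A (x₁ * x)
      · exact Or.inr ⟨h2, Lt_eq h1 h2⟩
      · exact Or.inl (RP.base _ _ _ _ h1 h2)
    · have hb' : b' = !b := by cases b <;> cases b' <;> simp_all
      by_cases h2 : S0 A x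
      · have h3 := Lt_eq hx h2
        subst h3
        have h1 := Lt_comp hx₁ (Lt_S0 b m' h2)
        exact Or.inl (RP.base _ _ _ _ h1 fun h4 => hs₁ (S0_cancel h2 h4))
      · left
        refine RP.step b n m m' x₁ x hx₁ hs₁ ?_
        rw [← hb']
        exact RP.base _ _ _ _ hx h2
  | step b n n' m x₁ γ hx₁ hs₁ _ ih =>
    intro b' x m' hx
    rw [mul_assoc]
    rcases ih b' x m' hx with h1 | ⟨h1, rfl⟩
    · exact Or.inl (RP.step _ _ _ _ _ _ hx₁ hs₁ h1)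
    · left
      exact RP.base _ _ _ _ (Lt_comp hx₁ (Lt_S0 b m' h1)) fun h4 => hs₁ (S0_cancel h1 h4)

/-- one more letter -/
theorem RR_append {L : ℤ} {n m m' : ℤ} {γ x : A.Γ} {b' : Bool}
    (h : (S0 A γ ∧ m = n) ∨ ∃ b, RP A L b n γ m) (hx : Lt A L b' m x m') :
    (S0 A (γ * x) ∧ m' = n) ∨ ∃ b, RP A L b n (γ * x) m' := by
  rcases h with ⟨h1, rfl⟩ | ⟨b, h1⟩
  · have h2 := Lt_comp (Lt_S0 b' m h1) hx
    by_cases h3 : S0 A (γ * x)
    · exact Or.inl ⟨h3, Lt_eq h2 h3⟩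
    · exact Or.inr ⟨b', RP.base _ _ _ _ h2 h3⟩
  · rcases RP_append h1 b' x m' hx with h2 | h2
    · exact Or.inr ⟨b, h2⟩
    · exact Or.inl h2

theorem RR_of_Tr {L : ℤ} {B : ℤ → Prop} {n m : ℤ} {γ : A.Γ} (h : Tr A L B n γ m) :
    (S0 A γ ∧ m = n) ∨ ∃ b, RP A L b n γ m := by
  induction h with
  | refl _ => exact Or.inl ⟨S0_one, rfl⟩
  | stepP m m' γ e _ hm _ ih => exact RR_append (b' := true) ih ⟨e, rfl, hm⟩
  | stepF m m' γ c x y _ hL hm _ ih =>
    exact RR_append (b' := false) ih ⟨c, x, y, rfl, Or.inl ⟨hL, hm⟩⟩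
  | stepT m m' γ c x _ hL hm _ ih =>
    exact RR_append (b' := false) ih ⟨c, x, 0, rfl, Or.inr ⟨hL, rfl, hm⟩⟩

theorem one_TP : (1 : A.Γ) ∈ A.TP := by
  have := A.memTP 1
  rwa [map_one, map_one] at this

theorem one_TQ : (1 : A.Γ) ∈ A.TQ := by
  have := A.memTQ 1
  rwa [map_one, map_one] at this

theorem RP_half {L : ℤ} {b : Bool} {n m : ℤ} {γ : A.Γ} (h : RP A L b n γ m) :
    (b = true → γ ∈ A.TQ ∧ γ ∉ A.TP) ∧ (b = false → γ ∈ A.TP ∧ γ ∉ A.TQ) := by
  induction h with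
  | base b n m x hx hs =>
    constructor
    · rintro rfl
      have := Lt_P hx hs 1 one_TP
      rwa [mul_one] at this
    · rintro rfl
      have := Lt_Q hx hs 1 one_TQ
      rwa [mul_one] at this
  | step b n n' m x γ hx hs _ ih =>
    constructor
    · rintro rfl
      exact Lt_P hx hs γ (ih.2 rfl).1
    · rintro rfl
      exact Lt_Q hx hs γ (ih.1 rfl).1

end Tlab

open Tlab in
theorem t_lab : St_lab := by
  intro A L B n m γ h hz
  obtain ⟨z, rfl⟩ := hz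
  have hTQ : ∀ z : P4, A.iP z ∈ A.TQ := by
    intro z
    have := A.TQP 1 one_TQ z
    rwa [one_mul] at this
  rcases RR_of_Tr h with ⟨_, h1⟩ | ⟨b, h1⟩
  · exact Or.inl h1
  · cases b with
    | false => exact absurd (hTQ z) ((RP_half h1).2 rfl).2
    | true =>
      generalize hγ : A.iP z = γ at h1
      cases h1 with
      | base _ _ _ _ hx _ =>
        obtain ⟨e, _, rfl⟩ := hx
        split_ifs
        · exact Or.inl rfl
        · exact Or.inr rfl
      | step _ _ n' _ x γ' hx _ h2 =>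
        exfalso
        obtain ⟨e, rfl, _⟩ := hx
        have h3 : γ' = A.iP ((eP e)⁻¹ * z) := by
          rw [map_mul, map_inv, hγ]
          group
        have h4 := ((RP_half h2).2 rfl).2
        rw [h3] at h4
        exact h4 (hTQ _)

end Pool.Agent.H338.PS
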