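import Pool.Agent.H338.PS.Stm

/-!
# Powers of the translation move every element into a half-tree
-/

set_option autoImplicit false

namespace Pool.Agent.H338.PS

namespace Tlim

theorem one_TP (A : Amal) : (1 : A.Γ) ∈ A.TP := by
  have h := A.memTP 1
  have e : A.iP (dS 1) = 1 := by
    have : dS (1 : S5) = 1 := rfl
    rw [this, map_one]
  rwa [e] at h

theorem step (A : Amal) (b f : A.Γ) (j : ℕ) : (b ^ (j + 1))⁻¹ * f = b⁻¹ * ((b ^ j)⁻¹ * f) := by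
  rw [pow_succ, mul_inv_rev, mul_assoc]

end Tlim

theorem t_lim (h1 : St_be2) : St_lim := by
  intro A l hl f
  obtain ⟨hP, -⟩ := h1 A l hl
  have hf : f ∈ Subgroup.closure (Set.range A.iP ∪ Set.range A.iQ) := by
    rw [A.gen]
    trivial
  have key : ∀ f : A.Γ, (∃ i : ℕ, ∀ j ≥ i, (be A l ^ j)⁻¹ * f ∈ A.TP ∧
      (be A l ^ j)⁻¹ * f ∉ A.TQ) → ∀ y ∈ Set.range A.iP ∪ Set.range A.iQ,
      ∃ i : ℕ, ∀ j ≥ i, (be A l ^ j)⁻¹ * (f * y) ∈ A.TP ∧ (be A l ^ j)⁻¹ * (f * y) ∉ A.TQ := by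
    rintro f ⟨i, hi⟩ y (⟨z, rfl⟩ | ⟨q, rfl⟩)
    · refine ⟨i, fun j hj => ?_⟩
      rw [← mul_assoc]
      exact A.TPP _ (hi j hj).1 (hi j hj).2 z
    · refine ⟨i + 1, fun j hj => ?_⟩
      obtain ⟨k, rfl⟩ : ∃ k, j = k + 1 := ⟨j - 1, by omega⟩
      rw [Tlim.step, ← mul_assoc _ f]
      exact hP _ (A.TPQ _ (hi k (by omega)).1 q)
  refine Subgroup.closure_induction_right (p := fun f _ => ∃ i : ℕ, ∀ j ≥ i,
    (be A l ^ j)⁻¹ * f ∈ A.TP ∧ (be A l ^ j)⁻¹ * f ∉ A.TQ) ?_ ?_ ?_ hf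
  · refine ⟨1, fun j hj => ?_⟩
    obtain ⟨k, rfl⟩ : ∃ k, j = k + 1 := ⟨j - 1, by omega⟩
    have h2 : ∀ k : ℕ, (be A l ^ k)⁻¹ * 1 ∈ A.TP := by
      intro k
      induction k with
      | zero =>
        rw [pow_zero, inv_one, one_mul]
        exact Tlim.one_TP A
      | succ k ih =>
        rw [Tlim.step]
        exact (hP _ ih).1
    rw [Tlim.step]
    exact hP _ (h2 k)
  · intro x _ y hy hx
    exact key x hx y hy
  · intro x _ y hy hx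
    refine key x hx _ ?_
    rcases hy with ⟨z, rfl⟩ | ⟨q, rfl⟩
    · exact Or.inl ⟨z⁻¹, map_inv _ _⟩
    · exact Or.inr ⟨q⁻¹, map_inv _ _⟩

end Pool.Agent.H338.PS
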