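import Pool.Agent.H338.PS.Stm

/-!
# MX: maximality of the vertex stabiliser
-/

set_option autoImplicit false

namespace Pool.Agent.H338.PS

namespace Tmax

variable {A : Amal}

/-- The elements `γ` with `L_γ ∈ V`. -/
def MV (V : Subgroup (GG A)) : Subgroup A.Γ where
  carrier := {γ | Lm A γ ∈ V}
  mul_mem' := by
    intro a b ha hb
    change Lm A (a * b) ∈ V
    rw [Lm_mul]
    exact V.mul_mem ha hb
  one_mem' := by
    change Lm A 1 ∈ V
    rw [Lm_one]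
    exact V.one_mem
  inv_mem' := by
    intro a ha
    change Lm A a⁻¹ ∈ V
    rw [Lm_inv]
    exact V.inv_mem ha

theorem mem_MV {V : Subgroup (GG A)} {γ : A.Γ} : γ ∈ MV V ↔ Lm A γ ∈ V := Iff.rfl

theorem ac_mem {V : Subgroup (GG A)} (h1 : G1 A ≤ V) {g : GG A} (hg : g ∈ V) :
    ac g 1 ∈ MV V := by
  rw [mem_MV]
  obtain ⟨u, hu, h⟩ := exists_dec g
  have h2 : Lm A (ac g 1) = g * u⁻¹ := by
    rw [eq_mul_inv_iff_mul_eq]
    exact h.symm
  rw [h2]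
  exact V.mul_mem hg (V.inv_mem (h1 hu))

theorem ac_mem' {V : Subgroup (GG A)} (h1 : G1 A ≤ V) {g : GG A} (hg : g ∈ V) {γ : A.Γ}
    (hγ : γ ∈ MV V) : ac g γ ∈ MV V := by
  have h2 := ac_mem h1 (V.mul_mem hg (mem_MV.1 hγ))
  rw [ac_mul, ac_Lm, mul_one] at h2
  exact h2

theorem one_TP : (1 : A.Γ) ∈ A.TP := by
  have h := A.memTP 1
  rw [map_one, map_one] at h
  exact h

end Tmax

open Tmax in
theorem t_max (h1 : St_p4) (h2 : St_swap) (h3 : St_rig) : St_max := by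
  intro A V hV hex
  have hG1 : G1 A ≤ V := by
    intro g hg
    apply hV
    refine ⟨1, ?_⟩
    rw [map_one]
    exact hg
  have hQ : ∀ q, A.iQ q ∈ MV V := by
    intro q
    rw [mem_MV]
    apply hV
    refine ⟨q, ?_⟩
    rw [ac_Lm, mul_one]
  have hS : ∀ s, A.iP (dS s) ∈ MV V := by
    intro s
    rw [A.agree]
    exact hQ _
  -- the rigid elements are in `V`
  have hrig : ∀ σ : Equiv.Perm (Fin 4), ∃ g ∈ V,
      ∀ γ ∈ A.TP, ∀ z : P4, ac g (A.iP z * γ) = A.iP (z ∘ σ) * γ := by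
    intro σ
    obtain ⟨g, hg⟩ := h3 A σ
    refine ⟨g, hG1 ?_, hg⟩
    rw [mem_G1]
    have h4 := hg 1 one_TP 1
    have h5 : ((1 : P4) ∘ σ) = (1 : P4) := rfl
    rw [h5, map_one, mul_one] at h4
    exact h4
  -- a nonconstant element
  obtain ⟨g, hg, hgQ⟩ := hex
  obtain ⟨q, γ', hγ', hδ⟩ := A.decQ (ac g 1)
  have hγ'V : γ' ∈ MV V := by
    have h4 : γ' = (A.iQ q)⁻¹ * ac g 1 := by rw [hδ, inv_mul_cancel_left]
    rw [h4]
    exact (MV V).mul_mem ((MV V).inv_mem (hQ q)) (ac_mem hG1 hg)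
  have hγ'P : γ' ∉ A.TP := by
    intro h4
    obtain ⟨s, hs⟩ := A.inter γ' h4 hγ'
    apply hgQ (q * qS s)
    rw [hδ, hs, A.agree, ← map_mul]
  obtain ⟨z, γ'', hγ'', hz⟩ := A.decP γ'
  have hzs : ∀ s, z ≠ dS s := by
    intro s hs
    apply hγ'P
    rw [hz, hs]
    exact A.smulTP s γ'' hγ''
  obtain ⟨σ, hσ⟩ := h2 z hzs
  have hmem : A.iP ((z ∘ σ : P4) * z⁻¹) ∈ MV V := by
    obtain ⟨gs, hgs, hgs2⟩ := hrig σ
    have h4 := ac_mem' hG1 hgs hγ'V
    have h5 : ac gs γ' = A.iP (z ∘ σ) * γ'' := by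
      rw [hz]
      exact hgs2 γ'' hγ'' z
    rw [h5] at h4
    have h6 : A.iP ((z ∘ σ : P4) * z⁻¹) = (A.iP (z ∘ σ) * γ'') * γ'⁻¹ := by
      rw [hz, map_mul, map_inv]
      group
    rw [h6]
    exact (MV V).mul_mem h4 ((MV V).inv_mem hγ'V)
  have htop : (MV V).comap A.iP = ⊤ := by
    apply h1
    · intro s
      exact hS s
    · intro τ y hy
      obtain ⟨gs, hgs, hgs2⟩ := hrig τ
      rw [Subgroup.mem_comap] at hy ⊢
      have h4 := ac_mem' hG1 hgs hy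
      have h5 := hgs2 1 one_TP y
      rw [mul_one, mul_one] at h5
      rw [h5] at h4
      exact h4
    · exact ⟨_, hmem, hσ⟩
  have hall : MV V = ⊤ := by
    rw [eq_top_iff, ← A.gen, Subgroup.closure_le]
    rintro _ (⟨y, rfl⟩ | ⟨y, rfl⟩)
    · have h4 : y ∈ (MV V).comap A.iP := by rw [htop]; exact Subgroup.mem_top y
      exact h4
    · exact hQ y
  rw [eq_top_iff]
  intro x _
  obtain ⟨u, hu, hx⟩ := exists_dec x
  have h4 : ac x 1 ∈ MV V := by rw [hall]; exact Subgroup.mem_top _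
  rw [hx]
  exact V.mul_mem (mem_MV.1 h4) (hG1 hu)

end Pool.Agent.H338.PS
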