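import Pool.Agent.H338.PS.Stm

/-!
# Membership in the subgroups `H_L` and `RW`
-/

set_option autoImplicit false

namespace Pool.Agent.H338.PS

namespace Tmem

theorem orb_iff (L n : ℤ) : Orb L n ↔ ∃ f : ℤ → ℤ, Sy L f ∧ n = f 0 := by
  constructor
  · rintro ⟨j, h | h⟩
    · exact ⟨fun n => n + 2 * j * L, ⟨j, Or.inl fun _ => rfl⟩, by simp only [h, zero_add]⟩
    · exact ⟨fun n => (2 * j + 1) * L - 1 - n, ⟨j, Or.inr fun _ => rfl⟩, by simp only [h, sub_zero]⟩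
  · rintro ⟨f, ⟨j, h | h⟩, rfl⟩
    · exact ⟨j, Or.inl (by rw [h]; ring)⟩
    · exact ⟨j, Or.inr (by rw [h]; ring)⟩

theorem sy_sg {L : ℤ} {f : ℤ → ℤ} (h : Sy L f) : Sg L f := by
  obtain ⟨j, h | h⟩ := h
  · exact ⟨2 * j, Or.inl h⟩
  · exact ⟨2 * j + 1, Or.inr h⟩

theorem sy_comp {L : ℤ} {f g : ℤ → ℤ} (hf : Sy L f) (hg : Sy L g) : Sy L (f ∘ g) := by
  obtain ⟨i, hf | hf⟩ := hf <;> obtain ⟨j, hg | hg⟩ := hg
  · exact ⟨i + j, Or.inl fun n => by rw [Function.comp_apply, hf, hg]; ring⟩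
  · exact ⟨i + j, Or.inr fun n => by rw [Function.comp_apply, hf, hg]; ring⟩
  · exact ⟨i - j, Or.inr fun n => by rw [Function.comp_apply, hf, hg]; ring⟩
  · exact ⟨i - j, Or.inl fun n => by rw [Function.comp_apply, hf, hg]; ring⟩

theorem sy_inv {L : ℤ} {f : ℤ → ℤ} (hf : Sy L f) : ∃ g, Sy L g ∧ ∀ n, g (f n) = n := by
  obtain ⟨i, hf | hf⟩ := hf
  · exact ⟨fun n => n + 2 * (-i) * L, ⟨-i, Or.inl fun _ => rfl⟩, fun n => by
      simp only [hf]; ring⟩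
  · exact ⟨fun n => (2 * i + 1) * L - 1 - n, ⟨i, Or.inr fun _ => rfl⟩, fun n => by
      simp only [hf]; ring⟩

theorem sy_id (L : ℤ) : Sy L id := ⟨0, Or.inl fun n => by simp⟩

/-- Symmetries act on unrestricted paths. -/
theorem tr_sy (h3 : St_trSg) {A : Amal} {L : ℤ} (hL : Even L) {f : ℤ → ℤ} (hf : Sy L f)
    {n m : ℤ} {γ : A.Γ} (h : Tr A L allZ n γ m) : Tr A L allZ (f n) γ (f m) :=
  (h3 A L allZ n m γ f hL (sy_sg hf) h).mono fun _ _ => trivial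

/-- The product. -/
theorem ac_mul_one {A : Amal} (g h : GG A) :
    ∃ u ∈ G1 A, ac (g * h) 1 = ac g 1 * ac u (ac h 1) ∧ ac g⁻¹ 1 = ac u⁻¹ (ac g 1)⁻¹ := by
  obtain ⟨u, hu, hg⟩ := exists_dec g
  refine ⟨u, hu, ?_, ?_⟩
  · have e1 : ∀ x, ac g x = ac g 1 * ac u x := fun x => by
      have e2 : ac g x = ac (Lm A (ac g 1) * u) x := by rw [← hg]
      rw [e2, ac_mul, ac_Lm]
    rw [ac_mul, e1 (ac h 1)]
  · have e1 : ∀ x, ac g x = ac g 1 * ac u x := fun x => by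
      have e2 : ac g x = ac (Lm A (ac g 1) * u) x := by rw [← hg]
      rw [e2, ac_mul, ac_Lm]
    have e3 : ac g (ac u⁻¹ (ac g 1)⁻¹) = 1 := by
      rw [e1, ac_inv', mul_inv_cancel]
    have e4 := ac_inv g (ac u⁻¹ (ac g 1)⁻¹)
    rw [e3] at e4
    exact e4

/-- The subgroup `H_L` described by its elements. -/
def HS (h1 : St_symm) (h2 : St_trG1) (h3 : St_trSg) (A : Amal) (L : ℤ) (hL : Even L) :
    Subgroup (GG A) where
  carrier := {g | ∃ n, Orb L n ∧ Tr A L allZ 0 (ac g 1) n}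
  mul_mem' := by
    rintro g h ⟨n, hn, hg⟩ ⟨m, hm, hh⟩
    obtain ⟨f, hf, rfl⟩ := (orb_iff L n).1 hn
    obtain ⟨f', hf', rfl⟩ := (orb_iff L m).1 hm
    obtain ⟨u, hu, e1, -⟩ := ac_mul_one g h
    refine ⟨(f ∘ f') 0, (orb_iff L _).2 ⟨_, sy_comp hf hf', rfl⟩, ?_⟩
    rw [e1]
    exact hg.trans (tr_sy h3 hL hf (h2 A L allZ 0 _ _ u hu hh))
  one_mem' := ⟨0, (orb_iff L 0).2 ⟨id, sy_id L, rfl⟩, Tr.refl trivial⟩
  inv_mem' := by
    rintro g ⟨n, hn, hg⟩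
    obtain ⟨f, hf, rfl⟩ := (orb_iff L n).1 hn
    obtain ⟨f', hf', hff⟩ := sy_inv hf
    obtain ⟨u, hu, -, e1⟩ := ac_mul_one g g
    refine ⟨f' 0, (orb_iff L _).2 ⟨_, hf', rfl⟩, ?_⟩
    rw [e1]
    refine h2 A L allZ 0 _ _ u⁻¹ ((G1 A).inv_mem hu) ?_
    have e2 := tr_sy h3 hL hf' (h1 A L allZ _ _ _ hg)
    rw [hff] at e2
    exact e2

/-- The subgroup `RW` described by its elements. -/
def RS (h1 : St_symm) (h2 : St_trG1) (A : Amal) (L : ℤ) (k : ℕ) : Subgroup (GG A) where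
  carrier := {g | Tr A L (win k) 0 (ac g 1) 0}
  mul_mem' := by
    intro g h hg hh
    obtain ⟨u, hu, e1, -⟩ := ac_mul_one g h
    change Tr A L (win k) 0 (ac (g * h) 1) 0
    rw [e1]
    exact Tr.trans hg (h2 A L (win k) 0 _ _ u hu hh)
  one_mem' := Tr.refl (by simp [win])
  inv_mem' := by
    intro g hg
    obtain ⟨u, hu, -, e1⟩ := ac_mul_one g g
    change Tr A L (win k) 0 (ac g⁻¹ 1) 0
    rw [e1]
    exact h2 A L (win k) 0 _ _ u⁻¹ ((G1 A).inv_mem hu) (h1 A L (win k) _ _ _ hg)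

end Tmem

theorem t_mem (h1 : St_symm) (h2 : St_trG1) (h3 : St_trSg) : St_mem := by
  intro A L hL
  constructor
  · intro g
    have e : HH A L = Tmem.HS h1 h2 h3 A L hL := Subgroup.closure_eq (Tmem.HS h1 h2 h3 A L hL)
    rw [e]
    exact Iff.rfl
  · intro k g
    have e : RW A L k = Tmem.RS h1 h2 A L k := Subgroup.closure_eq (Tmem.RS h1 h2 A L k)
    rw [e]
    exact Iff.rfl

end Pool.Agent.H338.PS
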