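import Pool.Agent.H338.PS.Stm

/-!
# NC: the group `H_L` is not compact
-/

set_option autoImplicit false

namespace Pool.Agent.H338.PS

open Topology

namespace Tnc

variable {A : Amal}

/-- the set of the `g` with `g 1 = γ` is open -/
theorem isOpen_ev (γ : A.Γ) : IsOpen {g : GG A | ac g 1 = γ} := by
  let tp : TopologicalSpace (A.Γ × A.Γ) := ⊥
  have : DiscreteTopology (A.Γ × A.Γ) := ⟨rfl⟩
  have h1 : IsOpen {φ : A.Γ → A.Γ × A.Γ | (φ 1).1 = γ} := by
    have h2 : Continuous fun φ : A.Γ → A.Γ × A.Γ => φ 1 := continuous_apply 1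
    exact (isOpen_discrete {p : A.Γ × A.Γ | p.1 = γ}).preimage h2
  exact isOpen_induced_iff.2 ⟨_, h1, rfl⟩

theorem pow_be (h4 : St_be2) (l : ℕ) (hl : 1 ≤ l) (j : ℕ) :
    (be A l ^ (j + 1))⁻¹ ∈ A.TP ∧ (be A l ^ (j + 1))⁻¹ ∉ A.TQ := by
  have h := (h4 A l hl).1
  have h1 : (1 : A.Γ) ∈ A.TP := by
    have := A.memTP 1
    rwa [map_one, map_one] at this
  induction j with
  | zero =>
    have := h 1 h1
    simpa using this
  | succ j ih =>
    have := h _ ih.1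
    rwa [← mul_inv_rev, ← pow_succ] at this

theorem be_ne (h4 : St_be2) (l : ℕ) (hl : 1 ≤ l) (j : ℕ) : be A l ^ (j + 1) ≠ 1 := by
  intro h
  have h1 := (pow_be (A := A) h4 l hl j).2
  rw [h, inv_one] at h1
  apply h1
  have := A.memTQ 1
  rwa [map_one, map_one] at this

theorem be_inj (h4 : St_be2) (l : ℕ) (hl : 1 ≤ l) :
    Function.Injective fun i : ℕ => be A l ^ (2 * i) := by
  have key : ∀ i j : ℕ, i < j → be A l ^ (2 * i) ≠ be A l ^ (2 * j) := by
    intro i j hij he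
    obtain ⟨d, rfl⟩ := Nat.exists_eq_add_of_lt hij
    have e : 2 * (i + d + 1) = 2 * i + ((2 * d + 1) + 1) := by ring
    rw [e, pow_add] at he
    exact be_ne h4 l hl _ (mul_left_cancel (he.symm.trans (mul_one _).symm))
  intro i j hij
  rcases lt_trichotomy i j with h | h | h
  · exact absurd hij (key i j h)
  · exact h
  · exact absurd hij.symm (key j i h)

theorem mem_HH (h2 : St_mem) (h3 : St_be1) (l : ℕ) (hl : 1 ≤ l) (i : ℕ) :
    Lm A (be A l ^ (2 * i)) ∈ HH A (4 * (l : ℤ)) := by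
  have he : Even (4 * (l : ℤ)) := ⟨2 * (l : ℤ), by ring⟩
  rw [(h2 A (4 * (l : ℤ)) he).1]
  refine ⟨((2 * i : ℕ) : ℤ) * (4 * (l : ℤ)), ⟨i, Or.inl (by push_cast; ring)⟩, ?_⟩
  rw [ac_Lm, mul_one]
  exact (h3 A l hl (2 * i)).1

end Tnc

theorem t_nc (_h1 : St_fix) (h2 : St_mem) (h3 : St_be1) (h4 : St_be2) : St_nc := by
  intro A l hl hc
  obtain ⟨F, hF⟩ := hc.elim_finite_subcover (fun γ : A.Γ => {g : GG A | ac g 1 = γ})
    (fun γ => Tnc.isOpen_ev γ) (fun g _ => Set.mem_iUnion.2 ⟨ac g 1, rfl⟩)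
  have hmem : ∀ i : ℕ, be A l ^ (2 * i) ∈ F := by
    intro i
    have h5 := hF (Tnc.mem_HH (A := A) h2 h3 l hl i)
    obtain ⟨γ, hγ, h6⟩ := Set.mem_iUnion₂.1 h5
    change ac (Lm A (be A l ^ (2 * i))) 1 = γ at h6
    rw [ac_Lm, mul_one] at h6
    rw [h6]
    exact hγ
  have h7 : Function.Injective fun i : ℕ => (⟨be A l ^ (2 * i), hmem i⟩ : F) := by
    intro i j hij
    exact Tnc.be_inj h4 l hl (congrArg Subtype.val hij)
  exact not_injective_infinite_finite _ h7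

end Pool.Agent.H338.PS
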