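import Pool.Agent.H338.PS.Cstm

namespace Pool.Agent.H338.PS

theorem t_ncl : St_ncl := by
  intro G _ _ _ U H hUH
  have h1 : U ≤ ncl U H := by
    intro u hu
    exact Subgroup.subset_closure ⟨1, H.one_mem, u, hu, by simp⟩
  refine ⟨h1, ?_, ?_, ?_⟩
  · unfold ncl
    rw [Subgroup.closure_le]
    rintro x ⟨h, hh, u, hu, rfl⟩
    exact H.mul_mem (H.mul_mem hh (hUH hu)) (H.inv_mem hh)
  · intro h hh x hx
    unfold ncl at hx ⊢
    refine Subgroup.closure_induction ?_ ?_ ?_ ?_ hx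
    · rintro x ⟨k, hk, u, hu, rfl⟩
      exact Subgroup.subset_closure ⟨h * k, H.mul_mem hh hk, u, hu, by group⟩
    · simp
    · intro x y _ _ hx hy
      have : h * (x * y) * h⁻¹ = (h * x * h⁻¹) * (h * y * h⁻¹) := by group
      rw [this]
      exact Subgroup.mul_mem _ hx hy
    · intro x _ hx
      have : h * x⁻¹ * h⁻¹ = (h * x * h⁻¹)⁻¹ := by group
      rw [this]
      exact Subgroup.inv_mem _ hx
  · intro hU
    have h2 : IsOpen (ncl U H : Set G) := Subgroup.isOpen_mono h1 hU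
    exact ⟨h2, Subgroup.isClosed_of_isOpen _ h2⟩

end Pool.Agent.H338.PS
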