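import Pool.Agent.H338.PS.Cstm

set_option autoImplicit false

namespace Pool.Agent.H338.PS

open Topology

theorem t_nonarch : St_nonarch := by
  intro G _ _ U h hUo hUc
  have := h.isTopologicalGroup
  have := h.t2
  have := h.totallyDisconnected
  have hcU : CompactSpace U := isCompact_iff_compactSpace.1 hUc
  refine { is_nonarchimedean := fun V hV => ?_ }
  obtain ⟨N, hN⟩ := ProfiniteGrp.exist_openNormalSubgroup_sub_open_nhds_of_one (G := U)
    (U := (Subtype.val ⁻¹' interior V : Set U)) (isOpen_interior.preimage continuous_subtype_val)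
    (by
      change ((1 : U) : G) ∈ interior V
      rw [Subgroup.coe_one]
      exact mem_interior_iff_mem_nhds.2 hV)
  have hopen : IsOpen (((N : Subgroup U).map U.subtype : Subgroup G) : Set G) := by
    have h1 : IsOpenMap (Subtype.val : U → G) := hUo.isOpenMap_subtype_val
    exact h1 _ N.isOpen'
  refine ⟨⟨(N : Subgroup U).map U.subtype, hopen⟩, ?_⟩
  rintro x ⟨y, hy, rfl⟩
  exact interior_subset (hN hy)

end Pool.Agent.H338.PS
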