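import Pool.Agent.H338.PS.Cstm

/-!
# `Res^ω(H n)` has no quotient in the class `𝒮`
-/

set_option autoImplicit false
set_option linter.unusedSectionVars false

namespace Pool.Agent.H338.PS

open Topology Pointwise

namespace Tnoq

variable {Q : Type} [Group Q] [TopologicalSpace Q]

/-- a topologically simple compact totally disconnected group is discrete -/
theorem discrete_of_compact (h : TDLCSC Q) (hc : CompactSpace Q)
    (hs : ∀ N : Subgroup Q, N.Normal → IsClosed (N : Set Q) → N = ⊥ ∨ N = ⊤) :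
    DiscreteTopology Q := by
  have := h.isTopologicalGroup
  by_cases hex : ∃ V : Subgroup Q, V.Normal ∧ IsOpen (V : Set Q) ∧ V = ⊥
  · obtain ⟨V, _, hVo, rfl⟩ := hex
    apply discreteTopology_of_isOpen_singleton_one
    rwa [Subgroup.coe_bot] at hVo
  · have h1 : Res Q = ⊤ := by
      rw [Res, sInf_eq_top]
      rintro V ⟨hVn, hVo⟩
      rcases hs V hVn (Subgroup.isClosed_of_isOpen V hVo) with h2 | h2
      · exact absurd ⟨V, hVn, hVo, h2⟩ hex
      · exact h2
    have h3 : (⊤ : Subgroup Q) = ⊥ := h1.symm.trans (Res_compact h hc)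
    have h4 : Subsingleton Q := by
      refine ⟨fun a b => ?_⟩
      have ha : a ∈ (⊥ : Subgroup Q) := h3 ▸ Subgroup.mem_top a
      have hb : b ∈ (⊥ : Subgroup Q) := h3 ▸ Subgroup.mem_top b
      rw [Subgroup.mem_bot] at ha hb
      rw [ha, hb]
    infer_instance

/-- the abstract form of the argument: `ι : R → G` is a closed embedding with range `Rg` -/
theorem main {R G : Type} [Group R] [TopologicalSpace R] [IsTopologicalGroup R]
    [Group G] [TopologicalSpace G] (ι : R →* G)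
    (hι : IsClosedEmbedding ι) (Rg : Subgroup G) (hRg : ∀ g, g ∈ Rg ↔ ∃ x, ι x = g)
    (K : ℕ → Subgroup G) (hmono : Monotone K) (hKo : ∀ k, IsOpen (K k : Set G))
    (hcov : ∀ x ∈ Rg, ∃ k, x ∈ K k)
    (hW : ∀ k, ∃ W : Subgroup G, IsCompact (W : Set G) ∧ W ≤ Rg ∧
      (∀ r ∈ K k, ∀ w ∈ W, r * w * r⁻¹ ∈ W) ∧
      ∀ N : Subgroup G, IsClosed (N : Set G) → N ≤ Rg →
        (∀ r ∈ Rg, ∀ x ∈ N, r * x * r⁻¹ ∈ N) → W ≤ N → Rg ≤ N)
    (N : Subgroup R) [hN : N.Normal] (hNc : IsClosed (N : Set R)) : ¬ ClassS (R ⧸ N) := by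
  rintro ⟨hQ, hnd, ⟨_, C, hC, hCtop⟩, hs⟩
  have := hQ.t2
  have := hQ.isTopologicalGroup
  have hπ : Continuous (QuotientGroup.mk' N) := QuotientGroup.continuous_mk
  -- the images of the `K k`
  have hcovC : C ⊆ ⋃ k, ((((K k).comap ι).map (QuotientGroup.mk' N) : Subgroup (R ⧸ N)) :
      Set (R ⧸ N)) := by
    intro q _
    obtain ⟨x, rfl⟩ := QuotientGroup.mk'_surjective N q
    obtain ⟨k, hk⟩ := hcov (ι x) ((hRg _).mpr ⟨x, rfl⟩)
    exact Set.mem_iUnion.mpr ⟨k, x, hk, rfl⟩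
  obtain ⟨k, hk⟩ := hC.elim_directed_cover _ (fun k => by
    exact QuotientGroup.isOpenMap_coe _ ((hKo k).preimage hι.continuous)) hcovC (by
      intro i j
      refine ⟨max i j, ?_, ?_⟩
      · rintro _ ⟨x, hx, rfl⟩
        exact ⟨x, hmono (le_max_left i j) hx, rfl⟩
      · rintro _ ⟨x, hx, rfl⟩
        exact ⟨x, hmono (le_max_right i j) hx, rfl⟩)
  have htop : ∀ q : R ⧸ N, ∃ r : R, ι r ∈ K k ∧ QuotientGroup.mk' N r = q := by
    intro q
    have h1 : (⊤ : Subgroup (R ⧸ N)) ≤ ((K k).comap ι).map (QuotientGroup.mk' N) := by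
      rw [← hCtop, Subgroup.closure_le]
      exact hk
    obtain ⟨r, hr, hrq⟩ := h1 (Subgroup.mem_top q)
    exact ⟨r, hr, hrq⟩
  obtain ⟨W, hWc, hWR, hWn, hWN⟩ := hW k
  have hPc : IsCompact (((W.comap ι).map (QuotientGroup.mk' N) : Subgroup (R ⧸ N)) :
      Set (R ⧸ N)) := by
    rw [Subgroup.coe_map]
    exact (hι.isCompact_preimage hWc).image hπ
  have hPn : ((W.comap ι).map (QuotientGroup.mk' N)).Normal := by
    constructor
    rintro _ ⟨w, hw, rfl⟩ q
    obtain ⟨r, hr, rfl⟩ := htop q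
    refine ⟨r * w * r⁻¹, ?_, by simp⟩
    change ι (r * w * r⁻¹) ∈ W
    rw [map_mul, map_mul, map_inv]
    exact hWn _ hr _ hw
  rcases hs _ hPn hPc.isClosed with h1 | h1
  · -- the image of `W` is trivial
    have hWN' : W ≤ N.map ι := by
      intro w hw
      obtain ⟨x, rfl⟩ := (hRg w).mp (hWR hw)
      refine ⟨x, ?_, rfl⟩
      have h2 : QuotientGroup.mk' N x ∈ (W.comap ι).map (QuotientGroup.mk' N) := ⟨x, hw, rfl⟩
      rw [h1, Subgroup.mem_bot, ← MonoidHom.mem_ker, QuotientGroup.ker_mk'] at h2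
      exact h2
    have hle := hWN (N.map ι) (by
      rw [Subgroup.coe_map]
      exact hι.isClosedMap _ hNc) (by
        rintro _ ⟨x, _, rfl⟩
        exact (hRg _).mpr ⟨x, rfl⟩) (by
          rintro r hr _ ⟨x, hx, rfl⟩
          obtain ⟨r', rfl⟩ := (hRg r).mp hr
          refine ⟨r' * x * r'⁻¹, hN.conj_mem x hx r', by simp⟩) hWN'
    have hNt : ∀ x : R, x ∈ N := by
      intro x
      obtain ⟨y, hy, hyx⟩ := hle ((hRg (ι x)).mpr ⟨x, rfl⟩)
      exact (hι.injective hyx) ▸ hy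
    have hsub : Subsingleton (R ⧸ N) := by
      refine ⟨fun a b => ?_⟩
      obtain ⟨x, rfl⟩ := QuotientGroup.mk'_surjective N a
      obtain ⟨y, rfl⟩ := QuotientGroup.mk'_surjective N b
      exact QuotientGroup.eq.mpr (hNt _)
    exact hnd inferInstance
  · refine hnd (discrete_of_compact hQ ⟨?_⟩ hs)
    rw [h1] at hPc
    exact hPc

end Tnoq

open Tnoq in
theorem t_noq (h1 : St_ncl) (h2 : St_resOmega) : St_noq := by
  intro G _ _ U H hD n N hN hNc
  have hG := hD.td
  have := hG.isTopologicalGroup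
  obtain ⟨hUR, hRH, hconj, hop⟩ := h1 G U (H n) (hD.le n)
  obtain ⟨hRo, hRc⟩ := hop hD.Uo
  have hHo : IsOpen (H n : Set G) := (hD.oc n).1
  have hHc : IsClosed (H n : Set G) := Subgroup.isClosed_of_isOpen _ hHo
  have hres := h2 G U H hD n
  have hResc : IsClosed (ResOmega (H n) : Set (H n)) := by
    rw [hres]
    exact hRc.preimage continuous_subtype_val
  obtain ⟨K, hmono, hKo, hKle, hcov, hW⟩ := hD.ex n
  refine main (R := ResOmega (H n)) (G := G) ((H n).subtype.comp (ResOmega (H n)).subtype) ?_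
    (ncl U (H n)) ?_ K hmono hKo hcov hW N hNc
  · exact hHc.isClosedEmbedding_subtypeVal.comp hResc.isClosedEmbedding_subtypeVal
  · intro g
    constructor
    · intro hg
      have hm : (⟨g, hRH hg⟩ : H n) ∈ ResOmega (H n) := by
        rw [hres, Subgroup.mem_subgroupOf]
        exact hg
      exact ⟨⟨⟨g, hRH hg⟩, hm⟩, rfl⟩
    · rintro ⟨x, rfl⟩
      have hx : (x : H n) ∈ (ncl U (H n)).subgroupOf (H n) := hres.le x.2
      rw [Subgroup.mem_subgroupOf] at hx
      exact hx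

end Pool.Agent.H338.PS
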