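import Pool.Agent.H338.PS.Stm

/-!
# The normal closure preserves the label
-/

set_option autoImplicit false

namespace Pool.Agent.H338.PS

open Topology

theorem Tnr.inv_one {A : Amal} (g u : GG A) (hg : g = Lm A (ac g 1) * u) :
    ac g⁻¹ 1 = ac u⁻¹ (ac g 1)⁻¹ := by
  have h1 : g⁻¹ = u⁻¹ * Lm A (ac g 1)⁻¹ := by
    rw [Lm_inv, ← mul_inv_rev, ← hg]
  calc ac g⁻¹ 1 = ac (u⁻¹ * Lm A (ac g 1)⁻¹) 1 := by rw [← h1]
    _ = ac u⁻¹ (ac (Lm A (ac g 1)⁻¹) 1) := ac_mul _ _ _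
    _ = ac u⁻¹ (ac g 1)⁻¹ := by rw [ac_Lm, mul_one]

theorem Tnr.mul_one {A : Amal} (g u h : GG A) (hg : g = Lm A (ac g 1) * u) :
    ac (g * h) 1 = ac g 1 * ac u (ac h 1) := by
  calc ac (g * h) 1 = ac g (ac h 1) := ac_mul _ _ _
    _ = ac (Lm A (ac g 1) * u) (ac h 1) := by rw [← hg]
    _ = ac (Lm A (ac g 1)) (ac u (ac h 1)) := ac_mul _ _ _
    _ = ac g 1 * ac u (ac h 1) := ac_Lm _ _

theorem t_nr (h1 : St_mem) (h2 : St_symm) (h3 : St_trG1) (_h4 : St_trSg) : St_nr := by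
  intro A l _ x hx
  have hev : Even (4 * (l : ℤ)) := ⟨2 * l, by ring⟩
  unfold ncl at hx
  induction hx using Subgroup.closure_induction with
  | mem x hx =>
    obtain ⟨h, hh, u, hu, rfl⟩ := hx
    obtain ⟨n, _, hn⟩ := ((h1 A (4 * (l : ℤ)) hev).1 h).1 hh
    obtain ⟨v, hv, hdec⟩ := exists_dec h
    have e1 : ac (h * u * h⁻¹) 1 = ac h 1 * ac (v * u * v⁻¹) (ac h 1)⁻¹ := by
      rw [mul_assoc, Tnr.mul_one h v (u * h⁻¹) hdec]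
      congr 1
      rw [ac_mul, Tnr.inv_one h v hdec, ac_mul, ac_mul]
    rw [e1]
    have e2 : Tr A (4 * (l : ℤ)) allZ n (ac h 1)⁻¹ 0 := h2 A _ _ _ _ _ hn
    have e3 : v * u * v⁻¹ ∈ G1 A :=
      (G1 A).mul_mem ((G1 A).mul_mem hv hu) ((G1 A).inv_mem hv)
    exact Tr.trans hn (h3 A _ _ _ _ _ _ e3 e2)
  | one =>
    rw [ac_one]
    exact Tr.refl trivial
  | mul x y _ _ ihx ihy =>
    obtain ⟨v, hv, hdec⟩ := exists_dec x
    rw [Tnr.mul_one x v y hdec]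
    exact Tr.trans ihx (h3 A _ _ _ _ _ _ hv ihy)
  | inv x _ ih =>
    obtain ⟨v, hv, hdec⟩ := exists_dec x
    rw [Tnr.inv_one x v hdec]
    exact h3 A _ _ _ _ _ _ ((G1 A).inv_mem hv) (h2 A _ _ _ _ _ ih)

end Pool.Agent.H338.PS
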