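import Pool.Agent.H338.PS.Stm

set_option autoImplicit false

namespace Pool.Agent.H338.PS

namespace Tp4

theorem third : ∀ i j : Fin 4, ∃ k, k ≠ i ∧ k ≠ j := by decide

theorem dS_apply (u : S5) (i : Fin 4) : dS u i = u := rfl

/-- an element that commutes with all its conjugates is trivial -/
theorem conj_comm (t : S5) (h : ∀ u : S5, t * (u * t * u⁻¹) = (u * t * u⁻¹) * t) : t = 1 := by
  by_contra ht
  have hsimple : IsSimpleGroup S5 := alternatingGroup.isSimpleGroup_five
  have h1 : Subgroup.normalClosure ({t} : Set S5) = ⊤ := by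
    rcases hsimple.eq_bot_or_eq_top_of_normal (Subgroup.normalClosure {t})
      Subgroup.normalClosure_normal with h2 | h2
    · exfalso
      apply ht
      have h3 : t ∈ Subgroup.normalClosure ({t} : Set S5) :=
        Subgroup.subset_normalClosure (Set.mem_singleton t)
      rw [h2] at h3
      exact Subgroup.mem_bot.1 h3
    · exact h2
  have h2 : Subgroup.normalClosure ({t} : Set S5) ≤ Subgroup.centralizer ({t} : Set S5) := by
    unfold Subgroup.normalClosure
    rw [Subgroup.closure_le]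
    intro x hx
    rw [Group.mem_conjugatesOfSet_iff] at hx
    obtain ⟨a, ha, hax⟩ := hx
    rw [Set.mem_singleton_iff] at ha
    subst ha
    obtain ⟨u, hu⟩ := isConj_iff.1 hax
    rw [← hu]
    change u * a * u⁻¹ ∈ Subgroup.centralizer ({a} : Set S5)
    rw [Subgroup.mem_centralizer_iff]
    intro b hb
    rw [Set.mem_singleton_iff] at hb
    rw [hb]
    exact h u
  have h3 : t ∈ Subgroup.center S5 := by
    rw [Subgroup.mem_center_iff]
    intro g
    have h4 : g ∈ Subgroup.centralizer ({t} : Set S5) := h2 (by rw [h1]; trivial)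
    rw [Subgroup.mem_centralizer_iff] at h4
    exact (h4 t (Set.mem_singleton t)).symm
  have h5 : Subgroup.center (alternatingGroup (Fin 5)) = ⊥ :=
    alternatingGroup.center_eq_bot (by
      rw [Nat.card_eq_fintype_card, Fintype.card_fin]
      norm_num)
  rw [h5] at h3
  exact ht (Subgroup.mem_bot.1 h3)

theorem single_comp (i i' : Fin 4) (x : S5) :
    ((Pi.mulSingle i x : P4) ∘ (Equiv.swap i i') : P4) = Pi.mulSingle i' x := by
  funext k
  change (Pi.mulSingle i x : P4) (Equiv.swap i i' k) = (Pi.mulSingle i' x : P4) k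
  by_cases hk : k = i'
  · subst hk
    rw [Equiv.swap_apply_right, Pi.mulSingle_eq_same, Pi.mulSingle_eq_same]
  · rw [Pi.mulSingle_eq_of_ne hk]
    rw [Pi.mulSingle_eq_of_ne]
    intro h
    apply hk
    have h1 := congrArg (Equiv.swap i i') h
    rw [Equiv.swap_apply_self, Equiv.swap_apply_left] at h1
    exact h1

theorem conj_single (i : Fin 4) (x g : S5) :
    dS g * (Pi.mulSingle i x : P4) * (dS g)⁻¹ = Pi.mulSingle i (g * x * g⁻¹) := by
  funext k
  change g * (Pi.mulSingle i x : P4) k * g⁻¹ = (Pi.mulSingle i (g * x * g⁻¹) : P4) k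
  by_cases hk : k = i
  · subst hk
    rw [Pi.mulSingle_eq_same, Pi.mulSingle_eq_same]
  · rw [Pi.mulSingle_eq_of_ne hk, Pi.mulSingle_eq_of_ne hk]
    group

/-- there is a nontrivial element with support in one coordinate -/
theorem exists_single (V : Subgroup P4) (hd : ∀ s, dS s ∈ V)
    (hσ : ∀ σ : Equiv.Perm (Fin 4), ∀ z ∈ V, (z ∘ σ : P4) ∈ V)
    (hz : ∃ z ∈ V, ∀ s, z ≠ dS s) :
    ∃ (i : Fin 4) (x : S5), x ≠ 1 ∧ (Pi.mulSingle i x : P4) ∈ V := by
  obtain ⟨z, hzV, hzs⟩ := hz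
  obtain ⟨i, j, hij⟩ : ∃ i j, z i ≠ z j := by
    by_contra hcon
    push Not at hcon
    apply hzs (z 0)
    funext k
    exact hcon k 0
  have hne : i ≠ j := fun h => hij (by rw [h])
  obtain ⟨k, hki, hkj⟩ := third i j
  obtain ⟨y, hy⟩ : ∃ y : P4, y = (z ∘ (Equiv.swap i j) : P4) * z⁻¹ := ⟨_, rfl⟩
  have hyV : y ∈ V := by
    rw [hy]
    exact V.mul_mem (hσ _ z hzV) (V.inv_mem hzV)
  have ya : ∀ l, y l = z (Equiv.swap i j l) * (z l)⁻¹ := fun l => by rw [hy]; rfl
  have yi : y i = z j * (z i)⁻¹ := by rw [ya, Equiv.swap_apply_left]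
  have yj : y j = (y i)⁻¹ := by rw [yi, ya, Equiv.swap_apply_right]; group
  have yo : ∀ l, l ≠ i → l ≠ j → y l = 1 := by
    intro l h1 h2
    rw [ya, Equiv.swap_apply_of_ne_of_ne h1 h2, mul_inv_cancel]
  have ht : y i ≠ 1 := by
    rw [yi]
    intro h
    exact hij (mul_inv_eq_one.1 h).symm
  obtain ⟨u, hu⟩ : ∃ u : S5, y i * (u * y i * u⁻¹) ≠ (u * y i * u⁻¹) * y i := by
    by_contra hcon
    push Not at hcon
    exact ht (conj_comm _ hcon)
  obtain ⟨y', hy'⟩ : ∃ y' : P4, y' = dS u * (y ∘ (Equiv.swap j k) : P4) * (dS u)⁻¹ := ⟨_, rfl⟩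
  have hy'V : y' ∈ V := by
    rw [hy']
    exact V.mul_mem (V.mul_mem (hd u) (hσ _ y hyV)) (V.inv_mem (hd u))
  have y'a : ∀ l, y' l = u * y (Equiv.swap j k l) * u⁻¹ := fun l => by rw [hy']; rfl
  have y'i : y' i = u * y i * u⁻¹ := by
    rw [y'a, Equiv.swap_apply_of_ne_of_ne hne (fun h => hki h.symm)]
  have y'j : y' j = 1 := by
    rw [y'a, Equiv.swap_apply_left, yo k hki hkj]
    group
  have y'o : ∀ l, l ≠ i → l ≠ k → y' l = 1 := by
    intro l h1 h2
    by_cases h3 : l = j
    · rw [h3]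
      exact y'j
    · rw [y'a, Equiv.swap_apply_of_ne_of_ne h3 h2, yo l h1 h3]
      group
  refine ⟨i, y i * y' i * (y i)⁻¹ * (y' i)⁻¹, ?_, ?_⟩
  · rw [y'i]
    intro h
    apply hu
    have h1 := mul_inv_eq_one.1 h
    exact mul_inv_eq_iff_eq_mul.1 h1
  · have hw : (Pi.mulSingle i (y i * y' i * (y i)⁻¹ * (y' i)⁻¹) : P4) = y * y' * y⁻¹ * y'⁻¹ := by
      funext l
      change _ = y l * y' l * (y l)⁻¹ * (y' l)⁻¹
      by_cases hl : l = i
      · subst hl
        rw [Pi.mulSingle_eq_same]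
      · rw [Pi.mulSingle_eq_of_ne hl]
        by_cases hlk : l = k
        · rw [hlk, yo k hki hkj]
          group
        · rw [y'o l hl hlk]
          group
    rw [hw]
    exact V.mul_mem (V.mul_mem (V.mul_mem hyV hy'V) (V.inv_mem hyV)) (V.inv_mem hy'V)

end Tp4

theorem t_p4 : St_p4 := by
  intro V hd hσ hz
  obtain ⟨i, x, hx, hxV⟩ := Tp4.exists_single V hd hσ hz
  have hsimple : IsSimpleGroup S5 := alternatingGroup.isSimpleGroup_five
  have hnormal : (V.comap (MonoidHom.mulSingle (fun _ : Fin 4 => S5) i)).Normal := by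
    refine ⟨fun a ha g => ?_⟩
    rw [Subgroup.mem_comap] at ha ⊢
    have h1 : (Pi.mulSingle i a : P4) ∈ V := ha
    change (Pi.mulSingle i (g * a * g⁻¹) : P4) ∈ V
    rw [← Tp4.conj_single]
    exact V.mul_mem (V.mul_mem (hd g) h1) (V.inv_mem (hd g))
  have htop : ∀ a : S5, (Pi.mulSingle i a : P4) ∈ V := by
    rcases hsimple.eq_bot_or_eq_top_of_normal _ hnormal with h | h
    · exfalso
      apply hx
      have h1 : x ∈ V.comap (MonoidHom.mulSingle (fun _ : Fin 4 => S5) i) := hxV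
      rw [h] at h1
      exact Subgroup.mem_bot.1 h1
    · intro a
      have h1 : a ∈ V.comap (MonoidHom.mulSingle (fun _ : Fin 4 => S5) i) := by
        rw [h]
        trivial
      exact h1
  rw [Subgroup.eq_top_iff']
  intro z
  refine Subgroup.pi_mem_of_mulSingle_mem z fun i' => ?_
  rw [← Tp4.single_comp i i' (z i')]
  exact hσ _ _ (htop _)

end Pool.Agent.H338.PS
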