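import Pool.Agent.H338.PS.Cstm

/-!
# `Res^ω(H n)` is the normal closure of `U` in `H n`
-/

set_option autoImplicit false
set_option linter.unusedSectionVars false

namespace Pool.Agent.H338.PS

open Topology Pointwise

namespace TresOmega

variable {G : Type} [Group G] [TopologicalSpace G]

theorem closure_pre (C : Set G) (K : Subgroup G) (hC : Subgroup.closure C = K) :
    Subgroup.closure (Subtype.val ⁻¹' C : Set K) = ⊤ := by
  subst hC
  exact Subgroup.closure_preimage_eq_top C

/-- a closed subgroup which is generated by a compact set is compactly generated -/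
theorem top_mem_Oc (K : Subgroup G) (hK : IsClosed (K : Set G)) (hO : K ∈ Oc G) :
    (⊤ : Subgroup K) ∈ Oc K := by
  obtain ⟨_, C, hC, hCK⟩ := hO
  refine ⟨isOpen_univ, Subtype.val ⁻¹' C, ?_, closure_pre C K hCK⟩
  exact hK.isClosedEmbedding_subtypeVal.isCompact_preimage hC

/-- quotients of compactly generated groups -/
theorem top_mem_Oc_quot (h : (⊤ : Subgroup G) ∈ Oc G) (N : Subgroup G) [N.Normal] :
    (⊤ : Subgroup (G ⧸ N)) ∈ Oc (G ⧸ N) := by
  obtain ⟨_, C, hC, hCK⟩ := h
  refine ⟨isOpen_univ, QuotientGroup.mk' N '' C, hC.image QuotientGroup.continuous_mk, ?_⟩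
  rw [← MonoidHom.map_closure, hCK]
  exact Subgroup.map_top_of_surjective _ (QuotientGroup.mk'_surjective N)

end TresOmega

open TresOmega in
theorem t_resOmega (h1 : St_ncl) (h2 : St_nonarch) (h3 : St_kill) : St_resOmega := by
  intro G _ _ U H hD n
  have hG := hD.td
  have := hG.isTopologicalGroup
  have := hG.t2
  have := hG.totallyDisconnected
  have := hG.locallyCompact
  have := hG.secondCountable
  obtain ⟨hUR, hRH, hconj, hop⟩ := h1 G U (H n) (hD.le n)
  obtain ⟨hRo, hRc⟩ := hop hD.Uo
  have hHo : IsOpen (H n : Set G) := (hD.oc n).1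
  have hHc : IsClosed (H n : Set G) := Subgroup.isClosed_of_isOpen _ hHo
  have hHt : TDLCSC (H n) := hG.subgroup _ hHc
  have := hHt.secondCountable
  have := hHt.locallyCompact
  have hRn : ((ncl U (H n)).subgroupOf (H n)).Normal := by
    constructor
    intro x hx g
    rw [Subgroup.mem_subgroupOf] at hx ⊢
    exact hconj g g.2 x hx
  apply le_antisymm
  · apply sInf_le
    have hRo' : IsOpen (((ncl U (H n)).subgroupOf (H n) : Subgroup (H n)) : Set (H n)) :=
      hRo.preimage continuous_subtype_val
    have hRc' : IsClosed (((ncl U (H n)).subgroupOf (H n) : Subgroup (H n)) : Set (H n)) :=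
      hRc.preimage continuous_subtype_val
    have hd : DiscreteTopology (H n ⧸ (ncl U (H n)).subgroupOf (H n)) :=
      QuotientGroup.discreteTopology hRo'
    have hQ : TDLCSC (H n ⧸ (ncl U (H n)).subgroupOf (H n)) :=
      { isTopologicalGroup := inferInstance
        t2 := inferInstance
        totallyDisconnected := inferInstance
        locallyCompact := inferInstance
        secondCountable := inferInstance }
    obtain ⟨hE, hR⟩ := compact_by_discrete hQ (top_mem_Oc_quot (top_mem_Oc (H n) hHc (hD.oc n)) _)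
      ⊥ inferInstance (isOpen_discrete _) (by
        rw [Subgroup.coe_bot]
        exact isCompact_singleton)
    exact ⟨hRn, hRc', hE, hR⟩
  · apply le_sInf
    rintro N ⟨hN, hNc, hNe, α, hα, hr⟩
    have hna : NonarchimedeanGroup (H n) := by
      refine h2 (H n) (U.subgroupOf (H n)) hHt (hD.Uo.preimage continuous_subtype_val) ?_
      exact hHc.isClosedEmbedding_subtypeVal.isCompact_preimage hD.Uc
    have hQ : TDLCSC (H n ⧸ N) := quot_tdlcsc hHt hna N hNc
    have hk := h3 G U H hD (H n ⧸ N) α hr hQ n (QuotientGroup.mk' N) QuotientGroup.continuous_mk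
    have hUN : ∀ x : H n, (x : G) ∈ U → x ∈ N := by
      intro x hx
      have h4 := hk x hx
      rw [← MonoidHom.mem_ker, QuotientGroup.ker_mk'] at h4
      exact h4
    have hle : ncl U (H n) ≤ N.map (H n).subtype := by
      rw [ncl, Subgroup.closure_le]
      rintro _ ⟨h, hh, u, hu, rfl⟩
      have hu' : u ∈ H n := hD.le n hu
      refine ⟨⟨h, hh⟩ * ⟨u, hu'⟩ * ⟨h, hh⟩⁻¹, hN.conj_mem _ (hUN ⟨u, hu'⟩ hu) _, rfl⟩
    intro x hx
    rw [Subgroup.mem_subgroupOf] at hx
    obtain ⟨y, hy, hyx⟩ := hle hx
    have : y = x := Subtype.ext hyx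
    exact this ▸ hy

end Pool.Agent.H338.PS
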