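import Pool.Agent.H338.PS.Stm

set_option autoImplicit false

namespace Pool.Agent.H338.PS

namespace Trig

variable {A : Amal}

/-- the chosen letter -/
noncomputable def zc (γ : A.Γ) : P4 := (A.decP γ).choose

theorem zc_spec (γ : A.Γ) : ∃ δ ∈ A.TP, γ = A.iP (zc γ) * δ := (A.decP γ).choose_spec

/-- the rigid map -/
noncomputable def fr (σ : Equiv.Perm (Fin 4)) (γ : A.Γ) : A.Γ :=
  A.iP ((zc γ ∘ σ : P4) * (zc γ)⁻¹) * γ

theorem comp_mul (σ : Equiv.Perm (Fin 4)) (z w : P4) :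
    ((z * w) ∘ σ : P4) = (z ∘ σ : P4) * (w ∘ σ : P4) := rfl

theorem fr_eq (σ : Equiv.Perm (Fin 4)) (z : P4) (γ : A.Γ) (hγ : γ ∈ A.TP) :
    fr σ (A.iP z * γ) = A.iP (z ∘ σ) * γ := by
  obtain ⟨δ, hδ, hd⟩ := zc_spec (A.iP z * γ)
  set z' := zc (A.iP z * γ) with hz'
  have h1 : δ = A.iP (z'⁻¹ * z) * γ := by
    rw [map_mul, map_inv, mul_assoc, hd, inv_mul_cancel_left]
  have h2 : ∃ s, z'⁻¹ * z = dS s := by
    by_contra hcon
    push Not at hcon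
    have := (A.leftP (z'⁻¹ * z) hcon γ hγ).2
    rw [← h1] at this
    exact this hδ
  obtain ⟨s, hs⟩ := h2
  have h3 : z = z' * dS s := by rw [← hs, mul_inv_cancel_left]
  have h4 : (z ∘ σ : P4) = (z' ∘ σ : P4) * z'⁻¹ * z := by
    rw [mul_assoc, hs]
    conv_lhs => rw [h3]
    rfl
  unfold fr
  rw [← hz', ← mul_assoc, ← map_mul, h4]

theorem one_mem_TP : (1 : A.Γ) ∈ A.TP := by
  have := A.memTP 1
  rwa [map_one, map_one] at this

theorem fr_inv (σ : Equiv.Perm (Fin 4)) (γ : A.Γ) : fr σ⁻¹ (fr σ γ) = γ := by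
  obtain ⟨δ, hδ, hd⟩ := zc_spec γ
  have h1 : fr σ γ = A.iP (zc γ ∘ σ) * δ := by
    conv_lhs => rw [hd]
    exact fr_eq σ (zc γ) δ hδ
  rw [h1, fr_eq σ⁻¹ _ δ hδ]
  have h2 : ((zc γ ∘ σ) ∘ (σ⁻¹ : Equiv.Perm (Fin 4)) : P4) = zc γ := by
    funext i
    simp
  rw [h2]
  exact hd.symm

/-- the rigid permutation -/
noncomputable def pr (σ : Equiv.Perm (Fin 4)) : Equiv.Perm A.Γ where
  toFun := fr σ
  invFun := fr σ⁻¹
  left_inv := fr_inv σ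
  right_inv γ := by
    have := fr_inv σ⁻¹ γ
    rwa [inv_inv] at this

theorem pr_mem (σ : Equiv.Perm (Fin 4)) : (pr σ : Equiv.Perm A.Γ) ∈ GG A := by
  refine ⟨fun γ' => ?_, fun γ' => ?_⟩
  · obtain ⟨z, γ, hγ, rfl⟩ := A.decP γ'
    by_cases hQ : γ ∈ A.TQ
    · obtain ⟨s, rfl⟩ := A.inter γ hγ hQ
      refine ⟨σ, fun y => ?_⟩
      change fr σ _ = fr σ _ * _
      rw [fr_eq σ z _ hγ]
      have h1 : A.iP z * A.iP (dS s) * A.iP y = A.iP (z * dS s * y) * 1 := by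
        rw [mul_one, map_mul, map_mul]
      rw [h1, fr_eq σ _ 1 one_mem_TP, mul_one, comp_mul, comp_mul, map_mul, map_mul]
      rfl
    · refine ⟨1, fun y => ?_⟩
      change fr σ _ = fr σ _ * _
      rw [fr_eq σ z _ hγ, mul_assoc, fr_eq σ z _ (A.TPP γ hγ hQ y).1, mul_assoc]
      rfl
  · obtain ⟨z, γ, hγ, rfl⟩ := A.decP γ'
    refine ⟨false, fun q => ?_⟩
    change fr σ _ = fr σ _ * _
    rw [fr_eq σ z _ hγ, mul_assoc, fr_eq σ z _ (A.TPQ γ hγ q), mul_assoc]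
    rfl

end Trig

theorem t_rig : St_rig := by
  intro A σ
  exact ⟨⟨Trig.pr σ, Trig.pr_mem σ⟩, fun γ hγ z => Trig.fr_eq σ z γ hγ⟩

end Pool.Agent.H338.PS
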