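import Pool.Agent.H338.PS.Stm

set_option autoImplicit false

namespace Pool.Agent.H338.PS

namespace TrigQ

variable {A : Amal}

/-- the chosen letter -/
noncomputable def qc (γ : A.Γ) : Q4 := (A.decQ γ).choose

theorem qc_spec (γ : A.Γ) : ∃ δ ∈ A.TQ, γ = A.iQ (qc γ) * δ := (A.decQ γ).choose_spec

/-- the rigid map -/
noncomputable def fq (b : Bool) (γ : A.Γ) : A.Γ :=
  A.iQ (eps b (qc γ) * (qc γ)⁻¹) * γ

theorem fq_eq (b : Bool) (q : Q4) (γ : A.Γ) (hγ : γ ∈ A.TQ) :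
    fq b (A.iQ q * γ) = A.iQ (eps b q) * γ := by
  obtain ⟨δ, hδ, hd⟩ := qc_spec (A.iQ q * γ)
  set q' := qc (A.iQ q * γ) with hq'
  have h1 : δ = A.iQ (q'⁻¹ * q) * γ := by
    rw [map_mul, map_inv, mul_assoc, hd, inv_mul_cancel_left]
  have h2 : ∃ s, q'⁻¹ * q = qS s := by
    by_contra hcon
    push Not at hcon
    have := (A.leftQ (q'⁻¹ * q) hcon γ hγ).2
    rw [← h1] at this
    exact this hδ
  obtain ⟨s, hs⟩ := h2
  have h3 : q = q' * qS s := by rw [← hs, mul_inv_cancel_left]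
  have h4 : eps b q = eps b q' * q'⁻¹ * q := by
    rw [mul_assoc, hs]
    conv_lhs => rw [h3]
    rw [eps_mul, eps_qS]
  unfold fq
  rw [← hq', ← mul_assoc, ← map_mul, h4]

theorem one_mem_TQ : (1 : A.Γ) ∈ A.TQ := by
  have := A.memTQ 1
  rwa [map_one, map_one] at this

theorem fq_inv (b : Bool) (γ : A.Γ) : fq b (fq b γ) = γ := by
  obtain ⟨δ, hδ, hd⟩ := qc_spec γ
  have h1 : fq b γ = A.iQ (eps b (qc γ)) * δ := by
    conv_lhs => rw [hd]
    exact fq_eq b (qc γ) δ hδ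
  rw [h1, fq_eq b _ δ hδ, eps_eps]
  exact hd.symm

/-- the rigid permutation -/
noncomputable def pq (b : Bool) : Equiv.Perm A.Γ where
  toFun := fq b
  invFun := fq b
  left_inv := fq_inv b
  right_inv := fq_inv b

theorem pq_mem (b : Bool) : (pq b : Equiv.Perm A.Γ) ∈ GG A := by
  refine ⟨fun γ' => ?_, fun γ' => ?_⟩
  · obtain ⟨q, γ, hγ, rfl⟩ := A.decQ γ'
    refine ⟨1, fun y => ?_⟩
    change fq b _ = fq b _ * _
    rw [fq_eq b q _ hγ, mul_assoc, fq_eq b q _ (A.TQP γ hγ y), mul_assoc]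
    rfl
  · obtain ⟨q, γ, hγ, rfl⟩ := A.decQ γ'
    by_cases hP : γ ∈ A.TP
    · obtain ⟨s, rfl⟩ := A.inter γ hP hγ
      refine ⟨b, fun y => ?_⟩
      change fq b _ = fq b _ * _
      rw [fq_eq b q _ hγ]
      have h1 : A.iQ q * A.iP (dS s) * A.iQ y = A.iQ (q * qS s * y) * 1 := by
        rw [mul_one, map_mul, map_mul, A.agree]
      rw [h1, fq_eq b _ 1 one_mem_TQ, mul_one, eps_mul, eps_mul, map_mul, map_mul, eps_qS,
        A.agree]
    · refine ⟨false, fun y => ?_⟩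
      change fq b _ = fq b _ * _
      rw [fq_eq b q _ hγ, mul_assoc, fq_eq b q _ (A.TQQ γ hγ hP y).1, mul_assoc]
      rfl

end TrigQ

theorem t_rigQ : St_rigQ := by
  intro A b
  exact ⟨⟨TrigQ.pq b, TrigQ.pq_mem b⟩, fun γ hγ q => TrigQ.fq_eq b q γ hγ⟩

end Pool.Agent.H338.PS
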