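import Pool.Agent.H338.PS.Stm

set_option autoImplicit false

/-!
# Nontrivial closed normal subgroups contain the stabiliser of `1`
-/

namespace Pool.Agent.H338.PS

namespace Tsimp

open Topology

variable {A : Amal}

theorem ac_inj (g : GG A) {x y : A.Γ} (h : ac g x = ac g y) : x = y := by
  rw [← ac_inv g x, h, ac_inv]

theorem fix_compl {T : Set A.Γ} {v : GG A} (hv : v ∈ fixS A T) {γ : A.Γ} (h : γ ∉ T) :
    ac v γ ∉ T := by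
  intro h1
  have h2 : ac v (ac v γ) = ac v γ := hv _ h1
  rw [ac_inj v h2] at h1
  exact h h1

theorem notTP {γ : A.Γ} (h : γ ∉ A.TP) : γ ∈ A.TQ := (A.cover γ).resolve_left h

theorem notTQ {γ : A.Γ} (h : γ ∉ A.TQ) : γ ∈ A.TP := (A.cover γ).resolve_right h

theorem G1_TP (h3 : St_dec) {g : GG A} (hg : g ∈ G1 A) {γ : A.Γ} (h : γ ∈ A.TP) :
    ac g γ ∈ A.TP := by
  obtain ⟨u, hu, v, hv, rfl⟩ := h3 A g hg
  rw [ac_mul]
  have h1 : ac v γ ∈ A.TP := by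
    by_cases hq : γ ∈ A.TQ
    · rw [show ac v γ = γ from hv γ hq]
      exact h
    · exact notTQ (fix_compl hv hq)
  rw [show ac u (ac v γ) = ac v γ from hu _ h1]
  exact h1

theorem G1_TQ (h3 : St_dec) {g : GG A} (hg : g ∈ G1 A) {γ : A.Γ} (h : γ ∈ A.TQ) :
    ac g γ ∈ A.TQ := by
  obtain ⟨u, hu, v, hv, rfl⟩ := h3 A g hg
  rw [ac_mul, show ac v γ = γ from hv γ h]
  by_cases hp : γ ∈ A.TP
  · rw [show ac u γ = γ from hu γ hp]
    exact h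
  · exact notTP (fix_compl hu hp)

theorem G1_nTP (h3 : St_dec) {g : GG A} (hg : g ∈ G1 A) {γ : A.Γ} (h : γ ∉ A.TP) :
    ac g γ ∉ A.TP := by
  intro h1
  have h2 := G1_TP h3 ((G1 A).inv_mem hg) h1
  rw [ac_inv] at h2
  exact h h2

theorem G1_nTQ (h3 : St_dec) {g : GG A} (hg : g ∈ G1 A) {γ : A.Γ} (h : γ ∉ A.TQ) :
    ac g γ ∉ A.TQ := by
  intro h1
  have h2 := G1_TQ h3 ((G1 A).inv_mem hg) h1
  rw [ac_inv] at h2
  exact h h2

/-- the element `t` -/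
theorem exists_t (h3 : St_dec) (M : Subgroup (GG A)) (hM : M.Normal) (m : GG A) (hm : m ∈ M)
    (q : Q4) (hq : ac m 1 = z1 A * A.iQ q) :
    ∃ t ∈ M, (∀ γ ∈ A.TQ, ac t γ ∉ A.TP) ∧ (∀ γ ∈ A.TP, ac t⁻¹ γ ∉ A.TQ) := by
  obtain ⟨u, hu, hmu⟩ := exists_dec m
  have hu' := (G1 A).inv_mem hu
  by_cases hqs : ∃ s, q = qS s
  · -- `q` is in the first factor
    obtain ⟨s, rfl⟩ := hqs
    obtain ⟨z', hz'⟩ : ∃ z' : P4, z' = eP ![1, 0, 0, 0] * dS s := ⟨_, rfl⟩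
    have hm1 : ac m 1 = A.iP z' := by
      rw [hq, hz', map_mul, ← A.agree]
      rfl
    have hz1 : ∀ s', z' ≠ dS s' := by
      intro s' h
      refine z1_not (s' * s⁻¹) ?_
      rw [map_mul, ← h, hz', map_inv, mul_inv_cancel_right]
    have hz2 : ∀ s', z'⁻¹ ≠ dS s' := by
      intro s' h
      refine hz1 s'⁻¹ ?_
      rw [map_inv, ← h, inv_inv]
    have hmx : ∀ γ, ac m γ = A.iP z' * ac u γ := by
      intro γ
      rw [hmu, hm1]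
      rfl
    have hmi : ∀ γ, ac m⁻¹ γ = ac u⁻¹ (A.iP z'⁻¹ * γ) := by
      intro γ
      apply ac_inj m
      rw [ac_inv', hmx, ac_inv', ← mul_assoc, ← map_mul, mul_inv_cancel, map_one, one_mul]
    have e1 : ∀ γ ∈ A.TP, ac m γ ∈ A.TQ ∧ ac m γ ∉ A.TP := by
      intro γ hγ
      rw [hmx]
      exact A.leftP z' hz1 _ (G1_TP h3 hu hγ)
    have e2 : ∀ γ ∈ A.TP, ac m⁻¹ γ ∈ A.TQ ∧ ac m⁻¹ γ ∉ A.TP := by
      intro γ hγ
      rw [hmi]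
      have h4 := A.leftP z'⁻¹ hz2 γ hγ
      exact ⟨G1_TQ h3 hu' h4.1, G1_nTP h3 hu' h4.2⟩
    have ea : ∀ γ ∈ A.TQ, la A * γ ∈ A.TP ∧ la A * γ ∉ A.TQ :=
      fun γ hγ => A.leftQ _ la_not γ hγ
    have hai : (la A)⁻¹ = la A := by
      unfold la
      rw [← map_inv, eQ_inv]
    refine ⟨m * (Lm A (la A) * m * (Lm A (la A))⁻¹), M.mul_mem hm (hM.conj_mem m hm _), ?_, ?_⟩
    · intro γ hγ
      rw [ac_mul, ac_mul, ac_mul, ← Lm_inv, ac_Lm, ac_Lm, hai]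
      exact (e1 _ (ea _ (e1 _ (ea γ hγ).1).1).1).2
    · intro γ hγ
      have h5 : (m * (Lm A (la A) * m * (Lm A (la A))⁻¹))⁻¹ =
          Lm A (la A) * m⁻¹ * (Lm A (la A))⁻¹ * m⁻¹ := by group
      rw [h5, ac_mul, ac_mul, ac_mul, ← Lm_inv, ac_Lm, ac_Lm, hai]
      exact (ea _ (e2 _ (ea _ (e2 γ hγ).1).1).1).2
  · -- `q` is not in the first factor
    have hq1 : ∀ s, q ≠ qS s := fun s h => hqs ⟨s, h⟩
    have hq2 : ∀ s, q⁻¹ ≠ qS s := by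
      intro s h
      refine hq1 s⁻¹ ?_
      rw [map_inv, ← h, inv_inv]
    have hmx : ∀ γ, ac m γ = z1 A * (A.iQ q * ac u γ) := by
      intro γ
      rw [hmu, hq, ← mul_assoc]
      rfl
    have hzi : z1 A * z1 A = 1 := by
      have h6 : (z1 A)⁻¹ = z1 A := by
        unfold z1
        rw [← map_inv, eP_inv]
      nth_rewrite 1 [← h6]
      exact inv_mul_cancel _
    have hmi : ∀ γ, ac m⁻¹ γ = ac u⁻¹ (A.iQ q⁻¹ * (z1 A * γ)) := by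
      intro γ
      apply ac_inj m
      rw [ac_inv', hmx, ac_inv', ← mul_assoc (A.iQ q), ← map_mul, mul_inv_cancel, map_one,
        one_mul, ← mul_assoc, hzi, one_mul]
    refine ⟨m, hm, ?_, ?_⟩
    · intro γ hγ
      rw [hmx]
      exact (A.leftP _ z1_not _ (A.leftQ q hq1 _ (G1_TQ h3 hu hγ)).1).2
    · intro γ hγ
      rw [hmi]
      exact G1_nTQ h3 hu' (A.leftQ _ hq2 _ (A.leftP _ z1_not γ hγ).1).2

theorem one_TP : (1 : A.Γ) ∈ A.TP := by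
  have h := A.memTP 1
  rwa [map_one, map_one] at h

theorem one_TQ : (1 : A.Γ) ∈ A.TQ := by
  have h := A.memTQ 1
  rwa [map_one, map_one] at h

/-- the dynamics of `t⁻¹` -/
theorem dynP (t : GG A) (ht : ∀ γ ∈ A.TP, ac t γ ∉ A.TQ) (f : A.Γ) :
    ∃ i : ℕ, ∀ j, i ≤ j → ac (t ^ j) f ∉ A.TQ := by
  have key : ∀ (f : A.Γ) (i : ℕ), ac (t ^ i) f ∈ A.TP →
      ∀ j, i + 1 ≤ j → ac (t ^ j) f ∉ A.TQ := by
    intro f i hi j hj
    induction j, hj using Nat.le_induction with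
    | base =>
      rw [pow_succ', ac_mul]
      exact ht _ hi
    | succ j hj ih =>
      rw [pow_succ', ac_mul]
      exact ht _ (notTQ ih)
  have hf : f ∈ Subgroup.closure (Set.range A.iP ∪ Set.range A.iQ) := by
    rw [A.gen]
    exact Subgroup.mem_top f
  have stepP : ∀ (x : A.Γ) (y : P4), (∃ i : ℕ, ∀ j, i ≤ j → ac (t ^ j) x ∉ A.TQ) →
      ∃ i : ℕ, ∀ j, i ≤ j → ac (t ^ j) (x * A.iP y) ∉ A.TQ := by
    rintro x y ⟨i, hi⟩
    refine ⟨i, fun j hj => ?_⟩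
    obtain ⟨σ, hσ⟩ := ruleP (t ^ j) x
    rw [hσ]
    exact (A.TPP _ (notTQ (hi j hj)) (hi j hj) _).2
  have stepQ : ∀ (x : A.Γ) (y : Q4), (∃ i : ℕ, ∀ j, i ≤ j → ac (t ^ j) x ∉ A.TQ) →
      ∃ i : ℕ, ∀ j, i ≤ j → ac (t ^ j) (x * A.iQ y) ∉ A.TQ := by
    rintro x y ⟨i, hi⟩
    refine ⟨i + 1, key _ i ?_⟩
    obtain ⟨b, hb⟩ := ruleQ (t ^ i) x
    rw [hb]
    exact A.TPQ _ (notTQ (hi i le_rfl)) _
  induction hf using Subgroup.closure_induction_right with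
  | one => exact ⟨1, key 1 0 (by rw [pow_zero]; exact one_TP)⟩
  | mul_right x hx y hy ih =>
    rcases hy with ⟨z, rfl⟩ | ⟨z, rfl⟩
    · exact stepP x z ih
    · exact stepQ x z ih
  | mul_inv_cancel x hx y hy ih =>
    rcases hy with ⟨z, rfl⟩ | ⟨z, rfl⟩
    · rw [← map_inv]; exact stepP x z⁻¹ ih
    · rw [← map_inv]; exact stepQ x z⁻¹ ih

/-- the dynamics of `t` -/
theorem dynQ (t : GG A) (ht : ∀ γ ∈ A.TQ, ac t γ ∉ A.TP) (f : A.Γ) :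
    ∃ i : ℕ, ∀ j, i ≤ j → ac (t ^ j) f ∉ A.TP := by
  have key : ∀ (f : A.Γ) (i : ℕ), ac (t ^ i) f ∈ A.TQ →
      ∀ j, i + 1 ≤ j → ac (t ^ j) f ∉ A.TP := by
    intro f i hi j hj
    induction j, hj using Nat.le_induction with
    | base =>
      rw [pow_succ', ac_mul]
      exact ht _ hi
    | succ j hj ih =>
      rw [pow_succ', ac_mul]
      exact ht _ (notTP ih)
  have hf : f ∈ Subgroup.closure (Set.range A.iP ∪ Set.range A.iQ) := by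
    rw [A.gen]
    exact Subgroup.mem_top f
  have stepP : ∀ (x : A.Γ) (y : P4), (∃ i : ℕ, ∀ j, i ≤ j → ac (t ^ j) x ∉ A.TP) →
      ∃ i : ℕ, ∀ j, i ≤ j → ac (t ^ j) (x * A.iP y) ∉ A.TP := by
    rintro x y ⟨i, hi⟩
    refine ⟨i + 1, key _ i ?_⟩
    obtain ⟨σ, hσ⟩ := ruleP (t ^ i) x
    rw [hσ]
    exact A.TQP _ (notTP (hi i le_rfl)) _
  have stepQ : ∀ (x : A.Γ) (y : Q4), (∃ i : ℕ, ∀ j, i ≤ j → ac (t ^ j) x ∉ A.TP) →
      ∃ i : ℕ, ∀ j, i ≤ j → ac (t ^ j) (x * A.iQ y) ∉ A.TP := by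
    rintro x y ⟨i, hi⟩
    refine ⟨i, fun j hj => ?_⟩
    obtain ⟨b, hb⟩ := ruleQ (t ^ j) x
    rw [hb]
    exact (A.TQQ _ (notTP (hi j hj)) (hi j hj) _).2
  induction hf using Subgroup.closure_induction_right with
  | one => exact ⟨1, key 1 0 (by rw [pow_zero]; exact one_TQ)⟩
  | mul_right x hx y hy ih =>
    rcases hy with ⟨z, rfl⟩ | ⟨z, rfl⟩
    · exact stepP x z ih
    · exact stepQ x z ih
  | mul_inv_cancel x hx y hy ih =>
    rcases hy with ⟨z, rfl⟩ | ⟨z, rfl⟩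
    · rw [← map_inv]; exact stepP x z⁻¹ ih
    · rw [← map_inv]; exact stepQ x z⁻¹ ih

/-- the limit argument -/
theorem limit (h4 : St_fix) (h6 : St_tg) (M : Subgroup (GG A)) (hM : M.Normal)
    (hc : IsClosed (M : Set (GG A))) (s : GG A) (hs : s ∈ M) (T : Set A.Γ)
    (hT : ∀ f : A.Γ, ∃ i : ℕ, ∀ j, i ≤ j → ac (s ^ j) f ∈ T) (u : GG A)
    (hu : u ∈ fixS A T) : u ∈ M := by
  by_contra hcon
  have : IsTopologicalGroup (GG A) := (h6 A).1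
  have hO : IsOpen {g : GG A | u * g ∉ M} :=
    hc.isOpen_compl.preimage (continuous_const_mul u)
  obtain ⟨F, hF⟩ := (h4 A).2.1 {g : GG A | u * g ∉ M} hO (by
    show u * 1 ∉ M
    rwa [mul_one])
  choose i hi using hT
  have hj : ∀ f ∈ F, ac (s ^ (F.sup i)) f ∈ T := fun f hf => hi f _ (Finset.le_sup hf)
  have hg : ((s ^ (F.sup i))⁻¹ * u⁻¹ * s ^ (F.sup i)) ∈ fixS A (F : Set A.Γ) := by
    intro f hf
    show ac ((s ^ (F.sup i))⁻¹ * u⁻¹ * s ^ (F.sup i)) f = f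
    rw [ac_mul, ac_mul]
    have h7 : ac u⁻¹ (ac (s ^ (F.sup i)) f) = ac (s ^ (F.sup i)) f :=
      (fixS A T).inv_mem hu _ (hj f (Finset.mem_coe.1 hf))
    rw [h7, ac_inv]
  have h8 : u * ((s ^ (F.sup i))⁻¹ * u⁻¹ * s ^ (F.sup i)) ∉ M := hF hg
  apply h8
  have h9 : u * ((s ^ (F.sup i))⁻¹ * u⁻¹ * s ^ (F.sup i)) =
      (u * (s ^ (F.sup i))⁻¹ * u⁻¹) * s ^ (F.sup i) := by group
  rw [h9]
  exact M.mul_mem (hM.conj_mem _ (M.inv_mem (M.pow_mem hs _)) _) (M.pow_mem hs _)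

end Tsimp

open Tsimp in
theorem t_simp (h1 : St_core) (h2 : St_max) (h3 : St_dec) (h4 : St_fix) (h5 : St_BB)
    (h6 : St_tg) : St_simp := by
  intro A M hM hc hne
  obtain ⟨x, hxM, hx1⟩ : ∃ x ∈ M, x ≠ 1 := by
    by_contra hcon
    push Not at hcon
    exact hne ((Subgroup.eq_bot_iff_forall M).2 hcon)
  obtain ⟨g, hg⟩ : ∃ g : GG A, ∀ q, ac (g * x * g⁻¹) 1 ≠ A.iQ q := by
    by_contra hcon
    push Not at hcon
    exact hx1 (h1 A x hcon)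
  obtain ⟨U, hU, -, -⟩ := h5 A
  have hV : M ⊔ U = ⊤ := h2 A (M ⊔ U)
    (fun g hg => (le_sup_right : U ≤ M ⊔ U) ((hU g).2 hg))
    ⟨g * x * g⁻¹, (le_sup_left : M ≤ M ⊔ U) (hM.conj_mem x hxM g), hg⟩
  have hz : Lm A (z1 A) ∈ M ⊔ U := by
    rw [hV]
    exact Subgroup.mem_top _
  have := hM
  rw [Subgroup.mem_sup_of_normal_left] at hz
  obtain ⟨m, hm, w, hw, hmw⟩ := hz
  obtain ⟨q, hq⟩ := (hU w⁻¹).1 (U.inv_mem hw)
  have hm1 : ac m 1 = z1 A * A.iQ q := by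
    have h7 : m = Lm A (z1 A) * w⁻¹ := by rw [← hmw, mul_inv_cancel_right]
    rw [h7, ac_mul, hq, ac_Lm]
  obtain ⟨t, htM, ht1, ht2⟩ := exists_t h3 M hM m hm q hm1
  intro g' hg'
  obtain ⟨u, hu, v, hv, rfl⟩ := h3 A g' hg'
  refine M.mul_mem ?_ ?_
  · refine limit h4 h6 M hM hc t⁻¹ (M.inv_mem htM) A.TP (fun f => ?_) u hu
    obtain ⟨i, hi⟩ := dynP t⁻¹ ht2 f
    exact ⟨i, fun j hj => notTQ (hi j hj)⟩
  · refine limit h4 h6 M hM hc t htM A.TQ (fun f => ?_) v hv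
    obtain ⟨i, hi⟩ := dynQ t ht1 f
    exact ⟨i, fun j hj => notTP (hi j hj)⟩

end Pool.Agent.H338.PS
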