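import Pool.Agent.H338.PS.Stm

/-!
# SX: the main geometric fact
-/

set_option autoImplicit false

namespace Pool.Agent.H338.PS

namespace Tsix

variable {A : Amal}

theorem one_TP : (1 : A.Γ) ∈ A.TP := by
  have h := A.memTP 1
  rwa [map_one, map_one] at h

theorem Sg_of_Orb {L n₀ : ℤ} (h : Orb L n₀) : ∃ f : ℤ → ℤ, Sg L f ∧ f 0 = n₀ ∧
    ∀ q, |f q| ≤ |q| + |n₀| := by
  obtain ⟨j, hj | hj⟩ := h
  · refine ⟨fun n => n + 2 * j * L, ⟨2 * j, Or.inl fun n => rfl⟩, by simp [hj], fun q => ?_⟩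
    rw [hj]
    exact abs_add_le _ _
  · refine ⟨fun n => (2 * j + 1) * L - 1 - n, ⟨2 * j + 1, Or.inr fun n => rfl⟩, by simp [hj],
      fun q => ?_⟩
    show |(2 * j + 1) * L - 1 - q| ≤ |q| + |n₀|
    have h1 := abs_sub ((2 * j + 1) * L - 1) q
    rw [← hj] at h1 ⊢
    linarith

theorem Xs_close (n : ℤ) : |n| ≤ |Xs n| + 1 := by
  unfold Xs
  split_ifs
  · have h := abs_sub (n + 1) 1
    rw [add_sub_cancel_right, abs_one] at h
    exact h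
  · have h := abs_add_le (n - 1) 1
    rw [sub_add_cancel, abs_one] at h
    exact h

/-- (i) -/
theorem not_P (h3 : St_symm) (h5 : St_trSg) (h6 : St_lab) {L : ℤ} (hL : Even L) {k : ℕ}
    {n₀ n₁ : ℤ} {lam γ₁ : A.Γ} (hO : Orb L n₀) (hlam : Tr A L allZ 0 lam n₀)
    (hγ₁ : Tr A L allZ 0 γ₁ n₁) (hbig : (k : ℤ) + |n₀| + 1 < |n₁|) {γ' : A.Γ} {m : ℤ}
    (h : Tr A L (win k) 0 γ' m) : ∀ z : P4, γ₁⁻¹ * lam * γ' ≠ A.iP z := by
  intro z hz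
  obtain ⟨f, hf, hf0, hfb⟩ := Sg_of_Orb hO
  have t1 : Tr A L allZ n₁ γ₁⁻¹ 0 := h3 A L allZ 0 n₁ γ₁ hγ₁
  have t2 : Tr A L allZ n₀ γ' (f m) := by
    have := h5 A L (win k) 0 m γ' f hL hf h
    rw [hf0] at this
    exact this.mono fun _ _ => trivial
  have t3 : Tr A L allZ n₁ (γ₁⁻¹ * lam * γ') (f m) := (t1.trans hlam).trans t2
  have hm : |m| ≤ (k : ℤ) := h.stop
  have hfm := hfb m
  rcases h6 A L allZ n₁ (f m) _ t3 ⟨z, hz⟩ with h1 | h1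
  · rw [h1] at hfm
    linarith
  · have h2 := Xs_close n₁
    rw [← h1] at h2
    linarith

/-- (ii) -/
theorem side (h3 : St_symm) (h5 : St_trSg) (h6 : St_lab) {L : ℤ} (hL : Even L) {k : ℕ}
    {n₀ n₁ : ℤ} {lam γ₁ : A.Γ} (hO : Orb L n₀) (hlam : Tr A L allZ 0 lam n₀)
    (hγ₁ : Tr A L allZ 0 γ₁ n₁) (hbig : (k : ℤ) + |n₀| + 1 < |n₁|) {γ' : A.Γ} {m : ℤ}
    (h : Tr A L (win k) 0 γ' m) :
    (γ₁⁻¹ * lam * γ' ∈ A.TP ↔ γ₁⁻¹ * lam ∈ A.TP) := by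
  have hQ : ∀ (w : A.Γ) (q : Q4), (w * A.iQ q ∈ A.TP ↔ w ∈ A.TP) := by
    intro w q
    refine ⟨fun h => ?_, fun h => A.TPQ w h q⟩
    have h1 := A.TPQ _ h q⁻¹
    rwa [map_inv, mul_inv_cancel_right] at h1
  have hP : ∀ (w : A.Γ) (e : P4), (∀ z, w ≠ A.iP z) → (w * A.iP e ∈ A.TP ↔ w ∈ A.TP) := by
    intro w e hw
    have key : ∀ (v : A.Γ) (y : P4), (∀ z, v ≠ A.iP z) → v ∈ A.TP → v * A.iP y ∈ A.TP := by
      intro v y hv hvP
      have hvQ : v ∉ A.TQ := by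
        intro hvQ
        obtain ⟨s, hs⟩ := A.inter v hvP hvQ
        exact hv _ hs
      exact (A.TPP v hvP hvQ y).1
    refine ⟨fun h => ?_, fun h => key w e hw h⟩
    have h1 := key (w * A.iP e) e⁻¹ (fun z hz => by
      refine hw (z * e⁻¹) ?_
      rw [map_mul, ← hz, map_inv, mul_inv_cancel_right]) h
    rwa [map_inv, mul_inv_cancel_right] at h1
  induction h with
  | refl hn => rw [mul_one]
  | stepP m m' γ' e ht hm hB ih =>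
    rw [← mul_assoc]
    exact (hP _ _ (not_P h3 h5 h6 hL hO hlam hγ₁ hbig ht)).trans ih
  | stepF m m' γ' c x y ht hLm hm hB ih =>
    rw [← mul_assoc]
    exact (hQ _ _).trans ih
  | stepT m m' γ' c x ht hLm hm hB ih =>
    rw [← mul_assoc]
    exact (hQ _ _).trans ih

theorem not_diag (s : S5) : eP ![0, 1, 1, 0] ≠ dS s := by
  intro h
  have h0 := congrFun h 0
  have h1 := congrFun h 1
  simp [eP, pw, dS] at h0 h1
  exact om_ne (h1.trans h0.symm)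

theorem vec_eq : (![1, 1, 0, 0] : Fin 4 → ZMod 2) +
    ![1, 1, 0, 0] ∘ (Equiv.swap (1 : Fin 4) 2) = ![0, 1, 1, 0] := by
  funext i
  revert i
  decide

/-- the common part -/
theorem core (h1 : St_rig) (h2 : St_mem) (h3 : St_symm) (h4 : St_trG1) (h5 : St_trSg)
    (h6 : St_lab) {L : ℤ} (hL : Even L) {k : ℕ} {n₀ n₁ : ℤ} {h : GG A} {γ₁ : A.Γ}
    {X : Set A.Γ} (hO : Orb L n₀) (hlam : Tr A L allZ 0 (ac h 1) n₀)
    (hO₁ : Orb L n₁) (hγ₁ : Tr A L allZ 0 γ₁ n₁) (hbig : (k : ℤ) + |n₀| + 1 < |n₁|)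
    (hX : ∀ w ∈ A.TQ, γ₁ * w ∈ X) :
    ∃ ρ ∈ ncl (G1 A) (HH A L), ∀ γ ∈ LW A L k, ac (ρ * h) γ ∈ X := by
  obtain ⟨u, hu, hdec⟩ := exists_dec h
  set lam : A.Γ := ac h 1 with hlamdef
  have hact : ∀ γ, ac h γ = γ₁ * (γ₁⁻¹ * lam * ac u γ) := by
    intro γ
    rw [hdec, ac_mul, ac_Lm]
    group
  have hside : ∀ γ ∈ LW A L k, (γ₁⁻¹ * lam * ac u γ ∈ A.TP ↔ γ₁⁻¹ * lam ∈ A.TP) := by
    intro γ hγ
    exact side h3 h5 h6 hL hO hlam hγ₁ hbig (h4 A L (win k) 0 0 γ u hu hγ)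
  by_cases hw : γ₁⁻¹ * lam ∈ A.TP
  · obtain ⟨g, hg⟩ := h1 A (Equiv.swap (1 : Fin 4) 2)
    have hgG : g ∈ G1 A := by
      rw [mem_G1]
      have := hg 1 one_TP 1
      rw [map_one, mul_one] at this
      rw [this]
      have h1' : ((1 : P4) ∘ (Equiv.swap (1 : Fin 4) 2) : P4) = 1 := rfl
      rw [h1', map_one, mul_one]
    have hmem : Lm A (γ₁ * z0 A) ∈ HH A L := by
      rw [(h2 A L hL).1]
      refine ⟨n₁, hO₁, ?_⟩
      rw [ac_Lm, mul_one]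
      have hs : sm ![1, 1, 0, 0] = 0 := by decide
      exact Tr.stepP n₁ n₁ γ₁ ![1, 1, 0, 0] hγ₁ (by rw [if_pos hs]) trivial
    refine ⟨Lm A (γ₁ * z0 A) * g * (Lm A (γ₁ * z0 A))⁻¹,
      Subgroup.subset_closure ⟨_, hmem, g, hgG, rfl⟩, fun γ hγ => ?_⟩
    set w : A.Γ := γ₁⁻¹ * lam * ac u γ with hwdef
    have hwP : w ∈ A.TP := (hside γ hγ).mpr hw
    have e1 : ac (Lm A (γ₁ * z0 A) * g * (Lm A (γ₁ * z0 A))⁻¹ * h) γ =
        γ₁ * (z0 A * ac g ((z0 A)⁻¹ * w)) := by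
      rw [ac_mul, hact γ, ac_mul, ac_mul, ← Lm_inv, ac_Lm, ac_Lm, ← hwdef]
      have e0 : (γ₁ * z0 A)⁻¹ * (γ₁ * w) = (z0 A)⁻¹ * w := by group
      rw [e0, mul_assoc]
    rw [e1]
    apply hX
    have e2 : (z0 A)⁻¹ = A.iP (eP ![1, 1, 0, 0]) := by
      rw [z0, ← map_inv, eP_inv]
    rw [e2, hg w hwP, z0, ← mul_assoc, ← map_mul, eP_comp, ← eP_add, vec_eq]
    exact (A.leftP _ not_diag w hwP).1
  · refine ⟨1, Subgroup.one_mem _, fun γ hγ => ?_⟩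
    rw [one_mul, hact γ]
    apply hX
    rcases A.cover (γ₁⁻¹ * lam * ac u γ) with hc | hc
    · exact absurd ((hside γ hγ).mp hc) hw
    · exact hc

theorem be_pow (h8 : St_be2) {l : ℕ} (hl : 1 ≤ l) (j : ℕ) : ∀ w ∈ A.TQ, be A l ^ j * w ∈ A.TQ := by
  induction j with
  | zero => intro w hw; rwa [pow_zero, one_mul]
  | succ j ih =>
    intro w hw
    rw [pow_succ, mul_assoc]
    exact ih _ ((h8 A l hl).2 w hw).1

theorem lb_tr {L : ℤ} : Tr A L allZ 0 (lb A) (-1) := by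
  have h := Tr.stepF (A := A) (L := L) (B := allZ) (n := 0) 0 (-1) 1 0 0 1 (Tr.refl trivial)
    (by
      have : Ws 0 = 0 := by decide
      rw [this]
      exact dvd_zero L) (by decide) trivial
  rw [one_mul] at h
  exact h

end Tsix

open Tsix in
theorem t_six (h1 : St_rig) (h2 : St_mem) (h3 : St_symm) (h4 : St_trG1) (h5 : St_trSg)
    (h6 : St_lab) (h7 : St_be1) (h8 : St_be2) : St_six := by
  intro A l hl h hh k
  have hL : Even (4 * (l : ℤ)) := ⟨2 * l, by ring⟩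
  obtain ⟨n₀, hO, hlam⟩ := ((h2 A (4 * (l : ℤ)) hL).1 h).mp hh
  have hl1 : (1 : ℤ) ≤ l := by exact_mod_cast hl
  set i : ℕ := k + n₀.natAbs + 2 with hi
  have hi' : (i : ℤ) = k + |n₀| + 2 := by
    rw [hi]; push_cast; rfl
  have hi0 : (0 : ℤ) ≤ i := Int.natCast_nonneg i
  have hil : (i : ℤ) ≤ i * l := by nlinarith
  constructor
  · refine core h1 h2 h3 h4 h5 h6 hL (n₁ := -1 - ((2 * i + 1 : ℕ) : ℤ) * (4 * (l : ℤ)))
      (γ₁ := lb A * be A l ^ (2 * i + 1)) hO hlam ⟨-((i : ℤ) + 1), Or.inr ?_⟩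
      (lb_tr.trans (h7 A l hl (2 * i + 1)).2) ?_ ?_
    · push_cast; ring
    · have e : (-1 - ((2 * i + 1 : ℕ) : ℤ) * (4 * (l : ℤ))) =
          -(1 + (8 * (i * l) + 4 * (l : ℤ))) := by push_cast; ring
      rw [e, abs_neg, abs_of_nonneg (a := 1 + (8 * ((i : ℤ) * l) + 4 * (l : ℤ))) (by positivity)]
      linarith
    · intro w hw
      rw [mul_assoc]
      exact (A.leftQ _ lb_not _ (be_pow h8 hl _ w hw)).1
  · refine core h1 h2 h3 h4 h5 h6 hL (n₁ := ((2 * i : ℕ) : ℤ) * (4 * (l : ℤ)))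
      (γ₁ := be A l ^ (2 * i)) hO hlam ⟨(i : ℤ), Or.inl ?_⟩
      (h7 A l hl (2 * i)).1 ?_ (be_pow h8 hl _)
    · push_cast; ring
    · have e : (((2 * i : ℕ) : ℤ) * (4 * (l : ℤ))) = 8 * (i * l) := by push_cast; ring
      rw [e, abs_of_nonneg (a := 8 * ((i : ℤ) * l)) (by positivity)]
      linarith

end Pool.Agent.H338.PS
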