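import Pool.Agent.H338.PS.Stm

namespace Pool.Agent.H338.PS

namespace Tswap

theorem third : ∀ i j : Fin 4, i ≠ j → ∃ k : Fin 4, k ≠ i ∧ k ≠ j := by decide

end Tswap

theorem t_swap : St_swap := by
  intro z hz
  -- two different entries
  obtain ⟨i, j, hij⟩ : ∃ i j : Fin 4, z i ≠ z j := by
    by_contra hcon
    push Not at hcon
    apply hz (z 0)
    funext i
    exact hcon i 0
  have hne : i ≠ j := fun h => hij (by rw [h])
  obtain ⟨k, hki, hkj⟩ := Tswap.third i j hne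
  refine ⟨Equiv.swap i j, fun s hs => ?_⟩
  have h1 := congrFun hs i
  have h2 := congrFun hs k
  have e1 : ((z ∘ Equiv.swap i j : P4) * z⁻¹) i = z j * (z i)⁻¹ := by
    show z (Equiv.swap i j i) * (z i)⁻¹ = _
    rw [Equiv.swap_apply_left]
  have e2 : ((z ∘ Equiv.swap i j : P4) * z⁻¹) k = 1 := by
    show z (Equiv.swap i j k) * (z k)⁻¹ = _
    rw [Equiv.swap_apply_of_ne_of_ne hki hkj, mul_inv_cancel]
  rw [e1] at h1
  rw [e2] at h2
  have h3 : z j * (z i)⁻¹ = 1 := by
    rw [h1, h2]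
    rfl
  exact hij (mul_inv_eq_one.1 h3).symm

end Pool.Agent.H338.PS
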