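import Pool.Agent.H338.PS.Stm

namespace Pool.Agent.H338.PS

theorem t_symm : St_symm := by
  intro A L B n m γ h
  induction h with
  | refl hn =>
    rw [inv_one]
    exact Tr.refl hn
  | stepP m m' γ e h hm hB ih =>
    have hBm : B m := h.stop
    have h1 : Tr A L B m' (1 * A.iP (eP e)) m := by
      refine Tr.stepP m' m 1 e (Tr.refl hB) ?_ hBm
      rw [hm]
      split_ifs with h0
      · rfl
      · rw [Xs_Xs]
    have h2 := Tr.trans h1 ih
    have h3 : (γ * A.iP (eP e))⁻¹ = 1 * A.iP (eP e) * γ⁻¹ := by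
      rw [mul_inv_rev, ← map_inv, eP_inv, one_mul]
    rw [h3]
    exact h2
  | stepF m m' γ c x y h hL hm hB ih =>
    have hBm : B m := h.stop
    have h1 : Tr A L B m' (1 * A.iQ (eQ c x y)) m := by
      refine Tr.stepF m' m 1 c x y (Tr.refl hB) ?_ ?_ hBm
      · rw [hm]
        split_ifs with h0
        · exact hL
        · rw [Ws_Ys]
          exact hL
      · rw [hm]
        split_ifs with h0
        · rfl
        · rw [Ys_Ys]
    have h2 := Tr.trans h1 ih
    have h3 : (γ * A.iQ (eQ c x y))⁻¹ = 1 * A.iQ (eQ c x y) * γ⁻¹ := by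
      rw [mul_inv_rev, ← map_inv, eQ_inv, one_mul]
    rw [h3]
    exact h2
  | stepT m m' γ c x h hL hm hB ih =>
    have hBm : B m := h.stop
    have h1 : Tr A L B m' (1 * A.iQ (eQ c x 0)) m := by
      refine Tr.stepT m' m 1 c x (Tr.refl hB) ?_ ?_ hBm
      · rw [hm]
        split_ifs with h0
        · exact hL
        · rw [Ws_Ys]
          exact hL
      · rw [hm]
        split_ifs with h0
        · rfl
        · rw [Ys_Ys]
    have h2 := Tr.trans h1 ih
    have h3 : (γ * A.iQ (eQ c x 0))⁻¹ = 1 * A.iQ (eQ c x 0) * γ⁻¹ := by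
      rw [mul_inv_rev, ← map_inv, eQ_inv, one_mul]
    rw [h3]
    exact h2

end Pool.Agent.H338.PS
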