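import Pool.Agent.H338.PS.Stm

/-!
# Labelled paths are mapped to labelled paths by the stabiliser of `1`
-/

set_option autoImplicit false

namespace Pool.Agent.H338.PS

theorem t_trG1 : St_trG1 := by
  intro A L B n m γ g hg h
  induction h with
  | refl hn =>
    rw [mem_G1.1 hg]
    exact Tr.refl hn
  | stepP m m' γ e _ hm hB ih =>
    obtain ⟨σ, hσ⟩ := ruleP g γ
    rw [hσ, eP_comp]
    refine Tr.stepP m m' _ _ ih ?_ hB
    rw [sm_comp]
    exact hm
  | stepF m m' γ c x y _ hL hm hB ih =>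
    obtain ⟨b, hb⟩ := ruleQ g γ
    rw [hb, eps_eQ]
    exact Tr.stepF m m' _ c _ y ih hL hm hB
  | stepT m m' γ c x _ hL hm hB ih =>
    obtain ⟨b, hb⟩ := ruleQ g γ
    have hx : (if b then x + 0 else x) = x := by cases b <;> simp
    rw [hb, eps_eQ, hx]
    exact Tr.stepT m m' _ c x ih hL hm hB

end Pool.Agent.H338.PS
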