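import Pool.Agent.H338.PS.Stm

set_option autoImplicit false

namespace Pool.Agent.H338.PS

namespace TtrSg

theorem xe {m : ℤ} (h : m % 2 = 0) : Xs m = m + 1 ∧ Ys m = m - 1 ∧ Ws m = m := by
  have h1 : Even m := Int.even_iff.2 h
  unfold Xs Ys Ws
  rw [if_pos h1, if_pos h1, if_pos h1]
  exact ⟨rfl, rfl, rfl⟩

theorem xo {m : ℤ} (h : m % 2 = 1) : Xs m = m - 1 ∧ Ys m = m + 1 ∧ Ws m = m + 1 := by
  have h1 : ¬ Even m := by
    rw [Int.even_iff]
    omega
  unfold Xs Ys Ws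
  rw [if_neg h1, if_neg h1, if_neg h1]
  exact ⟨rfl, rfl, rfl⟩

theorem key {L : ℤ} {f : ℤ → ℤ} (hL : Even L) (hf : Sg L f) (m : ℤ) :
    f (Xs m) = Xs (f m) ∧ f (Ys m) = Ys (f m) ∧ (L ∣ Ws (f m) ↔ L ∣ Ws m) := by
  obtain ⟨j, hf⟩ := hf
  have hE : (j * L) % 2 = 0 := Int.even_iff.1 (hL.mul_left j)
  have hd : L ∣ j * L := Dvd.intro_left j rfl
  rcases Int.emod_two_eq_zero_or_one m with hm | hm
  · obtain ⟨a1, a2, a3⟩ := xe hm
    rcases hf with hf | hf
    · have h1 : f m % 2 = 0 := by rw [hf]; omega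
      obtain ⟨b1, b2, b3⟩ := xe h1
      rw [a1, a2, a3, b1, b2, b3, hf, hf, hf]
      refine ⟨by ring, by ring, ?_⟩
      exact dvd_add_left hd
    · have h1 : f m % 2 = 1 := by rw [hf]; omega
      obtain ⟨b1, b2, b3⟩ := xo h1
      rw [a1, a2, a3, b1, b2, b3, hf, hf, hf]
      refine ⟨by ring, by ring, ?_⟩
      have e : j * L - 1 - m + 1 = j * L - m := by ring
      rw [e]
      exact dvd_sub_right hd
  · obtain ⟨a1, a2, a3⟩ := xo hm
    rcases hf with hf | hf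
    · have h1 : f m % 2 = 1 := by rw [hf]; omega
      obtain ⟨b1, b2, b3⟩ := xo h1
      rw [a1, a2, a3, b1, b2, b3, hf, hf, hf]
      refine ⟨by ring, by ring, ?_⟩
      have e : m + j * L + 1 = (m + 1) + j * L := by ring
      rw [e]
      exact dvd_add_left hd
    · have h1 : f m % 2 = 0 := by rw [hf]; omega
      obtain ⟨b1, b2, b3⟩ := xe h1
      rw [a1, a2, a3, b1, b2, b3, hf, hf, hf]
      refine ⟨by ring, by ring, ?_⟩
      have e : j * L - 1 - m = j * L - (m + 1) := by ring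
      rw [e]
      exact dvd_sub_right hd

end TtrSg

theorem t_trSg : St_trSg := by
  intro A L B n m γ f hL hf h
  induction h with
  | refl hn => exact Tr.refl ⟨n, hn, rfl⟩
  | stepP m m' γ e h hm hB ih =>
    refine Tr.stepP (f m) (f m') γ e ih ?_ ⟨m', hB, rfl⟩
    rw [hm]
    split_ifs
    · rfl
    · exact (TtrSg.key hL hf m).1
  | stepF m m' γ c x y h hd hm hB ih =>
    refine Tr.stepF (f m) (f m') γ c x y ih ((TtrSg.key hL hf m).2.2.2 hd) ?_ ⟨m', hB, rfl⟩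
    rw [hm]
    split_ifs
    · rfl
    · exact (TtrSg.key hL hf m).2.1
  | stepT m m' γ c x h hd hm hB ih =>
    refine Tr.stepT (f m) (f m') γ c x ih (fun h' => hd ((TtrSg.key hL hf m).2.2.1 h')) ?_
      ⟨m', hB, rfl⟩
    rw [hm]
    split_ifs
    · rfl
    · exact (TtrSg.key hL hf m).2.1

end Pool.Agent.H338.PS
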