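import Pool.Agent.H338.PS.Asm
import Pool.Agent.H338.PS.T_ncl
import Pool.Agent.H338.PS.T_nonarch
import Pool.Agent.H338.PS.T_kill
import Pool.Agent.H338.PS.T_resOmega
import Pool.Agent.H338.PS.T_noq
import Pool.Agent.H338.PS.T_chain
import Pool.Agent.H338.PS.T_amal
import Pool.Agent.H338.PS.T_p4
import Pool.Agent.H338.PS.T_swap
import Pool.Agent.H338.PS.T_cent
import Pool.Agent.H338.PS.T_rig
import Pool.Agent.H338.PS.T_rigQ
import Pool.Agent.H338.PS.T_dec
import Pool.Agent.H338.PS.T_tg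
import Pool.Agent.H338.PS.T_fix
import Pool.Agent.H338.PS.T_cpt
import Pool.Agent.H338.PS.T_symm
import Pool.Agent.H338.PS.T_trG1
import Pool.Agent.H338.PS.T_trSg
import Pool.Agent.H338.PS.T_bdd
import Pool.Agent.H338.PS.T_lab
import Pool.Agent.H338.PS.T_be1
import Pool.Agent.H338.PS.T_be2
import Pool.Agent.H338.PS.T_lim
import Pool.Agent.H338.PS.T_mem
import Pool.Agent.H338.PS.T_cg
import Pool.Agent.H338.PS.T_nc
import Pool.Agent.H338.PS.T_con
import Pool.Agent.H338.PS.T_N1
import Pool.Agent.H338.PS.T_V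
import Pool.Agent.H338.PS.T_F
import Pool.Agent.H338.PS.T_kap
import Pool.Agent.H338.PS.T_G4
import Pool.Agent.H338.PS.T_fold
import Pool.Agent.H338.PS.T_nr
import Pool.Agent.H338.PS.T_six
import Pool.Agent.H338.PS.T_max
import Pool.Agent.H338.PS.T_core
import Pool.Agent.H338.PS.T_BB
import Pool.Agent.H338.PS.T_gen
import Pool.Agent.H338.PS.T_simp

/-!
# All leaves
-/

set_option autoImplicit false

namespace Pool.Agent.H338.PS

theorem p_symm : St_symm := t_symm
theorem p_trG1 : St_trG1 := t_trG1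
theorem p_trSg : St_trSg := t_trSg
theorem p_mem : St_mem := t_mem t_symm t_trG1 t_trSg
theorem p_be1 : St_be1 := t_be1 t_trSg
theorem p_lim : St_lim := t_lim t_be2
theorem p_cg : St_cg := t_cg t_fix t_cpt t_symm t_trSg p_mem
theorem p_nc : St_nc := t_nc t_fix p_mem p_be1 t_be2
theorem p_con : St_con := t_con t_fix p_mem t_dec p_be1 p_lim
theorem p_V : St_V := t_V t_N1 t_rig t_symm p_mem
theorem p_F : St_F := t_F t_N1 t_rigQ t_symm p_mem
theorem p_G4 : St_G4 := t_G4 p_V p_F t_kap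
theorem p_nr : St_nr := t_nr p_mem t_symm t_trG1 t_trSg
theorem p_six : St_six := t_six t_rig p_mem t_symm t_trG1 t_trSg t_lab p_be1 t_be2
theorem p_max : St_max := t_max t_p4 t_swap t_rig
theorem p_core : St_core := t_core t_cent
theorem p_BB : St_BB := t_BB t_fix t_cpt
theorem p_kill : St_kill := t_kill t_ncl
theorem p_resOmega : St_resOmega := t_resOmega t_ncl t_nonarch p_kill
theorem p_noq : St_noq := t_noq t_ncl p_resOmega
theorem p_chain : St_chain := t_chain t_ncl p_resOmega p_noq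

theorem p_gen : St_gen := t_gen t_rig t_rigQ
theorem p_simp : St_simp := t_simp p_core p_max t_dec t_fix p_BB t_tg

theorem main_WF (A : Amal) :
    TDLCSC (GG A) ∧ ClassP (GG A) ∧ ClassS (GG A) ∧ ¬ SWellFounded (GG A) :=
  ⟨tdlcsc_GG t_tg t_fix t_cpt A, classP_GG t_tg t_rig p_con p_max p_core p_BB A,
    classS_GG t_tg t_fix t_cpt t_rig p_con p_max p_BB p_gen p_simp A,
    p_chain _ _ _ (crit t_tg t_fix t_cpt t_ncl p_mem t_trG1 t_dec t_bdd p_cg p_nc p_con p_G4
      t_fold p_nr p_six A)⟩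

end Pool.Agent.H338.PS
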