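import Pool.Agent.H338.PS.Basic

/-!
# Interface statements about the group `GG A`

Notation in the comments: `S` is the image of `A₅` in `Γ` (the elements `iP (dS s) = iQ (qS s)`),
`SQ = TP \ TQ` (reduced form of length at least one that starts with a letter from `Q`),
`SP = TQ \ TP` (starts with a letter from `P`). So `TP = S ∪ SQ`, `TQ = S ∪ SP`; `leftP` says
`z TP ⊆ SP` for `z ∈ P \ S`, `leftQ` says `q TQ ⊆ SQ` for `q ∈ Q \ S`, `TPP` says `SQ P ⊆ SQ`,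
`TQQ` says `SP Q ⊆ SP`. `g γ` is `ac g γ`. `L` is `4 * l` with `l ≥ 1`.
-/

set_option autoImplicit false

namespace Pool.Agent.H338.PS

open Topology

/-- AM. Existence of the amalgamated product with its half-trees.

PROOF. `Γ = Monoid.PushoutI` of the two embeddings `dS`, `qS` (index type `Bool`, family
`fun b => bif b then P4 else Q4`, or any own construction, for instance the amalgam as words), which
are injective, so `of_injective` applies. Let `S` be the image of the base. Call a finite list of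
elements of `P \ S` and `Q \ S`, alternating between `P` and `Q`, a reduced word. Facts on reduced
words (`Monoid.PushoutI.Reduced`, `Reduced.exists_normalWord_prod_eq`,
`Reduced.eq_empty_of_mem_range`): a nonempty reduced word does not have its product in `S`; every
element is in `S` or the product of a nonempty reduced word (by induction: multiply by one letter
on the left). `TP` = elements of `S` and products of nonempty reduced words whose first letter is in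
`Q`; `TQ` = elements of `S` and products of nonempty reduced words whose first letter is in `P`.
If a product of a nonempty reduced word starting in `P` were equal to an element of `S` or to the
product of a nonempty reduced word starting in `Q`, then inverting one of the two words and
concatenating gives a nonempty reduced word with product in `S`, a contradiction: this gives `inter`
and the negative parts of `leftP`, `leftQ`, `TPP`, `TQQ`. The positive parts: multiplying a reduced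
word from the right by a letter changes only its last letter (multiplied into it, or appended) and
if the last letter becomes an element of `S` it is absorbed by the letter before it; so the first
letter keeps its type, unless the word has length one and its letter has the type of the
multiplier. `Γ` is countable because it is generated by a finite set. -/
def St_amal : Prop := Nonempty Amal

/-- P4. `A₅` (diagonal) is a maximal `S₄`-invariant subgroup of `A₅⁴`.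

PROOF. Let `z ∈ V` be not constant: `z i ≠ z j`. With `σ = swap i j`, `y = (z ∘ σ) * z⁻¹ ∈ V` has
`y i = z j (z i)⁻¹ =: t ≠ 1`, `y j = t⁻¹`, and `y k = 1` otherwise. Let `k ≠ i, j`. For `u : A₅` let
`y' = dS u * (y ∘ swap j k) * (dS u)⁻¹ ∈ V`: `y' i = u t u⁻¹`, `y' k = u t⁻¹ u⁻¹`, `1` otherwise. The
commutator of `y` and `y'` is `Pi.mulSingle i [t, u t u⁻¹]`. Choose `u` with
`t (u t u⁻¹) ≠ (u t u⁻¹) t`: otherwise `t` commutes with all its conjugates, so it is in the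
centraliser of its normal closure, which is everything as `A₅` is simple
(`alternatingGroup.isSimpleGroup_five`), so `t` is central, the centre is a normal subgroup, hence
everything, but `A₅` is not commutative. So the subgroup `{x | Pi.mulSingle i x ∈ V}` of `A₅` is not
trivial; it is normal because `V` is normalised by the `dS u`; so it is everything. Composing with
permutations, `Pi.mulSingle i x ∈ V` for all `i` and `x`, and these generate `P4`. -/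
def St_p4 : Prop := ∀ V : Subgroup P4, (∀ s, dS s ∈ V) →
  (∀ σ : Equiv.Perm (Fin 4), ∀ z ∈ V, (z ∘ σ : P4) ∈ V) → (∃ z ∈ V, ∀ s, z ≠ dS s) → V = ⊤

/-- SW.

PROOF. `z i ≠ z j` for some `i, j` (else `z = dS (z 0)`); `σ = swap i j`; the product has the entry
`z j (z i)⁻¹ ≠ 1` at `i` and the entry `1` at any `k ≠ i, j`, so it is not constant. -/
def St_swap : Prop := ∀ z : P4, (∀ s, z ≠ dS s) →
  ∃ σ : Equiv.Perm (Fin 4), ∀ s, (z ∘ σ : P4) * z⁻¹ ≠ dS s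

/-- CE.

PROOF. Let `x ≠ 1` in `A₅` and `z = Pi.mulSingle i x`; `z ∘ σ = Pi.mulSingle j x` with `σ j = i`.
If `j ≠ i`, let `k ≠ i, j`: entry `k` gives `s = t`, entry `i` gives `s = x t`, so `x = 1`, a
contradiction. So `j = i`, the entries at `k ≠ i` and `i` give `s = t` and `s x = x t = x s`. Hence
`s` commutes with all `x`, and the centre of `A₅` is trivial (`A₅` is simple and not
commutative). -/
def St_cent : Prop := ∀ (s : S5) (σ : Equiv.Perm (Fin 4)),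
  (∀ z : P4, ∃ t, dS s * (z ∘ σ : P4) = z * dS t) → s = 1

/-- RG. Rigid elements at the vertex `P`.

PROOF. By `decP` every `γ'` is `iP z * γ` with `γ ∈ TP`. If also `γ' = iP z' * γ₁` with `γ₁ ∈ TP`
then `z'⁻¹ z` is some `dS s` (else `leftP` gives `γ₁ ∉ TP`). Define
`f_σ γ' = iP ((z ∘ σ) * z⁻¹) * γ'` for a chosen `z`; as `(dS s) ∘ σ = dS s` this does not depend on
the choice, so `f_σ (iP z * γ) = iP (z ∘ σ) * γ` for all `z` and all `γ ∈ TP`. Hence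
`f_τ (f_σ γ') = f_{σ * τ} γ'`, so `f_σ` is a permutation with inverse `f_{σ⁻¹}`. It is in `GG A`:
let `γ' = iP z * γ`, `γ ∈ TP`. For `q : Q4`, `γ * iQ q ∈ TP` (`TPQ`), so
`f_σ (γ' * iQ q) = iP (z ∘ σ) * γ * iQ q` (take `b = false`). For `y : P4`: if `γ ∉ TQ`,
then `γ * iP y ∈ TP` (`TPP`) and `f_σ (γ' * iP y) = f_σ γ' * iP y` (take the permutation `1`); if
`γ ∈ TQ`, then `γ = iP (dS s)` (`inter`) and
`f_σ (γ' * iP y) = f_σ (iP (z * dS s * y)) = iP ((z * dS s * y) ∘ σ) = f_σ γ' * iP (y ∘ σ)` (note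
`1 ∈ TP` by `memTP 1`). The case distinction depends only on `γ'`, not on `y`. -/
def St_rig : Prop := ∀ A : Amal, ∀ σ : Equiv.Perm (Fin 4), ∃ g : GG A,
  ∀ γ ∈ A.TP, ∀ z : P4, ac g (A.iP z * γ) = A.iP (z ∘ σ) * γ

/-- RQ. Rigid elements at the vertex `Q`. Same proof as `St_rig` with `P`, `z ∘ σ` replaced by `Q`,
`eps b q`; `eps b` is a homomorphism (`eps_mul`), `eps b (eps b q) = q` (`eps_eps`, `eps_comp`) and
`eps b (qS s) = qS s` (`eps_qS`). -/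
def St_rigQ : Prop := ∀ A : Amal, ∀ b : Bool, ∃ g : GG A,
  ∀ γ ∈ A.TQ, ∀ q : Q4, ac g (A.iQ q * γ) = A.iQ (eps b q) * γ

/-- DC. Every element of the stabiliser of `1` is a product of an element that fixes `TP` and an
element that fixes `TQ`.

PROOF. Let `g ∈ G1 A`. First `g (iP (dS s)) = g (1 * iP (dS s)) = g 1 * iP (dS s) = iP (dS s)` by
`ruleP`. Claim: for all `g ∈ G1 A` and all `γ`: `γ ∈ TP → g γ ∈ TP` and `γ ∈ TQ → g γ ∈ TQ`. Use
`Subgroup.closure_induction_right` with `gen` (letters are closed under inverses) for the statement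
`I γ`: (`γ ∈ SQ → g γ ∈ SQ`) and (`γ ∈ SP → g γ ∈ SP`) and (`γ ∈ S → g γ = γ`) for the given `g` and
for `g⁻¹`. Step `γ → γ * iP y`, `g (γ * iP y) = g γ * iP y'`, `y' = y ∘ σ`. If `γ ∈ SQ`: both
`γ * iP y` and `g γ * iP y'` are in `SQ` (`TPP`). If `γ ∈ S`, `γ = iP (dS s)`: `γ * iP y = iP v` and
`g (iP v) = iP (v ∘ σ')` (rule at `1`), and `v` is diagonal iff `v ∘ σ'` is; for `v` not diagonal
`iP v ∈ SP` (`leftP` with `1 ∈ TP`). If `γ ∈ SP`: `γ * iP y ∈ TQ` and `g (γ * iP y) ∈ TQ` by `TQP`;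
if `γ * iP y ∈ S`, then `g` fixes it (first remark); if `g (γ * iP y) ∈ S` then, `g⁻¹ ∈ G1 A` fixing
the elements of `S`, `γ * iP y = g (γ * iP y) ∈ S`. Steps with `iQ q` are symmetric.
Hence `g` and `g⁻¹` preserve `TP` and `TQ`. Define `u γ = g γ` for `γ ∈ TQ` and `u γ = γ` for
`γ ∈ TP` (no conflict on `S = TP ∩ TQ`), and `v γ = γ` on `TQ`, `v γ = g γ` on `TP`. They are
permutations (inverse: same definition with `g⁻¹`) with `u * v = g`. They are in `GG A`, for example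
`u`: rule at `γ` for `P`: if `γ ∈ TQ` then `γ * iP z ∈ TQ` (`TQP`), use the rule of `g`; if
`γ ∈ SQ` then `γ * iP z ∈ TP`, use the permutation `1`. Rule at `γ` for `Q`: if `γ ∈ SP` then
`γ * iQ q ∈ TQ` (`TQQ`), use the rule of `g`; if `γ ∈ TP` then `γ * iQ q ∈ TP` (`TPQ`), use
`b = false`. Similarly `v`: for `Q` split into `TP` / `SP`, for `P` split into `SQ` / `TQ`. -/
def St_dec : Prop := ∀ A : Amal, ∀ g ∈ G1 A,
  ∃ u ∈ fixS A A.TP, ∃ v ∈ fixS A A.TQ, g = u * v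

/-- TG. Topological group.

PROOF. The topology is induced by the injective map `Φ : g ↦ (γ ↦ (g γ, g⁻¹ γ))` into a countable
product of countable discrete spaces (locally put `⊥` on `Γ`; `letI : TopologicalSpace A.Γ := ⊥`,
`haveI : DiscreteTopology A.Γ := ⟨rfl⟩`; the product `Γ × Γ` of discrete spaces is discrete, and the
topology `⊥` on `Γ × Γ` is the one in the definition). This product is Hausdorff, totally
disconnected and second countable, hence so is `GG A` (`Φ` is an embedding). Multiplication is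
continuous: `g (h γ)` is locally constant in `(g, h)` (on the open set where `h γ = δ` and
`g δ = ε`), likewise `(g h)⁻¹ γ = h⁻¹ (g⁻¹ γ)`; inversion swaps the two coordinates. -/
def St_tg : Prop := ∀ A : Amal, IsTopologicalGroup (GG A) ∧ T2Space (GG A) ∧
  TotallyDisconnectedSpace (GG A) ∧ SecondCountableTopology (GG A)

/-- FX. Pointwise stabilisers of finite sets are open and form a neighbourhood basis at `1`; all
pointwise stabilisers are closed.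

PROOF. `{g | g γ = δ}` is open and closed for all `γ, δ` (preimage of a set under a coordinate of
`Φ`, see `St_tg`). A neighbourhood of `1` contains `{g | ∀ γ ∈ F, g γ = γ ∧ g⁻¹ γ = γ}` for a finite
set `F` (basis of the product topology), and this set is `fixS A F`. -/
def St_fix : Prop := ∀ A : Amal,
  (∀ F : Finset A.Γ, IsOpen (fixS A (F : Set A.Γ) : Set (GG A))) ∧
  (∀ O : Set (GG A), IsOpen O → (1 : GG A) ∈ O →
    ∃ F : Finset A.Γ, (fixS A (F : Set A.Γ) : Set (GG A)) ⊆ O) ∧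
  (∀ T : Set A.Γ, IsClosed (fixS A T : Set (GG A)))

/-- CP. The stabiliser of `1` is compact.

PROOF. (i) For every `γ` the orbit `{g γ : g ∈ G1 A}` is finite: `Subgroup.closure_induction_right`
with `gen`: for `1` it is `{1}`, and `g (γ * iP z) = g γ * iP (z ∘ σ)`, so the orbit of `γ * iP z` is
contained in the product of the finite orbit of `γ` and the finite set `range iP` (`P4` is finite);
same for `Q`. (ii) Let `O γ` be this finite orbit and `Π = ∏_γ (O γ × O γ)`, compact in the product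
space. The image of `G1 A` under `Φ` (see `St_tg`) is the set of all `(f, f') ∈ Π` with
`f (f' γ) = γ`, `f' (f γ) = γ`, `f 1 = 1`, `∀ γ, ∃ σ, ∀ z, f (γ * iP z) = f γ * iP (z ∘ σ)`,
`∀ γ, ∃ b, ∀ q, …`. All these conditions are closed (each is a condition on finitely many
coordinates, as `P4`, `Q4` and the sets of `σ`, `b` are finite; or: `f (f' γ) = γ` is an equation
between locally constant functions). So the image is a closed subset of a compact set. `Φ` is an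
embedding, so `G1 A` is compact (`Topology.IsInducing.isCompact_iff`). -/
def St_cpt : Prop := ∀ A : Amal, IsCompact (G1 A : Set (GG A))

/-- SY. Reversal of paths.

PROOF. Induction on the path. For the letter `eP e` from `m` to `m'`: the same letter leads from
`m'` to `m` (`Xs_Xs`), and `eP e` is its own inverse (`eP_inv`, `map_inv`); for `eQ c x y` the same
(`Ys_Ys`, `Ws_Ys`, `eQ_inv`). So `Tr A L B m' x⁻¹ m` (one step from `refl`), `x⁻¹` the letter, and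
`Tr.trans` with the induction hypothesis gives `Tr A L B m' (x⁻¹ * γ⁻¹) n`. -/
def St_symm : Prop := ∀ (A : Amal) (L : ℤ) (B : ℤ → Prop) (n m : ℤ) (γ : A.Γ),
  Tr A L B n γ m → Tr A L B m γ⁻¹ n

/-- GI. Paths are mapped to paths by the stabiliser of `1`.

PROOF. Induction on the path with `ruleP`, `ruleQ`: `g (γ * iP (eP e)) = g γ * iP (eP (e ∘ σ))` and
`sm (e ∘ σ) = sm e` (`eP_comp`, `sm_comp`); `g (γ * iQ (eQ c x y)) = g γ * iQ (eQ c x' y)` with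
`x' = x + y` or `x` (`eps_eQ`), the same state change in `stepF`, and `x' = x` if `y = 0`. -/
def St_trG1 : Prop := ∀ (A : Amal) (L : ℤ) (B : ℤ → Prop) (n m : ℤ) (γ : A.Γ) (g : GG A),
  g ∈ G1 A → Tr A L B n γ m → Tr A L B n (ac g γ) m

/-- SG. Symmetries of the line act on paths.

PROOF. Induction on the path. For `f n = n + j L` (`L` even): `f` preserves parity, so it commutes
with `Xs`, `Ys`, and `Ws (f n) = Ws n + j L`. For `f n = j L - 1 - n`: `f` changes parity, `f`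
commutes with `Xs` and `Ys` (check both parities) and `Ws (f n) = j L - Ws n`. So divisibility of
`Ws` by `L` is preserved. -/
def St_trSg : Prop := ∀ (A : Amal) (L : ℤ) (B : ℤ → Prop) (n m : ℤ) (γ : A.Γ) (f : ℤ → ℤ),
  Even L → Sg L f → Tr A L B n γ m → Tr A L (fun p => ∃ q, B q ∧ p = f q) (f n) γ (f m)

/-- BD. Every path is contained in a window. PROOF. Induction on the path (`Tr.mono`, enlarge
`k`). -/
def St_bdd : Prop := ∀ (A : Amal) (L : ℤ) (n m : ℤ) (γ : A.Γ),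
  Tr A L allZ n γ m → ∃ k : ℕ, Tr A L (win k) n γ m

/-- LB. A path whose product is in `P` changes the state by `Xs` or not at all.

PROOF. Define reduced paths: an inductive predicate `RP : Bool → ℤ → Γ → ℤ → Prop` (`true`: the first
letter is in `P \ S`, `false`: it is in `Q \ S`), built from the LEFT: a letter `x` not in `S`
admissible at `n` leading to `n'`, followed by an element of `S₀ = {iP (eP 0), iP (eP 1)}`
(`eP 1 = dS om`, `iQ (eQ 1 0 0) = iP (eP 1)`) at state `n'`, or by a reduced path from `n'` of the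
other type. Let `RR n γ m` be: `γ ∈ S₀` and `m = n`, or `RP b n γ m` for some `b`. Claim 1: if
`RR n γ m` and `x` is a letter admissible at `m` leading to `m'`, then `RR n (γ * x) m'` (letters in
`S₀` do not change the state, since `sm 1 = 0`; two successive letters in `P` multiply to a letter
in `P` with the combined state change, as `eP e * eP f = eP (e + f)`, `sm (e + f) = sm e + sm f`,
`Xs (Xs n) = n`; two successive letters in `Q` at the same vertex (`Ws (Ys n) = Ws n`) multiply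
to a letter in `Q`; a letter that becomes an element of `S₀` is absorbed). Hence `Tr A L B n γ m`
implies `RR n γ m`. Claim 2: `RP true n γ m` implies `γ ∈ TQ`, `γ ∉ TP`, and `RP false n γ m`
implies `γ ∈ TP`, `γ ∉ TQ` (`leftP`, `leftQ`). Now let `γ = iP z`. Note `iP z ∈ TQ` (`TQP` with
`1 ∈ TQ`). If `γ ∈ S₀`: `m = n`. `RP false` is impossible by claim 2. If `RP true n γ m`: the first
letter is `x = iP (eP e)`, and the rest `x⁻¹ γ` is again in `range iP`, hence in `TQ`, so by claim 2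
it is not a reduced path starting in `Q \ S`; so the rest is in `S₀` and `m` is `n` or `Xs n`. -/
def St_lab : Prop := ∀ (A : Amal) (L : ℤ) (B : ℤ → Prop) (n m : ℤ) (γ : A.Γ),
  Tr A L B n γ m → (∃ z : P4, γ = A.iP z) → m = n ∨ m = Xs n

/-- B1. The translations `β^j`. `L = 4 l`.

PROOF. From the state `0`: `z1` (`eP ![1,0,0,0]`, `sm = 1`) leads to `1`; `la` at the state `2r - 1`
(`1 ≤ r ≤ 2l - 1`) crosses the vertex `Ws (2r - 1) = 2r`, which is not divisible by `4l`, so `stepT`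
with `x = 1` leads to `2r`, and `z1` leads to `2r + 1`; after the `2l - 1` repetitions the state is
`4l - 1`, `Ws = 4l`, and `lb` (`stepF` with `y = 1`) leads to `4l`. So `Tr 0 β (4l)`. From `-1`: `z1`
leads to `-2`, `la` at `-2r` crosses `-2r` and leads to `-2r - 1`, `z1` to `-2r - 2`; after `2l - 1`
repetitions the state is `-4l`, `Ws (-4l) = -4l`, `lb` leads to `-4l - 1`. For the powers use
`Tr.trans` and `St_trSg` with `f n = n + j L` or `f n = n - j L` (and `Tr.mono` to `allZ`). -/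
def St_be1 : Prop := ∀ (A : Amal) (l : ℕ), 1 ≤ l → ∀ j : ℕ,
  Tr A (4 * (l : ℤ)) allZ 0 (be A l ^ j) (j * (4 * (l : ℤ))) ∧
  Tr A (4 * (l : ℤ)) allZ (-1) (be A l ^ j) (-1 - j * (4 * (l : ℤ)))

/-- B2. PROOF. `z1_not`, `la_not`, `lb_not` and `leftP`, `leftQ`: `lb TQ ⊆ SQ`, `z1 SQ ⊆ SP`,
`la SP ⊆ SQ`, so `(la z1)^r SQ ⊆ SQ`, `β TQ ⊆ SP`. The letters are their own inverses (`eP_inv`,
`eQ_inv`), so `β⁻¹ = lb (z1 la)^(2l-1) z1` and `z1 TP ⊆ SP`, `(z1 la) SP ⊆ SP`, `lb SP ⊆ SQ`. -/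
def St_be2 : Prop := ∀ (A : Amal) (l : ℕ), 1 ≤ l →
  (∀ γ ∈ A.TP, (be A l)⁻¹ * γ ∈ A.TP ∧ (be A l)⁻¹ * γ ∉ A.TQ) ∧
  (∀ γ ∈ A.TQ, be A l * γ ∈ A.TQ ∧ be A l * γ ∉ A.TP)

/-- LM. Uses `St_be2`.

PROOF. `Subgroup.closure_induction_right` with `gen` for the statement
`∃ i, ∀ j ≥ i, (β^j)⁻¹ * f ∈ SQ`. For `f = 1`: `i = 1` by `St_be2` (`1 ∈ TP`, iterate; note
`(β^(j+1))⁻¹ * f = β⁻¹ * ((β^j)⁻¹ * f)`). Step `f → f * iP z`: `SQ P ⊆ SQ` (`TPP`). Step
`f → f * iQ q`: `(β^j)⁻¹ * f * iQ q ∈ TP` (`TPQ`) for `j ≥ i`, so `(β^(j+1))⁻¹ * f * iQ q ∈ SQ`. -/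
def St_lim : Prop := ∀ (A : Amal) (l : ℕ), 1 ≤ l → ∀ f : A.Γ, ∃ i : ℕ, ∀ j ≥ i,
  (be A l ^ j)⁻¹ * f ∈ A.TP ∧ (be A l ^ j)⁻¹ * f ∉ A.TQ

/-- MH. Uses `St_symm`, `St_trG1`, `St_trSg`.

PROOF. `Orb L n` iff `n = f 0` for some `f` with `Sy L f`; `Sy L f` implies `Sg L f`; these `f` are
closed under composition and inverses. The set on the right is closed under products: let
`g = L_λ u`, `λ = g 1`, `u ∈ G1` (`exists_dec`), `Tr 0 λ (f 0)` and `Tr 0 (h 1) (f' 0)`. Then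
`(g h) 1 = λ * u (h 1)`, `Tr 0 (u (h 1)) (f' 0)` by `St_trG1`, `Tr (f 0) (u (h 1)) (f (f' 0))` by
`St_trSg` (and `Tr.mono`), so `Tr 0 ((g h) 1) (f (f' 0))` by `Tr.trans`. Inverses:
`g⁻¹ 1 = u⁻¹ λ⁻¹`, `Tr (f 0) λ⁻¹ 0` by `St_symm`, apply `f⁻¹`: `Tr 0 λ⁻¹ (f⁻¹ 0)`, apply `u⁻¹`. So the
set is a subgroup and equals its closure. The second part is the same without `f` (all states in
`win k`). -/
def St_mem : Prop := ∀ (A : Amal) (L : ℤ), Even L →
  (∀ g : GG A, g ∈ HH A L ↔ ∃ n, Orb L n ∧ Tr A L allZ 0 (ac g 1) n) ∧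
  (∀ (k : ℕ) (g : GG A), g ∈ RW A L k ↔ Tr A L (win k) 0 (ac g 1) 0)

/-- CG. `H_L` is open and compactly generated. Uses `St_fix`, `St_cpt`, `St_symm`, `St_trSg`,
`St_mem`.

PROOF. `G1 A = fixS A {1}` is open and contained in `H_L`, so `H_L` is open. Let `L = 4l`,
`FD = {m | -2l ≤ m ≤ 2l - 1}`. For every `n : ℤ` there are `f` with `Sy L f` and `m ∈ FD` with
`n = f m` (`FD` has `L` elements, translations by `2L` and `m ↦ L - 1 - m`). `Orb L n` and `n ∈ FD`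
imply `n = 0`. For every `m` there is `κ` with `Tr 0 κ m` (walk along the line from `0`, letters
`z1`, `la`, `lb`); choose `κ m` for `m ∈ FD`, with `κ 0 = 1`. Let
`F = {κ m * x * (κ m')⁻¹ : m, m' ∈ FD, x ∈ iP (range eP) ∪ iQ {eQ c x y}}` (finite) and
`F' = {γ ∈ F | L_γ ∈ H_L}`. Claim: if `Tr 0 γ n`, then there are `f` with `Sy L f` and `m ∈ FD` with
`n = f m` and `γ * (κ m)⁻¹ ∈ closure F'`. Induction on the path: for the letter `x` from `n = f m` to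
`n'`: the letter `x` leads from `m` to `f⁻¹ n'` (`St_trSg`), write `f⁻¹ n' = f'' m''`; then
`y = κ m * x * (κ m'')⁻¹` satisfies `Tr 0 y (f'' 0)` (as `Tr m'' (κ m'')⁻¹ 0`, so
`Tr (f'' m'') (κ m'')⁻¹ (f'' 0)`), so `y ∈ F'` by `St_mem`, and
`γ x (κ m'')⁻¹ = (γ (κ m)⁻¹) y`, `n' = (f f'') m''`. If `g ∈ H_L`, `λ = g 1`, `Tr 0 λ n` with
`Orb L n`, then `n = f m`, so `m ∈ Orb L ∩ FD = {0}` and `λ ∈ closure F'`. So
`H_L = closure (G1 A ∪ L_{F'})` and this set is compact. -/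
def St_cg : Prop := ∀ (A : Amal) (l : ℕ), 1 ≤ l → HH A (4 * (l : ℤ)) ∈ Oc (GG A)

/-- NC. `H_L` is not compact. Uses `St_fix`, `St_mem`, `St_be1`, `St_be2`.

PROOF. `L_{β^(2i)} ∈ H_L` for all `i` (`Orb L (2 i L)`). If `H_L` were compact, the evaluation map
`g ↦ g 1` to discrete `Γ` (continuous: `{g | g 1 = γ} = L_γ G1` is open) would have finite image on
it, but the `β^(2i)` are pairwise different: `β^j ≠ 1` for `j ≥ 1` because
`(β^j)⁻¹ = (β^j)⁻¹ * 1 ∉ TQ` by `St_be2` (iterate, `1 ∈ TP`) and `1 ∈ TQ`. -/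
def St_nc : Prop := ∀ (A : Amal) (l : ℕ), 1 ≤ l → ¬ IsCompact (HH A (4 * (l : ℤ)) : Set (GG A))

/-- CN. Contraction. Uses `St_fix`, `St_mem`, `St_dec`, `St_be1`, `St_lim`.

PROOF. Let `F` be finite with `fixS A F ⊆ O`. By `St_lim` there is an even `j` such that
`(β^j)⁻¹ f ∈ TP` for all `f ∈ F`. `h = L_{β^j} ∈ H_L` (`Orb L (j L)` as `j` is even). Let
`u ∈ fixS A TP`. `h u h⁻¹ f = β^j * u ((β^j)⁻¹ f) = f` for `f ∈ F`, so `h u h⁻¹ ∈ O` and
`u = h⁻¹ (h u h⁻¹) h ∈ O`. Let `v ∈ fixS A TQ` and `h' = L_{β^j z0} ∈ H_L` (`sm ![1,1,0,0] = 0`, so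
the state stays `j L`). `(β^j z0)⁻¹ f = z0⁻¹ (β^j)⁻¹ f ∈ TQ` by `leftP` (`z0_not`; `z0⁻¹ = z0`). So
`h' v h'⁻¹` fixes `F`, and `v ∈ O`. By `St_dec`, `G1 A ≤ O`. -/
def St_con : Prop := ∀ (A : Amal) (l : ℕ), 1 ≤ l → ∀ O : Subgroup (GG A),
  IsOpen (O : Set (GG A)) → (∀ h ∈ HH A (4 * (l : ℤ)), ∀ x ∈ O, h * x * h⁻¹ ∈ O) → G1 A ≤ O

/-- N1. PROOF. `swap_Lm`: `g L_λ = L_{g λ} u` with `u ∈ G1`, so
`L_{g λ * λ⁻¹} = g (L_λ u⁻¹ L_λ⁻¹)` is a product of two elements of `ncl`. -/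
def St_N1 : Prop := ∀ (A : Amal) (H : Subgroup (GG A)) (g : GG A) (γ : A.Γ), g ∈ G1 A →
  Lm A γ ∈ H → Lm A (ac g γ * γ⁻¹) ∈ ncl (G1 A) H

/-- VV. Uses `St_N1`, `St_rig`, `St_symm`, `St_mem`.

PROOF. Let `z = eP f` with `sm f = 0` and `λ = κ z κ⁻¹` (`z` stands for `iP z`). `Tr 0 λ 0`, so
`L_λ ∈ H_L`. Let `g_σ` be as in `St_rig` and `g = L_κ g_σ L_κ⁻¹`. `g 1 = κ g_σ (κ⁻¹) = 1` since
`κ⁻¹ ∈ TP`; `g λ = κ g_σ (z κ⁻¹) = κ (z ∘ σ) κ⁻¹`. So by `St_N1`,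
`L_{κ (z ∘ σ) z⁻¹ κ⁻¹} ∈ ncl`, where `(z ∘ σ) z⁻¹ = eP (f ∘ σ + f)`. Every `e` with `sm e = 0` is a
sum of at most two vectors `f ∘ σ + f` with `sm f = 0` (for example `![1,1,0,0]` and a transposition
give all vectors with two ones; decidable). -/
def St_V : Prop := ∀ (A : Amal) (l : ℕ), 1 ≤ l → ∀ (γ : A.Γ) (n : ℤ),
  Tr A (4 * (l : ℤ)) allZ 0 γ n → γ⁻¹ ∈ A.TP → ∀ e, sm e = 0 →
  Lm A (γ * A.iP (eP e) * γ⁻¹) ∈ ncl (G1 A) (HH A (4 * (l : ℤ)))

/-- FF. Uses `St_N1`, `St_rigQ`, `St_symm`, `St_mem`.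

PROOF. (`κ` is the `γ` of the statement.) Let `λ = κ b z0 b κ⁻¹`, `b = lb`. `Tr 0 λ 0`: `b` at
`n` is a `stepF` (`L ∣ Ws n`) to `Ys n`, `z0` does not change the state, `b` leads back
(`Ws_Ys`, `Ys_Ys`). Let `g = L_κ g' L_κ⁻¹`, `g'` as in `St_rigQ` for `b = true`. `g 1 = 1` since
`κ⁻¹ ∈ TQ`. `z0 b κ⁻¹ ∈ SP ⊆ TQ`: `κ⁻¹ ∈ TQ`, so `b κ⁻¹ ∈ SQ ⊆ TP` (`leftQ`, `lb_not`), so
`z0 b κ⁻¹ ∈ TQ` (`leftP`). So `g λ = κ g' (b (z0 b κ⁻¹)) = κ (eps true b) z0 b κ⁻¹ = κ a b z0 b κ⁻¹`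
(`eps_eQ`, `eQ_mul`), `a = la`, and `g λ * λ⁻¹ = κ a κ⁻¹`. Use `St_N1`. -/
def St_F : Prop := ∀ (A : Amal) (l : ℕ), 1 ≤ l → ∀ (γ : A.Γ) (n : ℤ),
  Tr A (4 * (l : ℤ)) allZ 0 γ n → 4 * (l : ℤ) ∣ Ws n → γ⁻¹ ∈ A.TQ →
  Lm A (γ * la A * γ⁻¹) ∈ ncl (G1 A) (HH A (4 * (l : ℤ)))

/-- KA. The straight paths.

PROOF. Define `κ` on `n ≥ 0` by `κ 0 = 1`, `κ (n+1) = κ n * z1` for even `n`, and
`κ (n+1) = κ n * (if L ∣ n + 1 then lb else la)` for odd `n`; on `n < 0` by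
`κ (-1) = κ 0 * lb`, `κ (n-1) = κ n * z1` for odd `n < 0`, and
`κ (n-1) = κ n * (if L ∣ n then lb else la)` for even `n < 0`. The letters are involutions, so both
relations hold in both directions. `Tr` by `Tr.trans`. For `n > 0` even and for `n < 0` odd the
inverse `(κ n)⁻¹` starts with `la` or `lb`; for `n > 0` odd and for `n < 0` even it starts with `z1`
(prove both by induction on `|n|` with `leftP`, `leftQ`: `(κ n)⁻¹ ∈ SQ` or `∈ SP`), and
`(κ 0)⁻¹ = 1 ∈ TP ∩ TQ`. One of `n`, `Xs n` is `0`, positive and even, or negative and odd; one of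
`n`, `Ys n` is `0`, positive and odd, or negative and even. -/
def St_kap : Prop := ∀ (A : Amal) (l : ℕ), 1 ≤ l → ∃ κ : ℤ → A.Γ, κ 0 = 1 ∧
  (∀ n, κ (Xs n) = κ n * z1 A) ∧
  (∀ n, κ (Ys n) = κ n * (if 4 * (l : ℤ) ∣ Ws n then lb A else la A)) ∧
  (∀ n, Tr A (4 * (l : ℤ)) allZ 0 (κ n) n) ∧
  (∀ n, (κ n)⁻¹ ∈ A.TP ∨ (κ (Xs n))⁻¹ ∈ A.TP) ∧
  (∀ n, (κ n)⁻¹ ∈ A.TQ ∨ (κ (Ys n))⁻¹ ∈ A.TQ)

/-- G4. Uses `St_V`, `St_F`, `St_kap`, `St_ncl`-type facts (`G1 ≤ ncl`, `ncl` is a subgroup).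

PROOF. Let `R = ncl (G1 A) (HH A L)` and `κ` as in `St_kap`. (V') `L_{κ n z (κ n)⁻¹} ∈ R` for
`z = iP (eP e)`, `sm e = 0`: if `(κ n)⁻¹ ∈ TP` this is `St_V`, otherwise apply it to `Xs n`:
`κ (Xs n) z κ (Xs n)⁻¹ = κ n z1 z z1⁻¹ (κ n)⁻¹ = κ n z (κ n)⁻¹` (elements `eP` commute).
(F') if `L ∣ Ws n` then `L_{κ n a (κ n)⁻¹} ∈ R`: if `(κ n)⁻¹ ∈ TQ` this is `St_F`, otherwise apply it
to `Ys n` (`Ws_Ys`), `κ (Ys n) = κ n lb`, and `lb la lb⁻¹ = la`. Claim: `Tr 0 γ n` implies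
`L_{γ (κ n)⁻¹} ∈ R`. Induction on the path, it suffices that `L_{κ n x (κ n')⁻¹} ∈ R` for each letter
`x` from `n` to `n'`. `x = iP (eP e)`: if `sm e = 0`, (V'); if `sm e = 1`, `κ n' = κ n z1` and
`x z1⁻¹ = iP (eP (e + ![1,0,0,0]))` has sum `0`, (V'). `x = iQ (eQ c x y)` with `L ∣ Ws n`: if
`y = 0`: `x = s a^x` with `s = iQ (eQ c 0 0) = iP (eP (const c))` (`agree`) of sum `0`: (V') and
(F'); if `y = 1`: `κ n' = κ n lb`, `x lb⁻¹ = s a^x`. `x = iQ (eQ c x 0)` with `L ∤ Ws n`: if `x = 0`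
this is `s`, (V'); if `x = 1`: `κ n' = κ n la`, `x la⁻¹ = s`. For `n = 0` the claim gives
`L_γ ∈ R`; finally `g = L_{g 1} u` with `u ∈ G1 A ≤ R`. -/
def St_G4 : Prop := ∀ (A : Amal) (l : ℕ), 1 ≤ l → ∀ g : GG A,
  Tr A (4 * (l : ℤ)) allZ 0 (ac g 1) 0 → g ∈ ncl (G1 A) (HH A (4 * (l : ℤ)))

/-- FO. Folding. `L = 4l`.

PROOF. Claim: if `Tr A (2L) allZ 0 γ m` then there are `f` with `Sy (2L) f` and
`m₁` with `-L ≤ m₁ ≤ L - 1`, `m = f m₁` and `Tr A L allZ 0 γ m₁`. Induction on the path; start with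
`f = id`, `m₁ = 0`. The maps `f` commute with `Xs` and `Ys`, and `2L ∣ Ws (f n) ↔ 2L ∣ Ws n`,
`L ∣ Ws (f n) ↔ L ∣ Ws n` (see `St_trSg`). `stepP`: `Xs` maps `[-L, L-1]` to itself. `stepF`
(`2L ∣ Ws m`, so `2L ∣ Ws m₁`, so `Ws m₁ = 0` because `-L ≤ Ws m₁ ≤ L`): `stepF` for `L` from `m₁`
to `m₁` or `Ys m₁ ∈ [-L, L-1]`. `stepT` (`2L ∤ Ws m`), letter `eQ c x 0`: if `L ∤ Ws m₁`, `stepT` for
`L`, and `Ys m₁` is again in `[-L, L-1]` (it leaves the interval only if `Ws m₁ = ± L`). If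
`L ∣ Ws m₁` then `Ws m₁ = L` or `-L`, i.e. `m₁ = L - 1` or `m₁ = -L`; `stepF` for `L` with `y = 0` from
`m₁` to `m₁`; the new state is `m` or `Ys m = f (Ys m₁)`, where `Ys m₁ = L = 2L - 1 - m₁` or
`Ys m₁ = -L - 1 = -2L - 1 - m₁`, so `Ys m = (f f') m₁` with `Sy (2L) f'`.
Finally `Orb (2L) m` and `m = f m₁`, `-L ≤ m₁ ≤ L - 1` imply `Orb (2L) m₁`, so `m₁ = 0`. -/
def St_fold : Prop := ∀ (A : Amal) (l : ℕ), 1 ≤ l → ∀ (n : ℤ) (γ : A.Γ),
  Orb (2 * (4 * (l : ℤ))) n → Tr A (2 * (4 * (l : ℤ))) allZ 0 γ n →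
  Tr A (4 * (l : ℤ)) allZ 0 γ 0

/-- NR. Uses `St_mem`, `St_symm`, `St_trG1`, `St_trSg`.

PROOF. The set of `x` with `Tr 0 (x 1) 0` is a subgroup (see `St_mem`; take `f = id`), so it is
enough to check `x = h u h⁻¹` with `h ∈ H_L`, `u ∈ G1 A`. `h = L_λ u'`, `Tr 0 λ (f 0)`, `Sy L f`;
`h⁻¹ 1 = u'⁻¹ λ⁻¹`, `Tr (f 0) λ⁻¹ 0`, so `Tr 0 λ⁻¹ (f⁻¹ 0)`, `Tr 0 (h⁻¹ 1) (f⁻¹ 0)`,
`Tr 0 (u' u h⁻¹ 1) (f⁻¹ 0)`, `Tr (f 0) (u' u h⁻¹ 1) 0`, and `x 1 = λ * (u' u h⁻¹ 1)`. -/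
def St_nr : Prop := ∀ (A : Amal) (l : ℕ), 1 ≤ l →
  ∀ x ∈ ncl (G1 A) (HH A (4 * (l : ℤ))), Tr A (4 * (l : ℤ)) allZ 0 (ac x 1) 0

/-- SX. The main geometric fact. Uses `St_rig`, `St_mem`, `St_symm`, `St_trG1`, `St_trSg`,
`St_lab`, `St_be1`, `St_be2`.

PROOF. `L = 4l`, `h = L_λ u`, `λ = h 1`, `u ∈ G1`; `Tr 0 λ n₀`, `n₀ = f 0`, `Sy L f`, so
`|f q| ≤ |q| + |n₀|` for all `q` (`f q = n₀ + q` or `n₀ - q`). For the first part let
`γ₁ = lb * β^(2i+1)`, `n₁ = -1 - (2i+1) L`; for the second part let `γ₁ = β^(2i)`, `n₁ = 2iL`; `i` so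
large that `|n₁| > k + |n₀| + 1`. `Tr 0 γ₁ n₁` (`St_be1`; `lb` leads from `0` to `-1` by `stepF`),
`Orb L n₁`. By `St_be2`, `leftQ`: `γ₁ * w` is in `TP` (first part), in `TQ` (second part) for all
`w ∈ TQ`. Also `γ₁⁻¹ ∈ TP` is not needed.
(i) If `Tr (win k) 0 γ' m` then `γ₁⁻¹ λ γ'` is not in `range iP`: otherwise
`Tr n₁ (γ₁⁻¹ * λ * γ') (f m)` (`St_symm`, `St_trSg`, `Tr.trans`, all in `allZ`) and `St_lab` give
`f m = n₁` or `f m = Xs n₁`, so `|n₁| ≤ |f m| + 1 ≤ k + |n₀| + 1` (`|m| ≤ k` by `Tr.stop`).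
(ii) Let `w γ' = γ₁⁻¹ λ γ'`. If `Tr (win k) 0 γ' m` then `w γ' ∈ TP ↔ w 1 ∈ TP`. Induction on the
path: for a letter `x ∈ Q`: `w ∈ TP → w x ∈ TP` (`TPQ`) and conversely with `x⁻¹`. For
`x = iP y`: `w` and `w x` are not in `range iP` by (i), in particular not in `S = TP ∩ TQ`
(`inter`); `w ∈ TP`, so `w ∉ TQ`, so `w x ∈ TP` (`TPP`), and conversely with `x⁻¹`.
For `γ ∈ LW` (`Tr (win k) 0 γ 0`): `u γ` satisfies the same (`St_trG1`), `h γ = λ * u γ = γ₁ * w (u γ)`.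
Case `w 1 ∉ TP`: then `w (u γ) ∉ TP`, so it is in `TQ` (`cover`), and `h γ = γ₁ * w (u γ)` is in the
target: take `ρ = 1`.
Case `w 1 ∈ TP`: `w (u γ) ∈ TP` for all `γ ∈ LW`. Let `σ = swap 1 2` and `g_σ` as in `St_rig`,
`ρ = L_{γ₁ z0} g_σ L_{γ₁ z0}⁻¹`. `L_{γ₁ z0} ∈ H_L` (`Tr 0 (γ₁ z0) n₁`) and `g_σ ∈ G1 A`
(`g_σ 1 = 1`), so `ρ ∈ ncl`. With `w = w (u γ) ∈ TP`:
`ρ (h γ) = γ₁ z0 g_σ (z0⁻¹ w) = γ₁ z0 (z0⁻¹ ∘ σ) w = γ₁ * (iP (eP ![0,1,1,0]) * w)`
(`z0 = iP (eP ![1,1,0,0])`, `eP_inv`, `eP_comp`, `eP_add`), and `iP (eP ![0,1,1,0]) * w ∈ TQ` by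
`leftP` (`eP ![0,1,1,0]` is not constant). So `ρ (h γ)` is in the target. -/
def St_six : Prop := ∀ (A : Amal) (l : ℕ), 1 ≤ l → ∀ h ∈ HH A (4 * (l : ℤ)), ∀ k : ℕ,
  (∃ ρ ∈ ncl (G1 A) (HH A (4 * (l : ℤ))), ∀ γ ∈ LW A (4 * (l : ℤ)) k, ac (ρ * h) γ ∈ A.TP) ∧
  (∃ ρ ∈ ncl (G1 A) (HH A (4 * (l : ℤ))), ∀ γ ∈ LW A (4 * (l : ℤ)) k, ac (ρ * h) γ ∈ A.TQ)

/-- MX. Maximality. Uses `St_p4`, `St_swap`, `St_rig`.

PROOF. `G1 A ≤ V` (`1 = iQ 1`), `L_{iQ q} ∈ V`. For `v ∈ V`, `L_{v 1} = v u⁻¹ ∈ V` (`exists_dec`).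
Let `δ = g 1`, `δ ∉ range iQ`, `L_δ ∈ V`. By `decQ`, `δ = iQ q * γ'` with `γ' ∈ TQ`; `L_{γ'} ∈ V`;
`γ' ∉ TP`, otherwise `γ' = iP (dS s) = iQ (qS s)` (`inter`, `agree`) and `δ ∈ range iQ`. By `decP`,
`γ' = iP z * γ''` with `γ'' ∈ TP`; `z` is not a `dS s` (`smulTP`). Choose `σ` by `St_swap` for `z` and
`g_σ` by `St_rig`; `g_σ ∈ G1 A` (`1 ∈ TP`), so `g_σ L_{γ'} ∈ V`, so `L_{g_σ γ'} ∈ V`,
`g_σ γ' = iP (z ∘ σ) * γ''`, so `L_{g_σ γ' * γ'⁻¹} = L_{iP ((z ∘ σ) * z⁻¹)} ∈ V`. The subgroup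
`V' = {z : P4 | L_{iP z} ∈ V}` contains all `dS s`, is invariant under `z ↦ z ∘ σ`
(`L_{g_σ (iP z)}`, `g_σ (iP z) = iP (z ∘ σ)`), and contains an element that is not a `dS s`. By
`St_p4`, `V' = ⊤`. So `L_γ ∈ V` for all `γ` (`gen`), and with `G1 A ≤ V` every element is in
`V`. -/
def St_max : Prop := ∀ (A : Amal) (V : Subgroup (GG A)),
  (∀ g : GG A, (∃ q, ac g 1 = A.iQ q) → g ∈ V) → (∃ g ∈ V, ∀ q, ac g 1 ≠ A.iQ q) → V = ⊤

/-- CO. Trivial core. Uses `St_cent`.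

PROOF. For every `γ`, taking `g = L_γ⁻¹`: `γ⁻¹ * x γ ∈ range iQ`, so `x γ = γ * iQ (q γ)`. Fix `γ`,
let `q = q γ` and `σ` be given by `ruleP x γ`. For `z : P4`:
`γ * iQ q * iP (z ∘ σ) = x (γ * iP z) = γ * iP z * iQ q'`, so `iQ q * iP (z ∘ σ) = iP z * iQ q'`.
If `q` is not a `qS s`: choose `z` not diagonal (`z1_not`). The left side is in `TP` (`leftQ` with
`1 ∈ TQ`, then `TPP`), the right side is not in `TP` (`leftP` with `1 ∈ TP`, then `TQQ`), a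
contradiction. So `q = qS s`, and for all `z`: `iQ q' = iP (z⁻¹ * dS s * (z ∘ σ))` is in `TP`
(`TPQ` with `1 ∈ TP`) and in `TQ` (`TQP` with `1 ∈ TQ`), so it is some `iP (dS t)` (`inter`), and
`dS s * (z ∘ σ) = z * dS t` (`injP`). By `St_cent`, `s = 1`, so `x γ = γ`. -/
def St_core : Prop := ∀ (A : Amal) (x : GG A),
  (∀ g : GG A, ∃ q, ac (g * x * g⁻¹) 1 = A.iQ q) → x = 1

/-- BB. The vertex stabiliser. Uses `St_fix`, `St_cpt`.

PROOF. `U = {g | g 1 ∈ range iQ}`: closed under products: `g (h 1) = g (1 * iQ q) = g 1 * iQ (eps b q)`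
(`ruleQ` at `1`); inverses: `g 1 = iQ q` and `ruleQ` at `1` give `p` with `eps b p = q⁻¹` (`eps b` is
an involution, see the proofs in `GG`), so `g (iQ p) = g 1 * iQ q⁻¹ = 1`, so `g⁻¹ 1 = iQ p`. It
contains the open subgroup `G1 A = fixS A {1}`, so it is open. It is the union over `q : Q4` (a
finite set) of `L_{iQ q} G1 A` (`exists_dec`), so it is compact. -/
def St_BB : Prop := ∀ A : Amal, ∃ U : Subgroup (GG A), (∀ g, g ∈ U ↔ ∃ q, ac g 1 = A.iQ q) ∧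
  IsOpen (U : Set (GG A)) ∧ IsCompact (U : Set (GG A))

/-- GN. Normal subgroups that contain the stabiliser of `1`. Uses `St_rig`, `St_rigQ`.

PROOF. For `g ∈ G1 A` and every `γ`: `L_{g γ * γ⁻¹} ∈ M`, since `g L_γ = L_{g γ} u` with `u ∈ G1 A`
(`swap_Lm`), so `L_{g γ * γ⁻¹} = g (L_γ u⁻¹ L_γ⁻¹)`. (i) `V = {z : P4 | L_{iP z} ∈ M}` is a normal
subgroup of `P4` (conjugate with `L_{iP y}`). Take `g = g_σ` of `St_rig` (`g_σ 1 = 1` as `1 ∈ TP`,
`z = 1`) and `γ = iP z = iP z * 1`: `g γ * γ⁻¹ = iP ((z ∘ σ) * z⁻¹)`, so `(z ∘ σ) * z⁻¹ ∈ V` for all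
`z` and `σ`. Let `i ≠ j`, `x : A₅`, `z = Pi.mulSingle i x`, `σ = swap i j`: `V` contains
`v = Pi.mulSingle j x * (Pi.mulSingle i x)⁻¹`. The commutator of `v` with `Pi.mulSingle i y` is
`Pi.mulSingle i [x⁻¹, y]`, which is in `V`. So `{x | Pi.mulSingle i x ∈ V}` is a normal subgroup of
`A₅` that is not trivial (`A₅` is not commutative), hence everything (`A₅` is simple), and
`V = ⊤`. (ii) `V' = {q : Q4 | L_{iQ q} ∈ M}` is a normal subgroup of `Q4`. It contains `(s, 1) = qS s`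
by (i) and `agree`. With `g` of `St_rigQ` for `b = true` and `γ = iQ q`: `eps true q * q⁻¹ ∈ V'`. For
`q = (1, on)` this is `(1, tau on * on⁻¹) = (1, om)` (`tau_on`, `om_on`, `on_sq`), `om ≠ 1`
(`om_ne`). So the normal subgroup `{r | (1, r) ∈ V'}` of `A₅` is not trivial, hence everything, and
`V' = ⊤`. So `L_γ ∈ M` for all `γ` (`gen`), and `g = L_{g 1} u` (`exists_dec`) gives `M = ⊤`. -/
def St_gen : Prop := ∀ (A : Amal) (M : Subgroup (GG A)), M.Normal → G1 A ≤ M → M = ⊤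

/-- SI. Every nontrivial closed normal subgroup contains the stabiliser of `1`. Uses `St_core`,
`St_max`, `St_dec`, `St_fix`, `St_BB`.

PROOF. `U = {g | g 1 ∈ range iQ}` is a subgroup (`St_BB`). (0) Every `g ∈ G1 A` maps `SQ` to `SQ` and
`SP` to `SP`: by `St_dec`, `g = u * v` with `u` fixing `TP` and `v` fixing `TQ`; `v` is a bijection that
fixes `TQ` pointwise, so it maps the complement `SQ` of `TQ` to itself, and `u` is the identity on
`SQ ⊆ TP`; on `SP ⊆ TQ`, `v` is the identity and `u` maps the complement `SP` of `TP` to itself.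
It also fixes the elements of `S = TP ∩ TQ`, so `g TP ⊆ TP`, `g TQ ⊆ TQ`.
(1) There is `x ∈ M`, `x ≠ 1`, and by `St_core` there is `g` with `g x g⁻¹ ∉ U`. So `V = M ⊔ U = ⊤` by
`St_max`. As `M` is normal, every element of `GG A` is `m * w` with `m ∈ M`, `w ∈ U`
(`Subgroup.mul_normal` or `Subgroup.mem_sup_of_normal_left`). Apply this to `L_z`,
`z = z1 A = iP (eP ![1,0,0,0])`: `m = L_z w⁻¹`, so `m 1 = z * iQ q` for some `q` and `m ∈ M`.
(2) Claim: there is `t ∈ M` with `t TQ ⊆ SP` and `t⁻¹ TP ⊆ SQ`. By `exists_dec`,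
`m = L_{z * iQ q} u`, `u ∈ G1 A`. Case `q` is not a `qS s`: `t = m`.
`t TQ = z (iQ q) (u TQ) ⊆ z (iQ q) TQ ⊆ z SQ ⊆ SP` (`leftQ`, `leftP`, `z1_not`) and
`t⁻¹ TP = u⁻¹ (iQ q)⁻¹ z⁻¹ TP ⊆ u⁻¹ (iQ q)⁻¹ SP ⊆ u⁻¹ SQ ⊆ SQ`. Case `q = qS s`:
`m = L_{z'} u` with `z' = iP (eP ![1,0,0,0] * dS s)`, again with a letter that is not a `dS s'`. Let
`a = la A`, `m'' = L_a m L_a⁻¹ ∈ M` and `t = m * m''`. `m'' TQ = a z' u (a⁻¹ TQ) ⊆ a z' u SQ ⊆ a z' SQ
⊆ a SP ⊆ SQ` and `m SQ = z' u SQ ⊆ SP`, so `t TQ ⊆ SP`. `m⁻¹ TP = u⁻¹ z'⁻¹ TP ⊆ u⁻¹ SP ⊆ SP`,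
`m''⁻¹ SP = a m⁻¹ (a⁻¹ SP) ⊆ a m⁻¹ SQ = a u⁻¹ z'⁻¹ SQ ⊆ a SP ⊆ SQ`, so `t⁻¹ TP ⊆ SQ`.
(3) For every `f` there is `i` such that for all `j ≥ i`: `t^(-j) f ∈ SQ` and `t^j f ∈ SP`.
`Subgroup.closure_induction_right` with `gen`: for `f = 1 ∈ TP ∩ TQ`, `i = 1`. Step `f → f * iP y`:
by `ruleP`, `t^(-j) (f * iP y) = t^(-j) f * iP y'`, which is in `SQ` if `t^(-j) f` is (`TPP`), and
`t^j (f * iP y) = t^j f * iP y'` is in `TQ` (`TQP`) for `j ≥ i`, so in `SP` for `j ≥ i + 1`. Step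
`f → f * iQ q`: `t^(-j) (f * iQ q) = t^(-j) f * iQ q' ∈ TP` (`TPQ`) for `j ≥ i`, so in `SQ` for
`j ≥ i + 1`, and `t^j (f * iQ q) = t^j f * iQ q' ∈ SP` (`TQQ`).
(4) Let `u ∈ fixS A TP`. For a finite set `F` there is `j` with `t^(-j) f ∈ TP` for all `f ∈ F`, so
`t^j u⁻¹ t^(-j)` fixes `F`. The element `x = (u t^j u⁻¹) t^(-j)` is in `M` and equal to
`u (t^j u⁻¹ t^(-j)) ∈ u (fixS A F)`. So `u` is in the closure of `M` (`St_fix`, second part; left
multiplication by `u` is continuous: use that `u⁻¹ M`, or the complement of `M`, is open in the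
topological group; add the hypothesis `St_tg`), so `u ∈ M`. Let `v ∈ fixS A TQ`: the same with `t⁻¹`,
since `t^j f ∈ TQ`. By `St_dec`, `G1 A ≤ M`. -/
def St_simp : Prop := ∀ (A : Amal) (M : Subgroup (GG A)), M.Normal →
  IsClosed (M : Set (GG A)) → M ≠ ⊥ → G1 A ≤ M

end Pool.Agent.H338.PS
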