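import Pool.Agent.H338.PS.Cstm
import Pool.Agent.H338.PS.Stm

/-!
# Assembly
-/

set_option autoImplicit false

namespace Pool.Agent.H338.PS

open Topology Pointwise

theorem G1_coe (A : Amal) :
    (G1 A : Set (GG A)) = fixS A (({1} : Finset A.Γ) : Set A.Γ) := by
  ext g
  constructor
  · intro h γ hγ
    have h1 : γ = 1 := by simpa using hγ
    subst h1
    exact h
  · intro h
    exact h 1 (by simp)

theorem G1_open (fx : St_fix) (A : Amal) : IsOpen (G1 A : Set (GG A)) := by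
  rw [G1_coe]
  exact (fx A).1 {1}

theorem tdlcsc_GG (tg : St_tg) (fx : St_fix) (cp : St_cpt) (A : Amal) : TDLCSC (GG A) := by
  obtain ⟨h1, h2, h3, h4⟩ := tg A
  refine ⟨h1, h2, h3, ?_, h4⟩
  exact (cp A).locallyCompactSpace_of_mem_nhds_of_group
    ((G1_open fx A).mem_nhds (G1 A).one_mem)

theorem Orb_zero (L : ℤ) : Orb L 0 := ⟨0, Or.inl (by ring)⟩

theorem even_four (l : ℤ) : Even (4 * l) := ⟨2 * l, by ring⟩

theorem G1_le_HH (mem : St_mem) (A : Amal) (l : ℤ) : G1 A ≤ HH A (4 * l) := by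
  intro g hg
  rw [(mem A (4 * l) (even_four l)).1]
  refine ⟨0, Orb_zero _, ?_⟩
  rw [mem_G1.1 hg]
  exact Tr.refl trivial

theorem one_LW (A : Amal) (L : ℤ) (k : ℕ) : (1 : A.Γ) ∈ LW A L k :=
  Tr.refl (show |(0 : ℤ)| ≤ k by simp)

theorem G1_le_RW (mem : St_mem) (A : Amal) (l : ℤ) (k : ℕ) : G1 A ≤ RW A (4 * l) k := by
  intro g hg
  rw [(mem A (4 * l) (even_four l)).2]
  rw [mem_G1.1 hg]
  exact one_LW A _ k

/-- elements of the group of the window preserve the set of elements labelled by `0` -/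
theorem RW_LW (mem : St_mem) (trG1 : St_trG1) (A : Amal) (l : ℤ) (k : ℕ) (r : GG A)
    (hr : r ∈ RW A (4 * l) k) (γ : A.Γ) (hγ : γ ∈ LW A (4 * l) k) :
    ac r γ ∈ LW A (4 * l) k := by
  rw [(mem A (4 * l) (even_four l)).2] at hr
  obtain ⟨u, hu, hru⟩ := exists_dec r
  have h1 : ac r γ = ac r 1 * ac u γ := by
    conv_lhs => rw [hru]
    rw [ac_mul, ac_Lm]
  rw [h1]
  exact Tr.trans hr (trG1 A _ _ _ _ _ u hu hγ)

theorem fixS_RW (mem : St_mem) (trG1 : St_trG1) (A : Amal) (l : ℤ) (k : ℕ) (r : GG A)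
    (hr : r ∈ RW A (4 * l) k) (w : GG A) (hw : w ∈ fixS A (LW A (4 * l) k)) :
    r * w * r⁻¹ ∈ fixS A (LW A (4 * l) k) := by
  intro γ hγ
  have h1 : ac r⁻¹ γ ∈ LW A (4 * l) k := RW_LW mem trG1 A l k r⁻¹ (inv_mem hr) γ hγ
  have h2 : ac w (ac r⁻¹ γ) = ac r⁻¹ γ := hw _ h1
  change ac (r * w * r⁻¹) γ = γ
  rw [ac_mul, ac_mul, h2, ac_inv']

theorem crit (tg : St_tg) (fx : St_fix) (cp : St_cpt) (ncl' : St_ncl) (mem : St_mem)
    (trG1 : St_trG1) (dec : St_dec) (bdd : St_bdd) (cg : St_cg) (nc : St_nc) (con : St_con)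
    (G4 : St_G4) (fold : St_fold) (nr : St_nr) (six : St_six) (A : Amal) :
    CritData (G1 A) (fun n => HH A (4 * ((2 ^ n : ℕ) : ℤ))) := by
  have td := tdlcsc_GG tg fx cp A
  haveI := td.isTopologicalGroup
  haveI := td.t2
  have hpos : ∀ n : ℕ, 1 ≤ 2 ^ n := fun n => Nat.one_le_two_pow
  have hle : ∀ n : ℕ, G1 A ≤ HH A (4 * ((2 ^ n : ℕ) : ℤ)) := fun n => G1_le_HH mem A _
  have hn := fun n : ℕ => ncl' (GG A) (G1 A) (HH A (4 * ((2 ^ n : ℕ) : ℤ))) (hle n)
  refine ⟨td, G1_open fx A, cp A, hle, fun n => cg A (2 ^ n) (hpos n),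
    fun n => nc A (2 ^ n) (hpos n), ?_, ?_, ?_⟩
  · intro n O _ hO hO'
    exact con A (2 ^ n) (hpos n) O hO hO'
  · intro n g hg
    have hL : (4 * ((2 ^ (n + 1) : ℕ) : ℤ)) = 2 * (4 * ((2 ^ n : ℕ) : ℤ)) := by
      push_cast; ring
    have hg' : g ∈ HH A (4 * ((2 ^ (n + 1) : ℕ) : ℤ)) := hg
    rw [(mem A _ (even_four _)).1] at hg'
    obtain ⟨m, hm, hT⟩ := hg'
    rw [hL] at hm hT
    exact G4 A (2 ^ n) (hpos n) g (fold A (2 ^ n) (hpos n) m _ hm hT)
  · intro n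
    refine ⟨fun k => RW A (4 * ((2 ^ n : ℕ) : ℤ)) k, ?_, ?_, ?_, ?_, ?_⟩
    · intro k k' hkk g hg
      rw [(mem A _ (even_four _)).2] at hg ⊢
      refine Tr.mono ?_ hg
      intro m hm
      have h1 : |m| ≤ (k : ℤ) := hm
      have h2 : (k : ℤ) ≤ k' := by exact_mod_cast hkk
      exact h1.trans h2
    · intro k
      exact Subgroup.isOpen_mono (G1_le_RW mem A _ k) (G1_open fx A)
    · intro k g hg
      rw [(mem A _ (even_four _)).2] at hg
      exact G4 A (2 ^ n) (hpos n) g (Tr.mono (fun _ _ => trivial) hg)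
    · intro x hx
      obtain ⟨k, hk⟩ := bdd A _ _ _ _ (nr A (2 ^ n) (hpos n) x hx)
      exact ⟨k, ((mem A _ (even_four _)).2 k x).2 hk⟩
    · intro k
      refine ⟨fixS A (LW A (4 * ((2 ^ n : ℕ) : ℤ)) k), ?_, ?_, ?_, ?_⟩
      · refine (cp A).of_isClosed_subset ((fx A).2.2 _) ?_
        intro g hg
        exact hg 1 (one_LW A _ k)
      · intro g hg
        exact (hn n).1 (hg 1 (one_LW A _ k))
      · intro r hr w hw
        exact fixS_RW mem trG1 A _ k r hr w hw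
      · intro N _ hNn hNN hWN
        obtain ⟨h1, h2, h3, -⟩ := hn n
        -- a general conjugation argument
        have key : ∀ h ∈ HH A (4 * ((2 ^ n : ℕ) : ℤ)), ∀ u : GG A,
            ∀ ρ ∈ ncl (G1 A) (HH A (4 * ((2 ^ n : ℕ) : ℤ))),
            (ρ * h)⁻¹ * u * (ρ * h) ∈ fixS A (LW A (4 * ((2 ^ n : ℕ) : ℤ)) k) →
            h⁻¹ * u * h ∈ N := by
          intro h hh u ρ hρ hx
          have e1 : h⁻¹ * ρ * h ∈ ncl (G1 A) (HH A (4 * ((2 ^ n : ℕ) : ℤ))) := by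
            have := h3 h⁻¹ (inv_mem hh) ρ hρ
            rwa [inv_inv] at this
          have e2 := hNN _ e1 _ (hWN hx)
          have e3 : h⁻¹ * ρ * h * ((ρ * h)⁻¹ * u * (ρ * h)) * (h⁻¹ * ρ * h)⁻¹ =
              h⁻¹ * u * h := by group
          rwa [e3] at e2
        have key2 : ∀ (x : GG A) (T : Set A.Γ) (u : GG A), u ∈ fixS A T →
            (∀ γ ∈ LW A (4 * ((2 ^ n : ℕ) : ℤ)) k, ac x γ ∈ T) →
            x⁻¹ * u * x ∈ fixS A (LW A (4 * ((2 ^ n : ℕ) : ℤ)) k) := by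
          intro x T u hu hx γ hγ
          change ac (x⁻¹ * u * x) γ = γ
          have e1 : ac u (ac x γ) = ac x γ := hu _ (hx γ hγ)
          rw [ac_mul, ac_mul, e1, ac_inv]
        unfold ncl
        rw [Subgroup.closure_le]
        rintro x ⟨h, hh, u, hu, rfl⟩
        obtain ⟨⟨ρ, hρ, hρ'⟩, ⟨ρ', hρ1, hρ1'⟩⟩ := six A (2 ^ n) (hpos n) h⁻¹ (inv_mem hh) k
        obtain ⟨a, ha, b, hb, hab⟩ := dec A u hu
        have ea := key h⁻¹ (inv_mem hh) a ρ hρ (key2 _ _ a ha hρ')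
        have eb := key h⁻¹ (inv_mem hh) b ρ' hρ1 (key2 _ _ b hb hρ1')
        have e5 : h * u * h⁻¹ = (h⁻¹⁻¹ * a * h⁻¹) * (h⁻¹⁻¹ * b * h⁻¹) := by
          rw [hab]; group
        change h * u * h⁻¹ ∈ N
        rw [e5]
        exact N.mul_mem ea eb

theorem not_discrete (tg : St_tg) (rig : St_rig) (con : St_con) (A : Amal) :
    ¬ DiscreteTopology (GG A) := by
  intro hd
  have h1 := con A 1 le_rfl ⊥ (isOpen_discrete _) (by
    intro h _ x hx
    rw [Subgroup.mem_bot] at hx ⊢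
    rw [hx]; group)
  obtain ⟨g, hg⟩ := rig A (Equiv.swap 1 2)
  have hone : (1 : A.Γ) ∈ A.TP := by
    have := A.memTP 1
    rwa [map_one, map_one] at this
  have hg1 : g ∈ G1 A := by
    rw [mem_G1]
    have := hg 1 hone 1
    rw [map_one, one_mul] at this
    rw [this]
    change A.iP 1 * 1 = 1
    rw [map_one, one_mul]
  have h2 : g = 1 := (Subgroup.mem_bot).1 (h1 hg1)
  have h3 := hg 1 hone (eP ![1, 1, 0, 0])
  rw [h2, ac_one, mul_one, mul_one] at h3
  have h4 := A.injP h3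
  have h5 := congrFun h4 1
  have h6 : pw 1 = pw 0 := h5
  exact absurd (pw_inj h6) (by decide)

/-- The vertex stabiliser: compact, open, maximal, core-free. -/
theorem classP_GG (tg : St_tg) (rig : St_rig) (con : St_con) (mx : St_max) (co : St_core)
    (bb : St_BB) (A : Amal) : ClassP (GG A) := by
  obtain ⟨U, hU, hUo, hUc⟩ := bb A
  refine ⟨not_discrete tg rig con A, U, hUo, hUc, ?_, ?_, ?_⟩
  · intro h
    have h1 : Lm A (z1 A) ∈ U := by rw [h]; trivial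
    rw [hU] at h1
    obtain ⟨q, hq⟩ := h1
    rw [ac_Lm, mul_one] at hq
    have hone : (1 : A.Γ) ∈ A.TP := by
      have := A.memTP 1
      rwa [map_one, map_one] at this
    have h2 := A.TPQ 1 hone q
    rw [one_mul, ← hq] at h2
    have h3 := (A.leftP _ z1_not 1 hone).2
    rw [mul_one] at h3
    exact h3 h2
  · intro V hUV
    by_cases hV : ∃ g ∈ V, ∀ q, ac g 1 ≠ A.iQ q
    · right
      exact mx A V (fun g hg => hUV ((hU g).2 hg)) hV
    · left
      refine le_antisymm ?_ hUV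
      intro g hg
      rw [hU]
      by_contra hc
      exact hV ⟨g, hg, fun q hq => hc ⟨q, hq⟩⟩
  · intro x hx
    exact co A x fun g => (hU _).1 (hx g)

/-- `GG A` is compactly generated. -/
theorem Oc_GG (mx : St_max) (bb : St_BB) (A : Amal) : (⊤ : Subgroup (GG A)) ∈ Oc (GG A) := by
  obtain ⟨U, hU, hUo, hUc⟩ := bb A
  refine ⟨isOpen_univ, (U : Set (GG A)) ∪ {Lm A (z1 A)}, hUc.union isCompact_singleton, ?_⟩
  refine mx A _ (fun g hg => Subgroup.subset_closure (Or.inl ((hU g).2 hg))) ?_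
  refine ⟨Lm A (z1 A), Subgroup.subset_closure (Or.inr rfl), ?_⟩
  intro q hq
  rw [ac_Lm, mul_one] at hq
  have hone : (1 : A.Γ) ∈ A.TP := by
    have := A.memTP 1
    rwa [map_one, map_one] at this
  have h2 := A.TPQ 1 hone q
  rw [one_mul, ← hq] at h2
  have h3 := (A.leftP _ z1_not 1 hone).2
  rw [mul_one] at h3
  exact h3 h2

theorem classS_GG (tg : St_tg) (fx : St_fix) (cp : St_cpt) (rig : St_rig) (con : St_con)
    (mx : St_max) (bb : St_BB) (gn : St_gen) (si : St_simp) (A : Amal) : ClassS (GG A) := by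
  refine ⟨tdlcsc_GG tg fx cp A, not_discrete tg rig con A, Oc_GG mx bb A, ?_⟩
  intro N hN hNc
  by_cases h : N = ⊥
  · exact Or.inl h
  · exact Or.inr (gn A N hN (si A N hN hNc h))

end Pool.Agent.H338.PS
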