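import Pool.Agent.H338.PS.Adef

/-!
# Basic facts
-/

set_option autoImplicit false

namespace Pool.Agent.H338.PS

open Topology

variable {A : Amal}

/-- the action -/
def ac (g : GG A) (γ : A.Γ) : A.Γ := (g : Equiv.Perm A.Γ) γ

theorem ac_mul (g h : GG A) (γ : A.Γ) : ac (g * h) γ = ac g (ac h γ) := rfl
theorem ac_one (γ : A.Γ) : ac (1 : GG A) γ = γ := rfl
theorem ac_inv (g : GG A) (γ : A.Γ) : ac g⁻¹ (ac g γ) = γ :=
  (g : Equiv.Perm A.Γ).symm_apply_apply γ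
theorem ac_inv' (g : GG A) (γ : A.Γ) : ac g (ac g⁻¹ γ) = γ :=
  (g : Equiv.Perm A.Γ).apply_symm_apply γ
theorem ac_ext {g h : GG A} (H : ∀ γ, ac g γ = ac h γ) : g = h :=
  Subtype.ext (Equiv.ext H)
theorem ac_Lm (γ δ : A.Γ) : ac (Lm A γ) δ = γ * δ := rfl
theorem Lm_mul (γ δ : A.Γ) : Lm A (γ * δ) = Lm A γ * Lm A δ :=
  ac_ext fun x => mul_assoc γ δ x
theorem Lm_one : Lm A 1 = 1 := ac_ext fun x => one_mul x
theorem Lm_inv (γ : A.Γ) : Lm A γ⁻¹ = (Lm A γ)⁻¹ := by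
  rw [eq_inv_iff_mul_eq_one, ← Lm_mul, inv_mul_cancel, Lm_one]
theorem mem_G1 {g : GG A} : g ∈ G1 A ↔ ac g 1 = 1 := Iff.rfl
theorem mem_fixS {T : Set A.Γ} {g : GG A} : g ∈ fixS A T ↔ ∀ γ ∈ T, ac g γ = γ := Iff.rfl

/-- `g = L_{g(1)} u` with `u` in the stabiliser of `1`. -/
theorem dec_G1 (g : GG A) : (Lm A (ac g 1))⁻¹ * g ∈ G1 A := by
  rw [mem_G1, ac_mul, ← Lm_inv, ac_Lm, inv_mul_cancel]

theorem exists_dec (g : GG A) : ∃ u ∈ G1 A, g = Lm A (ac g 1) * u :=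
  ⟨_, dec_G1 g, by group⟩

/-- `g L_γ = L_{g(γ)} u` with `u` in the stabiliser of `1`. -/
theorem swap_Lm (g : GG A) (γ : A.Γ) : ∃ u ∈ G1 A, g * Lm A γ = Lm A (ac g γ) * u := by
  refine ⟨(Lm A (ac g γ))⁻¹ * (g * Lm A γ), ?_, by group⟩
  rw [mem_G1, ac_mul, ac_mul, ← Lm_inv, ac_Lm, ac_Lm, mul_one, inv_mul_cancel]

theorem ruleP (g : GG A) (γ : A.Γ) : ∃ σ : Equiv.Perm (Fin 4), ∀ z : P4,
    ac g (γ * A.iP z) = ac g γ * A.iP (z ∘ σ) := g.2.1 γ

theorem ruleQ (g : GG A) (γ : A.Γ) : ∃ b : Bool, ∀ q : Q4,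
    ac g (γ * A.iQ q) = ac g γ * A.iQ (eps b q) := g.2.2 γ

theorem iP_comp_dS (σ : Equiv.Perm (Fin 4)) (s : S5) : (dS s) ∘ σ = dS s := rfl

theorem eps_qS (b : Bool) (s : S5) : eps b (qS s) = qS s := by
  cases b <;> simp [eps, qS]

theorem om_sq : om * om = 1 := by
  apply Subtype.ext
  change (Equiv.swap 0 1 * Equiv.swap 2 3) * (Equiv.swap 0 1 * Equiv.swap 2 3) = (1 : Equiv.Perm (Fin 5))
  decide

theorem om_ne : om ≠ 1 := by
  intro h
  have h1 := congrArg Subtype.val h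
  revert h1
  change (Equiv.swap 0 1 * Equiv.swap 2 3) = (1 : Equiv.Perm (Fin 5)) → False
  decide

theorem pw_add (c d : ZMod 2) : pw (c + d) = pw c * pw d := by
  have h1 : ∀ c : ZMod 2, c = 0 ∨ c = 1 := by decide
  rcases h1 c with rfl | rfl <;> rcases h1 d with rfl | rfl <;> simp [pw, om_sq]
  rw [show (1 : ZMod 2) + 1 = 0 by decide]; simp

theorem on_sq : on * on = 1 := by
  apply Subtype.ext
  change (Equiv.swap 0 2 * Equiv.swap 1 3) * (Equiv.swap 0 2 * Equiv.swap 1 3) =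
    (1 : Equiv.Perm (Fin 5))
  decide

theorem om_on : om * on = on * om := by
  apply Subtype.ext
  change (Equiv.swap 0 1 * Equiv.swap 2 3) * (Equiv.swap 0 2 * Equiv.swap 1 3) =
    ((Equiv.swap 0 2 * Equiv.swap 1 3) * (Equiv.swap 0 1 * Equiv.swap 2 3) :
      Equiv.Perm (Fin 5))
  decide

theorem tau_om : tau om = om := by
  apply Subtype.ext
  change Equiv.swap 0 1 * (Equiv.swap 0 1 * Equiv.swap 2 3) * (Equiv.swap 0 1)⁻¹ =
    (Equiv.swap 0 1 * Equiv.swap 2 3 : Equiv.Perm (Fin 5))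
  decide

theorem tau_on : tau on = om * on := by
  apply Subtype.ext
  change Equiv.swap 0 1 * (Equiv.swap 0 2 * Equiv.swap 1 3) * (Equiv.swap 0 1)⁻¹ =
    ((Equiv.swap 0 1 * Equiv.swap 2 3) * (Equiv.swap 0 2 * Equiv.swap 1 3) :
      Equiv.Perm (Fin 5))
  decide

theorem pn_add (c d : ZMod 2) : pn (c + d) = pn c * pn d := by
  have h1 : ∀ c : ZMod 2, c = 0 ∨ c = 1 := by decide
  rcases h1 c with rfl | rfl <;> rcases h1 d with rfl | rfl <;> simp [pn, on_sq]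
  rw [show (1 : ZMod 2) + 1 = 0 by decide]; simp

theorem pw_pn (c d : ZMod 2) : pw c * pn d = pn d * pw c := by
  unfold pw pn
  split_ifs <;> simp [om_on]

theorem tau_pw (c : ZMod 2) : tau (pw c) = pw c := by
  unfold pw
  split_ifs
  · simp
  · exact tau_om

theorem tau_pn (c : ZMod 2) : tau (pn c) = pw c * pn c := by
  unfold pw pn
  split_ifs
  · simp
  · exact tau_on

theorem pw_pn_one {x y : ZMod 2} (h : pw x * pn y = 1) : x = 0 ∧ y = 0 := by
  have h1 : ∀ c : ZMod 2, c = 0 ∨ c = 1 := by decide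
  have h2 := congrArg Subtype.val h
  rcases h1 x with rfl | rfl <;> rcases h1 y with rfl | rfl
  · exact ⟨rfl, rfl⟩
  · exfalso
    revert h2
    change (1 : Equiv.Perm (Fin 5)) * (Equiv.swap 0 2 * Equiv.swap 1 3) = 1 → False
    decide
  · exfalso
    revert h2
    change (Equiv.swap 0 1 * Equiv.swap 2 3) * (1 : Equiv.Perm (Fin 5)) = 1 → False
    decide
  · exfalso
    revert h2
    change (Equiv.swap 0 1 * Equiv.swap 2 3) * (Equiv.swap 0 2 * Equiv.swap 1 3) =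
      (1 : Equiv.Perm (Fin 5)) → False
    decide

theorem pw_inj {c d : ZMod 2} (h : pw c = pw d) : c = d := by
  have h1 : ∀ c : ZMod 2, c = 0 ∨ c = 1 := by decide
  rcases h1 c with rfl | rfl <;> rcases h1 d with rfl | rfl <;> simp [pw, om_ne, om_ne.symm] at h ⊢

theorem eP_add (e f : Fin 4 → ZMod 2) : eP (e + f) = eP e * eP f := by
  funext i; exact pw_add _ _

theorem eP_zero : eP 0 = 1 := by funext i; simp [eP, pw]

theorem eP_inv (e : Fin 4 → ZMod 2) : (eP e)⁻¹ = eP e := by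
  rw [inv_eq_iff_mul_eq_one, ← eP_add, ← eP_zero]
  congr 1
  funext i
  have h1 : ∀ c : ZMod 2, c + c = 0 := by decide
  exact h1 _

theorem eQ_mul (c x y c' x' y' : ZMod 2) :
    eQ c x y * eQ c' x' y' = eQ (c + c') (x + x') (y + y') := by
  simp only [eQ, Prod.mk_mul_mk, pw_add, pn_add]
  rw [mul_assoc (pw x) (pn y), ← mul_assoc (pn y) (pw x'), ← pw_pn x' y]
  simp only [mul_assoc]

theorem eQ_zero : eQ 0 0 0 = 1 := by simp [eQ, pw, pn]

theorem eQ_inv (c x y : ZMod 2) : (eQ c x y)⁻¹ = eQ c x y := by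
  have h1 : ∀ c : ZMod 2, c + c = 0 := by decide
  rw [inv_eq_iff_mul_eq_one, eQ_mul, h1, h1, h1, eQ_zero]

theorem eP_comp (e : Fin 4 → ZMod 2) (σ : Equiv.Perm (Fin 4)) : eP e ∘ σ = eP (e ∘ σ) := rfl

theorem sm_comp (e : Fin 4 → ZMod 2) (σ : Equiv.Perm (Fin 4)) : sm (e ∘ σ) = sm e := by
  have h : ∀ f : Fin 4 → ZMod 2, sm f = ∑ i, f i := fun f => (Fin.sum_univ_four f).symm
  rw [h, h]
  exact Equiv.sum_comp σ e

theorem eps_eQ (b : Bool) (c x y : ZMod 2) :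
    eps b (eQ c x y) = eQ c (if b then x + y else x) y := by
  cases b
  · rfl
  · simp only [eps, eQ, if_true, map_mul, tau_pw, tau_pn, pw_add, mul_assoc]

/-- `eQ c x y` is in the first factor only if `x = y = 0`. -/
theorem eQ_qS {c x y : ZMod 2} {s : S5} (h : eQ c x y = qS s) : x = 0 ∧ y = 0 :=
  pw_pn_one (congrArg Prod.snd h)

/-- `eP e` is diagonal only if `e` is constant. -/
theorem eP_dS {e : Fin 4 → ZMod 2} {s : S5} (h : eP e = dS s) (i : Fin 4) : e i = e 0 :=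
  pw_inj ((congrFun h i).trans (congrFun h 0).symm)

theorem eP_const (c : ZMod 2) : eP (fun _ => c) = dS (pw c) := rfl

theorem eQ_const (c : ZMod 2) : eQ c 0 0 = qS (pw c) := by simp [eQ, qS, pw, pn]

/-- The elements `iP (eP (c, c, c, c))` and `iQ (eQ c 0 0)` of the amalgam are equal. -/
theorem agree_const (A : Amal) (c : ZMod 2) : A.iP (eP (fun _ => c)) = A.iQ (eQ c 0 0) := by
  rw [eP_const, eQ_const]; exact A.agree _

theorem z0_not (s : S5) : eP ![1, 1, 0, 0] ≠ dS s := by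
  intro h
  have h0 := congrFun h 0
  have h2 := congrFun h 2
  simp [eP, pw, dS] at h0 h2
  exact om_ne (h0.trans h2.symm)

theorem z1_not (s : S5) : eP ![1, 0, 0, 0] ≠ dS s := by
  intro h
  have h0 := congrFun h 0
  have h2 := congrFun h 2
  simp [eP, pw, dS] at h0 h2
  exact om_ne (h0.trans h2.symm)

theorem la_not (s : S5) : eQ 0 1 0 ≠ qS s := by
  intro h
  exact absurd (eQ_qS h).1 (by decide)

theorem lb_not (s : S5) : eQ 0 0 1 ≠ qS s := by
  intro h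
  exact absurd (eQ_qS h).2 (by decide)

theorem Xs_Xs (n : ℤ) : Xs (Xs n) = n := by
  unfold Xs
  rcases Int.even_or_odd n with h | h
  · have h1 : ¬ Even (n + 1) := by rw [Int.not_even_iff_odd]; exact h.add_one
    simp [h, h1]
  · have h0 : ¬ Even n := Int.not_even_iff_odd.2 h
    have h1 : Even (n - 1) := by obtain ⟨k, rfl⟩ := h; exact ⟨k, by ring⟩
    simp [h0, h1]

theorem Ys_Ys (n : ℤ) : Ys (Ys n) = n := by
  unfold Ys
  rcases Int.even_or_odd n with h | h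
  · have h1 : ¬ Even (n - 1) := by
      rw [Int.not_even_iff_odd]; obtain ⟨k, rfl⟩ := h; exact ⟨k - 1, by ring⟩
    simp [h, h1]
  · have h0 : ¬ Even n := Int.not_even_iff_odd.2 h
    have h1 : Even (n + 1) := by obtain ⟨k, rfl⟩ := h; exact ⟨k + 1, by ring⟩
    simp [h0, h1]

theorem Ws_Ys (n : ℤ) : Ws (Ys n) = Ws n := by
  unfold Ys Ws
  rcases Int.even_or_odd n with h | h
  · have h1 : ¬ Even (n - 1) := by
      rw [Int.not_even_iff_odd]; obtain ⟨k, rfl⟩ := h; exact ⟨k - 1, by ring⟩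
    simp [h, h1]
  · have h0 : ¬ Even n := Int.not_even_iff_odd.2 h
    have h1 : Even (n + 1) := by obtain ⟨k, rfl⟩ := h; exact ⟨k + 1, by ring⟩
    simp [h0, h1]

theorem Tr.start {L : ℤ} {B : ℤ → Prop} {n m : ℤ} {γ : A.Γ} (h : Tr A L B n γ m) : B n := by
  induction h with
  | refl hn => exact hn
  | stepP _ _ _ _ _ _ _ ih => exact ih
  | stepF _ _ _ _ _ _ _ _ _ _ ih => exact ih
  | stepT _ _ _ _ _ _ _ _ _ ih => exact ih

theorem Tr.stop {L : ℤ} {B : ℤ → Prop} {n m : ℤ} {γ : A.Γ} (h : Tr A L B n γ m) : B m := by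
  induction h with
  | refl hn => exact hn
  | stepP _ _ _ _ _ _ hB _ => exact hB
  | stepF _ _ _ _ _ _ _ _ _ hB _ => exact hB
  | stepT _ _ _ _ _ _ _ _ hB _ => exact hB

theorem Tr.mono {L : ℤ} {B C : ℤ → Prop} (hBC : ∀ m, B m → C m) {n m : ℤ} {γ : A.Γ}
    (h : Tr A L B n γ m) : Tr A L C n γ m := by
  induction h with
  | refl hn => exact Tr.refl (hBC _ hn)
  | stepP m m' γ e _ hm hB ih => exact Tr.stepP m m' γ e ih hm (hBC _ hB)
  | stepF m m' γ c x y _ hL hm hB ih => exact Tr.stepF m m' γ c x y ih hL hm (hBC _ hB)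
  | stepT m m' γ c x _ hL hm hB ih => exact Tr.stepT m m' γ c x ih hL hm (hBC _ hB)

theorem Tr.trans {L : ℤ} {B : ℤ → Prop} {n m p : ℤ} {γ δ : A.Γ} (h : Tr A L B n γ m)
    (h' : Tr A L B m δ p) : Tr A L B n (γ * δ) p := by
  induction h' with
  | refl hn => rw [mul_one]; exact h
  | stepP m m' δ e _ hm hB ih => rw [← mul_assoc]; exact Tr.stepP m m' _ e ih hm hB
  | stepF m m' δ c x y _ hL hm hB ih =>
    rw [← mul_assoc]; exact Tr.stepF m m' _ c x y ih hL hm hB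
  | stepT m m' δ c x _ hL hm hB ih =>
    rw [← mul_assoc]; exact Tr.stepT m m' _ c x ih hL hm hB

end Pool.Agent.H338.PS
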