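import Pool.Agent.H338.PS.Gen

/-!
# The criterion: interface statements
-/

set_option autoImplicit false

namespace Pool.Agent.H338.PS

open Topology Pointwise

/-- The data of the criterion: a compact open subgroup `U` and a descending chain `H 0 ≥ H 1 ≥ …`
of compactly generated noncompact open subgroups that contain `U`. Write `R n = ncl U (H n)` for the
normal closure of `U` in `H n`. `con`: every open subgroup of `H n` normalised by `H n` contains
`U`. `ex`: `R n` is an increasing union of open subgroups `K k`, and `K k` normalises a compact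
subgroup `W ≤ R n` which is not contained in any closed proper normal subgroup of `R n`. -/
structure CritData {G : Type} [Group G] [TopologicalSpace G] (U : Subgroup G)
    (H : ℕ → Subgroup G) : Prop where
  td : TDLCSC G
  Uo : IsOpen (U : Set G)
  Uc : IsCompact (U : Set G)
  le : ∀ n, U ≤ H n
  oc : ∀ n, H n ∈ Oc G
  nc : ∀ n, ¬ IsCompact (H n : Set G)
  con : ∀ n, ∀ O : Subgroup G, O ≤ H n → IsOpen (O : Set G) →
    (∀ h ∈ H n, ∀ x ∈ O, h * x * h⁻¹ ∈ O) → U ≤ O
  desc : ∀ n, H (n + 1) ≤ ncl U (H n)
  ex : ∀ n, ∃ K : ℕ → Subgroup G, Monotone K ∧ (∀ k, IsOpen (K k : Set G)) ∧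
    (∀ k, K k ≤ ncl U (H n)) ∧ (∀ x ∈ ncl U (H n), ∃ k, x ∈ K k) ∧
    ∀ k, ∃ W : Subgroup G, IsCompact (W : Set G) ∧ W ≤ ncl U (H n) ∧
      (∀ r ∈ K k, ∀ w ∈ W, r * w * r⁻¹ ∈ W) ∧
      ∀ N : Subgroup G, IsClosed (N : Set G) → N ≤ ncl U (H n) →
        (∀ r ∈ ncl U (H n), ∀ x ∈ N, r * x * r⁻¹ ∈ N) → W ≤ N → ncl U (H n) ≤ N

/-- CR-NCL. Basic facts on `ncl`.

PROOF. `U ≤ ncl`: take `h = 1`. `ncl ≤ H`: generators `h u h⁻¹` with `u ∈ U ≤ H`. Normality: the
generating set is invariant under conjugation by `h ∈ H` (`h (h' u h'⁻¹) h⁻¹ = (h h') u (h h')⁻¹`),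
so `closure_induction`. Open: it contains the open subgroup `U` (`Subgroup.isOpen_mono`). -/
def St_ncl : Prop := ∀ (G : Type) [Group G] [TopologicalSpace G] [IsTopologicalGroup G]
  (U H : Subgroup G), U ≤ H →
  U ≤ ncl U H ∧ ncl U H ≤ H ∧ (∀ h ∈ H, ∀ x ∈ ncl U H, h * x * h⁻¹ ∈ ncl U H) ∧
  (IsOpen (U : Set G) → IsOpen (ncl U H : Set G) ∧ IsClosed (ncl U H : Set G))

/-- CR-NA. A `TDLCSC` group with a compact open subgroup is nonarchimedean.

PROOF. Let `V` be a neighbourhood of `1` in `G`. The group `U` is compact, Hausdorff and totally
disconnected, so `ProfiniteGrp.exist_openNormalSubgroup_sub_open_nhds_of_one` (see the proof of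
`Res_compact` in `Gen.lean` for its use), applied to `U` and the open neighbourhood
`Subtype.val ⁻¹' (interior V)`, gives an open normal subgroup `N` of `U` inside it; its image
`N.map U.subtype` is open in `G` because `U` is open. -/
def St_nonarch : Prop := ∀ (G : Type) [Group G] [TopologicalSpace G] (U : Subgroup G),
  TDLCSC G → IsOpen (U : Set G) → IsCompact (U : Set G) → NonarchimedeanGroup G

/-- CR-KILL. A continuous homomorphism from `H n` to a group that has a rank kills `U`.

PROOF (induction on `HasRank`, `n` and `f` generalized; compare the library theorem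
`Pool.Graph.R_pool_sql_team_seeded_35f281b4.K7.H92.WF.Facts.kill`, whose proof has the same shape).
Case `one`: trivial. Case `cg` (`Q` nontrivial, compactly generated, `HasRank (Res Q) α`): let `N`
be an open normal subgroup of `Q`. Then `O = (N.comap f).map (H n).subtype` is an open subgroup of
`G` (the preimage is open in the open subgroup `H n`) normalised by `H n`, so `U ≤ O` by `con`;
also `O` is normalised by `H n`, so it contains the generators of `ncl U (H n)`, that is
`ncl U (H n) ≤ O`. Hence `f x ∈ Res Q` for every `x : H n` with `(x : G) ∈ ncl U (H n)`. Because of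
`desc`, `f` restricts to a continuous homomorphism `H (n+1) → Res Q` (through
`Subgroup.inclusion`), and `Res Q` is `TDLCSC` (`TDLCSC.res`). The induction hypothesis for `n + 1`
says that it kills `U`, that is `f x = 1` for `x ∈ U`.
Case `ncg`: let `C` be compact in `G` with `closure C = H n` (from `oc`), and `W'` a compact
neighbourhood of `1` in `Q`. Let `O' = closure (f '' C' ∪ W')`, where `C'` is `C` as a subset of
`H n`. It is an open, compactly generated subgroup of `Q` that contains `f (H n)`, so `O' ∈ Oc Q`
and `HasRank (Res O') (F O')`. Argue as before with `f` regarded as a homomorphism `H n → O'`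
(`O'` is `TDLCSC` by `TDLCSC.subgroup`, being closed). -/
def St_kill : Prop := ∀ (G : Type) [Group G] [TopologicalSpace G] (U : Subgroup G)
  (H : ℕ → Subgroup G), CritData U H →
  ∀ (Q : Type) [Group Q] [TopologicalSpace Q] (α : Ordinal.{0}), HasRank Q α → TDLCSC Q →
  ∀ (n : ℕ) (f : H n →* Q), Continuous f → ∀ x : H n, (x : G) ∈ U → f x = 1

/-- CR-RES. `Res^ω(H n) = ncl U (H n)`. Uses `St_ncl`, `St_nonarch` and `St_kill`.

PROOF. Let `R = (ncl U (H n)).subgroupOf (H n)`, an open normal subgroup of `H n`. First `R` is a
member of the set in the definition of `ResOmega`: it is closed, `H n ⧸ R` is discrete, so it is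
`Elementary` (`Elementary.discrete`; `TDLCSC` of the quotient: instances as in
`compact_by_discrete` in `Gen.lean`), and it has finite rank: it is compactly generated (image of
a compact generating set of `H n`) and `⊥` is an open compact normal subgroup, so
`compact_by_discrete` applies. So `ResOmega ≤ R`. Conversely let `N` be a closed normal subgroup of
`H n` such that `H n ⧸ N` has a rank. `H n` is nonarchimedean (`TDLCSC` groups are: the compact open
subgroup `U` is profinite, or use that the open subgroups of the compact group `U` form a basis at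
`1`; see `NonarchimedeanGroup` and `quot_tdlcsc` in `Gen.lean`), hence `H n ⧸ N` is `TDLCSC` and
`St_kill` for the quotient map gives `U ≤ N`, so all conjugates of `U` by `H n` are in `N` and
`R ≤ N`. -/
def St_resOmega : Prop := ∀ (G : Type) [Group G] [TopologicalSpace G] (U : Subgroup G)
  (H : ℕ → Subgroup G), CritData U H →
  ∀ n, ResOmega (H n) = (ncl U (H n)).subgroupOf (H n)

/-- CR-NOQ. `Res^ω(H n)` has no quotient in `𝒮`. Uses `St_ncl` and `St_resOmega`
(`R := ResOmega (H n)` is the group `ncl U (H n)`).

PROOF. Suppose that `N` is a closed normal subgroup of `R = ResOmega (H n)` with `Q = R ⧸ N` in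
`𝒮`; `π : R → Q` the quotient map, continuous, open and surjective. Take `K k` from `ex`. Since `Q`
is compactly generated (by a compact set `C`) and the images `π (K k)` are open, increasing and
cover `Q`, compactness gives `C ⊆ π (K k)` for some `k`, hence `π (K k) = Q` (a subgroup containing a
generating set). Take `W` for this `k`. `π (W)` is compact, hence closed, and it is a subgroup
normalised by `π (K k) = Q`, so it is `⊥` or `⊤` by simplicity.
If `π (W) = ⊤`, then `Q` is compact; since `Q` is a compact totally disconnected group and `Q` is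
not discrete (so not trivial) there is `x ≠ 1` in `Q` and an open normal subgroup `V` of `Q` with
`x ∉ V` (`ProfiniteGrp.exist_openNormalSubgroup_sub_open_nhds_of_one`, see the proof of
`Res_compact` in `Gen.lean`). `V` is closed, `V ≠ ⊤`, so `V = ⊥` is open and `Q` is discrete, a
contradiction.
If `π (W) = ⊥`, then `W ≤ N` (in `G`), and the last property in `ex`, applied to the image `N'` of
`N` in `G` (`N'` is closed in `G`, because `N` is closed in `R`, which is closed in `H n`, which is
closed in `G`), gives `ncl U (H n) ≤ N'`, so `N = ⊤` and `Q` is trivial, hence discrete, a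
contradiction. -/
def St_noq : Prop := ∀ (G : Type) [Group G] [TopologicalSpace G] (U : Subgroup G)
  (H : ℕ → Subgroup G), CritData U H →
  ∀ (n : ℕ) (N : Subgroup (ResOmega (H n))) (_ : N.Normal),
    IsClosed (N : Set (ResOmega (H n))) → ¬ ClassS (ResOmega (H n) ⧸ N)

/-- CR-CHAIN. The criterion. Uses `St_ncl`, `St_resOmega`, `St_noq`.

PROOF. Let `S = {H n : n}` (nonempty subset of `Oc G`). For `K = H n` we show `LL (H (n+1)) (H n)`,
so no element of `S` is minimal. `H (n+1) ≤ ncl U (H n) ≤ H n`; `H n` is not compact; the product
`(H (n+1)).subgroupOf (H n) * ResOmega (H n)` is contained in the closed subgroup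
`ResOmega (H n)` (`= (ncl U (H n)).subgroupOf (H n)`, which contains both factors), so its closure
too, so the image in the quotient is contained in `{1}` (it is a subset of a finite set, hence
compact: `Set.Finite.isCompact`). The last condition holds vacuously by `St_noq`. -/
def St_chain : Prop := ∀ (G : Type) [Group G] [TopologicalSpace G] (U : Subgroup G)
  (H : ℕ → Subgroup G), CritData U H → ¬ SWellFounded G

end Pool.Agent.H338.PS
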