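import Mathlib

/-!
# Elementary groups, their rank, and `𝒮`-well-foundedness: definitions

The first six definitions are those of the library module `K7.H92.WF.Defs`.
-/

set_option autoImplicit false

namespace Pool.Agent.H338.PS

open Topology Pointwise

/-- Totally disconnected locally compact second countable (Hausdorff topological) groups. -/
structure TDLCSC (G : Type) [Group G] [TopologicalSpace G] : Prop where
  isTopologicalGroup : IsTopologicalGroup G
  t2 : T2Space G
  totallyDisconnected : TotallyDisconnectedSpace G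
  locallyCompact : LocallyCompactSpace G
  secondCountable : SecondCountableTopology G

/-- `O_c(G)`, the set of compactly generated open subgroups of `G`. -/
def Oc (G : Type) [Group G] [TopologicalSpace G] : Set (Subgroup G) :=
  {H | IsOpen (H : Set G) ∧ ∃ C : Set G, IsCompact C ∧ Subgroup.closure C = H}

/-- `Res(G)`, the intersection of the open normal subgroups of `G`. -/
def Res (G : Type) [Group G] [TopologicalSpace G] : Subgroup G :=
  sInf {N | N.Normal ∧ IsOpen (N : Set G)}

/-- The class of elementary groups: the least class of t.d.l.c.s.c. groups that includes every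
profinite and every discrete t.d.l.c.s.c. group and is stable under forming t.d.l.c.s.c. extensions
and under unions of increasing chains of open subgroups. -/
inductive Elementary : (G : Type) → [Group G] → [TopologicalSpace G] → Prop
  | profinite (G : Type) [Group G] [TopologicalSpace G] (hG : TDLCSC G) (hc : CompactSpace G) :
      Elementary G
  | discrete (G : Type) [Group G] [TopologicalSpace G] (hG : TDLCSC G) (hd : DiscreteTopology G) :
      Elementary G
  | ext (G N Q : Type) [Group G] [TopologicalSpace G] [Group N] [TopologicalSpace N] [Group Q]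
      [TopologicalSpace Q] (hG : TDLCSC G) (i : N →* G) (p : G →* Q) (hi : IsClosedEmbedding i)
      (hp : IsOpenQuotientMap p) (hip : i.range = p.ker) (hN : Elementary N) (hQ : Elementary Q) :
      Elementary G
  | union (G : Type) [Group G] [TopologicalSpace G] (hG : TDLCSC G) (C : Set (Subgroup G))
      (hC : C.Nonempty) (hch : IsChain (· ≤ ·) C) (ho : ∀ H ∈ C, IsOpen (H : Set G))
      (hE : ∀ H ∈ C, Elementary H) (hU : ∀ x : G, ∃ H ∈ C, x ∈ H) : Elementary G

/-- `HasRank G α` means `ξ(G) = α`, where the rank `ξ` is defined by `ξ({1}) = 1`;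
`ξ(G) = ξ(Res(G)) + 1` if `G ≠ 1` is compactly generated; and otherwise
`ξ(G) = sup {ξ(Res(O)) : O ∈ O_c(G)} + 1`. -/
inductive HasRank : (G : Type) → [Group G] → [TopologicalSpace G] → Ordinal.{0} → Prop
  | one (G : Type) [Group G] [TopologicalSpace G] (h : Subsingleton G) : HasRank G 1
  | cg (G : Type) [Group G] [TopologicalSpace G] (h : Nontrivial G) (hc : (⊤ : Subgroup G) ∈ Oc G)
      (α : Ordinal.{0}) (hα : HasRank (Res G) α) : HasRank G (α + 1)
  | ncg (G : Type) [Group G] [TopologicalSpace G] (h : Nontrivial G)
      (hc : (⊤ : Subgroup G) ∉ Oc G) (f : Oc G → Ordinal.{0})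
      (hf : ∀ O : Oc G, HasRank (Res (O : Subgroup G)) (f O)) : HasRank G ((⨆ O, f O) + 1)

/-- `Res^ω(G)`, the smallest closed normal subgroup `N` with `G / N` elementary of finite rank. -/
def ResOmega (G : Type) [Group G] [TopologicalSpace G] : Subgroup G :=
  sInf {N | ∃ _ : N.Normal, IsClosed (N : Set G) ∧ Elementary (G ⧸ N) ∧
    ∃ α < Ordinal.omega0, HasRank (G ⧸ N) α}

/-- The class `𝒮` of nondiscrete, compactly generated, topologically simple t.d.l.c.s.c. groups. -/
def ClassS (G : Type) [Group G] [TopologicalSpace G] : Prop :=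
  TDLCSC G ∧ ¬ DiscreteTopology G ∧ (⊤ : Subgroup G) ∈ Oc G ∧
    ∀ N : Subgroup G, N.Normal → IsClosed (N : Set G) → N = ⊥ ∨ N = ⊤

/-- `H ≪ K` for subgroups `H`, `K` of a topological group `G`: `H ≤ K`, `K` is not compact, and
(a) the closure of `H Res^ω(K)` in `K` is compact modulo `Res^ω(K)`;
(b) `Res^ω(H)` is contained in every closed normal subgroup `N` of `Res^ω(K)` whose normaliser in
`K` has finite index and for which `Res^ω(K) / N` belongs to `𝒮`. -/
def LL {G : Type} [Group G] [TopologicalSpace G] (H K : Subgroup G) : Prop :=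
  H ≤ K ∧ ¬ IsCompact (K : Set G) ∧
  IsCompact ((QuotientGroup.mk : K → K ⧸ ResOmega K) ''
    closure ((H.subgroupOf K : Set K) * (ResOmega K : Set K))) ∧
  ∀ (N : Subgroup (ResOmega K)) (_ : N.Normal), IsClosed (N : Set (ResOmega K)) →
    ClassS (ResOmega K ⧸ N) →
    (Subgroup.normalizer (N.map (ResOmega K).subtype : Set K)).FiniteIndex →
    (ResOmega H).map H.subtype ≤ (N.map (ResOmega K).subtype).map K.subtype

/-- `G` is `𝒮`-well-founded: every nonempty subset of `O_c(G)` has a `≪`-minimal element. -/
def SWellFounded (G : Type) [Group G] [TopologicalSpace G] : Prop :=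
  ∀ S : Set (Subgroup G), S ⊆ Oc G → S.Nonempty → ∃ K ∈ S, ∀ H ∈ S, ¬ LL H K

/-- The class `𝒫`: nondiscrete groups that have a compact open maximal subgroup `U` such that the
intersection of the conjugates of `U` is trivial. -/
def ClassP (G : Type) [Group G] [TopologicalSpace G] : Prop :=
  ¬ DiscreteTopology G ∧ ∃ U : Subgroup G, IsOpen (U : Set G) ∧ IsCompact (U : Set G) ∧
    U ≠ ⊤ ∧ (∀ V : Subgroup G, U ≤ V → V = U ∨ V = ⊤) ∧
    ∀ x : G, (∀ g : G, g * x * g⁻¹ ∈ U) → x = 1

/-- The subgroup generated by the conjugates of `U` by the elements of `H`. -/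
def ncl {G : Type} [Group G] (U H : Subgroup G) : Subgroup G :=
  Subgroup.closure {x | ∃ h ∈ H, ∃ u ∈ U, x = h * u * h⁻¹}

end Pool.Agent.H338.PS
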