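import Pool.Agent.H338.PS.Gdef

/-!
# General facts about elementary groups and their rank
-/

set_option autoImplicit false

namespace Pool.Agent.H338.PS

open Topology Pointwise

section subgroups

variable {G : Type} [Group G] [TopologicalSpace G]

theorem TDLCSC.subgroup (h : TDLCSC G) (H : Subgroup G) (hH : IsClosed (H : Set G)) : TDLCSC H where
  isTopologicalGroup := have := h.isTopologicalGroup; inferInstance
  t2 := have := h.t2; inferInstance
  totallyDisconnected := have := h.totallyDisconnected; inferInstance
  locallyCompact := have := h.locallyCompact; hH.isClosedEmbedding_subtypeVal.locallyCompactSpace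
  secondCountable := have := h.secondCountable;
    hH.isClosedEmbedding_subtypeVal.isEmbedding.secondCountableTopology

theorem Res_closed (h : IsTopologicalGroup G) : IsClosed (Res G : Set G) := by
  rw [Res, Subgroup.coe_sInf]
  refine isClosed_biInter fun N hN => ?_
  exact Subgroup.isClosed_of_isOpen N hN.2

theorem TDLCSC.res (h : TDLCSC G) : TDLCSC (Res G) :=
  h.subgroup _ (Res_closed h.isTopologicalGroup)

instance Res_normal : (Res G).Normal := by
  constructor
  intro n hn g
  rw [Res, Subgroup.mem_sInf] at hn ⊢
  intro N hN
  exact hN.1.conj_mem n (hn N hN) g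

theorem Res_le {N : Subgroup G} (hN : N.Normal) (ho : IsOpen (N : Set G)) : Res G ≤ N :=
  sInf_le ⟨hN, ho⟩

/-- The residual of a profinite group is trivial. -/
theorem Res_compact (h : TDLCSC G) (hc : CompactSpace G) : Res G = ⊥ := by
  have := h.isTopologicalGroup
  have := h.t2
  have := h.totallyDisconnected
  rw [eq_bot_iff]
  intro x hx
  rw [Subgroup.mem_bot]
  by_contra hne
  obtain ⟨N, hN⟩ := ProfiniteGrp.exist_openNormalSubgroup_sub_open_nhds_of_one (G := G)
    (U := {x}ᶜ) isOpen_compl_singleton (by simpa using Ne.symm hne)
  have h1 : x ∈ (N : Subgroup G) := Res_le N.isNormal' N.isOpen' hx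
  exact hN h1 rfl

theorem compact_mem_Oc (hc : CompactSpace G) : (⊤ : Subgroup G) ∈ Oc G :=
  ⟨isOpen_univ, Set.univ, isCompact_univ, Subgroup.closure_univ⟩

theorem rank_compact (h : TDLCSC G) (hc : CompactSpace G) :
    ∃ α < Ordinal.omega0, HasRank G α := by
  rcases subsingleton_or_nontrivial G with h1 | h1
  · exact ⟨1, Ordinal.one_lt_omega0, HasRank.one G h1⟩
  · refine ⟨1 + 1, ?_, HasRank.cg G h1 (compact_mem_Oc hc) 1 (HasRank.one _ ?_)⟩
    · exact_mod_cast Ordinal.natCast_lt_omega0 2
    · rw [Res_compact h hc]
      infer_instance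

/-- A compactly generated group with a compact open normal subgroup is elementary of finite
rank. -/
theorem compact_by_discrete (h : TDLCSC G) (hcg : (⊤ : Subgroup G) ∈ Oc G) (C : Subgroup G)
    (hC : C.Normal) (ho : IsOpen (C : Set G)) (hc : IsCompact (C : Set G)) :
    Elementary G ∧ ∃ α < Ordinal.omega0, HasRank G α := by
  have := h.isTopologicalGroup
  have := h.t2
  have := h.totallyDisconnected
  have := h.locallyCompact
  have := h.secondCountable
  have hCc : IsClosed (C : Set G) := Subgroup.isClosed_of_isOpen C ho
  constructor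
  · have hd : DiscreteTopology (G ⧸ C) := QuotientGroup.discreteTopology ho
    have hcC : CompactSpace C := isCompact_iff_compactSpace.1 hc
    have hQ : TDLCSC (G ⧸ C) :=
      { isTopologicalGroup := inferInstance
        t2 := inferInstance
        totallyDisconnected := inferInstance
        locallyCompact := inferInstance
        secondCountable := inferInstance }
    refine Elementary.ext G C (G ⧸ C) h C.subtype (QuotientGroup.mk' C)
      hCc.isClosedEmbedding_subtypeVal QuotientGroup.isOpenQuotientMap_mk ?_
      (Elementary.profinite _ (h.subgroup C hCc) hcC) (Elementary.discrete _ hQ hd)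
    rw [QuotientGroup.ker_mk', Subgroup.range_subtype]
  · rcases subsingleton_or_nontrivial G with h1 | h1
    · exact ⟨1, Ordinal.one_lt_omega0, HasRank.one G h1⟩
    · have hR : CompactSpace (Res G) := by
        exact isCompact_iff_compactSpace.1
          (hc.of_isClosed_subset (Res_closed h.isTopologicalGroup) (Res_le hC ho))
      obtain ⟨α, hα, h2⟩ := rank_compact h.res hR
      refine ⟨α + 1, ?_, HasRank.cg G h1 hcg α h2⟩
      exact Ordinal.isSuccLimit_omega0.succ_lt hα

/-- Quotients of nonarchimedean groups are nonarchimedean. -/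
theorem quot_nonarch [NonarchimedeanGroup G] (N : Subgroup G) [hN : N.Normal] :
    NonarchimedeanGroup (G ⧸ N) where
  is_nonarchimedean U hU := by
    have h1 : (QuotientGroup.mk : G → G ⧸ N) ⁻¹' U ∈ 𝓝 (1 : G) := by
      apply QuotientGroup.continuous_mk.continuousAt.preimage_mem_nhds
      simpa using hU
    obtain ⟨V, hV⟩ := NonarchimedeanGroup.is_nonarchimedean _ h1
    refine ⟨⟨(V : Subgroup G).map (QuotientGroup.mk' N), ?_⟩, ?_⟩
    · exact QuotientGroup.isOpenMap_coe _ V.isOpen
    · rintro _ ⟨x, hx, rfl⟩
      exact hV hx

theorem quot_tdlcsc (h : TDLCSC G) (hn : NonarchimedeanGroup G) (N : Subgroup G) [hN : N.Normal]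
    (hc : IsClosed (N : Set G)) : TDLCSC (G ⧸ N) := by
  have := h.isTopologicalGroup
  have := h.t2
  have := h.totallyDisconnected
  have := h.locallyCompact
  have := h.secondCountable
  have h3 : T3Space (G ⧸ N) := QuotientGroup.instT3Space N
  have h4 : NonarchimedeanGroup (G ⧸ N) := quot_nonarch N
  have h5 : T2Space (G ⧸ N) := inferInstance
  exact
    { isTopologicalGroup := inferInstance
      t2 := inferInstance
      totallyDisconnected := inferInstance
      locallyCompact := inferInstance
      secondCountable := inferInstance }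

end subgroups

end Pool.Agent.H338.PS
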