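import Pool.Agent.H338.PS.Stm

/-!
# Generators at odd vertices (the statement `St_V`)
-/

set_option autoImplicit false

namespace Pool.Agent.H338.PS

namespace TV

variable {A : Amal}

/-- The decomposition of a vector with even sum. -/
theorem dec : ∀ x0 x1 x2 x3 : ZMod 2, x0 + x1 + x2 + x3 = 0 →
    (![x0, x1, x2, x3] : Fin 4 → ZMod 2) =
      ((![x0, 0, x0, 0] : Fin 4 → ZMod 2) ∘ (Equiv.swap 0 1 : Equiv.Perm (Fin 4)) +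
        ![x0, 0, x0, 0]) +
      ((![0, x0 + x1, 0, x0 + x1] : Fin 4 → ZMod 2) ∘ (Equiv.swap 1 2 : Equiv.Perm (Fin 4)) +
        ![0, x0 + x1, 0, x0 + x1]) +
      ((![x3, 0, x3, 0] : Fin 4 → ZMod 2) ∘ (Equiv.swap 2 3 : Equiv.Perm (Fin 4)) +
        ![x3, 0, x3, 0]) := by decide

theorem smz : ∀ x : ZMod 2, sm ![x, 0, x, 0] = 0 ∧ sm ![0, x, 0, x] = 0 := by decide

theorem conj (γ δ : A.Γ) (g : GG A) : ac (Lm A γ * g * (Lm A γ)⁻¹) δ = γ * ac g (γ⁻¹ * δ) := by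
  rw [ac_mul, ac_mul, ← Lm_inv, ac_Lm, ac_Lm]

theorem step (h1 : St_N1) (h2 : St_rig) (h3 : St_symm) (h4 : St_mem) (l : ℕ) (γ : A.Γ) (n : ℤ)
    (hT : Tr A (4 * (l : ℤ)) allZ 0 γ n) (hγ : γ⁻¹ ∈ A.TP) (f : Fin 4 → ZMod 2) (hf : sm f = 0)
    (σ : Equiv.Perm (Fin 4)) :
    Lm A (γ * A.iP (eP (f ∘ σ + f)) * γ⁻¹) ∈ ncl (G1 A) (HH A (4 * (l : ℤ))) := by
  obtain ⟨g, hg⟩ := h2 A σ
  -- the path of `λ`
  have hT1 : Tr A (4 * (l : ℤ)) allZ 0 (γ * A.iP (eP f)) n :=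
    Tr.stepP n n γ f hT (by rw [if_pos hf]) trivial
  have hT2 : Tr A (4 * (l : ℤ)) allZ 0 (γ * A.iP (eP f) * γ⁻¹) 0 :=
    hT1.trans (h3 A _ _ _ _ _ hT)
  have hmem : Lm A (γ * A.iP (eP f) * γ⁻¹) ∈ HH A (4 * (l : ℤ)) := by
    refine ((h4 A (4 * (l : ℤ)) ⟨2 * (l : ℤ), by ring⟩).1 _).2 ⟨0, ⟨0, Or.inl (by ring)⟩, ?_⟩
    rw [ac_Lm, mul_one]
    exact hT2
  have hone : ac g γ⁻¹ = γ⁻¹ := by
    have h5 := hg γ⁻¹ hγ 1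
    have h6 : ((1 : P4) ∘ σ : P4) = 1 := rfl
    rw [h6, map_one, one_mul] at h5
    exact h5
  have hG1 : Lm A γ * g * (Lm A γ)⁻¹ ∈ G1 A := by
    rw [mem_G1, conj, mul_one, hone, mul_inv_cancel]
  have h5 := h1 A (HH A (4 * (l : ℤ))) (Lm A γ * g * (Lm A γ)⁻¹) (γ * A.iP (eP f) * γ⁻¹) hG1 hmem
  have h6 : γ⁻¹ * (γ * A.iP (eP f) * γ⁻¹) = A.iP (eP f) * γ⁻¹ := by group
  have h7 : ac (Lm A γ * g * (Lm A γ)⁻¹) (γ * A.iP (eP f) * γ⁻¹) * (γ * A.iP (eP f) * γ⁻¹)⁻¹ =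
      γ * A.iP (eP (f ∘ σ + f)) * γ⁻¹ := by
    rw [conj, h6, hg γ⁻¹ hγ, eP_comp, eP_add, map_mul]
    have h8 : (A.iP (eP f))⁻¹ = A.iP (eP f) := by rw [← map_inv, eP_inv]
    calc γ * (A.iP (eP (f ∘ σ)) * γ⁻¹) * (γ * A.iP (eP f) * γ⁻¹)⁻¹
        = γ * (A.iP (eP (f ∘ σ)) * (A.iP (eP f))⁻¹) * γ⁻¹ := by group
      _ = γ * (A.iP (eP (f ∘ σ)) * A.iP (eP f)) * γ⁻¹ := by rw [h8]
  rw [h7] at h5
  exact h5

theorem add (N : Subgroup (GG A)) (γ : A.Γ) (e f : Fin 4 → ZMod 2)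
    (he : Lm A (γ * A.iP (eP e) * γ⁻¹) ∈ N) (hf : Lm A (γ * A.iP (eP f) * γ⁻¹) ∈ N) :
    Lm A (γ * A.iP (eP (e + f)) * γ⁻¹) ∈ N := by
  have h1 : γ * A.iP (eP (e + f)) * γ⁻¹ =
      (γ * A.iP (eP e) * γ⁻¹) * (γ * A.iP (eP f) * γ⁻¹) := by
    rw [eP_add, map_mul]
    group
  rw [h1, Lm_mul]
  exact N.mul_mem he hf

end TV

theorem t_V (h1 : St_N1) (h2 : St_rig) (h3 : St_symm) (h4 : St_mem) : St_V := by
  intro A l _ γ n hT hγ e he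
  have h5 : e = ![e 0, e 1, e 2, e 3] := by
    funext i
    fin_cases i <;> rfl
  have h6 := TV.dec (e 0) (e 1) (e 2) (e 3) he
  rw [← h5] at h6
  rw [h6]
  refine TV.add _ γ _ _ (TV.add _ γ _ _ ?_ ?_) ?_
  · exact TV.step h1 h2 h3 h4 l γ n hT hγ _ (TV.smz _).1 _
  · exact TV.step h1 h2 h3 h4 l γ n hT hγ _ (TV.smz _).2 _
  · exact TV.step h1 h2 h3 h4 l γ n hT hγ _ (TV.smz _).1 _

end Pool.Agent.H338.PS
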