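import Pool.Agent.H338.PS.Stm

set_option autoImplicit false

namespace Pool.Agent.H338.PS

open Topology

namespace Ttg

variable {A : Amal}

/-- the map into the product -/
def Ph (g : GG A) (γ : A.Γ) : A.Γ × A.Γ := (ac g γ, ac g⁻¹ γ)

theorem Ph_inj : Function.Injective (Ph : GG A → (A.Γ → A.Γ × A.Γ)) := by
  intro g h hgh
  apply ac_ext
  intro γ
  exact congrArg Prod.fst (congrFun hgh γ)

/-- the discrete topology -/
abbrev dt (A : Amal) : TopologicalSpace A.Γ := ⊥

theorem Ph_ind : letI : TopologicalSpace A.Γ := ⊥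
    IsInducing (Ph : GG A → (A.Γ → A.Γ × A.Γ)) := by
  letI : TopologicalSpace A.Γ := ⊥
  haveI : DiscreteTopology A.Γ := ⟨rfl⟩
  have h1 : (instTopologicalSpaceProd : TopologicalSpace (A.Γ × A.Γ)) = ⊥ :=
    (inferInstance : DiscreteTopology (A.Γ × A.Γ)).eq_bot
  constructor
  change topGG A = _
  unfold topGG
  rw [h1]
  rfl

theorem cont1 : letI : TopologicalSpace A.Γ := ⊥
    ∀ γ : A.Γ, Continuous (fun g : GG A => ac g γ) := by
  letI : TopologicalSpace A.Γ := ⊥
  intro γ
  exact continuous_fst.comp ((continuous_apply γ).comp Ph_ind.continuous)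

theorem cont2 : letI : TopologicalSpace A.Γ := ⊥
    ∀ γ : A.Γ, Continuous (fun g : GG A => ac g⁻¹ γ) := by
  letI : TopologicalSpace A.Γ := ⊥
  intro γ
  exact continuous_snd.comp ((continuous_apply γ).comp Ph_ind.continuous)

theorem cont3 : letI : TopologicalSpace A.Γ := ⊥
    Continuous (fun p : A.Γ × GG A => ac p.2 p.1) := by
  letI : TopologicalSpace A.Γ := ⊥
  haveI : DiscreteTopology A.Γ := ⟨rfl⟩
  exact continuous_prod_of_discrete_left.2 fun γ => cont1 γ

theorem cont4 : letI : TopologicalSpace A.Γ := ⊥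
    Continuous (fun p : A.Γ × GG A => ac p.2⁻¹ p.1) := by
  letI : TopologicalSpace A.Γ := ⊥
  haveI : DiscreteTopology A.Γ := ⟨rfl⟩
  exact continuous_prod_of_discrete_left.2 fun γ => cont2 γ

end Ttg

open Ttg in
theorem t_tg : St_tg := by
  intro A
  letI : TopologicalSpace A.Γ := ⊥
  haveI : DiscreteTopology A.Γ := ⟨rfl⟩
  have hind : IsInducing (Ph : GG A → (A.Γ → A.Γ × A.Γ)) := Ph_ind
  have hemb : IsEmbedding (Ph : GG A → (A.Γ → A.Γ × A.Γ)) := ⟨hind, Ph_inj⟩
  refine ⟨?_, hemb.t2Space, ?_, ?_⟩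
  · refine { continuous_mul := ?_, continuous_inv := ?_ }
    · rw [hind.continuous_iff]
      refine continuous_pi fun γ => ?_
      have c1 : Continuous (fun p : GG A × GG A => ac p.1 (ac p.2 γ)) :=
        cont3.comp (((cont1 γ).comp continuous_snd).prodMk continuous_fst)
      have c2 : Continuous (fun p : GG A × GG A => ac p.2⁻¹ (ac p.1⁻¹ γ)) :=
        cont4.comp (((cont2 γ).comp continuous_fst).prodMk continuous_snd)
      have c3 := c1.prodMk c2
      refine c3.congr fun p => ?_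
      change (ac p.1 (ac p.2 γ), ac p.2⁻¹ (ac p.1⁻¹ γ)) = (ac (p.1 * p.2) γ, ac (p.1 * p.2)⁻¹ γ)
      rw [mul_inv_rev]
      rfl
    · rw [hind.continuous_iff]
      refine continuous_pi fun γ => ?_
      have c3 := (cont2 (A := A) γ).prodMk (cont1 γ)
      refine c3.congr fun p => ?_
      change (ac p⁻¹ γ, ac p γ) = (ac p⁻¹ γ, ac p⁻¹⁻¹ γ)
      rw [inv_inv]
  · constructor
    intro t _ ht x hx y hy
    apply Ph_inj
    have h1 : IsPreconnected (Ph '' t : Set (A.Γ → A.Γ × A.Γ)) :=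
      ht.image _ hind.continuous.continuousOn
    exact h1.subsingleton ⟨x, hx, rfl⟩ ⟨y, hy, rfl⟩
  · haveI : SecondCountableTopology A.Γ := inferInstance
    exact hind.secondCountableTopology

end Pool.Agent.H338.PS
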